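import Pool.Agent.Lib.LB.Blue

/-! Block BIP: elementary duality for an open convex cone. -/

set_option autoImplicit false

open Set Filter Topology Metric
open scoped RealInnerProductSpace

noncomputable section

namespace Pool.Agent.Lib.LB.BIP

variable {V : Type} [NormedAddCommGroup V] [InnerProductSpace ℝ V]

theorem cl_nonneg {Ω : Set V} {y : V} (hy : y ∈ Kd Ω) {ζ : V} (hζ : ζ ∈ closure Ω) : 0 ≤ ⟪ζ, y⟫ := by
  have hc : IsClosed {z : V | 0 ≤ ⟪z, y⟫} :=
    isClosed_le continuous_const (continuous_id.inner continuous_const)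
  exact closure_minimal (fun z hz => hy z hz) hc hζ

theorem kd_closed (Ω : Set V) : IsClosed (Kd Ω) := by
  have h : Kd Ω = ⋂ ξ ∈ Ω, {y : V | 0 ≤ ⟪ξ, y⟫} := by
    ext y
    simp only [Kd, mem_ofPred_eq, mem_iInter]
  rw [h]
  exact isClosed_biInter fun ξ _ => isClosed_le continuous_const (continuous_const.inner continuous_id)

theorem pos_of {Ω : Set V} (h : Oc Ω) {y : V} (hy : y ∈ Kd Ω) (h0 : y ≠ 0) {ξ : V} (hξ : ξ ∈ Ω) :
    0 < ⟪ξ, y⟫ := by
  have hc : Continuous fun t : ℝ => ξ - t • y := continuous_const.sub (continuous_id.smul continuous_const)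
  have h1 : ∀ᶠ t in 𝓝 (0 : ℝ), ξ - t • y ∈ Ω := by
    apply hc.continuousAt.preimage_mem_nhds
    simp only [zero_smul, sub_zero]
    exact h.op.mem_nhds hξ
  have h2 : ∀ᶠ t in 𝓝[>] (0 : ℝ), ξ - t • y ∈ Ω ∧ 0 < t :=
    (h1.filter_mono nhdsWithin_le_nhds).and self_mem_nhdsWithin
  obtain ⟨t, ht, ht0⟩ := h2.exists
  have h3 := hy _ ht
  rw [inner_sub_left, real_inner_smul_left] at h3
  have h4 : 0 < ⟪y, y⟫ := real_inner_self_pos.2 h0
  have h5 := mul_pos ht0 h4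
  linarith

theorem add_mem {Ω : Set V} (h : Oc Ω) {ζ ξ : V} (hζ : ζ ∈ closure Ω) (hξ : ξ ∈ Ω) : ζ + ξ ∈ Ω := by
  have h1 : ξ ∈ interior Ω := by rwa [h.op.interior_eq]
  have h2 := h.cv.combo_closure_interior_mem_interior hζ h1 (a := 1 / 2) (b := 1 / 2)
    (by norm_num) (by norm_num) (by norm_num)
  have h3 := h.sc _ (interior_subset h2) 2 (by norm_num)
  have h4 : (2 : ℝ) • ((1 / 2 : ℝ) • ζ + (1 / 2 : ℝ) • ξ) = ζ + ξ := by
    rw [smul_add, smul_smul, smul_smul]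
    norm_num
  rwa [h4] at h3

theorem wd_iff {Ω : Set V} (h : Oc Ω) (y : V) : y ∈ Wd Ω ↔ y ∉ Kd Ω ∧ -y ∉ Kd Ω := by
  constructor
  · rintro ⟨h0, ξ, hξ, he⟩
    refine ⟨fun hy => ?_, fun hy => ?_⟩
    · have := pos_of h hy h0 hξ
      linarith
    · have := pos_of h hy (neg_ne_zero.2 h0) hξ
      rw [inner_neg_right] at this
      linarith
  · rintro ⟨h1, h2⟩
    simp only [Kd, mem_ofPred_eq, not_forall, not_le] at h1 h2
    obtain ⟨a, ha, ha'⟩ := h1
    obtain ⟨b, hb, hb'⟩ := h2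
    rw [inner_neg_right] at hb'
    have hb'' : 0 < ⟪b, y⟫ := by linarith
    refine ⟨?_, ⟪b, y⟫ • a + (-⟪a, y⟫) • b, ?_, ?_⟩
    · rintro rfl
      simp at ha'
    · exact add_mem h (subset_closure (h.sc a ha _ hb'')) (h.sc b hb _ (by linarith))
    · rw [inner_add_left, real_inner_smul_left, real_inner_smul_left]
      ring

theorem wd_open {Ω : Set V} (h : Oc Ω) : IsOpen (Wd Ω) := by
  have e : Wd Ω = (Kd Ω)ᶜ ∩ ((fun y : V => -y) ⁻¹' Kd Ω)ᶜ := by
    ext y
    rw [wd_iff h]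
    rfl
  rw [e]
  exact (kd_closed Ω).isOpen_compl.inter ((kd_closed Ω).preimage continuous_neg).isOpen_compl

variable [FiniteDimensional ℝ V]

theorem rep (f : StrongDual ℝ V) : ∃ y : V, ∀ x, ⟪x, y⟫ = f x := by
  have : CompleteSpace V := FiniteDimensional.complete ℝ V
  refine ⟨(InnerProductSpace.toDual ℝ V).symm f, fun x => ?_⟩
  rw [real_inner_comm]
  exact InnerProductSpace.toDual_symm_apply

theorem ex_ne {Ω : Set V} (h : Oc Ω) (hn : Ω.Nonempty) : ∃ y ∈ Kd Ω, y ≠ 0 := by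
  obtain ⟨f, hf⟩ := geometric_hahn_banach_open_point h.cv h.op (x := (0 : V)) (fun h0 => h.nz 0 h0 rfl)
  obtain ⟨y, hy⟩ := rep f
  obtain ⟨a, ha⟩ := hn
  refine ⟨-y, fun ξ hξ => ?_, fun h0 => ?_⟩
  · have := hf ξ hξ
    rw [map_zero] at this
    rw [inner_neg_right, hy]
    linarith
  · have h1 := hf a ha
    rw [map_zero, ← hy, neg_eq_zero.1 h0, inner_zero_right] at h1
    exact lt_irrefl _ h1

theorem mem_cl {Ω : Set V} (h : Oc Ω) (hn : Ω.Nonempty) {ξ : V} (hξ : ∀ y ∈ Kd Ω, 0 ≤ ⟪ξ, y⟫) :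
    ξ ∈ closure Ω := by
  by_contra hc
  obtain ⟨f, u, hu, hf⟩ := geometric_hahn_banach_point_closed h.cv.closure isClosed_closure hc
  obtain ⟨y, hy⟩ := rep f
  have key : ∀ b ∈ Ω, ∀ t : ℝ, 0 < t → u < t * f b := fun b hb t ht => by
    have := hf _ (subset_closure (h.sc b hb t ht))
    rwa [map_smul, smul_eq_mul] at this
  have hK : y ∈ Kd Ω := fun b hb => by
    rw [hy]
    by_contra hneg
    have hneg' : f b < 0 := not_le.1 hneg
    have h1 := key b hb ((|u| + 1) / (-f b)) (div_pos (by positivity) (by linarith))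
    have h2 : (|u| + 1) / (-f b) * f b = -(|u| + 1) := by
      have : f b ≠ 0 := hneg'.ne
      field_simp
    rw [h2] at h1
    have := neg_abs_le u
    linarith
  have hu0 : u ≤ 0 := by
    obtain ⟨a, ha⟩ := hn
    by_contra hpos
    have hpos' : 0 < u := not_le.1 hpos
    have h1 := key a ha (u / (|f a| + 1)) (div_pos hpos' (by positivity))
    have h2 : u / (|f a| + 1) * f a ≤ u / (|f a| + 1) * (|f a| + 1) :=
      mul_le_mul_of_nonneg_left (by linarith [le_abs_self (f a)]) (by positivity)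
    have h3 : u / (|f a| + 1) * (|f a| + 1) = u := by
      have : |f a| + 1 ≠ 0 := by positivity
      field_simp
    linarith
  have h4 := hξ y hK
  rw [hy] at h4
  linarith

end Pool.Agent.Lib.LB.BIP

namespace Pool.Agent.Lib.LB

theorem bBIP : St_BIP := by
  intro V _ _ _ Ω h hn
  exact ⟨BIP.ex_ne h hn, fun ξ => ⟨fun hξ y hy => BIP.cl_nonneg hy hξ, fun hξ => BIP.mem_cl h hn hξ⟩,
    BIP.wd_iff h, fun y hy h0 ξ hξ => BIP.pos_of h hy h0 hξ, fun ζ hζ ξ hξ => BIP.add_mem h hζ hξ,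
    BIP.wd_open h, BIP.kd_closed Ω, fun y hy ζ hζ => BIP.cl_nonneg hy hζ⟩

end Pool.Agent.Lib.LB
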