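import Pool.Agent.Lib.LB.Blue

/-! Local Banach problem: configurations of hyperplanes in general position. -/

set_option autoImplicit false

open Set Filter Topology Metric Module
open scoped RealInnerProductSpace

noncomputable section

namespace Pool.Agent.Lib.LB

namespace CFG

variable {E : Type} [NormedAddCommGroup E] [InnerProductSpace ℝ E]

/-- General position of the first `s` terms of a sequence. -/
def Gq (O : Set E) (s : ℕ) (μ : ℕ → E) : Prop :=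
  (∀ i < s, μ i ≠ 0 ∧ ∃ x ∈ O, ⟪μ i, x⟫ = 0) ∧
    ∀ i < s, ∀ j < s, i ≠ j → ∀ c : ℝ, μ i ≠ c • μ j

theorem Gq.gp {O : Set E} {s t : ℕ} {μ : ℕ → E} (h : Gq O s μ) (ht : t ≤ s) :
    Gp O fun j : Fin t => μ j :=
  ⟨fun i => (h.1 i (i.2.trans_le ht)).1, fun i => (h.1 i (i.2.trans_le ht)).2,
    fun i j hij => h.2 i (i.2.trans_le ht) j (j.2.trans_le ht) fun e => hij (Fin.ext e)⟩

theorem Gq.congr {O : Set E} {s : ℕ} {μ ν : ℕ → E} (h : Gq O s μ) (e : ∀ i < s, ν i = μ i) :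
    Gq O s ν :=
  ⟨fun i hi => by rw [e i hi]; exact h.1 i hi,
    fun i hi j hj hij => by rw [e i hi, e j hj]; exact h.2 i hi j hj hij⟩

theorem open_perp {O : Set E} (hO : IsOpen O) :
    IsOpen {μ : E | μ ≠ 0 ∧ ∃ x ∈ O, ⟪μ, x⟫ = 0} := by
  refine isOpen_iff_mem_nhds.2 fun μ ⟨h0, x, hx, hp⟩ => ?_
  have hμ : ⟪μ, μ⟫ ≠ 0 := fun h => h0 (inner_self_eq_zero.1 h)
  have c1 : ContinuousAt (fun ν : E => ⟪ν, μ⟫) μ := by fun_prop
  have c2 : ContinuousAt (fun ν : E => x - (⟪ν, x⟫ / ⟪ν, μ⟫) • μ) μ :=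
    continuousAt_const.sub ((ContinuousAt.div (by fun_prop) c1 hμ).smul continuousAt_const)
  have e2 : x - (⟪μ, x⟫ / ⟪μ, μ⟫) • μ ∈ O := by simpa [hp] using hx
  filter_upwards [c1.eventually_ne hμ, c2.eventually (hO.mem_nhds e2),
    isOpen_ne.mem_nhds h0] with ν h1 h2 h3
  refine ⟨h3, _, h2, ?_⟩
  rw [inner_sub_right, inner_smul_right, div_mul_cancel₀ _ h1, sub_self]

theorem ind_iff {a b : E} (hb : b ≠ 0) :
    (∀ c : ℝ, a ≠ c • b) ↔ ⟪a, b⟫ ^ 2 ≠ ⟪a, a⟫ * ⟪b, b⟫ := by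
  have hbb : ⟪b, b⟫ ≠ 0 := fun h => hb (inner_self_eq_zero.1 h)
  constructor
  · intro h e
    refine h (⟪a, b⟫ / ⟪b, b⟫) (sub_eq_zero.1 (inner_self_eq_zero (𝕜 := ℝ).1 ?_))
    simp only [inner_sub_left, inner_sub_right, real_inner_smul_left, real_inner_smul_right,
      real_inner_comm a b]
    field_simp
    linarith
  · rintro h c rfl
    apply h
    simp only [real_inner_smul_left, real_inner_smul_right]
    ring

theorem ev_gq {O : Set E} (hO : IsOpen O) {s : ℕ} {l : ℕ → E} (h : Gq O s fun j => 0 - l j) :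
    ∀ᶠ m in 𝓝 (0 : E), Gq O s fun j => m - l j := by
  have h1 : ∀ᶠ m in 𝓝 (0 : E), ∀ i ∈ Finset.range s, m - l i ≠ 0 ∧ ∃ x ∈ O, ⟪m - l i, x⟫ = 0 := by
    refine (Finset.eventually_all _).2 fun i hi => ?_
    have c : ContinuousAt (fun m : E => m - l i) 0 := by fun_prop
    exact c.eventually ((open_perp hO).mem_nhds (h.1 i (Finset.mem_range.1 hi)))
  have h2 : ∀ᶠ m in 𝓝 (0 : E), ∀ i ∈ Finset.range s, ∀ j ∈ Finset.range s, i ≠ j →
      ⟪m - l i, m - l j⟫ ^ 2 - ⟪m - l i, m - l i⟫ * ⟪m - l j, m - l j⟫ ≠ 0 := by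
    refine (Finset.eventually_all _).2 fun i hi => (Finset.eventually_all _).2 fun j hj => ?_
    by_cases hij : i = j
    · exact Eventually.of_forall fun m h => (h hij).elim
    have c : ContinuousAt (fun m : E =>
        ⟪m - l i, m - l j⟫ ^ 2 - ⟪m - l i, m - l i⟫ * ⟪m - l j, m - l j⟫) 0 := by fun_prop
    have e := (ind_iff (h.1 j (Finset.mem_range.1 hj)).1).1
      (h.2 i (Finset.mem_range.1 hi) j (Finset.mem_range.1 hj) hij)
    exact (c.eventually_ne (sub_ne_zero.2 e)).mono fun m hm _ => hm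
  filter_upwards [h1, h2] with m a b
  exact ⟨fun i hi => a i (Finset.mem_range.2 hi), fun i hi j hj hij =>
    (ind_iff (a j (Finset.mem_range.2 hj)).1).2
      (sub_ne_zero.1 (b i (Finset.mem_range.2 hi) j (Finset.mem_range.2 hj) hij))⟩

variable [FiniteDimensional ℝ E]

theorem line_ne (h : 3 ≤ finrank ℝ E) (b : E) : (ℝ ∙ b) ≠ ⊤ := fun e => by
  have h1 : finrank ℝ (ℝ ∙ b) ≤ 1 := by
    have h2 := finrank_span_finset_le_card (R := ℝ) ({b} : Finset E)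
    rw [Finset.coe_singleton, Finset.card_singleton] at h2
    exact h2
  rw [e, finrank_top] at h1
  omega

theorem ex_perp (h : 3 ≤ finrank ℝ E) (b : E) : ∃ μ : E, μ ≠ 0 ∧ ⟪μ, b⟫ = 0 := by
  obtain ⟨μ, h1, h2⟩ := (Submodule.ne_bot_iff _).1
    fun e => line_ne h b (Submodule.orthogonal_eq_bot_iff.1 e)
  exact ⟨μ, h2, Submodule.mem_orthogonal_singleton_iff_inner_left.1 h1⟩

theorem ex_next (h : 3 ≤ finrank ℝ E) {x0 : E} {O G : Set E} {ρ : ℝ} (hO : IsOpen O) (hx : x0 ∈ O)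
    (hρ : 0 < ρ) (hG : ball (0 : E) ρ ⊆ closure G) (s : ℕ) (l : ℕ → E) {ε : ℝ} (hε : 0 < ε) :
    ∃ a ∈ G, ‖a‖ < ε ∧ (a ≠ 0 ∧ ∃ x ∈ O, ⟪a, x⟫ = 0) ∧ ∀ j < s, ∀ c : ℝ, a ≠ c • l j := by
  have : CompleteSpace E := FiniteDimensional.complete ℝ E
  have o1 : ∀ j, IsOpen ((ℝ ∙ l j : Submodule ℝ E) : Set E)ᶜ :=
    fun j => (Submodule.closed_of_finiteDimensional _).isOpen_compl
  have d1 : ∀ j, Dense ((ℝ ∙ l j : Submodule ℝ E) : Set E)ᶜ := fun j =>
    interior_eq_empty_iff_dense_compl.1 (not_nonempty_iff_eq_empty.1 fun e =>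
      line_ne h _ (Submodule.eq_top_of_nonempty_interior' _ e))
  have o2 : IsOpen (⋂ j : Fin s, ((ℝ ∙ l j : Submodule ℝ E) : Set E)ᶜ) :=
    isOpen_iInter_of_finite fun j => o1 j
  have d2 : Dense (⋂ j : Fin s, ((ℝ ∙ l j : Submodule ℝ E) : Set E)ᶜ) :=
    dense_iInter_of_isOpen (fun j => o1 j) fun j => d1 j
  have o3 : IsOpen (ball (0 : E) (min ε ρ) ∩ {μ : E | μ ≠ 0 ∧ ∃ x ∈ O, ⟪μ, x⟫ = 0}) :=
    isOpen_ball.inter (open_perp hO)
  have n3 : (ball (0 : E) (min ε ρ) ∩ {μ : E | μ ≠ 0 ∧ ∃ x ∈ O, ⟪μ, x⟫ = 0}).Nonempty := by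
    obtain ⟨μ, h1, h2⟩ := ex_perp h x0
    have hm : 0 < min ε ρ := lt_min hε hρ
    have hn : 0 < ‖μ‖ := norm_pos_iff.2 h1
    have ht : 0 < min ε ρ / 2 / ‖μ‖ := by positivity
    refine ⟨(min ε ρ / 2 / ‖μ‖) • μ, ?_, smul_ne_zero ht.ne' h1, x0, hx, ?_⟩
    · rw [mem_ball_zero_iff, norm_smul, Real.norm_of_nonneg ht.le, div_mul_cancel₀ _ hn.ne']
      linarith
    · rw [real_inner_smul_left, h2, mul_zero]
  obtain ⟨b, hb, hb'⟩ := d2.inter_open_nonempty _ o3 n3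
  obtain ⟨a, ⟨⟨a1, a2⟩, a3⟩, a4⟩ := mem_closure_iff.1
    (hG (ball_subset_ball (min_le_right _ _) hb.1)) _ (o3.inter o2) ⟨hb, hb'⟩
  refine ⟨a, a4, (mem_ball_zero_iff.1 a1).trans_le (min_le_left _ _), a2, fun j hj c e => ?_⟩
  exact mem_iInter.1 a3 ⟨j, hj⟩ (Submodule.mem_span_singleton.2 ⟨c, e.symm⟩)

theorem ex_seq (h : 3 ≤ finrank ℝ E) {x0 : E} {O G : Set E} {ρ : ℝ} (hO : IsOpen O) (hx : x0 ∈ O)
    (hρ : 0 < ρ) (hG : ball (0 : E) ρ ⊆ closure G) (s : ℕ) : ∃ l : ℕ → E, (∀ i, l i ∈ G) ∧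
      (∀ i < s, Gq O i fun j => l i - l j) ∧ Gq O s fun j => 0 - l j := by
  induction s with
  | zero =>
    obtain ⟨a, ha, -⟩ := ex_next h hO hx hρ hG 0 (fun _ => 0) one_pos
    exact ⟨fun _ => a, fun _ => ha, fun i hi => by omega, fun i hi => by omega,
      fun i hi => by omega⟩
  | succ s ih =>
    obtain ⟨l, l1, l2, l3⟩ := ih
    obtain ⟨ε, hε, he⟩ := Metric.eventually_nhds_iff.1 (ev_gq hO l3)
    obtain ⟨a, a1, a2, ⟨a3, x, a4, a5⟩, a6⟩ := ex_next h hO hx hρ hG s l hε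
    have u1 : ∀ i < s, Function.update l s a i = l i := fun i hi => Function.update_of_ne hi.ne _ _
    have u2 : Function.update l s a s = a := Function.update_self _ _ _
    refine ⟨Function.update l s a, fun i => ?_, fun i hi => ?_, fun i hi => ?_,
      fun i hi j hj hij c e => ?_⟩
    · by_cases hi : i = s
      · rw [hi, u2]; exact a1
      · rw [Function.update_of_ne hi]; exact l1 i
    · rcases (Nat.lt_succ_iff.1 hi).lt_or_eq with hi | rfl
      · exact (l2 i hi).congr fun j hj => by rw [u1 i hi, u1 j (hj.trans hi)]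
      · exact (he (by rwa [dist_zero_right])).congr fun j hj => by rw [u2, u1 j hj]
    · rcases (Nat.lt_succ_iff.1 hi).lt_or_eq with hi | rfl
      · simp only [u1 i hi]; exact l3.1 i hi
      · simp only [u2, zero_sub]
        exact ⟨neg_ne_zero.2 a3, x, a4, by rw [inner_neg_left, a5, neg_zero]⟩
    · rcases (Nat.lt_succ_iff.1 hi).lt_or_eq with hi | rfl
      · rcases (Nat.lt_succ_iff.1 hj).lt_or_eq with hj | rfl
        · simp only [u1 i hi, u1 j hj] at e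
          exact l3.2 i hi j hj hij c e
        · simp only [u1 i hi, u2, zero_sub, smul_neg, neg_inj] at e
          have h0 : l i ≠ 0 := fun h0 => (l3.1 i hi).1 (by simp [h0])
          have hc : c ≠ 0 := fun hc => h0 (by rw [e, hc, zero_smul])
          exact a6 i hi c⁻¹ (by rw [e, smul_smul, inv_mul_cancel₀ hc, one_smul])
      · rcases (Nat.lt_succ_iff.1 hj).lt_or_eq with hj | rfl
        · simp only [u1 j hj, u2, zero_sub, smul_neg, neg_inj] at e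
          exact a6 j hj c e
        · exact hij rfl

end CFG

theorem bCFG : St_CFG := by
  intro E _ _ _ x0 O G ρ s h hO hx hρ hG
  obtain ⟨l, l1, l2, l3⟩ := CFG.ex_seq h hO hx hρ hG (s + 1)
  obtain ⟨ε, hε, he⟩ := Metric.eventually_nhds_iff.1 (CFG.ev_gq hO l3)
  exact ⟨l, ε, hε, l1, fun i hi => (l2 i (Nat.lt_succ_of_le hi)).gp le_rfl,
    fun m hm => (he (by rwa [dist_zero_right])).gp (Nat.le_succ s)⟩

end Pool.Agent.Lib.LB
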