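import Pool.Agent.Lib.LB.Basic

/-! Local Banach problem: kernels of singular limits propagate along the boundary. -/

set_option autoImplicit false

open Set Filter Topology Metric Module
open scoped RealInnerProductSpace ContDiff NNReal

noncomputable section

namespace Pool.Agent.Lib.LB

namespace CL

variable {V : Type} [NormedAddCommGroup V] [InnerProductSpace ℝ V]

theorem ker_perp {Φ : Seminorm ℝ V} {ξ0 ζ z : V} {H : V → V →L[ℝ] V} {Ω : Set V} {π : V →L[ℝ] V}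
    (h0 : ξ0 ≠ 0) (hζ : ζ ≠ 0) (hc : Cp Φ ξ0 H Ω ζ π) (hz : π z = 0) : ⟪ζ, z⟫ = 0 := by
  have hn : ⟪ζ, ζ⟫ ≠ 0 := fun h => hζ (inner_self_eq_zero.1 h)
  have h1 := hc.Hp (z - (⟪ζ, z⟫ / ⟪ζ, ζ⟫) • ζ) (by
    rw [inner_sub_right, inner_smul_right, div_mul_cancel₀ _ hn, sub_self])
  rw [map_sub, hz, map_smul, hc.H0, zero_sub, inner_neg_right, inner_smul_right, neg_eq_zero] at h1
  rcases mul_eq_zero.1 h1 with h | h
  · exact (div_eq_zero_iff.1 h).resolve_right hn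
  · exact absurd (inner_self_eq_zero.1 h) h0

theorem ker_ne [FiniteDimensional ℝ V] {π : V →L[ℝ] V} (hu : ¬IsUnit π) : ∃ w, w ≠ 0 ∧ π w = 0 := by
  by_contra hn
  have inj : Function.Injective π :=
    (injective_iff_map_eq_zero π).2 fun w hw => by_contra fun h => hn ⟨w, h, hw⟩
  have := FiniteDimensional.complete ℝ V
  exact hu (ContinuousLinearMap.isUnit_iff_bijective.2
    ⟨inj, LinearMap.surjective_of_injective (f := (π : V →ₗ[ℝ] V)) inj⟩)

end CL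

theorem bCL (hB : St_BIP) (hL : St_LIM) (hLB : St_LB) : St_CL := by
  intro V _ _ _ Φ ξ0 H Ω h3 hΦ hc ζ π hg
  obtain ⟨-, -, b3, b4, b5, -⟩ := hB V Ω hc.oc ⟨ξ0, hc.mem⟩
  obtain ⟨-, hζ, cp⟩ := (hL V Φ ξ0 H Ω hc).1 ζ π hg
  have h0 : ξ0 ≠ 0 := hc.oc.nz ξ0 hc.mem
  have := FiniteDimensional.complete ℝ V
  refine ⟨fun hu => ?_, fun z hz z0 pz ξ hξ xz hx => ?_⟩
  · obtain ⟨w, w0, pw⟩ := CL.ker_ne hu
    have wp := CL.ker_perp h0 hζ cp pw
    have nw : w ∉ Wd Ω := by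
      rintro ⟨-, ξ, hξ, h⟩
      have h1 := cp.t1 ξ hξ w h wp
      rw [pw, map_zero] at h1
      have h2 := hΦ _ h1.symm
      exact w0 ((injective_iff_map_eq_zero (H ξ)).1
        (ContinuousLinearMap.isUnit_iff_bijective.1 (hc.un ξ hξ)).1 w h2)
    by_cases h : w ∈ Kd Ω
    · exact ⟨w, h, w0, wp, pw⟩
    · refine ⟨-w, by_contra fun h' => nw ((b3 w).2 ⟨h, h'⟩), neg_ne_zero.2 w0, ?_, ?_⟩
      · rw [inner_neg_right, wp, neg_zero]
      · rw [map_neg, pw, neg_zero]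
  · have zp := CL.ker_perp h0 hζ cp pz
    obtain ⟨y, yp, yn⟩ := exists_neg hx
    have hA : 0 < ⟪ξ0, z⟫ := b4 z hz z0 ξ0 hc.mem
    have hB1 : 0 < |⟪ξ0, y⟫| + 1 := by positivity
    obtain ⟨s, -, hs, s0⟩ := exists_seq_strictAnti_tendsto' (div_pos hA hB1)
    have den : ∀ n, 0 < ⟪ξ0, z⟫ + s n * ⟪ξ0, y⟫ := fun n => by
      have h1 := (lt_div_iff₀ hB1).1 (hs n).2
      have h2 := mul_le_mul_of_nonneg_left (neg_abs_le ⟪ξ0, y⟫) (hs n).1.le
      linarith [(hs n).1]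
    set c : ℕ → ℝ := fun n => -(s n * ⟪ξ, y⟫) / (⟪ξ0, z⟫ + s n * ⟪ξ0, y⟫) with hcdef
    have cpos : ∀ n, 0 < c n := fun n =>
      div_pos (neg_pos.2 (mul_neg_of_pos_of_neg (hs n).1 yn)) (den n)
    have c0 : Tendsto c atTop (𝓝 0) := by
      have h1 := ((s0.mul_const ⟪ξ, y⟫).neg).div ((s0.mul_const ⟪ξ0, y⟫).const_add ⟪ξ0, z⟫)
        (by simpa using hA.ne')
      rw [zero_mul, neg_zero, zero_div] at h1
      exact h1
    have mem : ∀ n, ξ + c n • ξ0 ∈ Ω := fun n => b5 ξ hξ _ (hc.oc.sc ξ0 hc.mem _ (cpos n))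
    have per : ∀ n, ⟪ξ + c n • ξ0, z + s n • y⟫ = 0 := fun n => by
      have h1 : c n * (⟪ξ0, z⟫ + s n * ⟪ξ0, y⟫) = -(s n * ⟪ξ, y⟫) := div_mul_cancel₀ _ (den n).ne'
      rw [inner_add_left, real_inner_smul_left, inner_add_right, inner_add_right, inner_smul_right,
        inner_smul_right, xz, h1]
      ring
    have val : ∀ n, Φ (H (ξ + c n • ξ0) (z + s n • y)) = s n * Φ (π y) := fun n => by
      rw [← cp.t1 _ (mem n) _ (per n) (by rw [inner_add_right, inner_smul_right, zp, yp]; ring),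
        map_add, pz, zero_add, map_smul, map_smul_eq_mul, Real.norm_eq_abs, abs_of_pos (hs n).1]
    have lim : Tendsto (fun n => ξ + c n • ξ0) atTop (𝓝 ξ) := by
      simpa using (c0.smul_const ξ0).const_add ξ
    obtain ⟨π', φ, hφ, hp, hg'⟩ := (hLB V Φ ξ0 H Ω h3 hΦ hc).1 (fun n => ξ + c n • ξ0)
      (fun n => H (ξ + c n • ξ0)) ξ (fun n => subset_closure ⟨_, mem n, rfl⟩) lim
      (fun h => hx 0 (by rw [h, zero_smul]))
    refine ⟨π', hg', hΦ _ ?_⟩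
    have s1 : Tendsto (fun n => s (φ n)) atTop (𝓝 0) := s0.comp hφ.tendsto_atTop
    have x1 : Tendsto (fun n => z + s (φ n) • y) atTop (𝓝 z) := by
      simpa using (s1.smul_const y).const_add z
    have a1 : Tendsto (fun n => H (ξ + c (φ n) • ξ0) (z + s (φ n) • y)) atTop (𝓝 (π' z)) :=
      (isBoundedBilinearMap_apply.continuous.tendsto (π', z)).comp (hp.prodMk_nhds x1)
    have a2 := ((snm_cont Φ).tendsto _).comp a1
    have a3 : Tendsto (fun n => Φ (H (ξ + c (φ n) • ξ0) (z + s (φ n) • y))) atTop (𝓝 0) := by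
      simp only [val]
      simpa using s1.mul_const (Φ (π y))
    exact tendsto_nhds_unique a2 a3

end Pool.Agent.Lib.LB
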