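import Pool.Agent.Lib.LB.Basic

/-! Row CY1: the cylinder direction works on a uniform cone. -/

set_option autoImplicit false

open Set Filter Topology Metric

noncomputable section

namespace Pool.Agent.Lib.LB

universe u v

namespace CY1

variable {E : Type u} {V : Type v} [NormedAddCommGroup E] [NormedSpace ℝ E] [NormedAddCommGroup V]
  [NormedSpace ℝ V]

lemma shear {S : E →L[ℝ] V} {l : E →L[ℝ] ℝ} {u x : E} {δ : ℝ} (hδ : δ ≠ 0) (h2 : |δ * l u| < 2)
    (hx : l x = 1) (h : ∀ y, ‖S (y - (δ * l y) • u)‖ = ‖S y‖) : S u = 0 := by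
  by_contra hu
  have hu' : 0 < ‖S u‖ := norm_pos_iff.2 hu
  have h1 := h u
  rw [show u - (δ * l u) • u = (1 - δ * l u) • u by module, map_smul, norm_smul, Real.norm_eq_abs,
    mul_eq_right₀ hu'.ne'] at h1
  have h3 : l u = 0 := by
    have := abs_lt.1 h2
    rcases (abs_eq zero_le_one).1 h1 with h4 | h4
    · exact (mul_eq_zero.1 (by linarith)).resolve_left hδ
    · linarith
  have h4 : ∀ k : ℕ, ‖S (x - ((k : ℝ) * δ) • u)‖ = ‖S x‖ := fun k => by
    induction k with
    | zero => simp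
    | succ k ih =>
      rw [← ih, ← h (x - ((k : ℝ) * δ) • u)]
      simp only [map_sub l, map_smul l, hx, h3, smul_zero, sub_zero, mul_one]
      congr 2
      push_cast
      module
  obtain ⟨k, hk⟩ := exists_nat_gt (2 * ‖S x‖ / (|δ| * ‖S u‖))
  have h5 := h4 k
  rw [map_sub, map_smul] at h5
  have h6 := norm_sub_norm_le (((k : ℝ) * δ) • S u) (S x)
  rw [norm_sub_rev, h5, norm_smul, Real.norm_eq_abs, abs_mul, Nat.abs_cast] at h6
  rw [div_lt_iff₀ (mul_pos (abs_pos.2 hδ) hu')] at hk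
  linarith

end CY1

open CY1 in
theorem bCY1 : St_CY1.{u, v} := by
  intro E V _ _ _ _ T r H z hz x hx
  have hx0 : 0 < ‖x‖ := norm_pos_iff.2 fun h => by
    rw [h, norm_zero, mul_zero] at hx
    exact absurd hx (not_lt.2 (norm_nonneg z))
  by_cases hz0 : z = 0
  · rw [hz0, add_zero]
  obtain ⟨l0, hl1, hl2⟩ := exists_dual_vector ℝ x hx0.ne'
  obtain ⟨l, hlx, hl⟩ : ∃ l : E →L[ℝ] ℝ, l x = 1 ∧ ∀ y, |l y| ≤ ‖x‖⁻¹ * ‖y‖ := by
    refine ⟨‖x‖⁻¹ • l0, by simp [hl2, hx0.ne'], fun y => ?_⟩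
    have := l0.le_opNorm y
    rw [hl1, one_mul, Real.norm_eq_abs] at this
    rw [smul_apply, smul_eq_mul, abs_mul, abs_of_pos (inv_pos.2 hx0)]
    exact mul_le_mul_of_nonneg_left this (inv_pos.2 hx0).le
  set S : ℝ → E →L[ℝ] V := fun s => T + s • l.smulRight z with hS
  have hSy : ∀ s y, S s y = T y + (s * l y) • z := fun s y => by simp [hS, smul_smul]
  have hSS : ∀ s s' y, S s' y = S s y + ((s' - s) * l y) • z := fun s s' y => by
    rw [hSy, hSy]; module
  have hr : ∀ s ∈ Icc (0 : ℝ) 1, ‖S s - T‖ < r := fun s hs => by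
    refine lt_of_le_of_lt (ContinuousLinearMap.opNorm_le_bound _ (M := ‖x‖⁻¹ * ‖z‖)
      (by positivity) fun y => ?_) (by rwa [inv_mul_lt_iff₀ hx0, mul_comm])
    rw [sub_apply, hSy, add_sub_cancel_left, norm_smul, Real.norm_eq_abs,
      abs_mul, abs_of_nonneg hs.1, mul_right_comm ‖x‖⁻¹]
    exact mul_le_mul_of_nonneg_right ((mul_le_of_le_one_left (abs_nonneg _) hs.2).trans (hl y))
      (norm_nonneg z)
  have hT : Function.Injective T := by simpa [hS] using (H _ (hr 0 ⟨le_rfl, zero_le_one⟩)).1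
  have hzT : ∀ s y, S s y ≠ z := fun s y h => by
    have h1 : T y = (1 - s * l y) • z := by
      rw [sub_smul, one_smul, eq_sub_iff_add_eq, ← hSy, h]
    have h2 : T y = 0 := Cz.eq_zero (h1 ▸ hz.smul _)
    rw [hT (h2.trans (map_zero T).symm), map_zero] at h
    exact hz0 h.symm
  have key : Icc (0 : ℝ) 1 ⊆ {s | Cz (S s) z ∧ ∀ y, ‖S s y‖ = ‖T y‖} := by
    refine IsClosed.Icc_subset_of_forall_exists_gt (isClosed_of_closure_subset fun s hs => ?_)
      ⟨by simpa [hS] using hz, fun y => by simp [hS]⟩ ?_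
    · have hI : s ∈ Icc (0 : ℝ) 1 := isClosed_Icc.closure_subset (closure_mono inter_subset_right hs)
      have hN : ∀ y, ‖S s y‖ = ‖T y‖ := fun y => by
        have hc : IsClosed {s : ℝ | ‖T y + (s * l y) • z‖ = ‖T y‖} :=
          isClosed_eq (by fun_prop) continuous_const
        rw [hSy]
        exact hc.closure_subset (closure_mono (fun s' hs' => by
          simpa only [mem_ofPred_eq, ← hSy] using hs'.1.2 y) hs)
      refine ⟨⟨?_, hN⟩, hI⟩
      obtain ⟨u, ε, hε, hu⟩ := (H _ (hr s hI)).2 z (hzT s)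
      obtain ⟨s', ⟨⟨h1, h2⟩, -⟩, h3⟩ := Metric.mem_closure_iff.1 hs
        (‖x‖ * min (ε / 2) (1 / (2 * ‖u‖ + 1))) (by positivity)
      by_cases e : s' - s = 0
      · rwa [← sub_eq_zero.1 e]
      have h4 : ∀ y, |(s' - s) * l y| ≤ min (ε / 2) (1 / (2 * ‖u‖ + 1)) * ‖y‖ := fun y => by
        rw [abs_mul, abs_sub_comm, ← Real.dist_eq]
        refine (mul_le_mul h3.le (hl y) (abs_nonneg _) (by positivity)).trans (le_of_eq ?_)
        field_simp
      have h5 : ∀ y, |(s' - s) * l y| * ‖u‖ ≤ ‖y‖ / 2 := fun y => by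
        have h6 := (h4 y).trans (mul_le_mul_of_nonneg_right (min_le_right _ _) (norm_nonneg y))
        rw [one_div, inv_mul_eq_div, le_div_iff₀ (by positivity)] at h6
        linarith [abs_nonneg ((s' - s) * l y)]
      have h6 : S s u = 0 := shear e (l := l) (x := x) (by
        have h6 := (h4 u).trans (mul_le_mul_of_nonneg_right (min_le_right _ _) (norm_nonneg u))
        rw [one_div, inv_mul_eq_div, le_div_iff₀ (by positivity)] at h6
        nlinarith [abs_nonneg ((s' - s) * l u), norm_nonneg u]) hlx fun y => by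
        rw [hN y, ← h2 y, hSS s s' y, ← hu (y - ((s' - s) * l y) • u) ((s' - s) * l y)]
        · congr 1
          rw [map_sub, map_smul]
          module
        · have h6 := (h4 y).trans (mul_le_mul_of_nonneg_right (min_le_left _ _) (norm_nonneg y))
          have h7 := norm_sub_norm_le y (((s' - s) * l y) • u)
          rw [norm_smul, Real.norm_eq_abs] at h7
          nlinarith [h5 y]
      exact ⟨ε, hε, by simpa only [h6, add_zero] using hu⟩
    · rintro s ⟨⟨⟨ε, hε, h1⟩, h2⟩, -⟩ t ht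
      have h0 : 0 < min (t - s) (‖x‖ * (ε / 2)) := lt_min (sub_pos.2 ht) (by positivity)
      have h3 : ∀ y, |(s + min (t - s) (‖x‖ * (ε / 2)) - s) * l y| ≤ ε / 2 * ‖y‖ := fun y => by
        rw [add_sub_cancel_left, abs_mul, abs_of_pos h0]
        refine (mul_le_mul (min_le_right _ _) (hl y) (abs_nonneg _) (by positivity)).trans
          (le_of_eq ?_)
        field_simp
      have h4 : ∀ y c, |c| ≤ ε / 2 * ‖y‖ →
          ‖S (s + min (t - s) (‖x‖ * (ε / 2))) y + c • z‖ = ‖S s y‖ := fun y c hc => by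
        rw [hSS s, add_assoc, ← add_smul]
        exact h1 y _ ((abs_add_le _ _).trans (by linarith [h3 y]))
      have h5 : ∀ y, ‖S (s + min (t - s) (‖x‖ * (ε / 2))) y‖ = ‖S s y‖ := fun y => by
        simpa using h4 y 0 (by rw [abs_zero]; positivity)
      exact ⟨s + min (t - s) (‖x‖ * (ε / 2)), ⟨⟨ε / 2, by positivity, fun y c hc => by
        rw [h4 y c hc, h5]⟩, fun y => (h5 y).trans (h2 y)⟩, by linarith,
        by linarith [min_le_left (t - s) (‖x‖ * (ε / 2))]⟩
  have := (key ⟨zero_le_one, le_rfl⟩).2 x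
  rwa [hSy, hlx, mul_one, one_smul] at this

end Pool.Agent.Lib.LB
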