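import Pool.Agent.Lib.LB.Basic

/-! Row CY2. -/

set_option autoImplicit false

open Set Filter Topology Metric Module

noncomputable section

namespace Pool.Agent.Lib.LB

universe u v

namespace CY2b

variable {E : Type u} {V : Type v} [NormedAddCommGroup E] [NormedSpace ℝ E] [NormedAddCommGroup V]
  [NormedSpace ℝ V]

theorem dec {T : E →L[ℝ] V} (h : ∀ ν, (∀ x, T x ≠ ν) → ∃ u : E, Cz T (ν + T u)) (y : V) :
    ∃ x, Cz T (y - T x) := by
  by_cases hy : ∃ x, T x = y
  · obtain ⟨x, rfl⟩ := hy
    exact ⟨x, by simpa using Cz.zero T⟩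
  · push Not at hy
    obtain ⟨u, hu⟩ := h y hy
    exact ⟨-u, by simpa using hu⟩

theorem uniq {T : E →L[ℝ] V} {y : V} {x x' : E} (h : Cz T (y - T x)) (h' : Cz T (y - T x')) :
    T x = T x' := by
  have := (h'.add (h.smul (-1)))
  have e : y - T x' + (-1 : ℝ) • (y - T x) = T (x - x') := by rw [map_sub]; module
  rw [e] at this
  have := this.eq_zero
  rwa [map_sub, sub_eq_zero] at this

end CY2b

theorem bCY2b (h1 : St_CY1.{u, v}) : St_CY2.{u, v} := by
  intro E V _ _ _ _ _ U hU hc hn hi hz
  have dd : ∀ T, ∃ p : V → E, T ∈ U → ∀ y, Cz T (y - T (p y)) := fun T => by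
    by_cases hT : T ∈ U
    · choose p hp using CY2b.dec (hz T hT)
      exact ⟨p, fun _ => hp⟩
    · exact ⟨0, fun h => (hT h).elim⟩
  choose p hp using dd
  have loc : ∀ T ∈ U, ∀ᶠ T' in 𝓝 T, (fun y => ‖T' (p T' y)‖) = fun y => ‖T (p T y)‖ := fun T hT => by
    obtain ⟨r, hr, hb⟩ := Metric.isOpen_iff.1 hU T hT
    have k := h1 E V T r fun T' hT' =>
      have := hb (mem_ball_iff_norm.2 hT')
      ⟨hi T' this, hz T' this⟩
    obtain ⟨c, hc0, hcT⟩ : ∃ c > 0, ∀ x, c * ‖x‖ ≤ ‖T x‖ := by
      obtain ⟨K, hK, hA⟩ := (T : E →ₗ[ℝ] V).exists_antilipschitzWith (LinearMap.ker_eq_bot.2 (hi T hT))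
      refine ⟨(K : ℝ)⁻¹, by positivity, fun x => ?_⟩
      have := hA.le_mul_dist x 0
      simp only [map_zero, dist_zero_right] at this
      rw [inv_mul_le_iff₀ (by positivity)]
      exact this
    filter_upwards [ball_mem_nhds T (lt_min hr (lt_min (half_pos hc0) (show 0 < r / 8 by positivity)))]
      with T' hT'
    rw [mem_ball_iff_norm, lt_min_iff, lt_min_iff] at hT'
    have hU' : T' ∈ U := hb (mem_ball_iff_norm.2 hT'.1)
    have est : ∀ x, ‖x‖ ≤ 2 * ‖p T (T' x)‖ ∧ ‖T' x - T (p T (T' x))‖ ≤ r / 4 * ‖x‖ := fun x => by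
      have a0 : Cz T (T' x - T x - T (p T (T' x) - x)) := by
        have := hp T hT (T' x)
        rwa [map_sub, sub_sub_sub_cancel_right]
      have a1 := a0.min (p T (T' x) - x)
      rw [add_sub_cancel] at a1
      have a2 : ‖T' x - T x‖ ≤ ‖T' - T‖ * ‖x‖ := (T' - T).le_opNorm x
      have a3 := hcT (p T (T' x) - x)
      have a4 := norm_sub_le (p T (T' x)) (p T (T' x) - x)
      rw [sub_sub_cancel] at a4
      have a5 := norm_sub_le (T' x - T x) (T (p T (T' x) - x))
      rw [map_sub, sub_sub_sub_cancel_right, ← map_sub] at a5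
      have a6 : ‖T' - T‖ * ‖x‖ ≤ c / 2 * ‖x‖ := mul_le_mul_of_nonneg_right hT'.2.1.le (norm_nonneg _)
      have a7 : ‖T' - T‖ * ‖x‖ ≤ r / 8 * ‖x‖ := mul_le_mul_of_nonneg_right hT'.2.2.le (norm_nonneg _)
      have a8 : ‖p T (T' x) - x‖ ≤ ‖x‖ / 2 := by
        by_contra hh
        push Not at hh
        nlinarith
      exact ⟨by linarith, by linarith⟩
    have key : ∀ x z, Cz T z → ‖z‖ ≤ r / 8 * ‖x‖ → ‖T' x + z‖ = ‖T (p T (T' x))‖ := fun x z hz' hs => by
      by_cases hx : x = 0
      · have : z = 0 := by simpa [hx] using hs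
        have e := CY2b.uniq (hp T hT (T' x)) (x' := 0) (by simpa [hx] using Cz.zero T)
        rw [e]
        simp [hx, this]
      have hx0 : 0 < ‖x‖ := norm_pos_iff.2 hx
      have := k _ ((hp T hT (T' x)).add hz') (p T (T' x)) (by
        have b1 := norm_add_le (T' x - T (p T (T' x))) z
        nlinarith [(est x).1, (est x).2])
      rw [← this]
      congr 1
      abel
    have sub : ∀ z, Cz T z → Cz T' z := fun z hz' => by
      refine ⟨r / 8 / (‖z‖ + 1), by positivity, fun x s hs => ?_⟩
      have b0 := key x 0 (Cz.zero T) (by simp; positivity)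
      rw [add_zero] at b0
      rw [b0]
      refine key x _ (hz'.smul s) ?_
      rw [div_mul_eq_mul_div, le_div_iff₀ (by positivity)] at hs
      rw [norm_smul, Real.norm_eq_abs]
      nlinarith [abs_nonneg s]
    let g : E →ₗ[ℝ] E :=
      { toFun := fun x => p T (T' x)
        map_add' := fun x x' => hi T hT (CY2b.uniq (hp T hT _) (by
          have := (hp T hT (T' x)).add (hp T hT (T' x'))
          rwa [← add_sub_add_comm, ← map_add, ← map_add] at this))
        map_smul' := fun a x => hi T hT (CY2b.uniq (hp T hT _) (by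
          have := (hp T hT (T' x)).smul a
          rwa [smul_sub, ← map_smul, ← map_smul] at this)) }
    have gs : Function.Surjective g := LinearMap.injective_iff_surjective.1
      ((injective_iff_map_eq_zero g).2 fun x hx => by
        have := (est x).1
        rw [show p T (T' x) = 0 from hx] at this
        simpa using this)
    funext y
    obtain ⟨x, hx⟩ := gs (p T y)
    have hx' : p T (T' x) = p T y := hx
    have c1 : Cz T (y - T' x) := by
      have := (hp T hT y).add ((hp T hT (T' x)).smul (-1))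
      rw [hx'] at this
      have e : y - T (p T y) + (-1 : ℝ) • (T' x - T (p T y)) = y - T' x := by module
      rwa [e] at this
    rw [CY2b.uniq (hp T' hU' y) (sub _ c1), ← hx']
    simpa using key x 0 (Cz.zero T) (by simp; positivity)
  obtain ⟨T0, h0⟩ := hn
  have con : ∀ T ∈ U, (fun y => ‖T (p T y)‖) = fun y => ‖T0 (p T0 y)‖ := fun T hT => by
    have lc : IsLocallyConstant fun S : U => fun y => ‖S.1 (p S.1 y)‖ :=
      (IsLocallyConstant.iff_eventually_eq _).2 fun S =>
        (continuous_subtype_val.tendsto S).eventually (loc S.1 S.2)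
    have := isPreconnected_iff_preconnectedSpace.1 hc
    exact lc.apply_eq_of_preconnectedSpace ⟨T, hT⟩ ⟨T0, h0⟩
  let P : V →ₗ[ℝ] E :=
    { toFun := p T0
      map_add' := fun y y' => hi T0 h0 (CY2b.uniq (hp T0 h0 _) (by
        have := (hp T0 h0 y).add (hp T0 h0 y')
        rwa [← add_sub_add_comm, ← map_add] at this))
      map_smul' := fun a y => hi T0 h0 (CY2b.uniq (hp T0 h0 _) (by
        have := (hp T0 h0 y).smul a
        rwa [smul_sub, ← map_smul] at this)) }
  refine ⟨P, (normSeminorm ℝ V).comp (T0 : E →ₗ[ℝ] V), fun x hx => hi T0 h0 ?_, fun T hT x => ?_⟩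
  · simpa using hx
  · have := congrFun (con T hT) (T x)
    rw [← CY2b.uniq (x := x) (by simpa using Cz.zero T) (hp T hT (T x))] at this
    exact this

end Pool.Agent.Lib.LB
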