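import Pool.Agent.Lib.LB.Blue

/-! Local Banach problem: polynomial maps. -/

set_option autoImplicit false

open Set Filter Topology Metric Module
open scoped RealInnerProductSpace ContDiff NNReal

noncomputable section

namespace Pool.Agent.Lib.LB

variable {E E' F F' F'' : Type} [NormedAddCommGroup E] [NormedSpace ℝ E] [NormedAddCommGroup E']
  [NormedSpace ℝ E'] [NormedAddCommGroup F] [NormedSpace ℝ F] [NormedAddCommGroup F'] [NormedSpace ℝ F']
  [NormedAddCommGroup F''] [NormedSpace ℝ F'']

theorem IsPol.congr {d : ℕ} {f g : E → F} (h : IsPol d f) (e : ∀ x, f x = g x) : IsPol d g := by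
  obtain rfl : f = g := funext e
  exact h

theorem IsPol.mono {d e : ℕ} {f : E → F} (h : IsPol d f) (hde : d ≤ e) : IsPol e f := by
  induction h generalizing e with
  | const d c => exact .const e c
  | add _ _ ih ih' => exact .add (ih hde) (ih' hde)
  | mul φ _ ih =>
    obtain ⟨e', rfl⟩ : ∃ e', e = e' + 1 := ⟨e - 1, by omega⟩
    exact .mul φ (ih (by omega))

theorem IsPol.post {d : ℕ} {f : E → F} (h : IsPol d f) (L : F →L[ℝ] F') : IsPol d fun x => L (f x) := by
  induction h with
  | const d c => exact .const d (L c)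
  | add _ _ ih ih' => exact (ih.add ih').congr fun x => (map_add L _ _).symm
  | mul φ _ ih => exact (ih.mul φ).congr fun x => (map_smul L _ _).symm

theorem IsPol.pre {d : ℕ} {f : E → F} (h : IsPol d f) (L : E' →L[ℝ] E) : IsPol d fun x => f (L x) := by
  induction h with
  | const d c => exact .const d c
  | add _ _ ih ih' => exact ih.add ih'
  | mul φ _ ih => exact ih.mul (φ.comp L)

theorem IsPol.const_smul {d : ℕ} {f : E → F} (h : IsPol d f) (c : ℝ) : IsPol d fun x => c • f x := by
  exact h.post (c • ContinuousLinearMap.id ℝ F)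

theorem IsPol.neg {d : ℕ} {f : E → F} (h : IsPol d f) : IsPol d fun x => -f x := by
  exact (h.const_smul (-1)).congr fun x => neg_one_smul ℝ _

theorem IsPol.sub {d : ℕ} {f g : E → F} (h : IsPol d f) (h' : IsPol d g) : IsPol d fun x => f x - g x := by
  exact (h.add h'.neg).congr fun x => (sub_eq_add_neg _ _).symm

theorem IsPol.sum {ι : Type} {d : ℕ} (s : Finset ι) {f : ι → E → F} (h : ∀ i ∈ s, IsPol d (f i)) :
    IsPol d fun x => ∑ i ∈ s, f i x := by
  classical
  induction s using Finset.induction_on with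
  | empty => exact (IsPol.const d 0).congr fun x => by simp
  | insert a s ha ih =>
    exact ((h a (Finset.mem_insert_self a s)).add
      (ih fun i hi => h i (Finset.mem_insert_of_mem hi))).congr fun x => by
        rw [Finset.sum_insert ha]

theorem IsPol.lin [FiniteDimensional ℝ E] (L : E →L[ℝ] F) : IsPol 1 fun x => L x := by
  let b := Module.finBasis ℝ E
  refine (IsPol.sum Finset.univ fun i _ =>
    (IsPol.const 0 (L (b i))).mul (LinearMap.toContinuousLinearMap (b.coord i))).congr fun x => ?_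
  conv_rhs => rw [← b.sum_repr x, map_sum]
  simp

theorem IsPol.bil {a b : ℕ} {f : E → F} {g : E → F'} (B : F →L[ℝ] F' →L[ℝ] F'') (h : IsPol a f)
    (h' : IsPol b g) : IsPol (a + b) fun x => B (f x) (g x) := by
  induction h with
  | const d c => exact (h'.post (B c)).mono (Nat.le_add_left _ _)
  | add _ _ ih ih' => exact (ih.add ih').congr fun x => by simp
  | mul φ _ ih => exact ((ih.mul φ).mono (by omega)).congr fun x => by simp

theorem IsPol.smul {a b : ℕ} {c : E → ℝ} {f : E → F} (h : IsPol a c) (h' : IsPol b f) :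
    IsPol (a + b) fun x => c x • f x := by
  exact IsPol.bil (ContinuousLinearMap.lsmul ℝ ℝ) h h'

theorem IsPol.app {a b : ℕ} {A : E → F →L[ℝ] F'} {f : E → F} (h : IsPol a A) (h' : IsPol b f) :
    IsPol (a + b) fun x => A x (f x) := by
  exact IsPol.bil (ContinuousLinearMap.id ℝ (F →L[ℝ] F')) h h'

theorem IsPol.inner {V : Type} [NormedAddCommGroup V] [InnerProductSpace ℝ V] {a b : ℕ} {f g : E → V}
    (h : IsPol a f) (h' : IsPol b g) : IsPol (a + b) fun x => ⟪f x, g x⟫ := by
  induction h with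
  | const d c => exact (h'.post (innerSL ℝ c)).mono (Nat.le_add_left _ _)
  | add _ _ ih ih' => exact (ih.add ih').congr fun x => (inner_add_left _ _ _).symm
  | mul φ _ ih => exact ((ih.mul φ).mono (by omega)).congr fun x => (real_inner_smul_left _ _ _).symm

theorem IsPol.comp {d e : ℕ} {f : E → F} {g : E' → E} (h : IsPol d f) (h' : IsPol e g) :
    IsPol (d * e) fun x => f (g x) := by
  induction h with
  | const d c => exact .const _ c
  | add _ _ ih ih' => exact ih.add ih'
  | mul φ _ ih => exact ((h'.post φ).smul ih).mono (le_of_eq (by ring))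

theorem IsPol.of_apply [FiniteDimensional ℝ F] {d : ℕ} {A : E → F →L[ℝ] F'}
    (h : ∀ u, IsPol d fun x => A x u) : IsPol d A := by
  let b := Module.finBasis ℝ F
  refine (IsPol.sum Finset.univ fun i _ => (h (b i)).post
    (ContinuousLinearMap.smulRightL ℝ F F' (LinearMap.toContinuousLinearMap (b.coord i)))).congr
    fun x => ?_
  ext u
  conv_rhs => rw [← b.sum_repr u, map_sum]
  simp

theorem IsPol.cd {d : ℕ} {f : E → F} (h : IsPol d f) : ContDiff ℝ ∞ f := by
  induction h with
  | const d c => exact contDiff_const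
  | add _ _ ih ih' => exact ih.add ih'
  | mul φ _ ih => exact φ.contDiff.smul ih

theorem IsPol.fderiv {d : ℕ} {f : E → F} (h : IsPol d f) : IsPol d (fderiv ℝ f) := by
  induction h with
  | const d c => exact (IsPol.const d 0).congr fun x => by simp
  | add h1 h2 ih ih' =>
    exact (ih.add ih').congr fun x =>
      (fderiv_fun_add (h1.cd.differentiable (by simp) x) (h2.cd.differentiable (by simp) x)).symm
  | mul φ h1 ih =>
    refine ((ih.mul φ).add ((h1.post (ContinuousLinearMap.smulRightL ℝ E F φ)).mono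
      (Nat.le_succ _))).congr fun x => ?_
    exact (φ.hasFDerivAt.smul (h1.cd.differentiable (by simp) x).hasFDerivAt).fderiv.symm

theorem Pl.analytic {f : E → F} (h : Pl f) : AnalyticOnNhd ℝ f univ := by
  obtain ⟨d, h⟩ := h
  induction h with
  | const d c => exact analyticOnNhd_const
  | add _ _ ih ih' => exact fun x hx => (ih x hx).add (ih' x hx)
  | mul φ _ ih => exact fun x hx => (φ.analyticAt x).smul (ih x hx)

theorem Pl.contDiff {f : E → F} (h : Pl f) : ContDiff ℝ ∞ f := by
  obtain ⟨d, h⟩ := h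
  exact h.cd

theorem Pl.continuous {f : E → F} (h : Pl f) : Continuous f := by
  exact h.contDiff.continuous

theorem Pl.const (c : F) : Pl fun _ : E => c := ⟨0, IsPol.const 0 c⟩

theorem Pl.congr {f g : E → F} (h : Pl f) (e : ∀ x, f x = g x) : Pl g := by
  obtain ⟨d, h⟩ := h
  exact ⟨d, h.congr e⟩

theorem Pl.add {f g : E → F} (h : Pl f) (h' : Pl g) : Pl fun x => f x + g x := by
  obtain ⟨d, h⟩ := h
  obtain ⟨e, h'⟩ := h'
  exact ⟨d + e, (h.mono (Nat.le_add_right _ _)).add (h'.mono (Nat.le_add_left _ _))⟩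

theorem Pl.sub {f g : E → F} (h : Pl f) (h' : Pl g) : Pl fun x => f x - g x := by
  obtain ⟨d, h⟩ := h
  obtain ⟨e, h'⟩ := h'
  exact ⟨d + e, (h.mono (Nat.le_add_right _ _)).sub (h'.mono (Nat.le_add_left _ _))⟩

theorem Pl.smul {c : E → ℝ} {f : E → F} (h : Pl c) (h' : Pl f) : Pl fun x => c x • f x := by
  obtain ⟨d, h⟩ := h
  obtain ⟨e, h'⟩ := h'
  exact ⟨_, h.smul h'⟩

theorem Pl.app {A : E → F →L[ℝ] F'} {f : E → F} (h : Pl A) (h' : Pl f) : Pl fun x => A x (f x) := by
  obtain ⟨d, h⟩ := h
  obtain ⟨e, h'⟩ := h'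
  exact ⟨_, h.app h'⟩

theorem Pl.inner {V : Type} [NormedAddCommGroup V] [InnerProductSpace ℝ V] {f g : E → V}
    (h : Pl f) (h' : Pl g) : Pl fun x => ⟪f x, g x⟫ := by
  obtain ⟨d, h⟩ := h
  obtain ⟨e, h'⟩ := h'
  exact ⟨_, h.inner h'⟩

theorem Pl.post {f : E → F} (h : Pl f) (L : F →L[ℝ] F') : Pl fun x => L (f x) := by
  obtain ⟨d, h⟩ := h
  exact ⟨d, h.post L⟩

theorem Pl.pre {f : E → F} (h : Pl f) (L : E' →L[ℝ] E) : Pl fun x => f (L x) := by
  obtain ⟨d, h⟩ := h
  exact ⟨d, h.pre L⟩

theorem Pl.lin [FiniteDimensional ℝ E] (L : E →L[ℝ] F) : Pl fun x => L x := ⟨1, IsPol.lin L⟩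

theorem Pl.comp {f : E → F} {g : E' → E} (h : Pl f) (h' : Pl g) : Pl fun x => f (g x) := by
  obtain ⟨d, h⟩ := h
  obtain ⟨e, h'⟩ := h'
  exact ⟨_, h.comp h'⟩

theorem Pl.eq_zero {f : E → F} (h : Pl f) {O : Set E} (hO : IsOpen O) (hn : O.Nonempty)
    (h0 : ∀ x ∈ O, f x = 0) (x : E) : f x = 0 := by
  obtain ⟨z, hz⟩ := hn
  exact h.analytic.eqOn_zero_of_preconnected_of_eventuallyEq_zero isPreconnected_univ (mem_univ z)
    (eventually_of_mem (hO.mem_nhds hz) h0) (mem_univ x)

theorem Pl.dense {f : E → F} (h : Pl f) (hn : ∃ x, f x ≠ 0) : Dense {x | f x ≠ 0} := by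
  obtain ⟨z, hz⟩ := hn
  refine dense_iff_inter_open.2 fun O hO hne => ?_
  by_contra hc
  exact hz (h.eq_zero hO hne (fun x hx => by_contra fun hx' => hc ⟨x, hx, hx'⟩) z)

theorem Pl.cancel {c : E → ℝ} {f : E → F} (h : Pl c) (h' : Pl f) (hn : ∃ x, c x ≠ 0)
    (h0 : ∀ x, c x • f x = 0) (x : E) : f x = 0 := by
  refine (h.dense hn).induction (P := fun x => f x = 0) (fun y hy => ?_)
    (isClosed_eq h'.continuous continuous_const) x
  exact (smul_eq_zero.1 (h0 y)).resolve_left hy

theorem IsPol.div {V : Type} [NormedAddCommGroup V] [InnerProductSpace ℝ V] {d : ℕ} {f : V → F}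
    (h : IsPol d f) {μ : V} (hμ : μ ≠ 0) (h0 : ∀ x, ⟪μ, x⟫ = 0 → f x = 0) :
    ∃ g : V → F, (∀ x, f x = ⟪μ, x⟫ • g x) ∧ (d = 0 → ∀ x, g x = 0) ∧ ∀ e, d = e + 1 → IsPol e g := by
  have hμ' : ⟪μ, μ⟫ ≠ 0 := inner_self_ne_zero.2 hμ
  let P : V →L[ℝ] V := ContinuousLinearMap.id ℝ V - (innerSL ℝ μ).smulRight ((⟪μ, μ⟫)⁻¹ • μ)
  have hP : ∀ x, P x = x - ⟪μ, x⟫ • (⟪μ, μ⟫)⁻¹ • μ := fun x => rfl
  have key : ∃ g : V → F, (∀ x, f x - f (P x) = ⟪μ, x⟫ • g x) ∧ (d = 0 → ∀ x, g x = 0) ∧
      ∀ e, d = e + 1 → IsPol e g := by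
    clear h0
    induction h with
    | const d c => exact ⟨fun _ => 0, fun x => by simp, fun _ _ => rfl, fun e _ => .const e 0⟩
    | add _ _ ih ih' =>
      obtain ⟨g, a1, a2, a3⟩ := ih
      obtain ⟨g', b1, b2, b3⟩ := ih'
      refine ⟨fun x => g x + g' x, fun x => ?_, fun hd x => ?_,
        fun e he => (a3 e he).add (b3 e he)⟩
      · rw [smul_add, ← a1, ← b1]
        exact add_sub_add_comm _ _ _ _
      · simp [a2 hd, b2 hd]
    | @mul d f φ h1 ih =>
      obtain ⟨g, a1, a2, a3⟩ := ih
      refine ⟨fun x => φ x • g x + φ ((⟪μ, μ⟫)⁻¹ • μ) • f (P x), fun x => ?_,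
        fun hd => absurd hd (Nat.succ_ne_zero _), fun e he => ?_⟩
      · have e1 : φ (P x) = φ x - ⟪μ, x⟫ * φ ((⟪μ, μ⟫)⁻¹ • μ) := by
          rw [hP, map_sub, map_smul, smul_eq_mul]
        have e2 : f x = f (P x) + ⟪μ, x⟫ • g x := by rw [← a1, add_sub_cancel]
        simp only [e1]
        rw [e2]
        module
      · obtain rfl : d = e := by omega
        refine IsPol.add ?_ ((h1.pre P).const_smul _)
        rcases d with _ | d
        · exact (IsPol.const 0 0).congr fun x => by simp [a2 rfl]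
        · exact (a3 d rfl).mul φ
  obtain ⟨g, a1, a2⟩ := key
  refine ⟨g, fun x => ?_, a2⟩
  rw [← a1, h0 (P x), sub_zero]
  rw [hP, inner_sub_right, inner_smul_right, inner_smul_right, inv_mul_cancel₀ hμ', mul_one, sub_self]

/-- Every point of a hyperplane is a limit of points of it where a polynomial does not vanish. -/
theorem Pl.dense_perp {V : Type} [NormedAddCommGroup V] [InnerProductSpace ℝ V] {f : V → F} (h : Pl f)
    {ξ : V} (hn : ∃ y, ⟪ξ, y⟫ = 0 ∧ f y ≠ 0) {y : V} (hy : ⟪ξ, y⟫ = 0) :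
    y ∈ closure {y' | ⟪ξ, y'⟫ = 0 ∧ f y' ≠ 0} := by
  obtain ⟨z, hz, hz'⟩ := hn
  have hg : Pl fun t : ℝ => y + t • (z - y) :=
    (Pl.const y).add (Pl.lin ((ContinuousLinearMap.id ℝ ℝ).smulRight (z - y)))
  have hd := (h.comp hg).dense ⟨1, by simpa using hz'⟩
  have := map_mem_closure (t := {y' | ⟪ξ, y'⟫ = 0 ∧ f y' ≠ 0}) hg.continuous (hd 0)
    fun t ht => ⟨by simp [inner_add_right, inner_smul_right, inner_sub_right, hy, hz], ht⟩
  simpa using this

variable (E F) in
/-- The space of polynomial maps of degree at most `d`. -/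
def PolS (d : ℕ) : Submodule ℝ (E → F) where
  carrier := {f | IsPol d f}
  zero_mem' := IsPol.const d 0
  add_mem' := fun h h' => IsPol.add h h'
  smul_mem' := fun c _ h => IsPol.const_smul h c

theorem mem_PolS {d : ℕ} {f : E → F} : f ∈ PolS E F d ↔ IsPol d f := Iff.rfl

theorem polS_fin [FiniteDimensional ℝ E] [FiniteDimensional ℝ F] (d : ℕ) :
    FiniteDimensional ℝ (PolS E F d) ∧
      finrank ℝ (PolS E F d) ≤ (d + 1) ^ finrank ℝ E * finrank ℝ F := by
  let b := Module.finBasis ℝ E
  let c := Module.finBasis ℝ F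
  let m : (Fin (finrank ℝ E) → ℕ) → F → E → F := fun α w x => (∏ i, b.repr x i ^ α i) • w
  let T : ℕ → Submodule ℝ (E → F) := fun d => Submodule.span ℝ
    (range fun z : (Fin (finrank ℝ E) → Fin (d + 1)) × Fin (finrank ℝ F) =>
      m (fun i => z.1 i) (c z.2))
  have h1 : ∀ d (f : E → F), IsPol d f → f ∈ T d := by
    intro d f h
    induction h with
    | const d w =>
      have e : (fun _ : E => w) = ∑ j, c.repr w j • m (fun i => ((0 : Fin (d + 1)) : ℕ)) (c j) := by
        funext x
        simp [m]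
      rw [e]
      exact Submodule.sum_mem _ fun j _ => Submodule.smul_mem _ _
        (Submodule.subset_span ⟨(fun _ => 0, j), rfl⟩)
    | add _ _ ih ih' => exact add_mem ih ih'
    | @mul d f φ _ ih =>
      have h2 : ∀ i, ∀ g ∈ T d, (fun x => b.repr x i • g x) ∈ T (d + 1) := by
        intro i g hg
        induction hg using Submodule.span_induction with
        | mem g hg =>
          obtain ⟨z, rfl⟩ := hg
          refine Submodule.subset_span
            ⟨(fun k => if k = i then (z.1 k).succ else (z.1 k).castSucc, z.2), ?_⟩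
          funext x
          simp only [m, smul_smul]
          rw [← Finset.mul_prod_erase _ _ (Finset.mem_univ i),
            ← Finset.mul_prod_erase _ (fun k => b.repr x k ^ (z.1 k : ℕ)) (Finset.mem_univ i),
            if_pos rfl, Fin.val_succ, pow_succ', mul_assoc,
            Finset.prod_congr rfl fun k hk => by
              rw [if_neg (Finset.ne_of_mem_erase hk), Fin.val_castSucc]]
        | zero =>
          have e : (fun x => b.repr x i • (0 : E → F) x) = 0 := by
            funext x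
            simp
          rw [e]
          exact zero_mem _
        | add g g' _ _ a1 a2 =>
          have e : (fun x => b.repr x i • (g + g') x) =
              (fun x => b.repr x i • g x) + fun x => b.repr x i • g' x := by
            funext x
            simp
          rw [e]
          exact add_mem a1 a2
        | smul a g _ a1 =>
          have e : (fun x => b.repr x i • (a • g) x) = a • fun x => b.repr x i • g x := by
            funext x
            simp [smul_comm a]
          rw [e]
          exact Submodule.smul_mem _ a a1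
      have e : (fun x => φ x • f x) = ∑ i, φ (b i) • fun x => b.repr x i • f x := by
        funext x
        conv_lhs => rw [← b.sum_repr x, map_sum, Finset.sum_smul, b.sum_repr x]
        simp [smul_smul, mul_comm]
      rw [e]
      exact Submodule.sum_mem _ fun i _ => Submodule.smul_mem _ _ (h2 i f ih)
  have hle : PolS E F d ≤ T d := h1 d
  have hf : FiniteDimensional ℝ (T d) := FiniteDimensional.span_of_finite ℝ (finite_range _)
  refine ⟨Submodule.finiteDimensional_of_le hle, (Submodule.finrank_mono hle).trans ?_⟩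
  refine (finrank_range_le_card _).trans (le_of_eq ?_)
  simp

theorem exists_uni [FiniteDimensional ℝ E] [FiniteDimensional ℝ F] (d : ℕ) :
    ∃ (s : ℕ) (v : Fin s → E), ∀ f : E → F, IsPol d f → (∀ i, f (v i) = 0) → ∀ x, f x = 0 := by
  classical
  have hf := (polS_fin (E := E) (F := F) d).1
  let K : Finset E → Submodule ℝ (PolS E F d) := fun s =>
    { carrier := {f | ∀ x ∈ s, f.1 x = 0}
      zero_mem' := fun _ _ => rfl
      add_mem' := fun h h' x hx => by simp [h x hx, h' x hx]
      smul_mem' := fun c _ h x hx => by simp [h x hx] }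
  obtain ⟨_, ⟨s, rfl⟩, hs⟩ := (wellFounded_lt (α := Submodule ℝ (PolS E F d))).has_min (range K)
    ⟨K ∅, ∅, rfl⟩
  refine ⟨s.card, fun i => s.equivFin.symm i, fun f h h0 x => ?_⟩
  have h1 : K (insert x s) ≤ K s := fun g hg y hy => hg y (Finset.mem_insert_of_mem hy)
  have h2 : K (insert x s) = K s := eq_of_le_of_not_lt h1 (hs _ ⟨_, rfl⟩)
  have h3 : (⟨f, h⟩ : PolS E F d) ∈ K s := fun y hy => by
    simpa using h0 (s.equivFin ⟨y, hy⟩)
  rw [← h2] at h3
  exact h3 x (Finset.mem_insert_self x s)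

end Pool.Agent.Lib.LB
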