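import Pool.Agent.Lib.LB.Basic
import Pool.Agent.Lib.LB.Poly
import Pool.Agent.Lib.LB49.Frob
import Pool.Agent.Lib.LB49.Brk

/-! Row DIST: the integrable distribution of the polynomial killing fields. -/

set_option autoImplicit false

open Set Filter Topology Metric Module
open scoped ContDiff

namespace Pool.Agent.Lib.LB

theorem bDIST : St_DIST := by
  intro E _ _ _ _ n
  classical
  let A : ℕ → Prop := fun r => ∃ (d : ℕ) (P : Fin r → E → E) (x : E), (∀ i, IsPol d (P i)) ∧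
    (∀ i y, P i y ∈ Kil n y) ∧ LinearIndependent ℝ fun i => P i x
  have A0 : A 0 := ⟨0, Fin.elim0, 0, fun i => i.elim0, fun i => i.elim0, linearIndependent_empty_type⟩
  have Ab : ∀ r, A r → r ≤ finrank ℝ E := by
    rintro r ⟨d, P, x, -, -, h⟩
    simpa using h.fintype_card_le_finrank
  obtain ⟨r, ⟨d, P, x1, p1, p2, p3⟩, hr⟩ : ∃ r, A r ∧ ¬A (r + 1) :=
    ⟨Nat.findGreatest A (finrank ℝ E), Nat.findGreatest_spec (Nat.zero_le _) A0, fun h =>
      Nat.findGreatest_is_greatest (Nat.lt_succ_self _) (Ab _ h) h⟩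
  have cd : ∀ i, ContDiff ℝ ∞ (P i) := fun i => Pl.contDiff ⟨d, p1 i⟩
  have op : IsOpen {x | LinearIndependent ℝ fun i => P i x} :=
    isOpen_setOfPred_linearIndependent.preimage (continuous_pi fun i => (cd i).continuous)
  have all : ∀ Q : E → E, Pl Q → (∀ x, Q x ∈ Kil n x) → ∀ x, (LinearIndependent ℝ fun i => P i x) →
      Q x ∈ spn P x := by
    rintro Q ⟨e, hQ⟩ kQ x hx
    by_contra hn
    refine hr ⟨max d e, Fin.cons Q P, x, fun i => ?_, fun i y => ?_, ?_⟩
    · exact Fin.cases (hQ.mono (le_max_right _ _)) (fun i => (p1 i).mono (le_max_left _ _)) i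
    · exact Fin.cases (kQ y) (fun i => p2 i y) i
    · have := linearIndependent_finCons.2 ⟨hx, hn⟩
      rwa [show (Fin.cons (Q x) fun i => P i x : Fin (r + 1) → E) =
        fun i => (Fin.cons Q P : Fin (r + 1) → E → E) i x from
          funext fun i => Fin.cases rfl (fun _ => rfl) i] at this
  obtain ⟨x0, h0, hx⟩ := (dense_compl_singleton (0 : E)).exists_mem_open op ⟨x1, p3⟩
  obtain ⟨C, hC⟩ := snm_lip n
  obtain ⟨τ, t1, t2⟩ := LB49.frob P cd (x₀ := x0) hx (by
    filter_upwards [op.mem_nhds hx] with x hx i j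
    refine all (fun x => fderiv ℝ (P j) x (P i x) - fderiv ℝ (P i) x (P j x)) ?_
      (fun y => LB49.bracket_mem hC (cd i) (cd j) (p2 i) (p2 j) y (Kil n y) fun _ h => h) x hx
    exact (Pl.app ⟨d, (p1 j).fderiv⟩ ⟨d, p1 i⟩).sub (Pl.app ⟨d, (p1 i).fderiv⟩ ⟨d, p1 j⟩))
  obtain ⟨O, o1, o2, o3⟩ := _root_.eventually_nhds_iff.1 (t2.and (op.mem_nhds hx))
  exact ⟨x0, O, d, r, P, τ, h0, o2, o3, p1, p2, (t1.of_le (by simp)).contDiffOn,
    fun x hx => (o1 x hx).2, fun x hx => (o1 x hx).1, fun Q q1 q2 x hx => all Q q1 q2 x (o1 x hx).2⟩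

end Pool.Agent.Lib.LB
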