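import Pool.Agent.Lib.LB.Basic
import Pool.Agent.Lib.LB.Poly
import Pool.Agent.Lib.LB40.Fund

/-! Local Banach problem: row DV1, the analytic development. -/

set_option autoImplicit false

open Set Filter Topology Metric Module
open scoped RealInnerProductSpace

noncomputable section

namespace Pool.Agent.Lib.LB

namespace DV1

variable {V : Type} [NormedAddCommGroup V] [InnerProductSpace ℝ V]

theorem zero_of {W : Type} [NormedAddCommGroup W] [NormedSpace ℝ W] {f f' : ℝ → W} {c : ℝ → ℝ}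
    (hd : ∀ t ∈ Icc (0 : ℝ) 1, HasDerivAt f (f' t) t) (h0 : f 0 = 0)
    (hc : ContinuousOn c (Icc 0 1)) (hb : ∀ t ∈ Icc (0 : ℝ) 1, ‖f' t‖ ≤ c t * ‖f t‖) :
    ∀ t ∈ Icc (0 : ℝ) 1, f t = 0 := by
  obtain ⟨K, hK⟩ := isCompact_Icc.bddAbove_image hc
  exact eq_zero_of_abs_deriv_le_mul_abs_self_of_eq_zero_right (K := K)
    (fun t ht => (hd t ht).continuousAt.continuousWithinAt)
    (fun t ht => (hd t (Ico_subset_Icc_self ht)).hasDerivWithinAt) h0 fun t ht =>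
      (hb t (Ico_subset_Icc_self ht)).trans (mul_le_mul_of_nonneg_right
        (hK (mem_image_of_mem _ (Ico_subset_Icc_self ht))) (norm_nonneg _))

theorem perp {ξ : V} (h : ξ ≠ 0) (y : V) : ⟪ξ, y - (⟪ξ, y⟫ / ⟪ξ, ξ⟫) • ξ⟫ = 0 := by
  rw [inner_sub_right, inner_smul_right, div_mul_cancel₀ _ (inner_self_ne_zero.2 h), sub_self]

theorem seg {ξ0 ξ : V} {t : ℝ} (ht : t ∈ Icc (0 : ℝ) 1) : ξ0 + t • (ξ - ξ0) ∈ segment ℝ ξ0 ξ := by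
  rw [segment_eq_image']
  exact mem_image_of_mem _ ht

theorem line (ξ0 μ : V) (t : ℝ) : HasDerivAt (fun s : ℝ => ξ0 + s • μ) μ t := by
  simpa using ((hasDerivAt_id t).smul_const μ).const_add ξ0

end DV1

open DV1 in
theorem bDV1 : St_DV1 := by
  intro V _ _ _ Φ ξ0 δ M ρ G L _ R S
  obtain ⟨Y, hA, hY⟩ := LB40.fund S.an ξ0
  have hd : ∀ ξ ∈ Star (Gam Φ ξ0 δ M) ξ0, ∀ x, ∀ t ∈ Icc (0 : ℝ) 1, HasDerivAt (fun s => Y ξ s x)
      (L (ξ0 + t • (ξ - ξ0)) (ξ - ξ0) (Y ξ t x)) t := fun ξ hξ x t ht => by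
    simpa using (((hY ξ hξ).2 t ht).2.clm_apply (hasDerivAt_const t x))
  have hu : ∀ ξ ∈ Star (Gam Φ ξ0 δ M) ξ0, IsUnit (Y ξ 1) := fun ξ hξ =>
    ((hY ξ hξ).2 1 (right_mem_Icc.2 zero_le_one)).1
  have h0 : ∀ ξ ∈ Star (Gam Φ ξ0 δ M) ξ0, ∀ x, Y ξ 0 x = x := fun ξ hξ x => by
    rw [(hY ξ hξ).1]
    rfl
  have FH : ∀ ξ ∈ Star (Gam Φ ξ0 δ M) ξ0, ∀ y, Y ξ 1 (Ring.inverse (Y ξ 1) y) = y := fun ξ hξ y =>
    DFunLike.congr_fun (Ring.mul_inverse_cancel _ (hu ξ hξ)) y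
  have HF : ∀ ξ ∈ Star (Gam Φ ξ0 δ M) ξ0, ∀ y, Ring.inverse (Y ξ 1) (Y ξ 1 y) = y := fun ξ hξ y =>
    DFunLike.congr_fun (Ring.inverse_mul_cancel _ (hu ξ hξ)) y
  have hl : ∀ ξ : V, Continuous fun t : ℝ => ξ0 + t • (ξ - ξ0) := fun ξ => by fun_prop
  have F0 : ∀ ξ ∈ Star (Gam Φ ξ0 δ M) ξ0, Y ξ 1 ξ0 = ξ := fun ξ hξ => by
    have := zero_of (c := fun t => ‖L (ξ0 + t • (ξ - ξ0)) (ξ - ξ0)‖)
      (fun t ht => (hd ξ hξ ξ0 t ht).sub (line ξ0 (ξ - ξ0) t)) (by simp [h0 ξ hξ])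
      ((S.an.continuousOn.comp (hl ξ).continuousOn fun t ht => hξ (seg ht)).clm_apply
        continuousOn_const).norm (fun t ht => by
          have e := (S.sol _ (hξ (seg ht)) (ξ - ξ0)).1
          refine le_of_eq_of_le (congrArg _ ?_) (ContinuousLinearMap.le_opNorm _ _)
          rw [Pi.sub_apply, map_sub (L (ξ0 + t • (ξ - ξ0)) (ξ - ξ0)), e]) 1 (right_mem_Icc.2 zero_le_one)
    simpa [sub_eq_zero] using this
  have Fp : ∀ ξ ∈ Star (Gam Φ ξ0 δ M) ξ0, ∀ x, ⟪ξ0, x⟫ = 0 → ∀ t ∈ Icc (0 : ℝ) 1,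
      ⟪ξ0 + t • (ξ - ξ0), Y ξ t x⟫ = 0 := fun ξ hξ x hx => by
    refine zero_of (c := fun t => |2 * ⟪ξ0 + t • (ξ - ξ0), ξ - ξ0⟫ /
      ⟪ξ0 + t • (ξ - ξ0), ξ0 + t • (ξ - ξ0)⟫|)
      (fun t ht => (line ξ0 (ξ - ξ0) t).inner ℝ (hd ξ hξ x t ht)) (by simp [h0 ξ hξ, hx])
      (((continuous_const.mul ((hl ξ).inner continuous_const)).continuousOn.div
        ((hl ξ).inner (hl ξ)).continuousOn fun t ht =>
          inner_self_ne_zero.2 (hξ (seg ht)).1).abs) fun t ht => ?_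
    obtain ⟨e1, e2⟩ := S.sol _ (hξ (seg ht)) (ξ - ξ0)
    have e3 := (e2 _ (perp (hξ (seg ht)).1 (Y ξ t x))).1
    rw [map_sub, map_smul, e1, inner_sub_right, inner_sub_right (ξ - ξ0), inner_smul_right,
      inner_smul_right, real_inner_comm (ξ0 + t • (ξ - ξ0)) (ξ - ξ0)] at e3
    rw [Real.norm_eq_abs, Real.norm_eq_abs, ← abs_mul]
    refine le_of_eq (congrArg _ ?_)
    linear_combination e3
  have Fp1 : ∀ ξ ∈ Star (Gam Φ ξ0 δ M) ξ0, ∀ x, ⟪ξ0, x⟫ = 0 → ⟪ξ, Y ξ 1 x⟫ = 0 := fun ξ hξ x hx => by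
    simpa using Fp ξ hξ x hx 1 (right_mem_Icc.2 zero_le_one)
  have Hp : ∀ ξ ∈ Star (Gam Φ ξ0 δ M) ξ0, ∀ y, ⟪ξ, y⟫ = 0 → ⟪ξ0, Ring.inverse (Y ξ 1) y⟫ = 0 := by
    intro ξ hξ y hy
    have n0 : ξ0 ≠ 0 := (hξ (left_mem_segment ℝ ξ0 ξ)).1
    have n1 : ξ ≠ 0 := (hξ (right_mem_segment ℝ ξ0 ξ)).1
    have e := Fp1 ξ hξ _ (perp n0 (Ring.inverse (Y ξ 1) y))
    rw [map_sub, map_smul, FH ξ hξ, F0 ξ hξ, inner_sub_right, hy, inner_smul_right, zero_sub,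
      neg_eq_zero, mul_eq_zero, or_iff_left (inner_self_ne_zero.2 n1), div_eq_zero_iff,
      or_iff_left (inner_self_ne_zero.2 n0)] at e
    exact e
  refine ⟨fun ξ => Y ξ 1, fun ξ => Ring.inverse (Y ξ 1), R.pos, S.op, fun ξ h => h.1, S.sub, hA,
    fun ξ hξ => AnalyticAt.comp (g := Ring.inverse) (analyticAt_inverse (hu ξ hξ).unit) (hA ξ hξ),
    FH, HF, F0, Fp1, Hp, fun ξ hξ y hy => ?_⟩
  have hb := (convex_ball ξ0 ρ).segment_subset (mem_ball_self R.pos) hξ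
  have hs : ξ ∈ Star (Gam Φ ξ0 δ M) ξ0 := hb.trans S.sub
  have := K4 (Φ := Φ) zero_le_one
    (fun t ht => (hd ξ hs (Ring.inverse (Y ξ 1) y) t ht).continuousAt.continuousWithinAt)
    (fun t ht => hd ξ hs _ t (Ioo_subset_Icc_self ht)) fun t ht => ?_
  · rw [FH ξ hs, h0 ξ hs] at this
    exact this.symm
  have ht' := Ioo_subset_Icc_self ht
  refine closure_minimal (t := {y | Mn Φ y (L (ξ0 + t • (ξ - ξ0)) (ξ - ξ0) y)}) (fun z hz => ?_)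
    ((K5 Φ).preimage (continuous_id.prodMk (ContinuousLinearMap.continuous _)))
    (R.pδ.dense_perp (R.sat _ (hs (seg ht')).1) (Fp ξ hs _ (Hp ξ hs y hy) t ht'))
  by_cases hz0 : z = 0
  · intro s
    simp [hz0]
  · refine K1 ((Submodule.smul_mem_iff _ hz.2).1 ?_)
    rw [((S.sol _ (hs (seg ht')) (ξ - ξ0)).2 z hz.1).2]
    exact R.kil _ (hb (seg ht')) z hz0 hz.1 _

end Pool.Agent.Lib.LB
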