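import Pool.Agent.Lib.LB.Basic

/-! Local Banach problem: analytic continuation of the infinitesimal identities. -/

set_option autoImplicit false

open Set Filter Topology Metric Module
open scoped RealInnerProductSpace

noncomputable section

namespace Pool.Agent.Lib.LB

namespace DV2

theorem an_app {X A B : Type} [NormedAddCommGroup X] [NormedSpace ℝ X] [NormedAddCommGroup A]
    [NormedSpace ℝ A] [NormedAddCommGroup B] [NormedSpace ℝ B] {f : X → A →L[ℝ] B} {g : X → A}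
    {x : X} (hf : AnalyticAt ℝ f x) (hg : AnalyticAt ℝ g x) :
    AnalyticAt ℝ (fun y => f y (g y)) x :=
  ((ContinuousLinearMap.id ℝ (A →L[ℝ] B)).analyticAt_bilinear (f x, g x)).comp₂ hf hg

theorem an_pol {X A : Type} [NormedAddCommGroup X] [NormedSpace ℝ X] [NormedAddCommGroup A]
    [NormedSpace ℝ A] {d : ℕ} {f : X → A} (h : IsPol d f) (x : X) : AnalyticAt ℝ f x := by
  induction h with
  | const d c => exact analyticAt_const
  | add _ _ h h' => exact h.add h'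
  | mul φ _ h => exact (φ.analyticAt x).smul h

variable {V : Type} [NormedAddCommGroup V] [InnerProductSpace ℝ V] [FiniteDimensional ℝ V]
  {Φ : Seminorm ℝ V} {ξ0 : V} {ρ : ℝ} {Γ : Set V} {F H : V → V →L[ℝ] V}

omit [FiniteDimensional ℝ V] in
theorem an_inner {f g : V → V} {x : V} (hf : AnalyticAt ℝ f x) (hg : AnalyticAt ℝ g x) :
    AnalyticAt ℝ (fun y => ⟪f y, g y⟫) x :=
  ((innerSL ℝ (E := V)).analyticAt_bilinear (f x, g x)).comp₂ hf hg

omit [FiniteDimensional ℝ V] in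
theorem ball_sub (D : Fd Φ ξ0 ρ Γ F H) : ball ξ0 ρ ⊆ Star Γ ξ0 :=
  star_sub (convex_ball _ _) (mem_ball_self D.pos) D.sub

theorem cont (D : Fd Φ ξ0 ρ Γ F H) (W : Submodule ℝ V) {f : V → V}
    (hf : AnalyticOnNhd ℝ f (Star Γ ξ0)) (h : ∀ ξ ∈ ball ξ0 ρ, f ξ ∈ W) :
    ∀ ξ ∈ Star Γ ξ0, f ξ ∈ W := by
  intro ξ hξ
  rw [← W.orthogonal_orthogonal, Submodule.mem_orthogonal]
  intro w hw
  have ha : AnalyticOnNhd ℝ (fun η => ⟪w, f η⟫) (Star Γ ξ0) :=
    fun η hη => an_inner analyticAt_const (hf η hη)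
  exact ha.eqOn_zero_of_preconnected_of_eventuallyEq_zero (star_conn Γ ξ0)
    (ball_sub D (mem_ball_self D.pos))
    (mem_of_superset (ball_mem_nhds ξ0 D.pos) fun η hη =>
      Submodule.inner_left_of_mem_orthogonal (h η hη) hw) hξ

theorem curve (D : Fd Φ ξ0 ρ Γ F H) {ξ y u w : V} (hξ : ξ ∈ ball ξ0 ρ) {c : ℝ → V} (h0 : c 0 = ξ)
    (hc : HasDerivAt c w 0) (hp : ∀ᶠ s in 𝓝 (0 : ℝ), ⟪c s, y + s • u⟫ = 0) (hu : u ∈ Kil Φ y) :
    fderiv ℝ H ξ w y + H ξ u ∈ Kil Φ (H ξ y) := by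
  have h1 : HasFDerivAt H (fderiv ℝ H ξ) (c 0) :=
    h0 ▸ (D.anH ξ (ball_sub D hξ)).differentiableAt.hasFDerivAt
  have h2 : HasDerivAt (fun s : ℝ => y + s • u) u 0 := by
    simpa using ((hasDerivAt_id (0 : ℝ)).smul_const u).const_add y
  have h3 := (h1.comp_hasDerivAt 0 hc).clm_apply h2
  have h4 := (K2 (Φ := Φ) h3).2 (HasDerivAt.congr_of_eventuallyEq hu (by
    filter_upwards [hp, hc.continuousAt.eventually (isOpen_ball.mem_nhds (h0 ▸ hξ))] with s a b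
    exact D.d1 _ b _ a))
  simpa only [Function.comp, h0, zero_smul, add_zero] using h4

theorem e2 (D : Fd Φ ξ0 ρ Γ F H) {ξ y μ : V} (hξ : ξ ∈ ball ξ0 ρ) (hy : ⟪ξ, y⟫ = 0)
    (hμ : ⟪μ, y⟫ = 0) : fderiv ℝ H ξ μ y ∈ Kil Φ (H ξ y) := by
  have h2 : HasDerivAt (fun s : ℝ => ξ + s • μ) μ 0 := by
    simpa using ((hasDerivAt_id (0 : ℝ)).smul_const μ).const_add ξ
  have h := curve D (y := y) (u := 0) hξ (by simp) h2
    (Eventually.of_forall fun s => by simp [inner_add_left, inner_smul_left, hy, hμ]) (zero_mem _)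
  rwa [map_zero, add_zero] at h

theorem e3 (D : Fd Φ ξ0 ρ Γ F H) {ξ y u : V} (hξ : ξ ∈ ball ξ0 ρ) (hy : ⟪ξ, y⟫ = 0) (h0 : y ≠ 0)
    (hu : u ∈ Kil Φ y) : ⟪y, y⟫ • H ξ u - ⟪ξ, u⟫ • fderiv ℝ H ξ y y ∈ Kil Φ (H ξ y) := by
  have hn : ⟪y, y⟫ ≠ 0 := inner_self_ne_zero.2 h0
  have hq : DifferentiableAt ℝ (fun s : ℝ => ⟪y, y⟫ + s * ⟪y, u⟫) 0 := by fun_prop
  have hz : (fun s : ℝ => ⟪y, y⟫ + s * ⟪y, u⟫) 0 ≠ 0 := by simpa using h0
  have hg : DifferentiableAt ℝ (fun s : ℝ => ⟪ξ, u⟫ / (⟪y, y⟫ + s * ⟪y, u⟫)) 0 :=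
    (differentiableAt_const _).div hq hz
  have h1 := ((((hasDerivAt_id (0 : ℝ)).mul hg.hasDerivAt).smul_const y).const_sub ξ)
  have h := curve D (y := y) (u := u) hξ (by simp) h1 (by
    filter_upwards [hq.continuousAt.eventually_ne hz] with s hs
    simp only [Pi.mul_apply, id, inner_sub_left, inner_add_right, real_inner_smul_left,
      real_inner_smul_right, hy]
    field_simp
    ring) hu
  have h2 := Submodule.smul_mem _ ⟪y, y⟫ h
  simp only [id, zero_mul, add_zero, one_mul, map_neg, map_smul, ContinuousLinearMap.neg_apply,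
    ContinuousLinearMap.smul_apply, smul_add, smul_neg, smul_smul, mul_div_cancel₀ _ hn] at h2
  rwa [neg_add_eq_sub] at h2

theorem f2 (D : Fd Φ ξ0 ρ Γ F H) {ξ y μ : V} (hξ : ξ ∈ Star Γ ξ0) (hy : ⟪ξ, y⟫ = 0)
    (hμ : ⟪μ, y⟫ = 0) : fderiv ℝ H ξ μ y ∈ Kil Φ (H ξ y) := by
  rcases eq_or_ne y 0 with rfl | h0
  · rw [(fderiv ℝ H ξ μ).map_zero]
    exact Submodule.zero_mem _
  have hx := D.Hp ξ hξ y hy
  have h := cont D (Kil Φ (H ξ y)) (f := fun η => fderiv ℝ H η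
    (⟪y, F η (H ξ y)⟫ • μ - ⟪μ, F η (H ξ y)⟫ • y) (F η (H ξ y))) (fun η hη => by
      have a := an_app (D.anF η hη) (analyticAt_const (v := H ξ y))
      exact an_app (an_app (D.anH η hη).fderiv
        (((an_inner analyticAt_const a).smul analyticAt_const).sub
          ((an_inner analyticAt_const a).smul analyticAt_const))) a) (fun η hη => by
      have a := e2 D (μ := ⟪y, F η (H ξ y)⟫ • μ - ⟪μ, F η (H ξ y)⟫ • y) hη
        (D.Fp η (ball_sub D hη) _ hx)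
        (by rw [inner_sub_left, real_inner_smul_left, real_inner_smul_left]; ring)
      rwa [D.HF η (ball_sub D hη)] at a) ξ hξ
  simp only [D.FH ξ hξ, hμ, zero_smul, sub_zero, map_smul, ContinuousLinearMap.smul_apply] at h
  exact (Submodule.smul_mem_iff _ (inner_self_ne_zero.2 h0)).1 h

end DV2

open DV2 in
theorem bDV2 : St_DV2 := by
  intro V _ _ _ Φ ξ0 M ρ Γ F H hM hK D
  refine ⟨fun ξ hξ y μ hy hμ => f2 D hξ hy hμ, fun ξ hξ y h0 hy v z => ?_⟩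
  have hx := D.Hp ξ hξ y hy
  have h := cont D (Kil Φ (H ξ y)) (f := fun η =>
    ⟪F η (H ξ y), F η (H ξ y)⟫ • H η (M (F η (H ξ y)) v) -
      ⟪η, M (F η (H ξ y)) v⟫ • fderiv ℝ H η (F η (H ξ y)) (F η (H ξ y))) (fun η hη => by
      have a := an_app (D.anF η hη) (analyticAt_const (v := H ξ y))
      have b := an_app ((an_pol hM.choose_spec _).comp a) (analyticAt_const (v := v))
      exact ((an_inner a a).smul (an_app (D.anH η hη) b)).sub
        ((an_inner analyticAt_id b).smul (an_app (an_app (D.anH η hη).fderiv a) a)))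
    (fun η hη => by
      have hs := ball_sub D hη
      have hp := D.Fp η hs _ hx
      have hn : F η (H ξ y) ≠ 0 := fun k => h0 (by
        rw [← D.FH ξ hξ y, ← D.HF η hs (H ξ y), k, map_zero, map_zero])
      have a := e3 D hη hp hn (hK η hη _ hn hp v)
      rwa [D.HF η hs] at a) ξ hξ
  simp only [D.FH ξ hξ] at h
  have h2 := f2 D (μ := ⟪z, y⟫ • y - ⟪y, y⟫ • z) hξ hy
    (by rw [inner_sub_left, real_inner_smul_left, real_inner_smul_left]; ring)
  have h3 := add_mem (Submodule.smul_mem _ ⟪z, y⟫ h) (Submodule.smul_mem _ ⟪ξ, M y v⟫ h2)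
  refine (Submodule.smul_mem_iff _ (inner_self_ne_zero.2 h0 : ⟪y, y⟫ ≠ 0)).1 ?_
  have e : ⟪y, y⟫ • (⟪z, y⟫ • H ξ (M y v) - ⟪ξ, M y v⟫ • fderiv ℝ H ξ z y) =
      ⟪z, y⟫ • (⟪y, y⟫ • H ξ (M y v) - ⟪ξ, M y v⟫ • fderiv ℝ H ξ y y) +
        ⟪ξ, M y v⟫ • fderiv ℝ H ξ (⟪z, y⟫ • y - ⟪y, y⟫ • z) y := by
    simp only [map_sub, map_smul, ContinuousLinearMap.sub_apply, ContinuousLinearMap.smul_apply]
    module
  rwa [e]

end Pool.Agent.Lib.LB
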