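import Pool.Agent.Lib.LB.Basic

/-! Local Banach problem: the development on open convex cones. -/

set_option autoImplicit false

open Set Filter Topology Metric Module
open scoped RealInnerProductSpace ContDiff NNReal

noncomputable section

namespace Pool.Agent.Lib.LB

namespace DV3

variable {V : Type} [NormedAddCommGroup V] [InnerProductSpace ℝ V]

theorem ks_smul (δ : V → ℝ) (M : V → V →L[ℝ] V) (ξ : V) {t : ℝ} (ht : t ≠ 0) :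
    ks δ M (t • ξ) = ks δ M ξ := by
  ext A
  change (A (t • ξ) = 0 ∧ ∀ y, ⟪t • ξ, y⟫ = 0 → ⟪t • ξ, A y⟫ = 0 ∧ δ y • A y = M y (A y)) ↔
    (A ξ = 0 ∧ ∀ y, ⟪ξ, y⟫ = 0 → ⟪ξ, A y⟫ = 0 ∧ δ y • A y = M y (A y))
  simp [inner_smul_left, ht]

variable [FiniteDimensional ℝ V] {Φ : Seminorm ℝ V} {ξ0 : V} {M : V → V →L[ℝ] V} {ρ : ℝ} {Γ Ω : Set V}
  {F H : V → V →L[ℝ] V}

theorem t1 (hF : Fd Φ ξ0 ρ Γ F H) (hE : Fe Φ ξ0 M Γ H) (hΩ : Oc Ω) (hs : Ω ⊆ Star Γ ξ0) {ξ ξ' y : V}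
    (h : ξ ∈ Ω) (h' : ξ' ∈ Ω) (hy : ⟪ξ, y⟫ = 0) (hy' : ⟪ξ', y⟫ = 0) : Φ (H ξ y) = Φ (H ξ' y) := by
  have hm : ∀ t ∈ Icc (0 : ℝ) 1, ξ + t • (ξ' - ξ) ∈ Star Γ ξ0 := fun t ht =>
    hs (hΩ.cv.add_smul_sub_mem h h' ht)
  have hd : ∀ t ∈ Icc (0 : ℝ) 1, HasDerivAt (fun s : ℝ => H (ξ + s • (ξ' - ξ)) y)
      (fderiv ℝ H (ξ + t • (ξ' - ξ)) (ξ' - ξ) y) t := fun t ht => by
    have h1 : HasDerivAt (fun s : ℝ => ξ + s • (ξ' - ξ)) (ξ' - ξ) t := by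
      simpa using ((hasDerivAt_id t).smul_const (ξ' - ξ)).const_add ξ
    have h2 := (hF.anH _ (hm t ht)).differentiableAt.hasFDerivAt.comp_hasDerivAt t h1
    simpa using h2.clm_apply (hasDerivAt_const t y)
  have hμ : ⟪ξ' - ξ, y⟫ = 0 := by rw [inner_sub_left, hy, hy', sub_zero]
  have := K4 (Φ := Φ) (γ := fun s : ℝ => H (ξ + s • (ξ' - ξ)) y)
    (γ' := fun t => fderiv ℝ H (ξ + t • (ξ' - ξ)) (ξ' - ξ) y) zero_le_one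
    (fun t ht => (hd t ht).continuousAt.continuousWithinAt) (fun t ht => hd t (Ioo_subset_Icc_self ht))
    (fun t ht => K1 (hE.d2 _ (hm t (Ioo_subset_Icc_self ht)) y _
      (by rw [inner_add_left, inner_smul_left, hy, hμ]; simp) hμ))
  simpa using this.symm

theorem kil (hF : Fd Φ ξ0 ρ Γ F H) (hE : Fe Φ ξ0 M Γ H) (hΩ : Oc Ω) (hs : Ω ⊆ Star Γ ξ0) {ζ : V}
    {π : V →L[ℝ] V} (hC : Cp Φ ξ0 H Ω ζ π) {y v : V} (hy : ⟪ζ, y⟫ = 0) (hW : y ∈ Wd Ω)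
    (hv : ⟪ζ, M y v⟫ = 0) : M y v ∈ Kil (Φ.comp (π : V →ₗ[ℝ] V)) y := by
  obtain ⟨h0, ξ, hξ, hξy⟩ := hW
  have hk := hE.d3 ξ (hs hξ) y h0 hξy v y
  generalize M y v = u at hk hv
  have hyy : ⟪y, y⟫ ≠ 0 := fun h => h0 (inner_self_eq_zero.1 h)
  have h1 : HasDerivAt (fun s : ℝ => y + s • u) u 0 := by
    simpa using ((hasDerivAt_id (0 : ℝ)).smul_const u).const_add y
  have h2 : HasDerivAt (fun s : ℝ => ⟪y, y⟫ + s * ⟪y, u⟫) ⟪y, u⟫ 0 := by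
    simpa using ((hasDerivAt_id (0 : ℝ)).mul_const ⟪y, u⟫).const_add ⟪y, y⟫
  have h3 : HasDerivAt (fun s : ℝ => s * ⟪ξ, u⟫) ⟪ξ, u⟫ 0 := by
    simpa using (hasDerivAt_id (0 : ℝ)).mul_const ⟪ξ, u⟫
  have h4 : HasDerivAt (fun s : ℝ => s * ⟪ξ, u⟫ / (⟪y, y⟫ + s * ⟪y, u⟫)) (⟪ξ, u⟫ / ⟪y, y⟫) 0 := by
    refine (h3.div h2 (by simpa using h0)).congr_deriv ?_
    simp only [zero_mul, add_zero, sub_zero]
    field_simp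
  have h5 : HasDerivAt (fun s : ℝ => ξ - (s * ⟪ξ, u⟫ / (⟪y, y⟫ + s * ⟪y, u⟫)) • y)
      (-((⟪ξ, u⟫ / ⟪y, y⟫) • y)) 0 := (h4.smul_const y).const_sub ξ
  have e0 : ξ = (fun s : ℝ => ξ - (s * ⟪ξ, u⟫ / (⟪y, y⟫ + s * ⟪y, u⟫)) • y) 0 := by simp
  have h6 := (hF.anH _ (hs hξ)).differentiableAt.hasFDerivAt.comp_hasDerivAt_of_eq 0 h5 e0
  have h7 := h6.clm_apply h1
  have h8 : fderiv ℝ H ξ (-((⟪ξ, u⟫ / ⟪y, y⟫) • y)) y + H ξ u ∈ Kil Φ (H ξ y) := by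
    have e : fderiv ℝ H ξ (-((⟪ξ, u⟫ / ⟪y, y⟫) • y)) y + H ξ u =
        ⟪y, y⟫⁻¹ • (⟪y, y⟫ • H ξ u - ⟪ξ, u⟫ • fderiv ℝ H ξ y y) := by
      rw [smul_sub, smul_smul, smul_smul, inv_mul_cancel₀ hyy, one_smul, map_neg, map_smul,
        neg_apply, smul_apply, div_eq_inv_mul]
      abel
    rw [e]
    exact Submodule.smul_mem _ _ hk
  have h9 := (K2 (Φ := Φ) h7).1 (by simpa using h8)
  refine mem_Kil.2 (h9.congr_of_eventuallyEq ?_)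
  have g1 : ∀ᶠ s : ℝ in 𝓝 0, ξ - (s * ⟪ξ, u⟫ / (⟪y, y⟫ + s * ⟪y, u⟫)) • y ∈ Ω :=
    h5.continuousAt.eventually_mem (hΩ.op.mem_nhds (by simpa using hξ))
  have g2 : ∀ᶠ s : ℝ in 𝓝 0, ⟪y, y⟫ + s * ⟪y, u⟫ ≠ 0 :=
    h2.continuousAt.eventually_ne (by simpa using h0)
  filter_upwards [g1, g2] with s a1 a2
  refine hC.t1 _ a1 (y + s • u) ?_ (by rw [inner_add_right, inner_smul_right, hy, hv]; simp)
  rw [inner_sub_left, real_inner_smul_left, inner_add_right, inner_add_right, inner_smul_right,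
    inner_smul_right, hξy, div_mul_cancel₀ _ a2]
  ring

omit [FiniteDimensional ℝ V] in
theorem iso {ζ : V} {π : V →L[ℝ] V} (hu : IsUnit π) (h0 : ξ0 ≠ 0) (hC : Cp Φ ξ0 H Ω ζ π) :
    Iso Φ ξ0 (Φ.comp (π : V →ₗ[ℝ] V)) ζ := by
  obtain ⟨p, rfl⟩ := hu
  have hz : ζ ≠ 0 := fun h => h0 (by rw [← hC.H0, h, map_zero])
  have a1 : ∀ x, (p : V →L[ℝ] V) (((p⁻¹ : (V →L[ℝ] V)ˣ) : V →L[ℝ] V) x) = x := fun x => by
    rw [← mul_apply_eq_comp, p.mul_inv, one_apply_eq_self]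
  have a2 : ∀ x, ((p⁻¹ : (V →L[ℝ] V)ˣ) : V →L[ℝ] V) ((p : V →L[ℝ] V) x) = x := fun x => by
    rw [← mul_apply_eq_comp, p.inv_mul, one_apply_eq_self]
  refine ⟨((p⁻¹ : (V →L[ℝ] V)ˣ) : V →L[ℝ] V), p⁻¹.isUnit, by rw [← hC.H0, a2], fun x hx => ⟨?_, ?_⟩⟩
  · generalize hw : ((p⁻¹ : (V →L[ℝ] V)ˣ) : V →L[ℝ] V) x = w
    have hx' : (p : V →L[ℝ] V) w = x := by rw [← hw, a1]
    have hzz : ⟪ζ, ζ⟫ ≠ 0 := fun h => hz (inner_self_eq_zero.1 h)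
    have h1 := hC.Hp (w - (⟪ζ, w⟫ / ⟪ζ, ζ⟫) • ζ)
      (by rw [inner_sub_right, inner_smul_right, div_mul_cancel₀ _ hzz, sub_self])
    rw [map_sub, map_smul, hx', hC.H0, inner_sub_right, inner_smul_right, hx, zero_sub, neg_eq_zero,
      mul_eq_zero, div_eq_zero_iff] at h1
    rcases h1 with (h1 | h1) | h1
    · exact h1
    · exact absurd h1 hzz
    · exact absurd (inner_self_eq_zero.1 h1) h0
  · exact congrArg Φ (a1 x)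

end DV3

theorem bDV3 (hGDIM : St_GDIM) (hKG : St_KG) : St_DV3 := by
  intro V _ _ _ Φ ξ0 δ M ρ G L F H hR hS hF hE
  refine ⟨hF.pos, hF.op, fun ξ hξ t ht => ⟨smul_ne_zero ht.ne' hξ.1, ?_⟩, hF.nz, hF.sub, hF.d1,
    fun Ω hΩ hs h0 => ?_, fun Ω hΩ hs h0 ζ π hu hC hd => ?_⟩
  · rw [DV3.ks_smul δ M ξ ht.ne']
    exact hξ.2
  · have hs' := star_sub hΩ.cv h0 hs
    refine ⟨hΩ, h0, fun ξ hξ => (hF.anH ξ (hs' hξ)).continuousAt, fun ξ hξ => ?_, fun ξ hξ => ?_,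
      fun ξ hξ => hF.Hp ξ (hs' hξ), fun ξ hξ ξ' hξ' y => DV3.t1 hF hE hΩ hs' hξ hξ'⟩
    · exact ⟨⟨H ξ, F ξ, ContinuousLinearMap.ext (hF.HF ξ (hs' hξ)),
        ContinuousLinearMap.ext (hF.FH ξ (hs' hξ))⟩, rfl⟩
    · have := hF.HF ξ (hs' hξ) ξ0
      rwa [hF.F0 ξ (hs' hξ)] at this
  · have hs' := star_sub hΩ.cv h0 hs
    have h00 := hΩ.nz ξ0 h0
    have hz : ζ ≠ 0 := fun h => h00 (by rw [← hC.H0, h, map_zero])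
    refine ⟨hz, le_antisymm ?_ (hS.le ζ hz)⟩
    rw [← hGDIM V Φ _ ξ0 ζ h00 (DV3.iso hu h00 hC)]
    exact Submodule.finrank_mono (hKG V _ δ M ζ _ hR.pδ (hR.sat ζ hz) (fun y hy => hy.1) hd
      fun y hy v hv => DV3.kil hF hE hΩ hs' hC hy.1 hy.2 hv)

end Pool.Agent.Lib.LB
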