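import Pool.Agent.Lib.LB.Blue

/-! Local Banach problem: locally Euclidean sections give one quadratic form near a point. -/

set_option autoImplicit false

open Set Filter Topology Metric Module

noncomputable section

namespace Pool.Agent.Lib.LB

universe u v

namespace EU1

variable {V : Type v} [NormedAddCommGroup V] [NormedSpace ℝ V]

/-- The second difference of the squared norm. -/
def dd (h k y : V) : ℝ := ‖y + h + k‖ ^ 2 - ‖y + h‖ ^ 2 - ‖y + k‖ ^ 2 + ‖y‖ ^ 2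

/-- The polarisation of the squared norm. -/
def ga (a b : V) : ℝ := ‖a + b‖ ^ 2 - ‖a‖ ^ 2 - ‖b‖ ^ 2

omit [NormedSpace ℝ V] in
theorem dd_comm (h k y : V) : dd h k y = dd k h y := by
  unfold dd
  rw [add_right_comm y h k]
  ring

omit [NormedSpace ℝ V] in
theorem dd_add (h h' k y : V) : dd (h + h') k y = dd h k (y + h') + dd h' k y := by
  unfold dd
  have e1 : y + (h + h') = y + h' + h := by abel
  rw [e1]
  ring

omit [NormedSpace ℝ V] in
theorem dd_add' (h k k' y : V) : dd h (k + k') y = dd h k (y + k') + dd h k' y := by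
  rw [dd_comm, dd_add, dd_comm k, dd_comm k']

theorem small (a : V) {ε : ℝ} (hε : 0 < ε) : ∃ δ > 0, ∀ s : ℝ, |s| < δ → ‖s • a‖ < ε := by
  refine ⟨ε / (‖a‖ + 1), by positivity, fun s hs => ?_⟩
  rw [norm_smul, Real.norm_eq_abs]
  rw [lt_div_iff₀ (by positivity)] at hs
  nlinarith [abs_nonneg s, norm_nonneg a]

theorem base {E : Type u} [NormedAddCommGroup E] [NormedSpace ℝ E] [FiniteDimensional ℝ E]
    (T : E →L[ℝ] V) (r : ℝ) (h3 : 3 ≤ finrank ℝ E) (hr : 0 < r)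
    (hT : ∀ T' : E →L[ℝ] V, ‖T' - T‖ < r → ∃ b : E →ₗ[ℝ] E →ₗ[ℝ] ℝ, ∀ x, ‖T' x‖ ^ 2 = b x x) :
    ∃ (x0 : E) (a1 a2 : V) (ρ : ℝ), x0 ≠ 0 ∧ 0 < ρ ∧ ∀ y a b : V, ‖y - T x0‖ < ρ → ‖a - a1‖ < ρ →
      ‖b - a2‖ < ρ → ∀ s t : ℝ, dd (s • a) (t • b) y = s * t * ga a b := by
  let e := Module.finBasis ℝ E
  let i0 : Fin (finrank ℝ E) := ⟨0, by omega⟩
  let i1 : Fin (finrank ℝ E) := ⟨1, by omega⟩
  let i2 : Fin (finrank ℝ E) := ⟨2, by omega⟩
  let φ : Fin (finrank ℝ E) → E →L[ℝ] ℝ := fun i => LinearMap.toContinuousLinearMap (e.coord i)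
  have hφ : ∀ i j, φ i (e j) = if j = i then 1 else 0 := fun i j => by
    simp [φ, Finsupp.single_apply]
  have n01 : i0 ≠ i1 := by simp [i0, i1, Fin.ext_iff]
  have n02 : i0 ≠ i2 := by simp [i0, i2, Fin.ext_iff]
  have n12 : i1 ≠ i2 := by simp [i1, i2, Fin.ext_iff]
  have hK : 0 < ‖φ i0‖ + ‖φ i1‖ + ‖φ i2‖ + 1 := by positivity
  refine ⟨e i0, T (e i1), T (e i2), r / (‖φ i0‖ + ‖φ i1‖ + ‖φ i2‖ + 1), e.ne_zero i0,
    by positivity, fun y a b hy ha hb s t => ?_⟩
  obtain ⟨B, hB⟩ := hT (T + ((φ i0).smulRight (y - T (e i0)) + (φ i1).smulRight (a - T (e i1)) +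
    (φ i2).smulRight (b - T (e i2)))) (by
      rw [add_sub_cancel_left]
      refine (norm_add₃_le).trans_lt ?_
      simp only [ContinuousLinearMap.norm_smulRight_apply]
      set ρ := r / (‖φ i0‖ + ‖φ i1‖ + ‖φ i2‖ + 1) with hρ
      have h0 : 0 < ρ := by positivity
      have h1 : ρ * (‖φ i0‖ + ‖φ i1‖ + ‖φ i2‖ + 1) = r := by rw [hρ]; field_simp
      have b0 := mul_le_mul_of_nonneg_left hy.le (norm_nonneg (φ i0))
      have b1 := mul_le_mul_of_nonneg_left ha.le (norm_nonneg (φ i1))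
      have b2 := mul_le_mul_of_nonneg_left hb.le (norm_nonneg (φ i2))
      nlinarith)
  generalize hT' : T + ((φ i0).smulRight (y - T (e i0)) + (φ i1).smulRight (a - T (e i1)) +
    (φ i2).smulRight (b - T (e i2))) = T' at hB
  have e0 : T' (e i0) = y := by
    rw [← hT']
    simp [hφ, n01, n02]
  have e1 : T' (e i1) = a := by
    rw [← hT']
    simp [hφ, n01.symm, n12]
  have e2 : T' (e i2) = b := by
    rw [← hT']
    simp [hφ, n02.symm, n12.symm]
  unfold dd ga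
  rw [← e0, ← e1, ← e2]
  simp only [← map_smul, ← map_add, hB]
  simp only [map_add, map_smul, LinearMap.add_apply, LinearMap.smul_apply, smul_eq_mul]
  ring

theorem key {p a1 a2 : V} {ρ : ℝ} (hρ : 0 < ρ)
    (h : ∀ y a b : V, ‖y - p‖ < ρ → ‖a - a1‖ < ρ → ‖b - a2‖ < ρ →
      ∀ s t : ℝ, dd (s • a) (t • b) y = s * t * ga a b) (f k : V) :
    ∃ β : ℝ, ∃ δ > 0, ∀ s t : ℝ, |s| < δ → |t| < δ → ∀ y, ‖y - p‖ < ρ / 2 →
      dd (s • f) (t • k) y = s * t * β := by
  obtain ⟨c, hc, hc'⟩ := small f hρ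
  obtain ⟨d, hd, hd'⟩ := small k hρ
  have ha : ‖(a1 + (c / 2) • f) - a1‖ < ρ := by
    rw [add_sub_cancel_left]
    exact hc' _ (by rw [abs_of_pos (by positivity)]; linarith)
  have hb : ‖(a2 + (d / 2) • k) - a2‖ < ρ := by
    rw [add_sub_cancel_left]
    exact hd' _ (by rw [abs_of_pos (by positivity)]; linarith)
  have ha0 : ‖a1 - a1‖ < ρ := by simpa using hρ
  have hb0 : ‖a2 - a2‖ < ρ := by simpa using hρ
  obtain ⟨δ1, h1, h1'⟩ := small ((-(2 / c)) • a1) (show 0 < ρ / 4 by positivity)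
  obtain ⟨δ2, h2, h2'⟩ := small ((-(2 / d)) • a2) (show 0 < ρ / 4 by positivity)
  refine ⟨2 / c * (2 / d) * (ga (a1 + (c / 2) • f) (a2 + (d / 2) • k) - ga (a1 + (c / 2) • f) a2 -
    ga a1 (a2 + (d / 2) • k) + ga a1 a2), min δ1 δ2, lt_min h1 h2, fun s t hs ht y hy => ?_⟩
  have s1 := h1' s (hs.trans_le (min_le_left _ _))
  have t1 := h2' t (ht.trans_le (min_le_right _ _))
  rw [smul_smul] at s1 t1
  have e1 : s • f = (s * (2 / c)) • (a1 + (c / 2) • f) + (s * -(2 / c)) • a1 := by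
    have : s * (2 / c) * (c / 2) = s := by field_simp
    rw [smul_add, smul_smul, this, mul_neg, neg_smul]
    abel
  have e2 : t • k = (t * (2 / d)) • (a2 + (d / 2) • k) + (t * -(2 / d)) • a2 := by
    have : t * (2 / d) * (d / 2) = t := by field_simp
    rw [smul_add, smul_smul, this, mul_neg, neg_smul]
    abel
  have n1 : ∀ z w : V, ‖z‖ < ρ / 4 → ‖w‖ < ρ / 4 → ‖y + z + w - p‖ < ρ := fun z w hz hw => by
    have e : y + z + w - p = (y - p) + z + w := by abel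
    rw [e]
    exact norm_add₃_le.trans_lt (by linarith)
  have z0 : ‖(0 : V)‖ < ρ / 4 := by rw [norm_zero]; positivity
  have y1 := n1 _ _ s1 t1
  have y2 := n1 _ _ s1 z0
  have y3 := n1 _ _ t1 z0
  rw [add_zero] at y2 y3
  rw [e1, e2, dd_add, dd_add', dd_add', h _ _ _ y1 ha hb, h _ _ _ y2 ha hb0, h _ _ _ y3 ha0 hb,
    h _ _ _ (hy.trans (by linarith)) ha0 hb0]
  ring

end EU1

open EU1 in
theorem bEU1 : St_EU1.{u, v} := by
  intro E V _ _ _ _ _ T r h3 hr hT
  obtain ⟨x0, a1, a2, ρ, hx, hρ, h⟩ := base T r h3 hr hT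
  choose β δ hδ hβ using key hρ h
  have hp : ‖T x0 - T x0‖ < ρ / 2 := by rw [sub_self, norm_zero]; positivity
  have ex : ∀ a b c : ℝ, 0 < a → 0 < b → 0 < c → ∃ s : ℝ, 0 < s ∧ |s| < a ∧ |s| < b ∧ |s| < c :=
    fun a b c ha hb hc => by
      have h0 : 0 < min a (min b c) := lt_min ha (lt_min hb hc)
      have h1 := min_le_left a (min b c)
      have h2 := (min_le_right a (min b c)).trans (min_le_left b c)
      have h3 := (min_le_right a (min b c)).trans (min_le_right b c)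
      refine ⟨min a (min b c) / 2, by positivity, ?_, ?_, ?_⟩ <;>
        rw [abs_of_pos (by positivity)] <;> linarith
  have sy : ∀ f k, β f k = β k f := fun f k => by
    obtain ⟨s, h0, h1, h2, -⟩ := ex _ _ _ (hδ f k) (hδ k f) one_pos
    have e1 := hβ f k s s h1 h1 _ hp
    rw [dd_comm, hβ k f s s h2 h2 _ hp] at e1
    exact (mul_left_cancel₀ (by positivity) e1).symm
  have ad : ∀ f f' k, β (f + f') k = β f k + β f' k := fun f f' k => by
    obtain ⟨c, hc, hc'⟩ := small f' (show 0 < ρ / 2 by positivity)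
    obtain ⟨s, h0, h1, h2, h4⟩ := ex _ _ _ (hδ (f + f') k) (hδ f k) (lt_min (hδ f' k) hc)
    have h5 := h4.trans_le (min_le_left _ _)
    have h6 := hc' s (h4.trans_le (min_le_right _ _))
    have e1 := hβ (f + f') k s s h1 h1 _ hp
    rw [smul_add, dd_add, hβ f k s s h2 h2 _ (by rwa [add_sub_cancel_left]),
      hβ f' k s s h5 h5 _ hp, ← mul_add] at e1
    exact (mul_left_cancel₀ (by positivity) e1).symm
  have sm : ∀ (c : ℝ) f k, β (c • f) k = c * β f k := fun c f k => by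
    obtain ⟨d, hd, hd'⟩ := small c (hδ f k)
    obtain ⟨s, h0, h1, h2, h4⟩ := ex _ _ _ (hδ (c • f) k) (hδ f k) hd
    have h5 : |s * c| < δ f k := hd' s h4
    have e1 := hβ (c • f) k s s h1 h1 _ hp
    rw [smul_smul, hβ f k _ s h5 h2 _ hp] at e1
    refine mul_left_cancel₀ (show s * s ≠ 0 by positivity) ?_
    rw [← e1]
    ring
  refine ⟨LinearMap.mk₂ ℝ (fun f k => β f k / 2) (fun f f' k => by rw [ad]; ring)
    (fun c f k => by rw [sm, smul_eq_mul]; ring)
    (fun f k k' => by rw [sy, ad, sy k, sy k']; ring)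
    (fun c f k => by rw [sy, sm, sy k, smul_eq_mul]; ring), x0, ρ / 2, hx, by positivity,
    fun y z => by simp only [LinearMap.mk₂_apply, sy y z], fun y hy => ?_⟩
  obtain ⟨s, h0, h1, -, -⟩ := ex _ _ _ (hδ y y) one_pos one_pos
  have e1 := hβ y y s s h1 h1 y hy
  have e2 : y + s • y = (1 + s) • y := by rw [add_smul, one_smul]
  have e3 : (1 + s) • y + s • y = (1 + s + s) • y := by rw [← add_smul]
  unfold dd at e1
  rw [e2, e3, norm_smul, norm_smul, mul_pow, mul_pow, Real.norm_eq_abs, Real.norm_eq_abs, sq_abs,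
    sq_abs] at e1
  rw [LinearMap.mk₂_apply]
  refine mul_left_cancel₀ (show 2 * (s * s) ≠ 0 by positivity) ?_
  linarith

end Pool.Agent.Lib.LB
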