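import Pool.Agent.Lib.LB.Blue

/-! Local Banach problem, row EU2: one quadratic form for a connected family. -/

set_option autoImplicit false

open Set Filter Topology Metric Module

noncomputable section

namespace Pool.Agent.Lib.LB

universe u v

namespace EU2

variable {W : Type*} [NormedAddCommGroup W] [NormedSpace ℝ W]

theorem three {p : W → Prop} {y : W} (h : ∀ᶠ x in 𝓝 y, p x) (z : W) :
    ∃ t : ℝ, 0 < t ∧ p (y + t • z) ∧ p (y - t • z) := by
  have c1 : Tendsto (fun t : ℝ => y + t • z) (𝓝 0) (𝓝 y) :=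
    (by fun_prop : Continuous fun t : ℝ => y + t • z).tendsto' _ _ (by simp)
  have c2 : Tendsto (fun t : ℝ => y - t • z) (𝓝 0) (𝓝 y) :=
    (by fun_prop : Continuous fun t : ℝ => y - t • z).tendsto' _ _ (by simp)
  obtain ⟨t, h1, h2⟩ := (((c1.eventually h).and (c2.eventually h)).filter_mono
    (nhdsWithin_le_nhds (s := Ioi 0))).and self_mem_nhdsWithin |>.exists
  exact ⟨t, h2, h1⟩

theorem par (B : W →ₗ[ℝ] W →ₗ[ℝ] ℝ) (y z : W) (t : ℝ) :
    B (y + t • z) (y + t • z) + B (y - t • z) (y - t • z) = 2 * B y y + 2 * t ^ 2 * B z z := by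
  simp only [map_add, map_sub, map_smul, LinearMap.add_apply, LinearMap.sub_apply,
    LinearMap.smul_apply, smul_eq_mul]
  ring

theorem ext {B B' : W →ₗ[ℝ] W →ₗ[ℝ] ℝ} {y : W} (h : ∀ᶠ x in 𝓝 y, B x x = B' x x) (z : W) :
    B z z = B' z z := by
  obtain ⟨t, t0, h1, h2⟩ := three h z
  have a := par B y z t
  rw [h1, h2, par, h.self_of_nhds] at a
  exact (mul_left_cancel₀ (by positivity) (add_left_cancel a)).symm

theorem pos {B : W →ₗ[ℝ] W →ₗ[ℝ] ℝ} {y : W} (h : ∀ᶠ x in 𝓝 y, ‖x‖ ^ 2 = B x x) (z : W) :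
    0 ≤ B z z := by
  obtain ⟨t, t0, h1, h2⟩ := three h z
  have a := par B y z t
  rw [← h1, ← h2, ← h.self_of_nhds] at a
  have b : 2 * ‖y‖ ≤ ‖y + t • z‖ + ‖y - t • z‖ := by
    refine le_trans (le_of_eq ?_) (norm_add_le _ _)
    rw [add_add_sub_cancel, ← two_smul ℝ, norm_smul, Real.norm_two]
  have c : 0 ≤ 2 * t ^ 2 * B z z := by
    nlinarith [norm_nonneg y, sq_nonneg (‖y + t • z‖ - ‖y - t • z‖),
      mul_self_le_mul_self (by positivity) b]
  exact nonneg_of_mul_nonneg_right c (by positivity)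

variable {E V : Type*} [NormedAddCommGroup E] [NormedSpace ℝ E] [NormedAddCommGroup V]
  [NormedSpace ℝ V]

/-- The images of the maps near `T` cover a neighbourhood of `T x`. -/
theorem cover {p : V → Prop} {T : E →L[ℝ] V} {x : E} (hx : x ≠ 0)
    (h : ∀ᶠ S in 𝓝 T, ∀ w, p (S w)) : ∀ᶠ y in 𝓝 (T x), p y := by
  obtain ⟨φ, -, hφ⟩ := exists_dual_vector ℝ x (norm_ne_zero_iff.2 hx)
  have c : Tendsto (fun y : V => T + φ.smulRight (‖x‖⁻¹ • (y - T x))) (𝓝 (T x)) (𝓝 T) :=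
    (continuous_const.add ((ContinuousLinearMap.smulRightL ℝ E V φ).continuous.comp
      (by fun_prop : Continuous fun y : V => ‖x‖⁻¹ • (y - T x)))).tendsto' _ _ (by simp)
  filter_upwards [c.eventually h] with y hy
  have := hy x
  rwa [add_apply, ContinuousLinearMap.smulRight_apply, hφ, smul_smul,
    RCLike.ofReal_real_eq_id, id, mul_inv_cancel₀ (norm_ne_zero_iff.2 hx), one_smul,
    add_sub_cancel] at this

end EU2

open EU2 in
theorem bEU2 (h1 : St_EU1.{u, v}) : St_EU2.{u, v} := by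
  intro E V _ _ _ _ _ U h3 hU hc ⟨T₀, h0⟩ hb
  have loc : ∀ T ∈ U, ∃ (B : V →ₗ[ℝ] V →ₗ[ℝ] ℝ) (x : E), x ≠ 0 ∧ (∀ y z, B y z = B z y) ∧
      ∀ᶠ S in 𝓝 T, ∀ w, ‖S w‖ ^ 2 = B (S w) (S w) := fun T hT => by
    obtain ⟨r, r0, hr⟩ := Metric.isOpen_iff.1 hU T hT
    obtain ⟨B, x, ε, x0, ε0, hs, hB⟩ := h1 E V T r h3 r0 fun S hS =>
      hb S (hr (mem_ball_iff_norm.2 hS))
    refine ⟨B, x, x0, hs, ?_⟩
    have c : ContinuousAt (fun S : E →L[ℝ] V => S x) T := by fun_prop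
    filter_upwards [hU.mem_nhds hT, c.eventually (ball_mem_nhds _ ε0)] with S hS h w
    obtain ⟨b, hb'⟩ := hb S hS
    rw [hb']
    refine ext (B' := B.compl₁₂ S S) (y := x) ?_ w
    filter_upwards [S.continuous.continuousAt.eventually (isOpen_ball.mem_nhds h)] with y hy
    rw [← hb']
    exact hB _ (mem_ball_iff_norm.1 hy)
  obtain ⟨B, x, x0, hs, hB⟩ := loc T₀ h0
  refine ⟨B, hs, pos (cover (p := fun y => ‖y‖ ^ 2 = B y y) x0 hB), fun T hT => ?_⟩
  have key := hc.subset_of_closure_inter_subset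
    (u := {T : E →L[ℝ] V | ∀ᶠ S : E →L[ℝ] V in 𝓝 T, ∀ w : E, ‖S w‖ ^ 2 = B (S w) (S w)})
    isOpen_setOfPred_eventually_nhds
    ⟨T₀, h0, hB⟩ fun T' hT' => by
      obtain ⟨B', -, -, -, hB'⟩ := loc T' hT'.2
      obtain ⟨S, a1, a2⟩ := mem_closure_iff_nhds.1 hT'.1 _ hB'.eventually_nhds
      have e := ext ((cover (p := fun y => B' y y = B y y) x0
        ((a1.and a2).mono fun R hR w => (hR.1 w).symm.trans (hR.2 w))))
      exact hB'.mono fun R hR w => (hR w).trans (e _)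
  exact (key hT).self_of_nhds

end Pool.Agent.Lib.LB
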