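import Pool.Agent.Lib.LB.Blue

/-! Local Banach problem: block EX1. -/

set_option autoImplicit false

open Set Filter Topology Metric Module
open scoped RealInnerProductSpace ContDiff NNReal

noncomputable section

namespace Pool.Agent.Lib.LB

theorem EX1.perp {V : Type} [NormedAddCommGroup V] [InnerProductSpace ℝ V] [FiniteDimensional ℝ V]
    (h : 3 ≤ finrank ℝ V) (a c : V) : ∃ y, ⟪a, y⟫ = 0 ∧ ∀ t : ℝ, y ≠ t • c := by
  by_contra hc
  have hle : (ℝ ∙ a)ᗮ ≤ ℝ ∙ c := fun y hy => by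
    by_contra hn
    refine hc ⟨y, Submodule.mem_orthogonal_singleton_iff_inner_right.1 hy, fun t ht => hn ?_⟩
    exact Submodule.mem_span_singleton.2 ⟨t, ht.symm⟩
  have h1 := Submodule.finrank_mono hle
  have h2 := Submodule.finrank_add_finrank_orthogonal (ℝ ∙ a)
  have h3 : ∀ v : V, finrank ℝ (ℝ ∙ v) ≤ 1 := fun v => by
    simpa using finrank_span_le_card (R := ℝ) ({v} : Set V)
  have h4 := h3 a
  have h5 := h3 c
  omega

theorem bEX1 (hBIP : St_BIP) (hLIM : St_LIM) (hLB : St_LB) (hCL : St_CL) : St_EX1 := by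
  intro V _ _ _ Φ ξ0 ρ Γ H Ω h3 hΦ hDv hΩ hΩΓ h0 hmax l p hp hp1 hexp hne
  obtain ⟨-, b2, b3, b4, -, -, -, -⟩ := hBIP V Ω hΩ ⟨ξ0, h0⟩
  have hCn : Cn Φ ξ0 H Ω := hDv.cn Ω hΩ hΩΓ h0
  set ζ : V := ⟪l, p⟫ • ξ0 - l with hζ
  have inn : ∀ y, ⟪ζ, y⟫ = ⟪l, p⟫ * ⟪ξ0, y⟫ - ⟪l, y⟫ := fun y => by
    rw [hζ, inner_sub_left, real_inner_smul_left]
  have key : ∀ y ∈ Kd Ω, y ≠ 0 → 0 < ⟪ζ, y⟫ ∨ ∃ t : ℝ, 0 < t ∧ y = t • p := fun y hy hy0 => by
    have ht : 0 < ⟪ξ0, y⟫ := b4 y hy hy0 ξ0 h0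
    set t : ℝ := ⟪ξ0, y⟫ with htd
    have hy' : t⁻¹ • y ∈ Kd Ω := fun ξ hξ => by
      rw [real_inner_smul_right]
      exact mul_nonneg (inv_nonneg.2 ht.le) (hy ξ hξ)
    have h1 : ⟪ξ0, t⁻¹ • y⟫ = 1 := by
      rw [real_inner_smul_right, ← htd, inv_mul_cancel₀ ht.ne']
    by_cases he : t⁻¹ • y = p
    · refine Or.inr ⟨t, ht, ?_⟩
      rw [← he, smul_smul, mul_inv_cancel₀ ht.ne', one_smul]
    · left
      have h2 := hexp _ hy' h1 he
      rw [real_inner_smul_right, inv_mul_lt_iff₀ ht] at h2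
      rw [inn]
      linarith [mul_comm t ⟪l, p⟫]
  have hζp : ⟪ζ, p⟫ = 0 := by rw [inn, hp1]; ring
  have hp0 : p ≠ 0 := fun h => by simp [h] at hp1
  have hcl : ζ ∈ closure Ω := (b2 ζ).2 fun y hy => by
    by_cases hy0 : y = 0
    · simp [hy0]
    rcases key y hy hy0 with h | ⟨t, -, rfl⟩
    · exact h.le
    · rw [real_inner_smul_right, hζp, mul_zero]
  have hno : ζ ∉ Ω := fun h => by
    have := b4 p hp hp0 ζ h
    rw [hζp] at this
    exact lt_irrefl _ this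
  obtain ⟨y1, hy1, hy11, hy1p⟩ := hne
  have hpos : 0 < ⟪ζ, y1⟫ := by
    have := hexp y1 hy1 hy11 hy1p
    rw [inn, hy11]
    linarith
  have hneg : -ζ ∉ closure Ω := fun h => by
    have := (b2 _).1 h y1 hy1
    rw [inner_neg_left] at this
    linarith
  have hζ0 : ζ ≠ 0 := fun h => by simp [h] at hpos
  have hΓ : ζ ∉ Γ := hmax ζ hcl hno hneg
  obtain ⟨π, hπ⟩ := (hLB V Φ ξ0 H Ω h3 hΦ hCn).2 ζ hcl hζ0
  have line : ∀ y ∈ Kd Ω, ⟪ζ, y⟫ = 0 → ∃ t : ℝ, y = t • p := fun y hy hy0 => by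
    by_cases h : y = 0
    · exact ⟨0, by simp [h]⟩
    rcases key y hy h with h' | ⟨t, -, ht⟩
    · rw [hy0] at h'
      exact absurd h' (lt_irrefl _)
    · exact ⟨t, ht⟩
  have inW : ∀ y, ⟪ζ, y⟫ = 0 → (∀ t : ℝ, y ≠ t • p) → y ∈ Wd Ω := fun y hy hn => by
    refine (b3 y).2 ⟨fun h => ?_, fun h => ?_⟩
    · obtain ⟨t, ht⟩ := line y h hy
      exact hn t ht
    · obtain ⟨t, ht⟩ := line (-y) h (by rw [inner_neg_right, hy, neg_zero])
      exact hn (-t) (by rw [neg_smul, ← ht, neg_neg])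
  have hnu : ¬IsUnit π := fun hu => by
    refine hΓ (hDv.ii Ω hΩ hΩΓ h0 ζ π hu ((hLIM V Φ ξ0 H Ω hCn).1 ζ π hπ).2.2 fun y hy => ?_)
    by_cases hyl : ∀ t : ℝ, y ≠ t • p
    · exact subset_closure ⟨hy, inW y hy hyl⟩
    obtain ⟨t, ht⟩ : ∃ t : ℝ, y = t • p := by
      by_contra hc
      exact hyl fun t h => hc ⟨t, h⟩
    obtain ⟨w, hw, hwn⟩ := EX1.perp h3 ζ p
    have hc : Continuous fun s : ℝ => y + s • w := by fun_prop
    have hT : Tendsto (fun s : ℝ => y + s • w) (𝓝[≠] 0) (𝓝 y) := by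
      have h := hc.tendsto 0
      simp only [zero_smul, add_zero] at h
      exact h.mono_left nhdsWithin_le_nhds
    refine mem_closure_of_tendsto hT ?_
    filter_upwards [self_mem_nhdsWithin] with s hs
    have hs0 : s ≠ 0 := hs
    have hin : ⟪ζ, y + s • w⟫ = 0 := by
      rw [inner_add_right, real_inner_smul_right, hy, hw]
      ring
    refine ⟨hin, inW _ hin fun t' h => hwn (s⁻¹ * (t' - t)) ?_⟩
    have e : s • w = (t' - t) • p := by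
      rw [sub_smul, ← h, ← ht]
      abel
    rw [mul_smul, ← e, smul_smul, inv_mul_cancel₀ hs0, one_smul]
  obtain ⟨z, hz, hz0, hζz, hπz⟩ := (hCL V Φ ξ0 H Ω h3 hΦ hCn ζ π hπ).1 hnu
  obtain ⟨t, rfl⟩ := line z hz hζz
  refine ⟨π, hπ, ?_⟩
  rw [map_smul] at hπz
  rcases smul_eq_zero.1 hπz with h | h
  · exact absurd (by rw [h, zero_smul]) hz0
  · exact h

end Pool.Agent.Lib.LB
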