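import Pool.Agent.Lib.LB.Blue

/-! Block EXP: a maximiser on the base of the dual cone killed by a limit of the development. -/

set_option autoImplicit false

open Set Filter Topology Metric Module
open scoped RealInnerProductSpace

noncomputable section

namespace Pool.Agent.Lib.LB

namespace EXP

theorem base_cpt {V : Type} [NormedAddCommGroup V] [InnerProductSpace ℝ V] [FiniteDimensional ℝ V]
    {Ω : Set V} {ξ0 : V} (hO : IsOpen Ω) (h0 : ξ0 ∈ Ω) (hc : IsClosed (Kd Ω)) :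
    IsCompact {y | y ∈ Kd Ω ∧ ⟪ξ0, y⟫ = 1} := by
  obtain ⟨ε, hε, hb⟩ := Metric.isOpen_iff.1 hO ξ0 h0
  refine Metric.isCompact_of_isClosed_isBounded
    (hc.inter (isClosed_eq (continuous_const.inner continuous_id) continuous_const)) ?_
  refine (isBounded_closedBall (x := (0 : V)) (r := 2 / ε)).subset fun y hy => ?_
  rw [mem_closedBall_zero_iff]
  rcases eq_or_ne y 0 with rfl | hy0
  · rw [norm_zero]; positivity
  have hn : 0 < ‖y‖ := norm_pos_iff.2 hy0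
  have hm : ξ0 - (ε / 2 / ‖y‖) • y ∈ Ω := by
    refine hb ?_
    rw [mem_ball, dist_eq_norm, sub_sub_cancel_left, norm_neg, norm_smul, Real.norm_eq_abs,
      abs_of_pos (by positivity), div_mul_cancel₀ _ hn.ne']
    linarith
  have h1 := hy.1 _ hm
  rw [inner_sub_left, real_inner_smul_left, real_inner_self_eq_norm_sq, hy.2] at h1
  have h2 : ε / 2 / ‖y‖ * ‖y‖ ^ 2 = ε / 2 * ‖y‖ := by field_simp
  rw [h2] at h1
  rw [le_div_iff₀ hε]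
  linarith

theorem exposed {V : Type} [NormedAddCommGroup V] [InnerProductSpace ℝ V] {l p y : V} {t : ℝ}
    (ht : 0 < t) (hne : y ≠ p) (h : ⟪l, y⟫ + t / 2 * ‖y‖ ^ 2 ≤ ⟪l, p⟫ + t / 2 * ‖p‖ ^ 2) :
    ⟪l + t • p, y⟫ < ⟪l + t • p, p⟫ := by
  rw [inner_add_left, inner_add_left, real_inner_smul_left, real_inner_smul_left,
    real_inner_self_eq_norm_sq]
  have h1 : 0 < ‖p - y‖ ^ 2 := pow_pos (norm_pos_iff.2 (sub_ne_zero.2 hne.symm)) 2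
  rw [norm_sub_sq_real] at h1
  nlinarith [mul_pos ht h1]

end EXP

theorem bEXP (hBIP : St_BIP) (hLB : St_LB) (hEX1 : St_EX1) : St_EXP := by
  intro V _ _ _ Φ ξ0 ρ Γ H Ω h3 hDf hDv hΩ hsub hmem hmax l hl
  obtain ⟨y₁, hy₁, y₂, hy₂, e₁, e₂, hne⟩ := hl
  have hcl : IsClosed (Kd Ω) := (hBIP V Ω hΩ ⟨ξ0, hmem⟩).2.2.2.2.2.2.1
  have hK := EXP.base_cpt hΩ.op hmem hcl
  set K : Set V := {y | y ∈ Kd Ω ∧ ⟪ξ0, y⟫ = 1} with hKdef
  let t : ℕ → ℝ := fun n => 1 / ((n : ℝ) + 1)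
  have ht : ∀ n, 0 < t n := fun n => Nat.one_div_pos_of_nat
  have ht0 : Tendsto t atTop (𝓝 0) := tendsto_one_div_add_atTop_nhds_zero_nat
  have hex : ∀ n, ∃ p ∈ K, ∀ y ∈ K, ⟪l, y⟫ + t n / 2 * ‖y‖ ^ 2 ≤ ⟪l, p⟫ + t n / 2 * ‖p‖ ^ 2 := by
    intro n
    have hc : Continuous fun y : V => ⟪l, y⟫ + t n / 2 * ‖y‖ ^ 2 :=
      (continuous_const.inner continuous_id).add (continuous_const.mul (continuous_norm.pow 2))
    obtain ⟨p, hp, hm⟩ := hK.exists_isMaxOn ⟨y₁, hy₁, e₁⟩ hc.continuousOn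
    exact ⟨p, hp, fun y hy => hm hy⟩
  choose p hpK hp using hex
  have hπ : ∀ n, ∃ π, (⟪l + t n • p n, p n⟫ • ξ0 - (l + t n • p n), π) ∈ Gr Ω H ∧ π (p n) = 0 := by
    intro n
    refine hEX1 V Φ ξ0 ρ Γ H Ω h3 hDf hDv hΩ hsub hmem hmax _ _ (hpK n).1 (hpK n).2
      (fun y hy e hyp => EXP.exposed (ht n) hyp (hp n y ⟨hy, e⟩)) ?_
    by_cases h : y₁ = p n
    · exact ⟨y₂, hy₂, e₂, fun h' => hne (by rw [h, h'])⟩
    · exact ⟨y₁, hy₁, e₁, h⟩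
  choose π hπG hπ0 using hπ
  obtain ⟨q, hqK, φ, hφ, hq⟩ := hK.tendsto_subseq hpK
  have hq' : Tendsto (fun n => p (φ n)) atTop (𝓝 q) := hq
  have htφ : Tendsto (fun n => t (φ n)) atTop (𝓝 0) := ht0.comp hφ.tendsto_atTop
  have hl' : Tendsto (fun n => l + t (φ n) • p (φ n)) atTop (𝓝 l) := by
    simpa using (htφ.smul hq').const_add l
  have hu : Tendsto (fun n => ⟪l + t (φ n) • p (φ n), p (φ n)⟫ • ξ0 - (l + t (φ n) • p (φ n))) atTop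
      (𝓝 (⟪l, q⟫ • ξ0 - l)) := ((hl'.inner hq').smul_const ξ0).sub hl'
  have hζ : ⟪l, q⟫ • ξ0 - l ≠ 0 := by
    intro h
    have h1 : ∀ y, ⟪ξ0, y⟫ = 1 → ⟪l, y⟫ = ⟪l, q⟫ := fun y e => by
      have h2 : ⟪⟪l, q⟫ • ξ0 - l, y⟫ = 0 := by rw [h, inner_zero_left]
      rw [inner_sub_left, real_inner_smul_left, e] at h2
      linarith
    exact hne ((h1 y₁ e₁).trans (h1 y₂ e₂).symm)
  obtain ⟨π₀, ψ, hψ, hlim, hG⟩ := (hLB V Φ ξ0 H Ω h3 hDf (hDv.cn Ω hΩ hsub hmem)).1 _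
    (fun n => π (φ n)) _ (fun n => hπG (φ n)) hu hζ
  refine ⟨q, hqK.1, hqK.2, fun y hy e => ?_, π₀, hG, ?_⟩
  · have a1 : Tendsto (fun n => ⟪l, y⟫ + t (φ n) / 2 * ‖y‖ ^ 2) atTop (𝓝 ⟪l, y⟫) := by
      simpa using ((htφ.div_const 2).mul_const (‖y‖ ^ 2)).const_add ⟪l, y⟫
    have a2 : Tendsto (fun n => ⟪l, p (φ n)⟫ + t (φ n) / 2 * ‖p (φ n)‖ ^ 2) atTop (𝓝 ⟪l, q⟫) := by
      have a3 : Tendsto (fun n => ⟪l, p (φ n)⟫) atTop (𝓝 ⟪l, q⟫) := tendsto_const_nhds.inner hq'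
      have a4 := a3.add ((htφ.div_const 2).mul (hq'.norm.pow 2))
      rwa [zero_div, zero_mul, add_zero] at a4
    exact le_of_tendsto_of_tendsto' a1 a2 fun n => hp (φ n) y ⟨hy, e⟩
  · have b1 : Tendsto (fun n => π (φ (ψ n)) (p (φ (ψ n)))) atTop (𝓝 (π₀ q)) :=
      (isBoundedBilinearMap_apply.continuous.tendsto (π₀, q)).comp
        (hlim.prodMk_nhds (hq'.comp hψ.tendsto_atTop))
    simp only [hπ0] at b1
    exact (tendsto_nhds_unique tendsto_const_nhds b1).symm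

end Pool.Agent.Lib.LB
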