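import Pool.Agent.Lib.LB.Blue

/-! Isometric hyperplanes have algebras of infinitesimal isometries of the same dimension. -/

set_option autoImplicit false

open Set Filter Topology Metric Module
open scoped RealInnerProductSpace

noncomputable section

namespace Pool.Agent.Lib.LB

namespace GDIM

variable {V : Type} [NormedAddCommGroup V] [InnerProductSpace ℝ V] [FiniteDimensional ℝ V]

theorem le_of (Φ Ψ : Seminorm ℝ V) (ξ0 ξ : V) (F G : V →L[ℝ] V) (FG : ∀ y, F (G y) = y)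
    (GF : ∀ x, G (F x) = x) (h0 : G ξ = ξ0)
    (hF : ∀ x, ⟪ξ0, x⟫ = 0 → ⟪ξ, F x⟫ = 0 ∧ Ψ (F x) = Φ x)
    (hG : ∀ y, ⟪ξ, y⟫ = 0 → ⟪ξ0, G y⟫ = 0) : finrank ℝ (gs Φ ξ0) ≤ finrank ℝ (gs Ψ ξ) := by
  have mem : ∀ A ∈ gs Φ ξ0, F.comp (A.comp G) ∈ gs Ψ ξ := fun A hA => by
    refine ⟨?_, fun y hy => ?_⟩
    · show F (A (G ξ)) = 0
      rw [h0, hA.1, map_zero]
    · obtain ⟨h1, h2⟩ := hA.2 (G y) (hG y hy)
      refine ⟨(hF _ h1).1, ?_⟩
      have e : (fun s : ℝ => Ψ (y + s • F (A (G y)))) = fun s : ℝ => Φ (G y + s • A (G y)) := by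
        funext s
        have h3 : ⟪ξ0, G y + s • A (G y)⟫ = 0 := by
          rw [inner_add_right, inner_smul_right, hG y hy, h1, mul_zero, add_zero]
        rw [← (hF _ h3).2, F.map_add, F.map_smul, FG]
      show HasDerivAt (fun s : ℝ => Ψ (y + s • F (A (G y)))) 0 0
      rw [e]
      exact h2
  let L : gs Φ ξ0 →ₗ[ℝ] gs Ψ ξ :=
    { toFun := fun A => ⟨F.comp (A.1.comp G), mem A.1 A.2⟩
      map_add' := fun A B => Subtype.ext (ContinuousLinearMap.ext fun y => by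
        show F ((A.1 + B.1) (G y)) = F (A.1 (G y)) + F (B.1 (G y))
        rw [add_apply, map_add])
      map_smul' := fun c A => Subtype.ext (ContinuousLinearMap.ext fun y => by
        show F ((c • A.1) (G y)) = c • F (A.1 (G y))
        rw [smul_apply, map_smul]) }
  refine LinearMap.finrank_le_finrank_of_injective (f := L) fun A B h => ?_
  refine Subtype.ext (ContinuousLinearMap.ext fun x => ?_)
  have h1 : F (A.1 (G (F x))) = F (B.1 (G (F x))) :=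
    congrArg (fun C : gs Ψ ξ => C.1 (F x)) h
  have h2 := congrArg G h1
  rwa [GF, GF, GF] at h2

end GDIM

theorem bGDIM : St_GDIM := by
  intro V _ _ _ Φ Ψ ξ0 ξ h0 ⟨F, hU, hF0, hF⟩
  obtain ⟨u, rfl⟩ := hU
  have FG : ∀ y, (u : V →L[ℝ] V) ((↑u⁻¹ : V →L[ℝ] V) y) = y := fun y =>
    congrArg (fun C : V →L[ℝ] V => C y) u.mul_inv
  have GF : ∀ y, (↑u⁻¹ : V →L[ℝ] V) ((u : V →L[ℝ] V) y) = y := fun y =>
    congrArg (fun C : V →L[ℝ] V => C y) u.inv_mul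
  have hG0 : (↑u⁻¹ : V →L[ℝ] V) ξ = ξ0 := by rw [← hF0, GF]
  have hξ : ξ ≠ 0 := fun h => h0 (by rw [← hG0, h, map_zero])
  have n0 : ⟪ξ0, ξ0⟫ ≠ 0 := fun h => h0 (inner_self_eq_zero.1 h)
  have n1 : ⟪ξ, ξ⟫ ≠ 0 := fun h => hξ (inner_self_eq_zero.1 h)
  have hG : ∀ y, ⟪ξ, y⟫ = 0 → ⟪ξ0, (↑u⁻¹ : V →L[ℝ] V) y⟫ = 0 := fun y hy => by
    set x := (↑u⁻¹ : V →L[ℝ] V) y with hx
    have h1 : ⟪ξ0, x - (⟪ξ0, x⟫ / ⟪ξ0, ξ0⟫) • ξ0⟫ = 0 := by
      rw [inner_sub_right, inner_smul_right, div_mul_cancel₀ _ n0, sub_self]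
    have h2 := (hF _ h1).1
    rw [map_sub, map_smul, hF0, hx, FG, inner_sub_right, inner_smul_right, hy, zero_sub,
      neg_eq_zero, mul_eq_zero] at h2
    rcases h2 with h2 | h2
    · exact (div_eq_zero_iff.1 h2).resolve_right n0
    · exact absurd h2 n1
  refine le_antisymm ?_ (GDIM.le_of Φ Ψ ξ0 ξ _ _ FG GF hG0 hF hG)
  refine GDIM.le_of Ψ Φ ξ ξ0 _ _ GF FG hF0 (fun y hy => ⟨hG y hy, ?_⟩) fun x hx => (hF x hx).1
  rw [← (hF _ (hG y hy)).2, FG]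

end Pool.Agent.Lib.LB
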