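import Pool.Agent.Lib.LB.Basic

/-! Rows GEO, HYP, MAIN: glue. -/

set_option autoImplicit false

open Set Filter Topology Metric Module
open scoped RealInnerProductSpace ContDiff NNReal

noncomputable section

namespace Pool.Agent.Lib.LB

theorem bGEO (hBIP : St_BIP) (hZORN : St_ZORN) (hMAX : St_MAX) (hRY1 : St_RY1) (hRY2 : St_RY2)
    (hEXP : St_EXP) (hNR : St_NR) (hKAK : St_KAK) : St_GEO := by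
  intro V _ _ _ Φ ξ0 ρ Γ H h4 hΦ h1 D
  obtain ⟨Ω, hΩ, hΓ, hb, hmax⟩ := hZORN V ξ0 ρ Γ D.pos D.sc D.nz D.sub
  have h0 : ξ0 ∈ Ω := hb (mem_ball_self D.pos)
  have hC := D.cn Ω hΩ hΓ h0
  obtain ⟨⟨y, hy, hy0⟩, -, -, hpos, -⟩ := hBIP V Ω hΩ ⟨ξ0, h0⟩
  have hp := hpos y hy hy0 ξ0 h0
  have nrm : ∀ z ∈ Kd Ω, z ≠ 0 → ⟪ξ0, z⟫⁻¹ • z ∈ Kd Ω ∧ ⟪ξ0, ⟪ξ0, z⟫⁻¹ • z⟫ = 1 := fun z hz hz0 => by
    have := hpos z hz hz0 ξ0 h0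
    refine ⟨fun ξ hξ => ?_, by rw [inner_smul_right, inv_mul_cancel₀ this.ne']⟩
    rw [inner_smul_right]
    exact mul_nonneg (inv_pos.2 this).le (hz ξ hξ)
  obtain ⟨hν, hν1⟩ := nrm y hy hy0
  set ν := ⟪ξ0, y⟫⁻¹ • y
  have hν0 : ν ≠ 0 := fun e => by simp [e] at hν1
  by_cases hr : ∃ y ∈ Kd Ω, ∃ y' ∈ Kd Ω, ⟪ξ0, y⟫ = 1 ∧ ⟪ξ0, y'⟫ = 1 ∧ y ≠ y'
  · refine Or.inl (hKAK V Φ ξ0 h4 hΦ h1 (hNR V Φ ξ0 ρ H Ω hΦ hC D.pos hb D.d1 hr ?_))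
    exact hEXP V Φ ξ0 ρ Γ H Ω (by omega) hΦ D hΩ hΓ h0
      (hMAX V Φ ξ0 ρ Γ H Ω (by omega) hΦ D hΩ hΓ h0 hmax)
  push Not at hr
  have ray : ∀ z ∈ Kd Ω, ∃ t : ℝ, z = t • ν := fun z hz => by
    by_cases hz0 : z = 0
    · exact ⟨0, by simp [hz0]⟩
    obtain ⟨a1, a2⟩ := nrm z hz hz0
    refine ⟨⟪ξ0, z⟫, ?_⟩
    rw [← hr _ a1 ν hν a2 hν1, smul_smul, mul_inv_cancel₀ (hpos z hz hz0 ξ0 h0).ne', one_smul]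
  by_cases hu : ∃ ζ π, (ζ, π) ∈ Gr Ω H ∧ ¬IsUnit π
  · exact Or.inr (hRY1 V Φ ξ0 ρ H Ω ν h4 hΦ hC D.pos hb D.d1 hν hν0 ray hu)
  · push Not at hu
    exact Or.inl (hRY2 V Φ ξ0 H Ω ν h4 hΦ hC (D.d1 ξ0 (mem_ball_self D.pos)) ray hu)

theorem bHYP (hLOC : St_LOC) (hRA1 : St_RA1) (hRA2 : St_RA2) (hSOL : St_SOL) (hDV1 : St_DV1)
    (hDV2 : St_DV2) (hDV3 : St_DV3) (hGEO : St_GEO) : St_HYP := by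
  intro V _ _ _ Φ ξ0 h4 hΦ h1 hI
  obtain ⟨hd, S, hS⟩ := exists_sp h1
  have h3 : 3 ≤ finrank ℝ (ℝ ∙ ξ0)ᗮ := by omega
  have : Nontrivial (ℝ ∙ ξ0)ᗮ := Module.nontrivial_of_finrank_pos (R := ℝ) (by omega)
  have hI' : LocIso Φ S.e := hS.symm ▸ hI
  obtain ⟨x0, O, ρ, G, D, r, d, hL⟩ := hLOC _ V S Φ hΦ hI'
  obtain ⟨δ, M, ε, G', hR⟩ := hRA1 _ V S Φ x0 O ρ G D r d h3 hL
  obtain ⟨ρ', G'', hT⟩ := hRA2 _ V S Φ δ M ε G' hI' hR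
  rw [hS] at hT
  obtain ⟨L, hSo⟩ := hSOL V Φ ξ0 δ M ρ' G'' (by omega) hT
  obtain ⟨F, H, hF⟩ := hDV1 V Φ ξ0 δ M ρ' G'' L (by omega) hT hSo
  exact hGEO V Φ ξ0 ρ' _ H h4 hΦ h1
    (hDV3 V Φ ξ0 δ M ρ' G'' L F H hT hSo hF (hDV2 V Φ ξ0 M ρ' _ F H hT.pM hT.kil hF))

universe u v

theorem bMAIN (hTR : St_TR.{u, v}) (hEU2 : St_EU2.{u, v}) (hCY2 : St_CY2.{u, v}) : St_MAIN.{u, v} := by
  intro E V _ _ _ _ _ U h3 hU hc hn hi hg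
  by_cases he : ∃ T ∈ U, ∃ b : E →ₗ[ℝ] E →ₗ[ℝ] ℝ, ∀ x, ‖T x‖ ^ 2 = b x x
  · obtain ⟨T, hT, b, hb⟩ := he
    refine Or.inl (hEU2 E V U h3 hU hc hn fun T' hT' => ?_)
    obtain ⟨g, hg⟩ := hg T' hT' T hT
    exact ⟨b.compl₁₂ g g, fun x => by rw [← hg, hb]; rfl⟩
  · refine Or.inr (hCY2 E V U hU hc hn hi fun T hT ν hν => ?_)
    obtain ⟨r, hr, hb⟩ := Metric.isOpen_iff.1 hU T hT
    refine (hTR E V T r ν h3 (hi T hT) hr (fun T' hT' => hg T hT T' (hb ?_)) hν).resolve_left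
      fun h => he ⟨T, hT, h⟩
    rwa [mem_ball, dist_eq_norm]

end Pool.Agent.Lib.LB
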