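import Pool.Agent.Lib.LB.Basic
import Pool.Agent.Lib.BF40.Field

/-! Local Banach problem, row GLOB: all hyperplanes are isometric. -/

set_option autoImplicit false

open Set Filter Topology Metric Module
open scoped RealInnerProductSpace ContDiff NNReal

noncomputable section

namespace Pool.Agent.Lib.LB

namespace GLOB

variable {V : Type} [NormedAddCommGroup V] [InnerProductSpace ℝ V] [FiniteDimensional ℝ V]

theorem rk {a b : V} (ha : a ≠ 0) (hb : b ≠ 0) : finrank ℝ (ℝ ∙ a)ᗮ = finrank ℝ (ℝ ∙ b)ᗮ := by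
  have h1 := (ℝ ∙ a).finrank_add_finrank_orthogonal
  have h2 := (ℝ ∙ b).finrank_add_finrank_orthogonal
  rw [finrank_span_singleton ha] at h1
  rw [finrank_span_singleton hb] at h2
  omega

theorem eqv {a b : V} (ha : a ≠ 0) (hb : b ≠ 0) (π : V →L[ℝ] V) (hu : IsUnit π)
    (h : ∀ y, ⟪a, y⟫ = 0 → ⟪b, π y⟫ = 0) :
    ∃ T : (ℝ ∙ a)ᗮ ≃ₗ[ℝ] (ℝ ∙ b)ᗮ, ∀ x, (T x : V) = π x := by
  obtain ⟨u, rfl⟩ := hu
  have hi : Function.Injective (u : V →L[ℝ] V) := (ContinuousLinearEquiv.ofUnit u).injective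
  let L : (ℝ ∙ a)ᗮ →ₗ[ℝ] (ℝ ∙ b)ᗮ := (u : V →L[ℝ] V).toLinearMap.restrict fun x hx =>
    Submodule.mem_orthogonal_singleton_iff_inner_right.2
      (h x (Submodule.mem_orthogonal_singleton_iff_inner_right.1 hx))
  exact ⟨L.linearEquivOfInjective (fun x y e => Subtype.ext (hi (congrArg Subtype.val e)))
    (rk ha hb), fun x => rfl⟩

omit [FiniteDimensional ℝ V] in
theorem lip : LipschitzWith 2 fun v : sphere (0 : V) 1 => ((ℝ ∙ (v : V))ᗮ).starProjection := by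
  refine LipschitzWith.of_dist_le_mul fun v w => ?_
  have hv : ‖(v : V)‖ = 1 := by simp
  have hw : ‖(w : V)‖ = 1 := by simp
  rw [dist_eq_norm, Subtype.dist_eq, dist_eq_norm]
  refine ContinuousLinearMap.opNorm_le_bound _ (by positivity) fun x => ?_
  have e : (((ℝ ∙ (v : V))ᗮ).starProjection - ((ℝ ∙ (w : V))ᗮ).starProjection) x =
      -(⟪(v : V) - w, x⟫ • (v : V) + ⟪(w : V), x⟫ • ((v : V) - w)) := by
    rw [sub_apply, Submodule.starProjection_orthogonal_val,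
      Submodule.starProjection_orthogonal_val, Submodule.starProjection_unit_singleton ℝ hv,
      Submodule.starProjection_unit_singleton ℝ hw, inner_sub_left]
    module
  have a1 := abs_real_inner_le_norm ((v : V) - w) x
  have a2 := mul_le_mul_of_nonneg_right (abs_real_inner_le_norm (w : V) x) (norm_nonneg ((v : V) - w))
  have a3 := norm_add_le (⟪(v : V) - w, x⟫ • (v : V)) (⟪(w : V), x⟫ • ((v : V) - w))
  rw [norm_smul, norm_smul, hv, Real.norm_eq_abs, Real.norm_eq_abs] at a3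
  rw [hw] at a2
  rw [e, norm_neg, NNReal.coe_ofNat]
  linarith

end GLOB

/-- Row `GLOB`. -/
theorem bGLOB : St_GLOB := by
  intro V _ _ _ Φ Ψ ξ0 h0 hD h
  obtain ⟨K, hK⟩ := snm_lip Ψ
  have ne : ∀ v : sphere (0 : V) 1, (v : V) ≠ 0 := fun v => ne_zero_of_mem_unit_sphere v
  have hn : ‖ξ0‖ ≠ 0 := norm_ne_zero_iff.2 h0
  have k : ∀ v : sphere (0 : V) 1, ∃ T : (ℝ ∙ (v : V))ᗮ ≃ₗ[ℝ] (ℝ ∙ ξ0)ᗮ,
      ∀ x : (ℝ ∙ (v : V))ᗮ, Ψ x = Φ (T x) := by
    intro v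
    obtain ⟨π, h1, -, h2⟩ := h v (ne v)
    obtain ⟨T, hT⟩ := GLOB.eqv (ne v) h0 π h1 fun y hy => (h2 y hy).1
    exact ⟨T, fun x => by
      rw [hT]
      exact (h2 x (Submodule.mem_orthogonal_singleton_iff_inner_right.1 x.2)).2⟩
  let v0 : sphere (0 : V) 1 := ⟨‖ξ0‖⁻¹ • ξ0, by simp [norm_smul, inv_mul_cancel₀ hn]⟩
  obtain ⟨B, hB⟩ := BF40.field hK
    (fun t ht y => by rw [map_smul_eq_mul, Real.norm_eq_abs, abs_of_nonneg ht])
    (fun y hy => (apply_nonneg Ψ y).lt_of_ne fun e => hy (hD y e.symm))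
    (fun v => (ℝ ∙ (v : V))ᗮ) GLOB.lip
    (fun v hv => ne v (inner_self_eq_zero.1
      (Submodule.mem_orthogonal_singleton_iff_inner_right.1 hv)))
    (fun v w => by
      obtain ⟨T, hT⟩ := k v
      obtain ⟨S, hS⟩ := k w
      exact ⟨T.trans S.symm, fun x => by
        rw [hT, hS, LinearEquiv.trans_apply, S.apply_symm_apply]⟩) v0
  let p : V →ₗ[ℝ] (ℝ ∙ (v0 : V))ᗮ := ((ℝ ∙ (v0 : V))ᗮ).orthogonalProjectionOnto.toLinearMap
  refine ⟨B.compl₁₂ p p, fun x hx => ?_⟩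
  have hm : x ∈ (ℝ ∙ (v0 : V))ᗮ := Submodule.mem_orthogonal_singleton_iff_inner_right.2 (by
    show ⟪‖ξ0‖⁻¹ • ξ0, x⟫ = 0
    rw [real_inner_smul_left, hx, mul_zero])
  have e : p x = ⟨x, hm⟩ :=
    Submodule.orthogonalProjectionOnto_mem_subspace_eq_self (⟨x, hm⟩ : (ℝ ∙ (v0 : V))ᗮ)
  rw [LinearMap.compl₁₂_apply, e]
  exact hB ⟨x, hm⟩

end Pool.Agent.Lib.LB
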