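import Pool.Agent.Lib.LB.Blue

/-! Local Banach problem, row INV: a Lipschitz map with derivative zero almost everywhere in one
direction is invariant in that direction. -/

set_option autoImplicit false

open Set Filter Topology Metric Module MeasureTheory
open scoped NNReal

noncomputable section

namespace Pool.Agent.Lib.LB

theorem bINV : St_INV := by
  intro E Y F _ _ _ _ _ _ _ _ _ H C C' f O v hH hO hc hf hd l hl hv
  borelize E
  have a1 := (ae_ae_add_linearMap_mem_iff (LinearMap.toSpanSingleton ℝ E v) volume
    (Measure.addHaar (G := E)) (measurableSet_of_differentiableAt ℝ H)).2 hH.ae_differentiableAt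
  have c1 : ∀ᶠ x in 𝓝 l, x ∈ O ∧ x + v ∈ O := (hO.eventually_mem hl).and
    ((continuous_add_const v).continuousAt.eventually (hO.eventually_mem hv))
  have c2 : ∃ᶠ x in 𝓝 l, f (x + v) = f x := by
    refine ((mem_closure_iff_frequently.1 (Measure.dense_of_ae a1 l)).and_eventually c1).mono
      fun x ⟨h1, h2, h3⟩ => ?_
    have m : ∀ s ∈ uIcc (0 : ℝ) 1, x + s • v ∈ O := fun s hs =>
      hc.add_smul_mem h2 h3 (by rwa [uIcc_of_le zero_le_one] at hs)
    have lp : LipschitzWith ‖v‖₊ fun s : ℝ => x + s • v := LipschitzWith.of_dist_le_mul fun s t => by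
      rw [dist_add_left, dist_eq_norm, ← sub_smul, norm_smul, dist_eq_norm, mul_comm]
      rfl
    obtain ⟨c, e⟩ := (hf.comp lp.lipschitzOnWith m).absolutelyContinuousOnInterval
      |>.const_of_ae_hasDerivAt_zero (Eventually.mono h1 fun s hs hs' => by
        have := HasDerivAt.comp_sub_const s s ((sub_self s).symm ▸ hd _ (m s hs') hs)
        simpa only [sub_smul, add_assoc, add_sub_cancel, Function.comp_def] using this)
    have e0 := e 0 left_mem_uIcc
    have e1 := e 1 right_mem_uIcc
    simp only [Function.comp_apply, zero_smul, one_smul, add_zero] at e0 e1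
    rw [e0, e1]
  have k := hf.continuousOn.continuousAt (hO.mem_nhds hl)
  have k' := (hf.continuousOn.continuousAt (hO.mem_nhds hv)).comp (f := fun x => x + v)
    (continuous_add_const v).continuousAt
  exact tendsto_nhds_unique_of_frequently_eq k' k c2

end Pool.Agent.Lib.LB
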