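import Pool.Agent.Lib.LB.Basic
import Pool.Agent.Lib.LB40.Kak

/-! Local Banach problem: plane shadow boundaries force a Euclidean hyperplane. -/

set_option autoImplicit false

open Set Filter Topology Metric Module
open scoped RealInnerProductSpace

noncomputable section

namespace Pool.Agent.Lib.LB

theorem bKAK : St_KAK := by
  intro V _ _ _ Φ ξ0 h4 hD h1 hK
  obtain ⟨hr, S, hS⟩ := exists_sp h1
  have e0 : ∀ y, ⟪ξ0, y⟫ = 0 → S.ι (S.pr y) = y := fun y hy => by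
    have := S.dec y
    rwa [hS, hy, zero_smul, add_zero] at this
  have e1 : ∀ x, ⟪ξ0, S.ι x⟫ = 0 := fun x => by
    have := S.ei x
    rwa [hS] at this
  obtain ⟨B, -, hB⟩ := LB40.kak (S.n Φ) (fun x hx => S.ι_inj (hD _ hx)) (by omega) (by
    intro l hl
    obtain ⟨a, ha⟩ := (InnerProductSpace.toDual ℝ (ℝ ∙ ξ0)ᗮ).surjective
      (LinearMap.toContinuousLinearMap l)
    have h2 : ∀ x, ⟪a, x⟫ = l x := fun x => by
      rw [← InnerProductSpace.toDual_apply_apply, ha]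
      rfl
    have h3 : S.ι a ≠ 0 := fun h => hl (LinearMap.ext fun x => by
      rw [← h2, S.ι_inj h, inner_zero_left]
      rfl)
    obtain ⟨q, q1, q2, q3⟩ := hK (S.ι a) (e1 a) h3
    refine ⟨S.pr q, ?_, fun x hx hl => ?_⟩
    · rw [← h2, ← S.ii, e0 q q1]
      exact q2
    · have h5 := q3 (S.ι x) (fun h => hx (S.ι_inj h)) (e1 x) (by rw [S.ii, h2, hl])
      rw [← e0 q q1] at h5
      exact (K6 (Φ := Φ) (S.ι : (ℝ ∙ ξ0)ᗮ →ₗ[ℝ] V) (x := x) (v := S.pr q)).2 h5)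
  refine ⟨B.compl₁₂ (S.pr : V →ₗ[ℝ] (ℝ ∙ ξ0)ᗮ) (S.pr : V →ₗ[ℝ] (ℝ ∙ ξ0)ᗮ), fun x hx => ?_⟩
  have := hB (S.pr x)
  rw [S.n_apply, e0 x hx] at this
  exact this

end Pool.Agent.Lib.LB
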