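import Pool.Agent.Lib.LB.Blue
import Pool.Agent.Lib.BF40.Slice

/-! A Lipschitz family of isometries. -/

set_option autoImplicit false

open Set Filter Topology Metric
open scoped RealInnerProductSpace NNReal

noncomputable section

namespace Pool.Agent.Lib.LB

namespace LIFT

variable {E : Type} [NormedAddCommGroup E] [NormedSpace ℝ E]

/-- The radial retraction onto a ball. -/
def ret (r : ℝ) (l : E) : E := (r / max r ‖l‖) • l

theorem ret_eq {r : ℝ} (hr : 0 < r) {l : E} (h : ‖l‖ ≤ r) : ret r l = l := by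
  rw [ret, max_eq_left h, div_self hr.ne', one_smul]

theorem ret_le {r : ℝ} (hr : 0 < r) (l : E) : ‖ret r l‖ ≤ r := by
  have hm : 0 < max r ‖l‖ := hr.trans_le (le_max_left _ _)
  rw [ret, norm_smul, Real.norm_of_nonneg (by positivity), div_mul_eq_mul_div, div_le_iff₀ hm]
  exact mul_le_mul_of_nonneg_left (le_max_right _ _) hr.le

theorem ret_lip {r : ℝ} (hr : 0 < r) (l l' : E) : ‖ret r l - ret r l'‖ ≤ 2 * ‖l - l'‖ := by
  have hm : 0 < max r ‖l‖ := hr.trans_le (le_max_left _ _)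
  have hm' : 0 < max r ‖l'‖ := hr.trans_le (le_max_left _ _)
  have h1 : |max r ‖l'‖ - max r ‖l‖| ≤ ‖l - l'‖ := by
    rw [max_comm r, max_comm r, norm_sub_rev]
    exact (abs_max_sub_max_le_abs _ _ _).trans (abs_norm_sub_norm_le _ _)
  have h2 : r / max r ‖l'‖ ≤ 1 := (div_le_one hm').2 (le_max_left _ _)
  have h3 : ‖l‖ / max r ‖l‖ ≤ 1 := (div_le_one hm).2 (le_max_right _ _)
  have h4 : 0 ≤ r / max r ‖l'‖ := by positivity
  have e : ret r l - ret r l' = (r / max r ‖l'‖) • (l - l') +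
      (r / max r ‖l'‖ * ((max r ‖l'‖ - max r ‖l‖) / max r ‖l‖)) • l := by
    have : r / max r ‖l'‖ * ((max r ‖l'‖ - max r ‖l‖) / max r ‖l‖) =
        r / max r ‖l‖ - r / max r ‖l'‖ := by field_simp
    rw [this, ret, ret]
    module
  rw [e]
  refine (norm_add_le _ _).trans ?_
  rw [norm_smul, norm_smul, Real.norm_of_nonneg h4, norm_mul, Real.norm_of_nonneg h4, norm_div,
    Real.norm_of_nonneg hm.le, Real.norm_eq_abs, mul_assoc, div_mul_eq_mul_div _ (max r ‖l‖),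
    mul_div_assoc]
  have h5 : |max r ‖l'‖ - max r ‖l‖| * (‖l‖ / max r ‖l‖) ≤ ‖l - l'‖ :=
    (mul_le_of_le_one_right (abs_nonneg _) h3).trans h1
  have h6 : 0 ≤ |max r ‖l'‖ - max r ‖l‖| * (‖l‖ / max r ‖l‖) := by positivity
  linarith [mul_le_of_le_one_left (norm_nonneg (l - l')) h2, mul_le_of_le_one_left h6 h2]

theorem inv [CompleteSpace E] (A : E →L[ℝ] E) (h : ‖A‖ ≤ 1 / 2) :
    ∃ W : E →L[ℝ] E, (1 + A) * W = 1 ∧ W * (1 + A) = 1 ∧ ‖W‖ ≤ 2 := by
  let u := Units.oneSub (-A) (by rw [norm_neg]; linarith)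
  have e : (u : E →L[ℝ] E) = 1 + A := by simp [u]
  have h1 : (1 + A) * (↑u⁻¹ : E →L[ℝ] E) = 1 := by rw [← e, u.mul_inv]
  refine ⟨_, h1, by rw [← e, u.inv_mul], ContinuousLinearMap.opNorm_le_bound _ zero_le_two fun y => ?_⟩
  have h2 : (↑u⁻¹ : E →L[ℝ] E) y = y - A ((↑u⁻¹ : E →L[ℝ] E) y) :=
    eq_sub_of_add_eq (congrArg (fun T : E →L[ℝ] E => T y) h1)
  have h3 := norm_sub_le y (A ((↑u⁻¹ : E →L[ℝ] E) y))
  rw [← h2] at h3
  have h4 := A.le_of_opNorm_le h ((↑u⁻¹ : E →L[ℝ] E) y)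
  linarith

theorem two [FiniteDimensional ℝ E] {Φ : Seminorm ℝ E} (h : Df Φ) :
    ∃ K ≥ 0, ∃ c > 0, ∀ x, Φ x ≤ K * ‖x‖ ∧ c * ‖x‖ ≤ Φ x := by
  have hc : Continuous Φ := continuousOn_univ.1 (Φ.convexOn.continuousOn isOpen_univ)
  have key : ∀ x : E, x ≠ 0 → ∃ u ∈ sphere (0 : E) 1, Φ x = Φ u * ‖x‖ := fun x hx => by
    have hx' := norm_ne_zero_iff.2 hx
    refine ⟨‖x‖⁻¹ • x, by simp [norm_smul, hx'], ?_⟩
    rw [map_smul_eq_mul, norm_inv, norm_norm]
    field_simp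
  rcases (sphere (0 : E) 1).eq_empty_or_nonempty with h0 | h0
  · refine ⟨0, le_rfl, 1, one_pos, fun x => ?_⟩
    by_cases hx : x = 0
    · simp [hx]
    · obtain ⟨u, hu, -⟩ := key x hx
      simp [h0] at hu
  obtain ⟨a, -, ha⟩ := (isCompact_sphere (0 : E) 1).exists_isMaxOn h0 hc.continuousOn
  obtain ⟨b, hb, hb'⟩ := (isCompact_sphere (0 : E) 1).exists_isMinOn h0 hc.continuousOn
  refine ⟨Φ a, apply_nonneg _ _, Φ b, (apply_nonneg _ _).lt_of_ne' fun e => ?_, fun x => ?_⟩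
  · simp [h b e] at hb
  by_cases hx : x = 0
  · simp [hx]
  obtain ⟨u, hu, e⟩ := key x hx
  rw [e]
  exact ⟨mul_le_mul_of_nonneg_right (ha hu) (norm_nonneg _),
    mul_le_mul_of_nonneg_right (hb' hu) (norm_nonneg _)⟩

end LIFT

open LIFT in
theorem bLIFT : St_LIFT := by
  intro E V _ _ _ _ _ _ S Φ hΦ ⟨ρ, hρ, hI⟩
  obtain ⟨K, hK, c, hc, hK'⟩ := two (Φ := S.n Φ) fun x hx => S.ι_inj (hΦ _ hx)
  obtain ⟨δ, hδ, C, hC, a, a1, a2⟩ := BF40.slice (n := S.n Φ) hK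
    (fun x y => (abs_sub_map_le_sub _ x y).trans (hK' _).1) hc (fun x => (hK' x).2) (map_zero _)
  have he : 0 ≤ Φ S.e := apply_nonneg _ _
  have d : ∀ l l' x : E, |Φ (S.j l x) - Φ (S.j l' x)| ≤ Φ S.e * ‖l - l'‖ * ‖x‖ := fun l l' x => by
    refine (abs_sub_map_le_sub Φ _ _).trans ?_
    have e : S.j l x - S.j l' x = (-⟪l - l', x⟫) • S.e := by
      rw [S.j_apply, S.j_apply, inner_sub_left]
      module
    rw [e, map_smul_eq_mul, norm_neg, mul_comm, mul_assoc]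
    exact mul_le_mul_of_nonneg_left (norm_inner_le_norm _ _) he
  obtain ⟨r, hr, r1, r2⟩ : ∃ r > 0, r < ρ ∧ Φ S.e * r ≤ δ := by
    refine ⟨min (ρ / 2) (δ / (Φ S.e + 1)), by positivity, (min_le_left _ _).trans_lt (by linarith), ?_⟩
    refine (mul_le_mul_of_nonneg_left (min_le_right _ _) he).trans ?_
    rw [← mul_div_assoc, div_le_iff₀ (by linarith)]
    linarith
  have g : ∀ l : E, ∃ g : E →L[ℝ] E, ∀ x, Φ (S.j (ret r l) (g x)) = S.n Φ x := fun l => by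
    obtain ⟨F, -, -, hF⟩ := hI (S.xi (ret r l)) (by
      rw [mem_ball, dist_eq_norm, Sp.xi, add_sub_cancel_left, S.norm_ι]
      exact (ret_le hr l).trans_lt r1)
    refine ⟨S.pr ∘L F ∘L S.ι, fun x => ?_⟩
    have := hF (S.ι x) (S.ei x)
    exact (congrArg Φ (S.j_pr this.1)).trans this.2
  have b : ∀ l x : E, |Φ (S.j (ret r l) x) - S.n Φ x| ≤ δ * ‖x‖ := fun l x => by
    rw [S.n_apply, ← S.j_zero]
    refine (d _ _ _).trans (mul_le_mul_of_nonneg_right ?_ (norm_nonneg _))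
    rw [sub_zero]
    exact (mul_le_mul_of_nonneg_left (ret_le hr l) he).trans r2
  obtain ⟨A, A1, A2, A3⟩ : ∃ A : E → E →L[ℝ] E, (∀ l, ‖A l‖ ≤ 1 / 2) ∧
      (∀ l x, Φ (S.j (ret r l) (x + A l x)) = S.n Φ x) ∧
      ∀ l l', ‖A l - A l'‖ ≤ C * (Φ S.e * 2) * ‖l - l'‖ := by
    refine ⟨fun l => a fun x => Φ (S.j (ret r l) x), fun l => (a1 _ (g l) (b l)).1,
      fun l => (a1 _ (g l) (b l)).2, fun l l' => ?_⟩
    refine (a2 _ _ _ (by positivity) (g l) (b l) (g l') (b l') (d _ _)).trans ?_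
    rw [mul_assoc C, mul_assoc]
    exact mul_le_mul_of_nonneg_left (mul_le_mul_of_nonneg_left (ret_lip hr l l') he) hC
  choose W W1 W2 W3 using fun l => inv (A l) (A1 l)
  have hL : 0 ≤ C * (Φ S.e * 2) := by positivity
  have n1 : ‖1 + A 0‖ ≤ 2 := by
    linarith [norm_add_le 1 (A 0), A1 0, ContinuousLinearMap.norm_id_le (𝕜 := ℝ) (E := E),
      show ‖(1 : E →L[ℝ] E)‖ = ‖ContinuousLinearMap.id ℝ E‖ from rfl]
  refine ⟨r, ⟨8 * (C * (Φ S.e * 2)), by positivity⟩, fun l => (1 + A l) * W 0,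
    fun l => (1 + A 0) * W l, hr, LipschitzWith.of_dist_le_mul fun l l' => ?_,
    LipschitzWith.of_dist_le_mul fun l l' => ?_, W1 0, W1 0, fun l x => ?_, fun l x => ?_,
    fun l hl x => ?_⟩
  · rw [dist_eq_norm, dist_eq_norm, ← sub_mul, add_sub_add_left_eq_sub]
    have h1 := (norm_mul_le (A l - A l') (W 0)).trans
      (mul_le_mul (A3 l l') (W3 0) (norm_nonneg _) (by positivity))
    have h2 := mul_nonneg hL (norm_nonneg (l - l'))
    show _ ≤ 8 * (C * (Φ S.e * 2)) * ‖l - l'‖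
    linarith
  · have e : W l - W l' = W l * (A l' - A l) * W l' := by
      rw [← add_sub_add_left_eq_sub (A l') (A l) 1, mul_sub, sub_mul, mul_assoc, W1, W2, mul_one,
        one_mul]
    rw [dist_eq_norm, dist_eq_norm, ← mul_sub, e]
    have h0 := A3 l' l
    rw [norm_sub_rev l'] at h0
    have h1 := (norm_mul_le (W l) (A l' - A l)).trans
      (mul_le_mul (W3 l) h0 (norm_nonneg _) zero_le_two)
    have h2 := (norm_mul_le (W l * (A l' - A l)) (W l')).trans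
      (mul_le_mul h1 (W3 l') (norm_nonneg _) (by positivity))
    have h3 := (norm_mul_le (1 + A 0) _).trans (mul_le_mul n1 h2 (norm_nonneg _) zero_le_two)
    show _ ≤ 8 * (C * (Φ S.e * 2)) * ‖l - l'‖
    linarith
  · have e : (1 + A l) * W 0 * ((1 + A 0) * W l) = 1 := by
      rw [mul_assoc, ← mul_assoc (W 0), W2, one_mul, W1]
    exact congrArg (fun T : E →L[ℝ] E => T x) e
  · have e : (1 + A 0) * W l * ((1 + A l) * W 0) = 1 := by
      rw [mul_assoc, ← mul_assoc (W l), W2, one_mul, W1]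
    exact congrArg (fun T : E →L[ℝ] E => T x) e
  · have h1 := A2 l (W 0 x)
    have h2 := A2 0 (W 0 x)
    rw [ret_eq hr hl.le] at h1
    rw [ret_eq hr (by simpa using hr.le), S.j_zero,
      show W 0 x + A 0 (W 0 x) = x from congrArg (fun T : E →L[ℝ] E => T x) (W1 0)] at h2
    exact h1.trans h2.symm

end Pool.Agent.Lib.LB
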