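import Pool.Agent.Lib.LB.Blue

/-! Local Banach problem: limits of the development are compatible with the family. -/

set_option autoImplicit false

open Set Filter Topology Metric Module
open scoped RealInnerProductSpace

noncomputable section

namespace Pool.Agent.Lib.LB

namespace LIM

variable {V : Type} [NormedAddCommGroup V] [InnerProductSpace ℝ V]

theorem app {p : ℕ → V →L[ℝ] V} {π : V →L[ℝ] V} {u : ℕ → V} {y : V} (hp : Tendsto p atTop (𝓝 π))
    (hu : Tendsto u atTop (𝓝 y)) : Tendsto (fun k => p k (u k)) atTop (𝓝 (π y)) :=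
  (isBoundedBilinearMap_apply.continuous.tendsto (π, y)).comp (hp.prodMk_nhds hu)

theorem corr {a y : ℕ → V} {a₀ y₀ ζ : V} (ha : Tendsto a atTop (𝓝 a₀)) (hy : Tendsto y atTop (𝓝 y₀))
    (h0 : ⟪a₀, y₀⟫ = 0) (h1 : ⟪a₀, ζ⟫ ≠ 0) : ∃ y' : ℕ → V, Tendsto y' atTop (𝓝 y₀) ∧
      ∀ᶠ k in atTop, ⟪a k, y' k⟫ = 0 := by
  have h2 := ha.inner (𝕜 := ℝ) (tendsto_const_nhds (x := ζ))
  refine ⟨fun k => y k - (⟪a k, y k⟫ / ⟪a k, ζ⟫) • ζ, ?_, ?_⟩
  · simpa [h0] using hy.sub (((ha.inner (𝕜 := ℝ) hy).div h2 h1).smul_const ζ)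
  · filter_upwards [h2.eventually_ne h1] with k hk
    rw [inner_sub_right, inner_smul_right, div_mul_cancel₀ _ hk, sub_self]

end LIM

open LIM in
theorem bLIM : St_LIM := by
  intro V _ _ _ Φ ξ0 H Ω hC
  have hΦ : Continuous Φ := continuousOn_univ.1 (Φ.convexOn.continuousOn isOpen_univ)
  have hs : ∀ ζ π, (ζ, π) ∈ Gr Ω H → ∃ u : ℕ → V, (∀ k, u k ∈ Ω) ∧ Tendsto u atTop (𝓝 ζ) ∧
      Tendsto (fun k => H (u k)) atTop (𝓝 π) := fun ζ π h => by
    obtain ⟨x, hx, hl⟩ := mem_closure_iff_seq_limit.1 h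
    choose u hu he using hx
    obtain rfl : x = fun k => (u k, H (u k)) := funext fun k => (he k).symm
    exact ⟨u, hu, hl.fst_nhds, hl.snd_nhds⟩
  refine ⟨fun ζ π h => ?_, fun ζ π h hc => ?_⟩
  · obtain ⟨u, hu, h1, h2⟩ := hs ζ π h
    have h3 : π ζ = ξ0 := tendsto_nhds_unique (app h2 h1)
      (tendsto_const_nhds.congr fun k => (hC.H0 _ (hu k)).symm)
    have h4 : ζ ≠ 0 := fun h0 => hC.oc.nz _ hC.mem (by rw [← h3, h0, map_zero])
    have h5 := fun y (hy : ⟪ζ, y⟫ = 0) => corr h1 (tendsto_const_nhds (x := y)) hy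
      (inner_self_ne_zero.2 h4)
    refine ⟨mem_closure_of_tendsto h1 (Eventually.of_forall hu), h4, h3, fun y hy => ?_,
      fun ξ hξ y hy hy' => ?_⟩
    · obtain ⟨y', l1, l2⟩ := h5 y hy
      exact tendsto_nhds_unique ((tendsto_const_nhds (x := ξ0)).inner (𝕜 := ℝ) (app h2 l1))
        (tendsto_const_nhds.congr' (l2.mono fun k hk => (hC.Hp _ (hu k) _ hk).symm))
    · rcases eq_or_ne y 0 with rfl | h0
      · simp
      obtain ⟨y', l1, l2⟩ := h5 y hy'
      obtain ⟨x, l3, l4⟩ := corr l1 (tendsto_const_nhds (x := ξ)) (by rwa [real_inner_comm])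
        (inner_self_ne_zero.2 h0)
      refine tendsto_nhds_unique ((hΦ.tendsto _).comp (app h2 l1))
        (((hΦ.tendsto _).comp (app ((hC.co ξ hξ).tendsto.comp l3) l1)).congr' ?_)
      filter_upwards [l2, l4, l3.eventually (hC.oc.op.mem_nhds hξ)] with k k1 k2 k3
      exact hC.t1 _ k3 _ (hu k) _ (by rwa [real_inner_comm]) k1
  · obtain ⟨u, -, h1, h2⟩ := hs ζ π h
    exact tendsto_nhds_unique h2 (hc.tendsto.comp h1)

end Pool.Agent.Lib.LB
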