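import Pool.Agent.Lib.LB.Basic
import Pool.Agent.Lib.LB.Poly

/-! Local Banach problem: the lifted distribution and its polynomial frames. -/

set_option autoImplicit false

open Set Filter Topology Metric Module
open scoped RealInnerProductSpace ContDiff NNReal

noncomputable section

namespace Pool.Agent.Lib.LB

namespace LOC

variable {E V : Type} [NormedAddCommGroup E] [InnerProductSpace ℝ E] [NormedAddCommGroup V]
  [InnerProductSpace ℝ V] {S : Sp E V} {Φ : Seminorm ℝ V} {r : ℝ} {C : ℝ≥0} {G H : E → E →L[ℝ] E}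

theorem kil_iff (h : Lf S Φ r C G H) {l : E} (hl : ‖l‖ < r) (y u : E) :
    u ∈ Kil (S.n Φ) y ↔ S.j l (G l u) ∈ Kil Φ (S.j l (G l y)) :=
  K9 (Eventually.of_forall fun s => by
    rw [S.n_apply, ← h.iso l hl, map_add, map_add, map_smul, map_smul])

/-- The transverse member of the frame. -/
def v0 (S : Sp E V) (A B : E →L[ℝ] E) (l μ : E) : E →L[ℝ] V :=
  (S.j l).comp (A.comp B) + (innerSL ℝ μ).smulRight S.e

theorem v0_apply (A B : E →L[ℝ] E) (l μ x : E) :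
    v0 S A B l μ x = S.j l (A (B x)) + ⟪μ, x⟫ • S.e := by
  simp [v0]

theorem v0_pr (A B : E →L[ℝ] E) (l μ x : E) : S.pr (v0 S A B l μ x) = A (B x) := by
  rw [v0_apply, map_add, map_smul, S.pr_j, S.pr_e, smul_zero, add_zero]

theorem v0_xi (A B : E →L[ℝ] E) (l μ x : E) : ⟪S.xi l, v0 S A B l μ x⟫ = ⟪μ, x⟫ := by
  rw [v0_apply, inner_add_right, S.xi_j, inner_smul_right, S.xi_e]
  ring

theorem frame {m : ℕ} {A A' B : E →L[ℝ] E} (h1 : ∀ x, A (A' x) = x) (h2 : ∀ x, A' (A x) = x)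
    (l x0 x : E) (p : Fin m → E) (hp : LinearIndependent ℝ p) (h0 : ⟪x0, x⟫ ≠ 0)
    (D : Submodule ℝ V) (hD : ∀ v, v ∈ D ↔
      ⟪x0, x⟫ • A' (S.pr v) - ⟪S.xi l, v⟫ • B x ∈ Submodule.span ℝ (range p)) :
    LinearIndependent ℝ (Fin.cons (v0 S A B l x0 x) fun i => S.j l (A (p i)) : Fin (m + 1) → V) ∧
      Submodule.span ℝ (range (Fin.cons (v0 S A B l x0 x) fun i => S.j l (A (p i)) : Fin (m + 1) → V))
        = D := by
  let T : E →ₗ[ℝ] V := ((S.j l).comp A : E →L[ℝ] V)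
  have hT : ∀ y, T y = S.j l (A y) := fun _ => rfl
  have e : (fun i => S.j l (A (p i))) = T ∘ p := rfl
  have hm : Submodule.span ℝ (range fun i => S.j l (A (p i))) = (Submodule.span ℝ (range p)).map T := by
    rw [e, range_comp, Submodule.map_span]
  constructor
  · rw [linearIndependent_finCons]
    constructor
    · rw [e]
      refine hp.map' T (LinearMap.ker_eq_bot'.2 fun y hy => ?_)
      have := congrArg (fun v => A' (S.pr v)) hy
      simpa [hT, S.pr_j, h2] using this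
    · rw [hm]
      rintro ⟨y, -, hy⟩
      have := v0_xi (S := S) A B l x0 x
      rw [← hy, hT, S.xi_j] at this
      exact h0 this.symm
  · apply le_antisymm
    · rw [Submodule.span_le]
      rintro _ ⟨i, rfl⟩
      refine Fin.cases ?_ (fun i => ?_) i
      · rw [Fin.cons_zero, SetLike.mem_coe, hD, v0_pr, v0_xi, h2, sub_self]
        exact zero_mem _
      · rw [Fin.cons_succ, SetLike.mem_coe, hD, S.pr_j, h2, S.xi_j, zero_smul, sub_zero]
        exact Submodule.smul_mem _ _ (Submodule.subset_span ⟨i, rfl⟩)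
    · intro v hv
      rw [Fin.range_cons, Submodule.mem_span_insert, hm]
      refine ⟨⟪S.xi l, v⟫ / ⟪x0, x⟫, _, ⟨_, Submodule.smul_mem _ (⟪x0, x⟫)⁻¹ ((hD v).1 hv), rfl⟩, ?_⟩
      have a1 : ⟪S.xi l, v - (⟪S.xi l, v⟫ / ⟪x0, x⟫) • v0 S A B l x0 x⟫ = 0 := by
        rw [inner_sub_right, inner_smul_right, v0_xi, div_mul_cancel₀ _ h0, sub_self]
      have a2 := S.j_pr a1
      rw [map_sub, map_smul, v0_pr] at a2
      have a3 : A ((⟪x0, x⟫)⁻¹ • (⟪x0, x⟫ • A' (S.pr v) - ⟪S.xi l, v⟫ • B x)) =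
          S.pr v - (⟪S.xi l, v⟫ / ⟪x0, x⟫) • A (B x) := by
        rw [smul_sub, smul_smul, smul_smul, inv_mul_cancel₀ h0, one_smul, map_sub, h1, map_smul,
          div_eq_inv_mul]
      rw [hT, a3, a2]
      abel

theorem move (A B : E →L[ℝ] E) (l : E) (μ : V) : ∃ L : V →L[ℝ] V, L (S.xi l) = μ ∧
    (∀ y, ⟪S.xi l, y⟫ = 0 → ⟪S.xi l, L y⟫ = -⟪μ, y⟫) ∧
    ∀ x, L (S.j l x) = -v0 S A B l (S.pr μ - ⟪S.e, μ⟫ • l) x := by
  have hx : ⟪S.xi l, S.xi l⟫ ≠ 0 := fun h => by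
    have := S.xi_e l
    rw [inner_self_eq_zero.1 h, inner_zero_left] at this
    exact zero_ne_one this
  let c : V →L[ℝ] ℝ := (⟪S.xi l, S.xi l⟫)⁻¹ • innerSL ℝ (S.xi l)
  have hc : ∀ y, c y = (⟪S.xi l, S.xi l⟫)⁻¹ * ⟪S.xi l, y⟫ := fun y => by simp [c]
  let R : V →L[ℝ] V := (v0 S A B l (S.pr μ - ⟪S.e, μ⟫ • l)).comp S.pr
  have hL : ∀ y, (c.smulRight (μ + R (S.xi l)) - R) y = c y • (μ + R (S.xi l)) - R y := fun y => by
    simp
  have k : ∀ x, (c.smulRight (μ + R (S.xi l)) - R) (S.j l x) =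
      -v0 S A B l (S.pr μ - ⟪S.e, μ⟫ • l) x := fun x => by
    rw [hL, hc, S.xi_j, mul_zero, zero_smul, zero_sub]
    simp only [R, ContinuousLinearMap.comp_apply, S.pr_j]
  refine ⟨c.smulRight (μ + R (S.xi l)) - R, ?_, fun y hy => ?_, k⟩
  · rw [hL, hc, inv_mul_cancel₀ hx, one_smul, add_sub_cancel_right]
  · rw [← S.j_pr hy, k, inner_neg_right, v0_xi, S.j_apply, inner_sub_right, S.inner_ι,
      inner_sub_left, inner_smul_right, real_inner_smul_left, real_inner_comm μ S.e]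
    ring

end LOC

theorem bLOC (hLIFT : St_LIFT) (hDIST : St_DIST) (hRAD : St_RAD) (hZF : St_ZF) (hTINV : St_TINV) :
    St_LOC := by
  intro E V _ _ _ _ _ _ _ S Φ hΦ hI
  obtain ⟨r, C, G, H, hL⟩ := hLIFT E V S Φ hΦ hI
  obtain ⟨x0, O, d, m, P, τ, hD⟩ := hDIST E (S.n Φ)
  obtain ⟨ρ, O', D, ρ0, ρr, op, mem, hT⟩ := hTINV E V S Φ r C G H x0 O d m P τ hL hD
  refine ⟨x0, O', ρ, {l | ‖l‖ < ρ ∧ DifferentiableAt ℝ H l}, D, m + 1, d + 1, hD.ne, op, mem, ρ0,
    ?_, ?_, ?_, ?_⟩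
  · refine ((hRAD E _ H C hL.lipH).open_subset_closure_inter isOpen_ball).trans (closure_mono ?_)
    exact fun l hl => ⟨mem_ball_zero_iff.1 hl.1, hl.2⟩
  · rintro l ⟨l1, l2⟩
    have lr := l1.trans_le ρr
    refine ⟨Fin.cons (fun x => LOC.v0 S (G l) (fderiv ℝ H l x0) l x0 x)
      fun i x => S.j l (G l (P i (H l x))), fun i => ?_, fun i x => ?_, fun x hx => ?_⟩
    · refine Fin.cases ?_ (fun i => ?_) i
      · exact (IsPol.lin _).mono (by omega)
      · exact ((((hD.pol i).pre (H l)).post (G l)).post (S.j l)).mono (by omega)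
    · refine Fin.cases ?_ (fun i => ?_) i
      · rw [Fin.cons_zero, LOC.v0_apply]
        exact (hZF E V S Φ r C G H hL l lr l2).2 x0 x
      · have := (LOC.kil_iff hL lr _ _).1 (hD.kil i (H l x))
        rwa [hL.GH] at this
    · obtain ⟨t1, t2, t3⟩ := hT l l1 x hx
      have e : (fun i => (Fin.cons (fun x => LOC.v0 S (G l) (fderiv ℝ H l x0) l x0 x)
          fun i x => S.j l (G l (P i (H l x))) : Fin (m + 1) → E → V) i x) =
          Fin.cons (LOC.v0 S (G l) (fderiv ℝ H l x0) l x0 x) fun i => S.j l (G l (P i (H l x))) :=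
        funext fun i => Fin.cases rfl (fun _ => rfl) i
      unfold spn
      rw [e]
      exact LOC.frame (hL.GH l) (hL.HG l) l x0 x _ (hD.li _ t1) t2 _ (t3 l2)
  · rintro l ⟨l1, l2⟩ A hA x hx
    obtain ⟨t1, -, t3⟩ := hT l l1 x hx
    rw [t3 l2, (hA.2 _ (S.xi_j l x)).1, zero_smul, sub_zero]
    have := hD.all (fun y => H l (S.pr (A (S.j l (G l y)))))
      ((((((Pl.lin (G l)).post (S.j l)).post A).post S.pr).post (H l))) (fun y => by
        rw [LOC.kil_iff hL (l1.trans_le ρr), hL.GH, S.j_pr (hA.2 _ (S.xi_j l _)).1]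
        exact (hA.2 _ (S.xi_j l _)).2) _ t1
    rw [hL.GH] at this
    exact Submodule.smul_mem _ _ this
  · rintro l ⟨l1, l2⟩ μ
    obtain ⟨L, a1, a2, a3⟩ := LOC.move (S := S) (G l) (fderiv ℝ H l (S.pr μ - ⟪S.e, μ⟫ • l)) l μ
    refine ⟨L, a1, a2, fun x hx => ?_⟩
    obtain ⟨t1, -, t3⟩ := hT l l1 x hx
    obtain ⟨z1, z2⟩ := (hZF E V S Φ r C G H hL l (l1.trans_le ρr) l2).1 x0 (S.pr μ - ⟪S.e, μ⟫ • l)
    have := neg_mem (hD.all _ z1 z2 _ t1)
    rw [hL.GH] at this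
    rw [t3 l2, a3, map_neg, map_neg, inner_neg_right, LOC.v0_pr, LOC.v0_xi, hL.HG, smul_neg, neg_smul]
    rwa [neg_sub'] at this

end Pool.Agent.Lib.LB
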