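import Pool.Agent.Lib.LB.Blue

/-! Local Banach problem: boundary points of a maximal cone are not regular. -/

set_option autoImplicit false

open Set Filter Topology Metric Module
open scoped RealInnerProductSpace

noncomputable section

namespace Pool.Agent.Lib.LB

namespace MAX

variable {V : Type} [NormedAddCommGroup V] [InnerProductSpace ℝ V]

/-- The cone generated by a set and a ray. -/
def cn (O : Set V) (b : V) : Set V :=
  {x | ∃ a ∈ O, ∃ l : ℝ, 0 < l ∧ ∃ c : ℝ, 0 ≤ c ∧ x = l • a + c • b}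

theorem cn_oc {O : Set V} {b : V} (ho : IsOpen O) (hc : Convex ℝ O) (hz : ∀ x ∈ cn O b, x ≠ 0) :
    Oc (cn O b) where
  op := by
    rw [isOpen_iff_mem_nhds]
    rintro x ⟨a, ha, l, hl, c, hc0, rfl⟩
    have h1 : Continuous fun y : V => l⁻¹ • (y - c • b) := by fun_prop
    have h2 : l⁻¹ • (l • a + c • b - c • b) ∈ O := by
      rwa [add_sub_cancel_right, inv_smul_smul₀ hl.ne']
    filter_upwards [h1.continuousAt.preimage_mem_nhds (ho.mem_nhds h2)] with y hy
    exact ⟨_, hy, l, hl, c, hc0, by rw [smul_inv_smul₀ hl.ne', sub_add_cancel]⟩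
  cv := by
    rintro _ ⟨a, ha, l, hl, c, hc0, rfl⟩ _ ⟨a', ha', l', hl', c', hc0', rfl⟩ p q hp hq hpq
    have h1 : 0 < p * l + q * l' := by
      rcases hp.eq_or_lt with h | h
      · have : q = 1 := by linarith
        rw [← h, this]; linarith
      · have := mul_pos h hl
        have := mul_nonneg hq hl'.le
        linarith
    refine ⟨(p * l / (p * l + q * l')) • a + (q * l' / (p * l + q * l')) • a',
      hc ha ha' (by positivity) (by positivity) (by field_simp), p * l + q * l', h1,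
      p * c + q * c', by positivity, ?_⟩
    rw [smul_add (p * l + q * l'), smul_smul, smul_smul, mul_div_cancel₀ _ h1.ne',
      mul_div_cancel₀ _ h1.ne']
    module
  sc := by
    rintro _ ⟨a, ha, l, hl, c, hc0, rfl⟩ t ht
    exact ⟨a, ha, t * l, mul_pos ht hl, t * c, mul_nonneg ht.le hc0, by module⟩
  nz := hz

theorem sub_cn {O : Set V} (b : V) : O ⊆ cn O b := fun a ha =>
  ⟨a, ha, 1, one_pos, 0, le_rfl, by simp⟩

theorem ray_cl {O : Set V} {b a : V} (ha : a ∈ O) {c : ℝ} (hc : 0 ≤ c) :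
    c • b ∈ closure (cn O b) := by
  have t : Tendsto (fun s : ℝ => s • a + c • b) (𝓝[>] 0) (𝓝 (c • b)) :=
    tendsto_nhdsWithin_of_tendsto_nhds (Continuous.tendsto' (by fun_prop) 0 _ (by simp))
  exact mem_closure_of_tendsto t
    (eventually_mem_nhdsWithin.mono fun s (h : 0 < s) => ⟨a, ha, s, h, c, hc, rfl⟩)

theorem smul_cl {O : Set V} {b a : V} (ha : a ∈ closure O) {l : ℝ} (hl : 0 < l) :
    l • a ∈ closure (cn O b) :=
  map_mem_closure (f := fun y : V => l • y) (by fun_prop) ha fun y hy =>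
    ⟨y, hy, l, hl, 0, le_rfl, by simp⟩

theorem cn_seg {Γ : Set V} (hs : ∀ ξ ∈ Γ, ∀ t : ℝ, 0 < t → t • ξ ∈ Γ) {a b : V}
    (h : ∀ θ ∈ Icc (0 : ℝ) 1, (1 - θ) • a + θ • b ∈ Γ) {l c : ℝ} (hl : 0 < l) (hc : 0 ≤ c) :
    l • a + c • b ∈ Γ := by
  have h1 : 0 < l + c := by linarith
  have h2 := hs _ (h (c / (l + c)) ⟨by positivity, by rw [div_le_one h1]; linarith⟩) _ h1
  have e : (l + c) * (1 - c / (l + c)) = l := by field_simp; ring
  rwa [smul_add, smul_smul, smul_smul, mul_div_cancel₀ _ h1.ne', e] at h2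

end MAX

open MAX in
theorem bMAX (hBIP : St_BIP) (hOBS : St_OBS) : St_MAX := by
  intro V _ _ _ Φ ξ0 ρ Γ H Ω h3 hΦ hD hΩ hs h0 hm ζ z1 z2 z3 z4
  obtain ⟨-, b2, -, -, b5, -, -, -⟩ := hBIP V Ω hΩ ⟨ξ0, h0⟩
  set b : ℝ → V := fun t => ζ + t • (ζ - ξ0) with hb
  have bc : Continuous b := by rw [hb]; fun_prop
  have b0 : b 0 = ζ := by simp [hb]
  have back : ∀ t : ℝ, 0 ≤ t → b t + t • ξ0 ∉ Ω := fun t ht h => by
    have e : b t + t • ξ0 = (1 + t) • ζ := by simp only [hb]; module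
    have h1 : 0 < 1 + t := by linarith
    have := hΩ.sc _ h _ (inv_pos.2 h1)
    rw [e, inv_smul_smul₀ h1.ne'] at this
    exact z2 this
  have out : ∀ t : ℝ, 0 ≤ t → b t ∉ Ω := fun t ht h => by
    rcases ht.eq_or_lt with e | e
    · rw [← e, b0] at h
      exact z2 h
    · exact back t ht (b5 _ (subset_closure h) _ (hΩ.sc _ h0 _ e))
  obtain ⟨s, hs0, hsb⟩ : ∃ s > 0, ∀ t ∈ Icc (0 : ℝ) s, b t ∈ Γ ∧ -b t ∉ closure Ω := by
    have e1 : ∀ᶠ t in 𝓝 (0 : ℝ), b t ∈ Γ :=
      bc.continuousAt.preimage_mem_nhds (hD.op.mem_nhds (by rwa [b0]))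
    have e2 : ∀ᶠ t in 𝓝 (0 : ℝ), -b t ∈ (closure Ω)ᶜ :=
      bc.neg.continuousAt.preimage_mem_nhds (isClosed_closure.isOpen_compl.mem_nhds (by
        rw [mem_compl_iff]
        simpa only [Pi.neg_apply, b0] using z3))
    obtain ⟨ε, hε, h⟩ := Metric.eventually_nhds_iff.1 (e1.and e2)
    refine ⟨ε / 2, half_pos hε, fun t ht => h ?_⟩
    rw [Real.dist_eq, sub_zero, abs_of_nonneg ht.1]
    linarith [ht.2]
  have cn' := hD.cn Ω hΩ hs h0
  have key : cn Ω (b s) ⊆ Γ := by
    rintro _ ⟨a0, ha0, l0, hl0, c0, hc0, rfl⟩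
    have hK : IsCompact (segment ℝ ξ0 a0) := by
      rw [segment_eq_image]
      exact isCompact_Icc.image (by fun_prop)
    obtain ⟨δ, hδ, hδs⟩ := hK.exists_cthickening_subset_open hΩ.op (hΩ.cv.segment_subset h0 ha0)
    set O := thickening δ (segment ℝ ξ0 a0) with hO
    have o1 : IsOpen O := isOpen_thickening
    have o2 : Convex ℝ O := (convex_segment ξ0 a0).thickening δ
    have o3 : closure O ⊆ Ω := (closure_thickening_subset_cthickening δ _).trans hδs
    have o4 : IsCompact (closure O) :=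
      hK.cthickening.of_isClosed_subset isClosed_closure (closure_thickening_subset_cthickening δ _)
    have o5 : ξ0 ∈ O := self_subset_thickening hδ _ (left_mem_segment ℝ ξ0 a0)
    have o6 : a0 ∈ O := self_subset_thickening hδ _ (right_mem_segment ℝ ξ0 a0)
    set T : Set ℝ := {t | ∀ p ∈ closure O ×ˢ Icc (0 : ℝ) 1, (1 - p.2) • p.1 + p.2 • b t ∈ Γ} with hT
    have hall : Icc 0 s ⊆ T := by
      refine IsClosed.Icc_subset_of_forall_mem_nhdsWithin (isClosed_of_closure_subset ?_) ?_ ?_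
      · intro t ht
        have t1 : t ∈ Icc 0 s := closure_minimal inter_subset_right isClosed_Icc ht
        have t2 : cn O (b t) ⊆ Γ := by
          rintro _ ⟨a, ha, l, hl, c, hc, rfl⟩
          have h1 : Continuous fun u : ℝ => a + (c / l) • (b t - b u) := by fun_prop
          have h2 : ∀ᶠ u in 𝓝 t, a + (c / l) • (b t - b u) ∈ O :=
            h1.continuousAt.preimage_mem_nhds (o1.mem_nhds (by simpa using ha))
          obtain ⟨u, u1, u2, -⟩ := mem_closure_iff_nhds.1 ht _ h2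
          have h4 := cn_seg hD.sc (fun θ hθ => u2 (_, θ) ⟨subset_closure u1, hθ⟩) hl hc
          have e : l • (a + (c / l) • (b t - b u)) + c • b u = l • a + c • b t := by
            rw [smul_add, smul_smul, mul_div_cancel₀ _ hl.ne']
            module
          rwa [e] at h4
        have t3 : Oc (cn O (b t)) := cn_oc o1 o2 fun x hx => hD.nz x (t2 hx)
        refine ⟨?_, t1⟩
        rintro ⟨a, θ⟩ ⟨ha, hθ⟩
        change (1 - θ) • a + θ • b t ∈ Γ
        rcases hθ.1.eq_or_lt with e | e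
        · have e' : θ = 0 := e.symm
          simpa [e'] using hs (o3 ha)
        rcases hθ.2.eq_or_lt with e1 | e1
        · have e' : θ = 1 := e1
          simpa [e'] using (hsb t t1).1
        have p1 : 0 < 1 - θ := sub_pos.2 e1
        have p2 : (1 - θ) • a ∈ Ω := hΩ.sc _ (o3 ha) _ p1
        refine hOBS V Φ ξ0 ρ Γ H _ _ _ h3 hΦ hD t3 t2 (sub_cn _ o5) (smul_cl ha p1)
          (ray_cl o5 hθ.1) (smul_ne_zero e.ne' (hD.nz _ (hsb t t1).1)) (fun c hc => ?_)
          (cn'.co _ p2) (cn'.un _ p2)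
        rw [hc, smul_smul] at p2
        rcases lt_trichotomy (c * θ) 0 with h | h | h
        · have := hΩ.sc _ p2 _ (inv_pos.2 (neg_pos.2 h))
          rw [smul_smul, inv_neg, neg_mul, inv_mul_cancel₀ h.ne, neg_one_smul] at this
          exact (hsb t t1).2 (subset_closure this)
        · rw [h, zero_smul] at p2
          exact hΩ.nz _ p2 rfl
        · have := hΩ.sc _ p2 _ (inv_pos.2 h)
          rw [inv_smul_smul₀ h.ne'] at this
          exact out t t1.1 this
      · rintro ⟨a, θ⟩ ⟨ha, hθ⟩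
        change (1 - θ) • a + θ • b 0 ∈ Γ
        rw [b0]
        rcases hθ.2.eq_or_lt with e1 | e1
        · have e' : θ = 1 := e1
          simpa [e'] using z4
        rw [add_comm]
        refine hs (b5 _ ((b2 _).2 fun y hy => ?_) _ (hΩ.sc _ (o3 ha) _ (sub_pos.2 e1)))
        rw [real_inner_smul_left]
        exact mul_nonneg hθ.1 ((b2 _).1 z1 y hy)
      · rintro t ⟨ht, -⟩
        refine nhdsWithin_le_nhds ((o4.prod isCompact_Icc).eventually_forall_of_forall_eventually
          (P := fun t (p : V × ℝ) => (1 - p.2) • p.1 + p.2 • b t ∈ Γ) fun p hp => ?_)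
        have h1 : Continuous fun z : ℝ × V × ℝ => (1 - z.2.2) • z.2.1 + z.2.2 • b z.1 := by fun_prop
        exact h1.continuousAt.preimage_mem_nhds (hD.op.mem_nhds (ht p hp))
    exact cn_seg hD.sc
      (fun θ hθ => hall ⟨hs0.le, le_rfl⟩ (a0, θ) ⟨subset_closure o6, hθ⟩) hl0 hc0
  have fin := hm _ (cn_oc hΩ.op hΩ.cv fun x hx => hD.nz x (key hx)) key (sub_cn _)
  refine back s hs0.le (fin ⟨ξ0, h0, s, hs0, 1, zero_le_one, ?_⟩)
  rw [one_smul, add_comm]

end Pool.Agent.Lib.LB
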