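import Pool.Agent.Lib.LB.Basic

/-! Local Banach problem: block NR (transverse killing directions when the dual cone is not a ray). -/

set_option autoImplicit false

open Set Filter Topology Metric Module
open scoped RealInnerProductSpace

noncomputable section

namespace Pool.Agent.Lib.LB.NR

variable {V : Type} [NormedAddCommGroup V] [InnerProductSpace ℝ V]

/-- A vector killed by a compatible map is a killing direction at the points of both hyperplanes. -/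
theorem kil_of_cp {Φ : Seminorm ℝ V} {ξ0 : V} {ρ : ℝ} {H : V → V →L[ℝ] V} {Ω : Set V} (hρ : 0 < ρ)
    (hb : ball ξ0 ρ ⊆ Ω) (hd : ∀ ξ ∈ ball ξ0 ρ, ∀ y, ⟪ξ, y⟫ = 0 → Φ (H ξ y) = Φ y) {ζ p x : V}
    {π : V →L[ℝ] V} (hcp : Cp Φ ξ0 H Ω ζ π) (hπ : π p = 0) (hp : ⟪ξ0, p⟫ = 1) (hζp : ⟪ζ, p⟫ = 0)
    (hx : x ≠ 0) (hx0 : ⟪ξ0, x⟫ = 0) (hζx : ⟪ζ, x⟫ = 0) : p ∈ Kil Φ x := by
  have hxx : ⟪x, x + (0 : ℝ) • p⟫ ≠ 0 := by
    rw [zero_smul, add_zero]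
    exact fun h => hx (inner_self_eq_zero.1 h)
  have c1 : Continuous fun s : ℝ => ⟪x, x + s • p⟫ := by fun_prop
  have c2 : ContinuousAt (fun s : ℝ => ξ0 - (s / ⟪x, x + s • p⟫) • x) 0 :=
    continuousAt_const.sub ((continuousAt_id.div c1.continuousAt hxx).smul continuousAt_const)
  have e1 : ∀ᶠ s in 𝓝 (0 : ℝ), ⟪x, x + s • p⟫ ≠ 0 := c1.continuousAt.eventually_ne hxx
  have e2 : ∀ᶠ s in 𝓝 (0 : ℝ), ξ0 - (s / ⟪x, x + s • p⟫) • x ∈ ball ξ0 ρ := by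
    refine c2.eventually_mem ?_
    simpa using ball_mem_nhds ξ0 hρ
  have h0 : Φ (π x) = Φ x := by
    rw [hcp.t1 ξ0 (hb (mem_ball_self hρ)) x hx0 hζx, hd ξ0 (mem_ball_self hρ) x hx0]
  refine K8 ?_
  filter_upwards [e1, e2] with s h1 h2
  have a1 : ⟪ξ0 - (s / ⟪x, x + s • p⟫) • x, x + s • p⟫ = 0 := by
    rw [inner_sub_left, real_inner_smul_left, div_mul_cancel₀ _ h1, inner_add_right,
      real_inner_smul_right, hx0, hp]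
    ring
  have a2 : ⟪ζ, x + s • p⟫ = 0 := by
    rw [inner_add_right, real_inner_smul_right, hζx, hζp]
    ring
  have a3 := hcp.t1 _ (hb h2) _ a1 a2
  rw [hd _ h2 _ a1, map_add, map_smul, hπ, smul_zero, add_zero, h0] at a3
  exact a3.symm

end Pool.Agent.Lib.LB.NR

namespace Pool.Agent.Lib.LB

theorem bNR (hLIM : St_LIM) : St_NR := by
  intro V _ _ _ Φ ξ0 ρ H Ω hDf hCn hρ hb hd hne hex
  have one : ∀ l : V, (∃ y ∈ Kd Ω, ∃ y' ∈ Kd Ω, ⟪ξ0, y⟫ = 1 ∧ ⟪ξ0, y'⟫ = 1 ∧ ⟪l, y⟫ ≠ ⟪l, y'⟫) →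
      ∃ p ∈ Kd Ω, ⟪ξ0, p⟫ = 1 ∧ (∀ y ∈ Kd Ω, ⟪ξ0, y⟫ = 1 → ⟪l, y⟫ ≤ ⟪l, p⟫) ∧
        ∀ x, x ≠ 0 → ⟪ξ0, x⟫ = 0 → ⟪l, x⟫ = 0 → p ∈ Kil Φ x := by
    intro l hl
    obtain ⟨p, hpK, hp1, hmax, π, hG, hπ⟩ := hex l hl
    refine ⟨p, hpK, hp1, hmax, fun x hx hx0 hlx => ?_⟩
    refine NR.kil_of_cp hρ hb hd ((hLIM V Φ ξ0 H Ω hCn).1 _ π hG).2.2 hπ hp1 ?_ hx hx0 ?_
    · rw [inner_sub_left, real_inner_smul_left, hp1]
      ring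
    · rw [inner_sub_left, real_inner_smul_left, hx0, hlx]
      ring
  have two : ∀ l : V, (∃ y ∈ Kd Ω, ∃ y' ∈ Kd Ω, ⟪ξ0, y⟫ = 1 ∧ ⟪ξ0, y'⟫ = 1 ∧ ⟪l, y⟫ ≠ ⟪l, y'⟫) →
      ∃ p ∈ Kd Ω, ∃ p' ∈ Kd Ω, ⟪ξ0, p⟫ = 1 ∧ ⟪ξ0, p'⟫ = 1 ∧ ⟪l, p - p'⟫ ≠ 0 ∧
        ∀ x, x ≠ 0 → ⟪ξ0, x⟫ = 0 → ⟪l, x⟫ = 0 → p - p' ∈ Kil Φ x := by
    intro l hl
    obtain ⟨p, hpK, hp1, hmax, hk⟩ := one l hl
    obtain ⟨y, hy, y', hy', h1, h1', hyy⟩ := hl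
    obtain ⟨p', hpK', hp1', hmax', hk'⟩ := one (-l) ⟨y, hy, y', hy', h1, h1', by
      rw [inner_neg_left, inner_neg_left]
      exact fun h => hyy (neg_injective h)⟩
    refine ⟨p, hpK, p', hpK', hp1, hp1', ?_, fun x hx hx0 hlx => ?_⟩
    · have a1 := hmax y hy h1
      have a2 := hmax y' hy' h1'
      have a3 := hmax' y hy h1
      have a4 := hmax' y' hy' h1'
      rw [inner_neg_left, inner_neg_left] at a3 a4
      rw [inner_sub_right]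
      intro h
      exact hyy (by linarith)
    · exact sub_mem (hk x hx hx0 hlx) (hk' x hx hx0 (by rw [inner_neg_left, hlx, neg_zero]))
  intro l hl0 hl
  by_cases hw : ∃ y ∈ Kd Ω, ∃ y' ∈ Kd Ω, ⟪ξ0, y⟫ = 1 ∧ ⟪ξ0, y'⟫ = 1 ∧ ⟪l, y⟫ ≠ ⟪l, y'⟫
  · obtain ⟨p, -, p', -, hp1, hp1', hq, hk⟩ := two l hw
    exact ⟨p - p', by rw [inner_sub_right, hp1, hp1', sub_self], hq, hk⟩
  exfalso
  have hz : ∀ y ∈ Kd Ω, ∀ y' ∈ Kd Ω, ⟪ξ0, y⟫ = 1 → ⟪ξ0, y'⟫ = 1 → ⟪l, y - y'⟫ = 0 := by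
    intro y hy y' hy' h1 h1'
    by_contra h
    exact hw ⟨y, hy, y', hy', h1, h1', fun e => h (by rw [inner_sub_right, e, sub_self])⟩
  obtain ⟨y, hy, y', hy', h1, h1', hyy⟩ := hne
  obtain ⟨c, hc, hlow⟩ := snm_low hDf
  have hld : ⟪l, y - y'⟫ = 0 := hz y hy y' hy' h1 h1'
  have hdd : 0 < ⟪y - y', y - y'⟫ := real_inner_self_pos.2 (sub_ne_zero.2 hyy)
  have hll : 0 < ⟪l, l⟫ := real_inner_self_pos.2 hl
  generalize hdef : y - y' = d at hld hdd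
  have hA : 0 ≤ 2 * ‖d‖ * Φ l := by positivity
  obtain ⟨t, ht, htA⟩ : ∃ t : ℝ, 0 < t ∧ t * (2 * ‖d‖ * Φ l) < c * ⟪l, l⟫ := by
    refine ⟨c * ⟪l, l⟫ / (2 * ‖d‖ * Φ l + 1), by positivity, ?_⟩
    rw [div_mul_eq_mul_div, div_lt_iff₀ (by positivity)]
    have := mul_pos hc hll
    nlinarith
  obtain ⟨p, hpK, p', hpK', hp1, hp1', hq, hk⟩ := two (l + t • d) ⟨y, hy, y', hy', h1, h1', by
    intro e
    have e' : ⟪l + t • d, d⟫ = 0 := by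
      conv_lhs => rw [← hdef]
      rw [inner_sub_right, hdef, e, sub_self]
    rw [inner_add_left, real_inner_smul_left, hld, zero_add] at e'
    exact (mul_pos ht hdd).ne' e'⟩
  have hlq : ⟪l, p - p'⟫ = 0 := hz p hpK p' hpK' hp1 hp1'
  have h0q : ⟪ξ0, p - p'⟫ = 0 := by rw [inner_sub_right, hp1, hp1', sub_self]
  generalize p - p' = q at hq hk hlq h0q
  have hq0 : q ≠ 0 := fun h => hq (by rw [h, inner_zero_right])
  have hql : ⟪q, l⟫ = 0 := by rw [real_inner_comm, hlq]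
  have hdl : ⟪d, l⟫ = 0 := by rw [real_inner_comm, hld]
  obtain ⟨a, ha⟩ : ∃ a : ℝ, a * ⟪l, l⟫ = t * ⟪d, q⟫ := ⟨t * ⟪d, q⟫ / ⟪l, l⟫, div_mul_cancel₀ _ hll.ne'⟩
  have hm : Mn Φ (q - a • l) q := by
    refine K1 (hk _ ?_ ?_ ?_)
    · intro h
      have e : ⟪q, q - a • l⟫ = 0 := by rw [h, inner_zero_right]
      rw [inner_sub_right, real_inner_smul_right, hql, mul_zero, sub_zero] at e
      exact hq0 (inner_self_eq_zero.1 e)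
    · rw [inner_sub_right, real_inner_smul_right, h0q, hl0]
      ring
    · rw [inner_sub_right, real_inner_smul_right, inner_add_left, inner_add_left, real_inner_smul_left,
        real_inner_smul_left, hlq, hdl]
      linarith
  have b1 := hm (-1)
  have e1 : q - a • l + (-1 : ℝ) • q = (-a) • l := by module
  rw [e1, map_smul_eq_mul, Real.norm_eq_abs, abs_neg] at b1
  have b2 := map_add_le_add Φ (q - a • l) (a • l)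
  rw [sub_add_cancel, map_smul_eq_mul, Real.norm_eq_abs] at b2
  have b3 := hlow q
  have b4 : |a| * ⟪l, l⟫ ≤ t * (‖d‖ * ‖q‖) := by
    rw [← abs_of_pos hll, ← abs_mul, ha, abs_mul, abs_of_pos ht]
    exact mul_le_mul_of_nonneg_left (abs_real_inner_le_norm d q) ht.le
  have hqn : 0 < ‖q‖ := norm_pos_iff.2 hq0
  have hΦ : 0 ≤ Φ l := apply_nonneg Φ l
  have b5 : c * ‖q‖ * ⟪l, l⟫ ≤ 2 * (|a| * Φ l) * ⟪l, l⟫ :=
    mul_le_mul_of_nonneg_right (by linarith) hll.le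
  have b6 : |a| * ⟪l, l⟫ * Φ l ≤ t * (‖d‖ * ‖q‖) * Φ l := mul_le_mul_of_nonneg_right b4 hΦ
  have b7 : t * (2 * ‖d‖ * Φ l) * ‖q‖ < c * ⟪l, l⟫ * ‖q‖ := mul_lt_mul_of_pos_right htA hqn
  nlinarith

end Pool.Agent.Lib.LB
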