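import Pool.Agent.Lib.LB.Blue

/-! Row OBS: the sum of a regular boundary point and another boundary point is regular. -/

set_option autoImplicit false

open Set Filter Topology Metric Module
open scoped RealInnerProductSpace

namespace Pool.Agent.Lib.LB

theorem OBS.neg {V : Type} [NormedAddCommGroup V] [InnerProductSpace ℝ V] {a c : V} (hc : c ≠ 0)
    (h : ∀ t : ℝ, a ≠ t • c) : ∃ y, ⟪c, y⟫ = 0 ∧ ⟪a, y⟫ ≠ 0 := by
  have h1 : ⟪c, a - (⟪c, a⟫ / ⟪c, c⟫) • c⟫ = 0 := by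
    rw [inner_sub_right, inner_smul_right, div_mul_cancel₀ _ (inner_self_ne_zero.2 hc), sub_self]
  refine ⟨_, h1, fun h2 => h (⟪c, a⟫ / ⟪c, c⟫)
    (sub_eq_zero.1 (inner_self_eq_zero (𝕜 := ℝ).1 ?_))⟩
  rw [inner_sub_left, h2, real_inner_smul_left, h1, mul_zero, sub_zero]

theorem bOBS (hBIP : St_BIP) (hLIM : St_LIM) (hLB : St_LB) (hCL : St_CL) : St_OBS := by
  intro V _ _ _ Φ ξ0 ρ Γ H Ω a b h3 hΦ hD hΩ hs h0 ha hb hb0 hab hc hu
  have cn := hD.cn Ω hΩ hs h0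
  obtain ⟨-, b2, b3, -, -, -, -, b8⟩ := hBIP V Ω hΩ ⟨ξ0, h0⟩
  obtain ⟨l1, l2⟩ := hLIM V Φ ξ0 H Ω cn
  have z1 : a + b ∈ closure Ω := (b2 _).2 fun y hy => by
    rw [inner_add_left]; exact add_nonneg (b8 y hy a ha) (b8 y hy b hb)
  have z2 : a + b ≠ 0 := fun h => hab (-1) (by rw [neg_one_smul]; exact eq_neg_of_add_eq_zero_left h)
  have z3 : ∀ t : ℝ, a ≠ t • (a + b) := fun t h => by
    have e : (1 - t) • a = t • b := by
      rw [sub_smul, one_smul, sub_eq_iff_eq_add, add_comm, ← smul_add]; exact h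
    by_cases h1 : t = 1
    · rw [h1, sub_self, zero_smul, one_smul] at e
      exact hb0 e.symm
    · refine hab ((1 - t)⁻¹ * t) ?_
      rw [mul_smul, ← e, inv_smul_smul₀ (sub_ne_zero.2 (Ne.symm h1))]
  obtain ⟨π, hπ⟩ := (hLB V Φ ξ0 H Ω h3 hΦ cn).2 _ z1 z2
  obtain ⟨c1, c2⟩ := hCL V Φ ξ0 H Ω h3 hΦ cn _ π hπ
  by_cases hπu : IsUnit π
  · refine hD.ii Ω hΩ hs h0 _ π hπu (l1 _ π hπ).2.2 fun y hy => ?_
    have k : ∀ w, ⟪a + b, w⟫ = 0 → ⟪a, w⟫ ≠ 0 → w ∉ Kd Ω := fun w h1 h2 h => by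
      rw [inner_add_left] at h1
      exact h2 (by linarith [b8 w h a ha, b8 w h b hb])
    have k' : ∀ w, ⟪a + b, w⟫ = 0 → ⟪a, w⟫ ≠ 0 → w ∈ {y' | ⟪a + b, y'⟫ = 0 ∧ y' ∈ Wd Ω} :=
      fun w h1 h2 => ⟨h1, (b3 w).2 ⟨k w h1 h2, k _ (by rw [inner_neg_right, h1, neg_zero])
        (by rw [inner_neg_right]; exact neg_ne_zero.2 h2)⟩⟩
    by_cases hay : ⟪a, y⟫ = 0
    · obtain ⟨u, u1, u2⟩ := OBS.neg z2 z3
      have t : Tendsto (fun s : ℝ => y + s • u) (𝓝[>] 0) (𝓝 y) := by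
        refine tendsto_nhdsWithin_of_tendsto_nhds ?_
        exact Continuous.tendsto' (by fun_prop) 0 y (by simp)
      refine mem_closure_of_tendsto t (eventually_mem_nhdsWithin.mono fun s (h : 0 < s) => k' _ ?_ ?_)
      · rw [inner_add_right, inner_smul_right, hy, u1, mul_zero, add_zero]
      · rw [inner_add_right, inner_smul_right, hay, zero_add]
        exact mul_ne_zero h.ne' u2
    · exact subset_closure (k' y hy hay)
  · obtain ⟨z, k1, k2, k3, k4⟩ := c1 hπu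
    rw [inner_add_left] at k3
    obtain ⟨π', p1, p2⟩ := c2 z k1 k2 k4 a ha (by linarith [b8 z k1 a ha, b8 z k1 b hb]) z3
    rw [l2 a π' p1 hc] at p2
    obtain ⟨w, hw⟩ := hu.exists_left_inv
    refine absurd ?_ k2
    have := congrArg (fun L : V →L[ℝ] V => L z) hw
    simpa [p2] using this.symm

end Pool.Agent.Lib.LB
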