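import Pool.Agent.Lib.LB.Poly

/-! Local Banach problem: the orthogonal projection on a polynomial frame is rational. -/

set_option autoImplicit false

open Set Filter Topology Metric Module
open scoped RealInnerProductSpace ContDiff NNReal

noncomputable section

namespace Pool.Agent.Lib.LB

namespace PROJ

theorem step {V : Type} [NormedAddCommGroup V] [InnerProductSpace ℝ V] [FiniteDimensional ℝ V]
    (K K' : Submodule ℝ V) (a : V) (h1 : K ≤ K') (h2 : a ∈ K')
    (h3 : ∀ y ∈ K', ∃ c : ℝ, ∃ z ∈ K, y = c • a + z) (ha : a ∉ K) (v : V) :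
    a - K.starProjection a ≠ 0 ∧ ⟪a - K.starProjection a, a - K.starProjection a⟫ •
      K'.starProjection v = ⟪a - K.starProjection a, a - K.starProjection a⟫ • K.starProjection v +
        ⟪a - K.starProjection a, v⟫ • (a - K.starProjection a) := by
  have n0 : a - K.starProjection a ≠ 0 := fun e =>
    ha (sub_eq_zero.1 e ▸ K.starProjection_apply_mem a)
  refine ⟨n0, ?_⟩
  have o : ∀ x, ∀ z ∈ K, ⟪x - K.starProjection x, z⟫ = 0 := fun x z hz =>
    K.starProjection_inner_eq_zero x z hz
  have pa := K.starProjection_apply_mem a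
  have pv := K.starProjection_apply_mem v
  have ea : a = (a - K.starProjection a) + K.starProjection a := by abel
  have uK : a - K.starProjection a ∈ K' := K'.sub_mem h2 (h1 pa)
  have ou := o a
  generalize a - K.starProjection a = u at *
  have n1 : ⟪u, u⟫ ≠ 0 := inner_self_ne_zero.2 n0
  have : K'.starProjection v = K.starProjection v + (⟪u, v⟫ / ⟪u, u⟫) • u := by
    refine Submodule.eq_starProjection_of_mem_of_inner_eq_zero
      (K'.add_mem (h1 pv) (K'.smul_mem _ uK)) fun y hy => ?_
    obtain ⟨c, z, hz, rfl⟩ := h3 y hy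
    have k : ∀ z ∈ K, ⟪v - (K.starProjection v + (⟪u, v⟫ / ⟪u, u⟫) • u), z⟫ = 0 := fun z hz => by
      rw [← sub_sub, inner_sub_left, o v z hz, real_inner_smul_left, ou z hz]; ring
    have k' : ⟪v - (K.starProjection v + (⟪u, v⟫ / ⟪u, u⟫) • u), u⟫ = 0 := by
      rw [inner_sub_left, inner_add_left, real_inner_smul_left, real_inner_comm u (K.starProjection v),
        ou _ pv, real_inner_comm u v, div_mul_cancel₀ _ n1]; ring
    rw [inner_add_right, k z hz, real_inner_smul_right, ea, inner_add_right, k', k _ pa]; ring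
  rw [this, smul_add, smul_smul, mul_div_cancel₀ _ n1]

end PROJ

theorem bPROJ : St_PROJ := by
  intro r d
  induction r with
  | zero =>
    refine ⟨0, fun E V _ _ _ _ _ _ a _ => ⟨fun _ => 1, fun _ => 0, .const _ _, .const _ _,
      fun x v => Submodule.zero_mem _, fun x _ => ⟨one_ne_zero, ?_⟩⟩⟩
    ext v
    have := (spn a x).starProjection_apply_mem v
    simp only [spn, range_eq_empty, Submodule.span_empty, Submodule.mem_bot] at this
    simp only [spn, range_eq_empty, Submodule.span_empty, one_smul, this,
      zero_apply]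
  | succ r ih =>
    obtain ⟨N, hN⟩ := ih
    refine ⟨N + (N + d + (N + d)), fun E V _ _ _ _ _ _ a ha => ?_⟩
    obtain ⟨q, p, hq, hp, h1, h2⟩ := hN E V (fun i => a i.succ) fun i => ha _
    let w : E → V := fun x => q x • a 0 x - p x (a 0 x)
    have hw : IsPol (N + d) w := (hq.smul (ha 0)).sub (hp.app (ha 0))
    have le : ∀ x, spn (fun i => a i.succ) x ≤ spn a x := fun x =>
      Submodule.span_mono (range_subset_iff.2 fun i => ⟨i.succ, rfl⟩)
    have m0 : ∀ x, a 0 x ∈ spn a x := fun x => Submodule.subset_span ⟨0, rfl⟩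
    refine ⟨fun x => q x • ⟪w x, w x⟫, fun x => ⟪w x, w x⟫ • p x +
      q x • (innerSL ℝ (w x)).smulRight (w x), hq.smul (hw.inner hw), IsPol.of_apply fun u => ?_,
      fun x v => ?_, fun x hx => ?_⟩
    · refine (((hw.inner hw).smul (hp.app (.const 0 u))).mono (by omega)).add
        (hq.smul (((hw.inner (.const 0 u)).smul hw).mono (by omega))) |>.congr fun x => rfl
    · have : w x ∈ spn a x := Submodule.sub_mem _ (Submodule.smul_mem _ _ (m0 x)) (le x (h1 x _))
      exact Submodule.add_mem _ (Submodule.smul_mem _ _ (le x (h1 x v)))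
        (Submodule.smul_mem _ _ (Submodule.smul_mem _ _ this))
    · obtain ⟨l1, l2⟩ := linearIndependent_finSucc.1 hx
      obtain ⟨q0, e⟩ := h2 x l1
      have st := PROJ.step (spn (fun i => a i.succ) x) (spn a x) (a 0 x) (le x) (m0 x) (fun y hy => by
        rw [spn, Fin.range_fin_succ, Submodule.mem_span_insert] at hy
        exact hy) l2
      have ew : w x = q x • (a 0 x - (spn (fun i => a i.succ) x).starProjection (a 0 x)) := by
        simp only [w, e, smul_apply, smul_sub]
      refine ⟨smul_ne_zero q0 (inner_self_ne_zero.2 (ew ▸ smul_ne_zero q0 (st 0).1)), ?_⟩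
      ext v
      have := (st v).2
      simp only [add_apply, smul_apply, e, ew,
        ContinuousLinearMap.smulRight_apply, innerSL_apply_apply, real_inner_smul_left,
        real_inner_smul_right, smul_eq_mul]
      generalize a 0 x - (spn (fun i => a i.succ) x).starProjection (a 0 x) = u at *
      have k : (q x * (q x * (q x * ⟪u, u⟫))) • (spn a x).starProjection v =
          (q x * q x * q x) • ⟪u, u⟫ • (spn a x).starProjection v := by
        rw [smul_smul]; ring_nf
      rw [k, this]
      module

end Pool.Agent.Lib.LB
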