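import Pool.Agent.Lib.LB.Poly

/-! Local Banach problem: the rational projector. -/

set_option autoImplicit false

open Set Filter Topology Metric Module
open scoped RealInnerProductSpace

noncomputable section

namespace Pool.Agent.Lib.LB

namespace RA0

theorem zero {E V F : Type} [NormedAddCommGroup E] [InnerProductSpace ℝ E] [FiniteDimensional ℝ E]
    [NormedAddCommGroup V] [InnerProductSpace ℝ V] [NormedAddCommGroup F] [NormedSpace ℝ F]
    (S : Sp E V) {x0 : E} {O G : Set E} {ε : ℝ} (h0 : x0 ≠ 0) (hO : IsOpen O) (hx : x0 ∈ O)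
    (hε : 0 < ε) (hG : ball (0 : E) ε ⊆ closure G) {f : V → F} (hf : Pl f)
    (h : ∀ l ∈ G, ‖l‖ < ε → ∀ x ∈ O, f (S.j l x) = 0) (y : V) : f y = 0 := by
  have a (x l : E) : f (S.j l x) = 0 := by
    have p : Pl fun l => f (S.j l x) := hf.comp (((Pl.const (S.ι x)).sub
      (((Pl.lin (.id ℝ E)).inner (Pl.const x)).smul (Pl.const S.e))).congr fun l =>
        (S.j_apply l x).symm)
    refine p.eq_zero (O := ball 0 ε) isOpen_ball ⟨0, mem_ball_self hε⟩ (fun m hm => ?_) l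
    refine closure_minimal (t := {m | f (S.j m x) = 0}) (fun k hk => ?_)
      (isClosed_eq p.continuous continuous_const) (isOpen_ball.inter_closure ⟨hm, hG hm⟩)
    exact (hf.pre (S.j k)).eq_zero hO ⟨x0, hx⟩ (h k hk.2 (mem_ball_zero_iff.1 hk.1)) x
  refine hf.eq_zero (O := {y | S.pr y ≠ 0}) (isOpen_ne_fun S.pr.continuous continuous_const)
    ⟨S.ι x0, (S.pr_ι x0).trans_ne h0⟩ (fun z hz => ?_) y
  rw [← S.j_pr (l := (-⟪S.e, z⟫ / ⟪S.pr z, S.pr z⟫) • S.pr z) (y := z) (by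
    rw [S.xi_inner, real_inner_smul_left, div_mul_cancel₀ _ (inner_self_ne_zero.2 hz),
      add_neg_cancel])]
  exact a _ _

end RA0

theorem bRA0 (hPROJ : St_PROJ) (hSR : St_SR) : St_RA0 := by
  intro E V _ _ _ _ _ _ S Φ x0 O ρ G D r d h3 L
  obtain ⟨N, hN⟩ := hPROJ r d
  have k : ∀ l ∈ G, ∃ (q : E → ℝ) (p : E → V →L[ℝ] V), IsPol N q ∧ IsPol N p ∧
      (∀ x v, p x v ∈ Kil Φ (S.j l x)) ∧
      ∀ x ∈ O, q x ≠ 0 ∧ p x = q x • (D (S.j l x)).starProjection := fun l hl => by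
    obtain ⟨a, a1, a2, a3⟩ := L.fr l hl
    obtain ⟨q, p, b1, b2, b3, b4⟩ := hN E V a a1
    refine ⟨q, p, b1, b2, fun x v => Submodule.span_le.2 (range_subset_iff.2 fun i => a2 i x)
      (b3 x v), fun x hx => ?_⟩
    simpa only [(a3 x hx).2] using b4 x (a3 x hx).1
  obtain ⟨δ, M, ε, c1, c2, c3, c4, c5⟩ := hSR E V _ S N x0 O G ρ (fun y => (D y).starProjection) h3
    L.ne L.op L.mem L.pos L.den fun l hl => (k l hl).imp fun q => Exists.imp fun p h =>
      ⟨h.1, h.2.1, h.2.2.2⟩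
  have e0 := lt_min c4 L.pos
  have hG := (ball_subset_ball (min_le_right ε ρ)).trans L.den
  have c6 (l) (hl : l ∈ G) (h : ‖l‖ < min ε ρ) := c5 l hl (h.trans_le (min_le_left _ _))
  refine ⟨δ, M, _, c1, c2, c3, e0, min_le_right _ _, fun y v => sub_eq_zero.1 (RA0.zero S L.ne L.op
    L.mem e0 hG ((c2.app (c2.app (Pl.const v))).sub (c1.smul (c2.app (Pl.const v))))
    (fun l hl h x hx => ?_) y), fun y u v => sub_eq_zero.1 (RA0.zero S L.ne L.op L.mem e0 hG
    (((c2.app (Pl.const u)).inner (Pl.const v)).sub ((Pl.const u).inner (c2.app (Pl.const v))))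
    (fun l hl h x hx => ?_) y), fun l hl h => ?_⟩
  · rw [← c6 l hl h x hx]
    simp only [smul_apply, map_smul, sub_self,
      Submodule.starProjection_eq_self_iff.2 (Submodule.starProjection_apply_mem _ v)]
  · rw [← c6 l hl h x hx]
    simp only [smul_apply, real_inner_smul_left, real_inner_smul_right,
      Submodule.inner_starProjection_left_eq_right, sub_self]
  obtain ⟨q, p, b1, b2, b3, b4⟩ := k l hl
  refine ⟨q, p, ⟨N, b1⟩, ⟨N, b2⟩, b3, fun x hx => ⟨(b4 x hx).1, fun v hv => ?_⟩, fun x =>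
    sub_eq_zero.1 ((((c1.pre _).smul ⟨N, b2⟩).sub (Pl.smul ⟨N, b1⟩ (c2.pre _))).eq_zero L.op
      ⟨x0, L.mem⟩ (fun z hz => ?_) x)⟩
  · rw [(b4 x hx).2, smul_apply, Submodule.starProjection_eq_self_iff.2 hv]
  · rw [(b4 z hz).2, ← c6 l hl h z hz, smul_comm, sub_self]

end Pool.Agent.Lib.LB
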