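import Pool.Agent.Lib.LB.Poly

/-! Row RA1: saturation of the rational distribution in the chart. -/

set_option autoImplicit false

open Set Filter Topology Metric Module
open scoped RealInnerProductSpace ContDiff NNReal

noncomputable section

namespace Pool.Agent.Lib.LB

namespace RA1

variable {E V : Type} [NormedAddCommGroup E] [InnerProductSpace ℝ E] [FiniteDimensional ℝ E]
  [NormedAddCommGroup V] [InnerProductSpace ℝ V] [FiniteDimensional ℝ V]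

omit [FiniteDimensional ℝ E] [FiniteDimensional ℝ V] in
theorem exists_j90 (S : Sp E V) {x0 : E} (h0 : x0 ≠ 0) {c : V → ℝ} (hc : Pl c) (hn : ∃ y, c y ≠ 0) :
    ∃ l x, c (S.j l x) ≠ 0 := by
  have hd := hc.dense hn
  have ho : IsOpen {y : V | S.pr y ≠ 0} := isOpen_ne_fun S.pr.continuous continuous_const
  obtain ⟨y, hy1, hy2⟩ := hd.exists_mem_open ho ⟨S.ι x0, by simpa [S.pr_ι] using h0⟩
  have hp : S.pr y ≠ 0 := hy2
  have hq : ⟪S.pr y, S.pr y⟫ ≠ 0 := fun h => hp (inner_self_eq_zero.1 h)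
  refine ⟨(-⟪S.e, y⟫ / ⟪S.pr y, S.pr y⟫) • S.pr y, S.pr y, ?_⟩
  rw [S.j_pr]
  · exact hy1
  · rw [S.xi_inner, real_inner_smul_left, div_mul_cancel₀ _ hq]
    ring

omit [FiniteDimensional ℝ V] in
theorem pl_l90 (S : Sp E V) {c : V → ℝ} (hc : Pl c) (x : E) : Pl fun l : E => c (S.j l x) := by
  have h1 : Pl fun l : E => ⟪l, x⟫ :=
    (Pl.lin (innerSL ℝ x)).congr fun l => by simp [real_inner_comm]
  have h2 : Pl fun l : E => S.j l x :=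
    ((Pl.const (S.ι x)).sub (h1.smul (Pl.const S.e))).congr fun l => (S.j_apply l x).symm
  exact hc.comp h2

omit [FiniteDimensional ℝ V] in
theorem tang90 (S : Sp E V) {δ : V → ℝ} {M : V → V →L[ℝ] V} (hδ : Pl δ) (hM : Pl M) {O : Set E}
    (hO : IsOpen O) (hn : O.Nonempty) {D : V → Submodule ℝ V} {l : E} {q : E → ℝ} {p : E → V →L[ℝ] V}
    (h1 : ∀ x ∈ O, q x ≠ 0 ∧ ∀ v ∈ D (S.j l x), p x v = q x • v)
    (h2 : ∀ x, δ (S.j l x) • p x = q x • M (S.j l x)) (L : V →L[ℝ] V)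
    (hL : ∀ x ∈ O, L (S.j l x) ∈ D (S.j l x)) {y : V} (hy : ⟪S.xi l, y⟫ = 0) :
    δ y • L y = M y (L y) := by
  have hj : Pl fun x : E => L (S.j l x) := (Pl.lin (S.j l)).post L
  have hf : Pl fun x : E => δ (S.j l x) • L (S.j l x) - M (S.j l x) (L (S.j l x)) :=
    ((hδ.pre (S.j l)).smul hj).sub ((hM.pre (S.j l)).app hj)
  have h0 := hf.eq_zero hO hn (fun x hx => by
    have e1 := (h1 x hx).2 _ (hL x hx)
    have e2 : δ (S.j l x) • p x (L (S.j l x)) = q x • M (S.j l x) (L (S.j l x)) :=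
      DFunLike.congr_fun (h2 x) (L (S.j l x))
    rw [e1, smul_comm] at e2
    exact sub_eq_zero.2 (smul_right_injective V (h1 x hx).1 e2)) (S.pr y)
  rw [S.j_pr hy] at h0
  exact sub_eq_zero.1 h0

end RA1

theorem bRA1 (hRA0 : St_RA0) (hSAT : St_SAT) : St_RA1 := by
  intro E V _ _ _ _ _ _ S Φ x0 O ρ G D r d h3 hL
  obtain ⟨δ, M, ε, pδ, pM, hne, hε, hερ, hMM, hsy, hG⟩ := hRA0 E V S Φ x0 O ρ G D r d h3 hL
  obtain ⟨c, δ', M', pc, pδ', pM', e1, e2, sat⟩ := hSAT V δ M pδ pM hne hMM hsy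
  have hcn : ∃ y, c y ≠ 0 := by
    obtain ⟨y, hy⟩ := hne
    exact ⟨y, fun h => hy (by rw [e1, h, zero_mul])⟩
  obtain ⟨l1, x1, h1⟩ := RA1.exists_j90 S hL.ne pc hcn
  have pl := RA1.pl_l90 S pc x1
  have hG' : ∀ l ∈ {l | l ∈ G ∧ ‖l‖ < ε ∧ c (S.j l x1) ≠ 0}, ∃ (q : E → ℝ) (p : E → V →L[ℝ] V), Pl q ∧
      (∀ x v, p x v ∈ Kil Φ (S.j l x)) ∧ (∀ x ∈ O, q x ≠ 0 ∧ ∀ v ∈ D (S.j l x), p x v = q x • v) ∧
      ∀ x, δ' (S.j l x) • p x = q x • M' (S.j l x) := by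
    rintro l ⟨hl, hl2, hl3⟩
    obtain ⟨q, p, pq, pp, k1, k2, k3⟩ := hG l hl hl2
    refine ⟨q, p, pq, k1, k2, fun x => sub_eq_zero.1 ?_⟩
    refine (pc.pre (S.j l)).cancel (((pδ'.pre (S.j l)).smul pp).sub (pq.smul (pM'.pre (S.j l))))
      ⟨x1, hl3⟩ (fun z => ?_) x
    have k := k3 z
    rw [e1, e2, mul_smul, smul_comm (q z)] at k
    rw [smul_sub, k, sub_self]
  refine ⟨δ', M', ε, {l | l ∈ G ∧ ‖l‖ < ε ∧ c (S.j l x1) ≠ 0}, pδ', pM', sat, hε, ?_, ?_, ?_, ?_⟩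
  · intro l0 hl0
    rw [_root_.mem_closure_iff]
    intro W hW hW0
    have hU : IsOpen {l : E | c (S.j l x1) ≠ 0} := isOpen_ne_fun pl.continuous continuous_const
    obtain ⟨l', a1, a2⟩ := (pl.dense ⟨l1, h1⟩).exists_mem_open (hW.inter isOpen_ball) ⟨l0, hW0, hl0⟩
    have a3 : l' ∈ closure G := hL.den (ball_subset_ball hερ a2.2)
    obtain ⟨l, b1, b2⟩ := _root_.mem_closure_iff.1 a3 _ ((hW.inter isOpen_ball).inter hU) ⟨a2, a1⟩
    exact ⟨l, b1.1.1, b2, mem_ball_zero_iff.1 b1.1.2, b1.2⟩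
  · intro l hl
    obtain ⟨q, p, pq, k1, k2, k3⟩ := hG' l hl
    refine ⟨q, pq, ⟨x0, (k2 x0 hL.mem).1⟩, fun x hx v => ?_⟩
    have e : δ' (S.j l x) • p x v = q x • M' (S.j l x) v := DFunLike.congr_fun (k3 x) v
    have e' : M' (S.j l x) v = (q x)⁻¹ • δ' (S.j l x) • p x v := by
      rw [e, smul_smul, inv_mul_cancel₀ hx, one_smul]
    rw [e']
    exact Submodule.smul_mem _ _ (Submodule.smul_mem _ _ (k1 x v))
  · intro l hl A hA
    obtain ⟨q, p, pq, k1, k2, k3⟩ := hG' l hl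
    exact ⟨hA.1, fun y hy => ⟨(hA.2 y hy).1,
      RA1.tang90 S pδ' pM' hL.op ⟨x0, hL.mem⟩ k2 k3 A (hL.c1 l hl.1 A hA) hy⟩⟩
  · intro l hl μ
    obtain ⟨q, p, pq, k1, k2, k3⟩ := hG' l hl
    obtain ⟨L, m1, m2, m3⟩ := hL.c2 l hl.1 μ
    exact ⟨L, m1, fun y hy => ⟨m2 y hy,
      RA1.tang90 S pδ' pM' hL.op ⟨x0, hL.mem⟩ k2 k3 L m3 hy⟩⟩

end Pool.Agent.Lib.LB
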