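import Pool.Agent.Lib.LB.Basic
import Pool.Agent.Lib.LB.Poly

/-! Local Banach problem: from the chart form of the rational distribution to the normal vector form. -/

set_option autoImplicit false

open Set Filter Topology Metric Module
open scoped RealInnerProductSpace ContDiff NNReal

noncomputable section

namespace Pool.Agent.Lib.LB

namespace RA2

variable {E V : Type} [NormedAddCommGroup E] [InnerProductSpace ℝ E] [NormedAddCommGroup V]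
  [InnerProductSpace ℝ V]

theorem perp_of_smul {ξ y : V} {t : ℝ} (ht : t ≠ 0) (h : ⟪t • ξ, y⟫ = 0) : ⟪ξ, y⟫ = 0 := by
  rw [real_inner_smul_left] at h
  exact (mul_eq_zero.1 h).resolve_left ht

theorem perp_smul {ξ y : V} (t : ℝ) (h : ⟪ξ, y⟫ = 0) : ⟪t • ξ, y⟫ = 0 := by
  rw [real_inner_smul_left, h, mul_zero]

theorem gs_scale {Φ : Seminorm ℝ V} {ξ : V} {t : ℝ} (ht : t ≠ 0) : gs Φ (t • ξ) ≤ gs Φ ξ := by
  intro A hA
  have h1 : A (t • ξ) = 0 := hA.1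
  rw [map_smul] at h1
  exact ⟨(smul_eq_zero.1 h1).resolve_left ht, fun y hy =>
    ⟨perp_of_smul ht (hA.2 y (perp_smul t hy)).1, (hA.2 y (perp_smul t hy)).2⟩⟩

theorem ks_scale {δ : V → ℝ} {M : V → V →L[ℝ] V} {ξ : V} {t : ℝ} (ht : t ≠ 0) :
    ks δ M ξ ≤ ks δ M (t • ξ) := by
  intro A hA
  have h1 : A ξ = 0 := hA.1
  refine ⟨by rw [map_smul, h1, smul_zero], fun y hy => ?_⟩
  exact ⟨perp_smul t (hA.2 y (perp_of_smul ht hy)).1, (hA.2 y (perp_of_smul ht hy)).2⟩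

theorem sl_scale {δ : V → ℝ} {M : V → V →L[ℝ] V} {ξ μ : V} {t : ℝ} (ht : t ≠ 0) {L : V →L[ℝ] V}
    (h : Sl δ M ξ (t⁻¹ • μ) L) : Sl δ M (t • ξ) μ L := by
  refine ⟨by rw [map_smul, h.1, smul_inv_smul₀ ht], fun y hy => ?_⟩
  have h2 := h.2 y (perp_of_smul ht hy)
  refine ⟨?_, h2.2⟩
  rw [real_inner_smul_left, h2.1, real_inner_smul_left, mul_neg, mul_inv_cancel_left₀ ht]

theorem chart (S : Sp E V) {ξ : V} (ht : ⟪S.e, ξ⟫ ≠ 0) :
    ⟪S.e, ξ⟫ • S.xi ((⟪S.e, ξ⟫)⁻¹ • S.pr ξ) = ξ := by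
  rw [Sp.xi, map_smul, smul_add, smul_inv_smul₀ ht, add_comm, S.dec]

theorem near (S : Sp E V) {ε : ℝ} (hε : 0 < ε) :
    ∀ᶠ ξ in 𝓝 S.e, ∃ t : ℝ, t ≠ 0 ∧ ∃ l ∈ ball (0 : E) ε, t • S.xi l = ξ := by
  have c1 : ContinuousAt (fun ξ : V => ⟪S.e, ξ⟫) S.e := by fun_prop
  have n1 : ⟪S.e, S.e⟫ ≠ 0 := by rw [S.ee]; exact one_ne_zero
  have c2 : ContinuousAt (fun ξ : V => (⟪S.e, ξ⟫)⁻¹ • S.pr ξ) S.e :=
    (c1.inv₀ n1).smul S.pr.continuous.continuousAt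
  have m2 : ball (0 : E) ε ∈ 𝓝 ((fun ξ : V => (⟪S.e, ξ⟫)⁻¹ • S.pr ξ) S.e) := by
    simp only [S.pr_e, smul_zero]
    exact ball_mem_nhds _ hε
  filter_upwards [c1.eventually_ne n1, c2.eventually m2] with ξ h1 h2
  exact ⟨_, h1, _, h2, chart S h1⟩

theorem cont_j (S : Sp E V) (x : E) : Continuous fun l : E => S.j l x := by
  simp only [S.j_apply]
  fun_prop

theorem sweep (S : Sp E V) {U : Set E} (hU : IsOpen U) {l : E} (hl : l ∈ U) {y : V} (hy : y ≠ 0)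
    (h : ⟪S.xi l, y⟫ = 0) : ∀ᶠ y' in 𝓝 y, ∃ l' ∈ U, ∃ x, S.j l' x = y' := by
  have n0 : S.pr y ≠ 0 := fun h0 => hy (by rw [← S.j_pr h, h0, map_zero])
  have n1 : ⟪S.pr y, S.pr y⟫ ≠ 0 := fun h0 => n0 (inner_self_eq_zero.1 h0)
  have cp := S.pr.continuous
  have c1 : ContinuousAt (fun y' : V => ⟪S.pr y, S.pr y'⟫) y := by fun_prop
  have c0 : ContinuousAt (fun y' : V => ⟪S.xi l, y'⟫) y := by fun_prop
  have c2 : ContinuousAt (fun y' : V => l - (⟪S.xi l, y'⟫ / ⟪S.pr y, S.pr y'⟫) • S.pr y) y :=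
    continuousAt_const.sub ((c0.div c1 n1).smul continuousAt_const)
  have m2 : U ∈ 𝓝 ((fun y' : V => l - (⟪S.xi l, y'⟫ / ⟪S.pr y, S.pr y'⟫) • S.pr y) y) := by
    simp only [h, zero_div, zero_smul, sub_zero]
    exact hU.mem_nhds hl
  filter_upwards [c1.eventually_ne n1, c2.eventually m2] with y' h1 h2
  refine ⟨_, h2, S.pr y', S.j_pr ?_⟩
  rw [S.xi_inner, inner_sub_left, real_inner_smul_left, div_mul_cancel₀ _ h1, S.xi_inner]
  ring

theorem mn_all [FiniteDimensional ℝ V] {S : Sp E V} {Φ : Seminorm ℝ V} {δ : V → ℝ} {M : V → V →L[ℝ] V}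
    {ε : ℝ} {G : Set E} (h : R1 S Φ δ M ε G) (v : V) {l : E} (hl : l ∈ ball (0 : E) ε) (x : E) :
    S.j l x ∈ {y | Mn Φ y (M y v)} := by
  have cM := h.pM.continuous
  have cw : Continuous fun y : V => (y, M y v) := by fun_prop
  have hc : IsClosed {y | Mn Φ y (M y v)} := (K5 Φ).preimage cw
  have h1 : ∀ l' ∈ G, ∀ x', S.j l' x' ∈ {y | Mn Φ y (M y v)} := fun l' hl' x' => by
    obtain ⟨q, pq, hq, hk⟩ := h.kil l' hl'
    exact closure_minimal (fun z hz => K1 (hk z hz v)) (hc.preimage (S.j l').continuous)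
      (pq.dense hq x')
  exact closure_minimal (fun l' hl' => h1 l' hl' x) (hc.preimage (cont_j S x)) (h.den hl)

theorem kil_all [FiniteDimensional ℝ V] {S : Sp E V} {Φ : Seminorm ℝ V} {δ : V → ℝ} {M : V → V →L[ℝ] V}
    {ε : ℝ} {G : Set E} (h : R1 S Φ δ M ε G) {l : E} (hl : l ∈ ball (0 : E) ε) {y : V} (hy : y ≠ 0)
    (h0 : ⟪S.xi l, y⟫ = 0) (v : V) : M y v ∈ Kil Φ y := by
  have cM := h.pM.continuous
  have cw : Continuous fun y : V => M y v := by fun_prop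
  refine K3 (w := fun y => M y v) (S := {y | Mn Φ y (M y v)}) cw.continuousAt ?_ fun _ hy' => hy'
  have t1 : Tendsto (fun s : ℝ => y + s • M y v) (𝓝 0) (𝓝 y) := by
    have c : Continuous fun s : ℝ => y + s • M y v := by fun_prop
    simpa using c.tendsto 0
  filter_upwards [t1.eventually (sweep S isOpen_ball hl hy h0)] with s hs
  obtain ⟨l', hl', x, e⟩ := hs
  rw [← e]
  exact subset_closure (mn_all h v hl' x)

end RA2

open RA2 in
theorem bRA2 : St_RA2 := by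
  intro E V _ _ _ _ _ _ S Φ δ M ε G hiso h
  obtain ⟨ρ0, hρ0, hI⟩ := hiso
  obtain ⟨ρ, hρ, hb⟩ := Metric.eventually_nhds_iff_ball.1
    ((near S h.pos).and (ball_mem_nhds S.e hρ0))
  refine ⟨ρ, {ξ | ξ ∈ ball S.e ρ ∧ ∃ t : ℝ, t ≠ 0 ∧ ∃ l ∈ G, t • S.xi l = ξ}, h.pδ, h.pM, h.sat, hρ,
    fun ξ hξ => ?_, fun ξ hξ => hI ξ (hb ξ hξ).2, fun ξ hξ y hy h0 v => ?_, fun ξ hξ => hξ.1,
    fun ξ hξ => ?_, fun ξ hξ => ?_, fun ξ hξ μ => ?_⟩
  · obtain ⟨t, ht, l, -, e⟩ := (hb ξ hξ).1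
    intro h0
    have h1 := S.xi_e l
    rw [(smul_eq_zero.1 (e.trans h0)).resolve_left ht, inner_zero_left] at h1
    exact zero_ne_one h1
  · obtain ⟨t, ht, l, hl, e⟩ := (hb ξ hξ).1
    exact kil_all h hl hy (perp_of_smul ht (e ▸ h0)) v
  · obtain ⟨t, ht, l, hl, e⟩ := (hb ξ hξ).1
    have c : Continuous fun l' : E => t • S.xi l' := by
      have ci := S.ι.continuous
      simp only [Sp.xi]
      fun_prop
    have m : ∀ᶠ l' in 𝓝 l, t • S.xi l' ∈ ball S.e ρ :=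
      c.continuousAt.eventually (isOpen_ball.mem_nhds (by simpa only [e] using hξ))
    rw [← e]
    refine mem_closure_of_frequently_of_tendsto ?_ (c.tendsto l)
    exact ((mem_closure_iff_frequently.1 (h.den hl)).and_eventually m).mono fun l' hl' =>
      ⟨hl'.2, t, ht, l', hl'.1, rfl⟩
  · obtain ⟨-, t, ht, l, hl, rfl⟩ := hξ
    exact (gs_scale ht).trans ((h.c1 l hl).trans (ks_scale ht))
  · obtain ⟨-, t, ht, l, hl, rfl⟩ := hξ
    exact (h.c2 l hl (t⁻¹ • μ)).imp fun L hL => sl_scale ht hL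

end Pool.Agent.Lib.LB
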