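import Pool.Agent.Lib.LB.Blue

/-! Points of differentiability of a Lipschitz map are dense. -/

open MeasureTheory

namespace Pool.Agent.Lib.LB

theorem bRAD : St_RAD := by
  intro E Y _ _ _ _ _ _ H C h
  borelize E
  exact Measure.dense_of_ae (μ := Measure.addHaar) h.ae_differentiableAt

end Pool.Agent.Lib.LB
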