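import Pool.Agent.Lib.LB.Blue

/-! Local Banach problem, row RS: analytic solution of a linear system of generic rank. -/

set_option autoImplicit false

open Set Filter Topology Module Polynomial
open scoped Matrix

noncomputable section

namespace Pool.Agent.Lib.LB

namespace RS

section alg

variable {m p w : ℕ}

theorem ct (a : Matrix (Fin p) (Fin m) ℝ) : aᴴ = aᵀ := Matrix.conjTranspose_eq_transpose_of_trivial a

theorem cp (a : Matrix (Fin p) (Fin m) ℝ) (κ : ℕ) (h : a.rank + κ = m) :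
    (∀ j < κ, (aᵀ * a).charpoly.coeff j = 0) ∧ (aᵀ * a).charpoly.coeff κ ≠ 0 := by
  classical
  have hH : (aᵀ * a).IsHermitian := by
    rw [← ct]
    exact Matrix.isHermitian_conjTranspose_mul_self a
  have h1 := hH.rank_eq_card_non_zero_eigs
  rw [Matrix.rank_transpose_mul_self, Fintype.card_subtype] at h1
  have h2 := Finset.card_filter_add_card_filter_not (s := (Finset.univ : Finset (Fin m)))
    fun i => hH.eigenvalues i ≠ 0
  rw [Finset.card_univ, Fintype.card_fin, ← h1] at h2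
  have h3 : (Finset.univ.filter fun i => ¬ hH.eigenvalues i ≠ 0).card = κ := by omega
  have h4 : (aᵀ * a).charpoly = X ^ κ *
      ∏ i ∈ Finset.univ.filter fun i => hH.eigenvalues i ≠ 0, (X - C (hH.eigenvalues i)) := by
    rw [hH.charpoly_eq, ← Finset.prod_filter_mul_prod_filter_not Finset.univ
      fun i => hH.eigenvalues i ≠ 0, mul_comm, ← h3, ← Finset.prod_const]
    refine congrArg₂ (· * ·) (Finset.prod_congr rfl fun i hi => ?_) rfl
    rw [not_not.1 (Finset.mem_filter.1 hi).2]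
    simp
  refine ⟨X_pow_dvd_iff.1 ⟨_, h4⟩, ?_⟩
  rw [h4, coeff_X_pow_mul', if_pos le_rfl, Nat.sub_self, coeff_zero_eq_eval_zero, eval_prod]
  refine Finset.prod_ne_zero_iff.2 fun i hi => ?_
  simpa using (Finset.mem_filter.1 hi).2

theorem kill (a : Matrix (Fin p) (Fin m) ℝ) (k : ℕ) :
    ∀ Q : Matrix (Fin m) (Fin m) ℝ, (aᵀ * a) ^ k * Q = 0 → a * Q = 0 := by
  induction k with
  | zero =>
    intro Q h
    rw [pow_zero, Matrix.one_mul] at h
    rw [h, Matrix.mul_zero]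
  | succ k ih =>
    intro Q h
    rw [pow_succ, Matrix.mul_assoc] at h
    have h1 := ih _ h
    rw [Matrix.mul_assoc, ← Matrix.mul_assoc a, ← ct, Matrix.self_mul_conjTranspose_mul_eq_zero,
      ← Matrix.mul_assoc, Matrix.conjTranspose_mul_self_mul_eq_zero] at h1
    exact h1

theorem solve (a : Matrix (Fin p) (Fin m) ℝ) (u : Matrix (Fin m) (Fin w) ℝ) (g : ℕ) (q q₁ : ℝ[X])
    (d : ℝ) (h : (aᵀ * a).charpoly = X ^ g * q) (hq : q = q₁ * X + C d) :
    a * (-(aeval (aᵀ * a) q₁ * aᵀ * (a * u))) = d • (a * u) := by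
  have h1 := (aᵀ * a).aeval_self_charpoly
  rw [h, map_mul, map_pow, aeval_X] at h1
  have h2 := kill a g _ h1
  rw [hq, map_add, map_mul, aeval_X, aeval_C, Matrix.mul_add, Algebra.algebraMap_eq_smul_one,
    Matrix.mul_smul, Matrix.mul_one] at h2
  have h3 := congrArg (· * u) h2
  simp only [Matrix.add_mul, Matrix.zero_mul, Matrix.smul_mul, Matrix.mul_assoc] at h3
  rw [Matrix.mul_neg, Matrix.mul_assoc]
  exact neg_eq_of_add_eq_zero_right h3

end alg

variable (V : Type) [NormedAddCommGroup V] [NormedSpace ℝ V]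

/-- The ring of analytic functions. -/
def An : Subalgebra ℝ (V → ℝ) where
  carrier := {f | AnalyticOnNhd ℝ f univ}
  mul_mem' := fun hf hg => hf.mul hg
  add_mem' := fun hf hg => hf.add hg
  algebraMap_mem' := fun _ => analyticOnNhd_const

variable {V}

/-- Evaluation. -/
def ev (ξ : V) : An V →+* ℝ := (Pi.evalRingHom (fun _ : V => ℝ) ξ).comp (An V).val.toRingHom

theorem van {O G : Set V} (hO : IsOpen O) (hn : O.Nonempty) (hG : O ⊆ closure G) (r : An V)
    (h : ∀ ξ ∈ G, ev ξ r = 0) : r = 0 := by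
  obtain ⟨z, hz⟩ := hn
  have hr : AnalyticOnNhd ℝ r.1 univ := r.2
  have hc : IsClosed {ξ | r.1 ξ = 0} :=
    isClosed_eq (continuousOn_univ.1 hr.continuousOn) continuous_const
  have h1 : r.1 =ᶠ[𝓝 z] 0 := by
    filter_upwards [hO.mem_nhds hz] with y hy
    exact closure_minimal (fun ξ hξ => h ξ hξ) hc (hG hy)
  exact Subtype.ext (funext fun y =>
    hr.eqOn_zero_of_preconnected_of_eventuallyEq_zero isPreconnected_univ (mem_univ z) h1
      (mem_univ y))

theorem core {m p w : ℕ} (a : Matrix (Fin p) (Fin m) (An V)) (β : Matrix (Fin p) (Fin w) (An V))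
    (κ : V → ℕ) (g : ℕ) (G : Set V) (hv : ∀ r : An V, (∀ ξ ∈ G, ev ξ r = 0) → r = 0)
    (hκ : ∀ ξ, (a.map (ev ξ)).rank + κ ξ = m)
    (hG : ∀ ξ ∈ G, κ ξ = g ∧ ∃ u : Matrix (Fin m) (Fin w) ℝ, a.map (ev ξ) * u = β.map (ev ξ)) :
    ∃ (d : An V) (L : Matrix (Fin m) (Fin w) (An V)), (∀ ξ, g ≤ κ ξ ∧ (ev ξ d ≠ 0 ↔ κ ξ = g)) ∧
      a * L = d • β := by
  have hm : ∀ ξ, (aᵀ * a).map (ev ξ) = (a.map (ev ξ))ᵀ * a.map (ev ξ) := fun ξ => by
    rw [Matrix.map_mul, Matrix.transpose_map]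
  have hc : ∀ ξ, ((a.map (ev ξ))ᵀ * a.map (ev ξ)).charpoly = (aᵀ * a).charpoly.map (ev ξ) :=
    fun ξ => by rw [← hm, Matrix.charpoly_map]
  have hp : ∀ ξ, (∀ j < κ ξ, ev ξ ((aᵀ * a).charpoly.coeff j) = 0) ∧
      ev ξ ((aᵀ * a).charpoly.coeff (κ ξ)) ≠ 0 := fun ξ => by
    have h := cp _ _ (hκ ξ)
    simp only [hc, coeff_map] at h
    exact h
  have h0 : ∀ j < g, (aᵀ * a).charpoly.coeff j = 0 := fun j hj =>
    hv _ fun ξ hξ => (hp ξ).1 j (by rw [(hG ξ hξ).1]; exact hj)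
  obtain ⟨q, hq⟩ := X_pow_dvd_iff.2 h0
  have hd : (aᵀ * a).charpoly.coeff g = q.coeff 0 := by
    rw [hq, coeff_X_pow_mul', if_pos le_rfl, Nat.sub_self]
  refine ⟨q.coeff 0, -(aeval (aᵀ * a) q.divX * aᵀ * β), fun ξ => ?_, ?_⟩
  · have h1 : g ≤ κ ξ := by
      by_contra h
      exact (hp ξ).2 (by rw [h0 _ (not_le.1 h), map_zero])
    refine ⟨h1, fun h => ?_, fun h => ?_⟩
    · by_contra h2
      exact h (hd ▸ (hp ξ).1 g (lt_of_le_of_ne h1 (Ne.symm h2)))
    · rw [← hd, ← h]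
      exact (hp ξ).2
  · ext1 i j
    rw [← sub_eq_zero]
    refine hv _ fun ξ hξ => ?_
    obtain ⟨-, u, hu⟩ := hG ξ hξ
    have h1 := solve (a.map (ev ξ)) u g (q.map (ev ξ)) (q.divX.map (ev ξ)) (ev ξ (q.coeff 0))
      (by rw [hc, hq, Polynomial.map_mul, Polynomial.map_pow, map_X])
      (by conv_lhs => rw [← q.divX_mul_X_add, Polynomial.map_add, Polynomial.map_mul, map_X, map_C])
    have h2 : (aeval (aᵀ * a) q.divX).map (ev ξ) =
        aeval ((aᵀ * a).map (ev ξ)) (q.divX.map (ev ξ)) :=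
      map_aeval_eq_aeval_map (φ := ev ξ)
        (ψ := ((ev ξ).mapMatrix : Matrix (Fin m) (Fin m) (An V) →+* Matrix (Fin m) (Fin m) ℝ))
        (RingHom.ext fun r => Matrix.ext fun i j => by
          simp [Matrix.algebraMap_matrix_apply, apply_ite (ev ξ)]) q.divX (aᵀ * a)
    rw [hu, ← hm, ← h2, ← Matrix.transpose_map, ← Matrix.map_mul, ← Matrix.map_mul,
      ← Matrix.map_neg _ (map_neg (ev ξ)), ← Matrix.map_mul] at h1
    have h3 := congrFun (congrFun h1 i) j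
    rw [map_sub, sub_eq_zero, Matrix.smul_apply, smul_eq_mul, map_mul]
    exact h3

/-- The matrix of an analytic family of linear maps. -/
def mat {U Y : Type} [NormedAddCommGroup U] [NormedSpace ℝ U] [NormedAddCommGroup Y]
    [NormedSpace ℝ Y] [FiniteDimensional ℝ Y] {m p : ℕ} (bU : Basis (Fin m) ℝ U)
    (bY : Basis (Fin p) ℝ Y) (A : V → U →L[ℝ] Y) (hA : AnalyticOnNhd ℝ A univ) :
    Matrix (Fin p) (Fin m) (An V) := Matrix.of fun i j =>
  ⟨fun ξ => bY.repr (A ξ (bU j)) i,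
    ((LinearMap.toContinuousLinearMap (bY.coord i)).comp
      (ContinuousLinearMap.apply ℝ Y (bU j))).comp_analyticOnNhd hA⟩

theorem mat_ev {U Y : Type} [NormedAddCommGroup U] [NormedSpace ℝ U] [NormedAddCommGroup Y]
    [NormedSpace ℝ Y] [FiniteDimensional ℝ Y] {m p : ℕ} (bU : Basis (Fin m) ℝ U)
    (bY : Basis (Fin p) ℝ Y) (A : V → U →L[ℝ] Y) (hA : AnalyticOnNhd ℝ A univ) (ξ : V) :
    (mat bU bY A hA).map (ev ξ) = LinearMap.toMatrix bU bY (A ξ : U →ₗ[ℝ] Y) := by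
  ext i j
  rw [LinearMap.toMatrix_apply]
  rfl

end RS

open RS in
theorem bRS : St_RS := by
  intro V U Y W _ _ _ _ _ _ _ _ _ _ _ _ A b g O G hA hb hO hn hG h
  let bU := finBasis ℝ U
  let bY := finBasis ℝ Y
  let bW := finBasis ℝ W
  obtain ⟨d, L, h1, h2⟩ := core (mat bU bY A hA) (mat bW bY b hb)
    (fun ξ => finrank ℝ (LinearMap.ker (A ξ : U →ₗ[ℝ] Y))) g G (van hO hn hG)
    (fun ξ => by
      rw [mat_ev, Matrix.rank_eq_finrank_range_toLin _ bY bU, Matrix.toLin_toMatrix]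
      exact LinearMap.finrank_range_add_finrank_ker _)
    (fun ξ hξ => ⟨(h ξ hξ).1, by
      choose u hu using (h ξ hξ).2
      refine ⟨LinearMap.toMatrix bW bU (bW.constr ℝ fun j => u (bW j)), ?_⟩
      rw [mat_ev, mat_ev, ← LinearMap.toMatrix_comp]
      refine congrArg _ (bW.ext fun j => ?_)
      rw [LinearMap.comp_apply, Basis.constr_basis]
      exact hu _⟩)
  let T : (Fin (finrank ℝ U) → Fin (finrank ℝ W) → ℝ) →ₗ[ℝ] W →L[ℝ] U :=
    (LinearMap.toContinuousLinearMap : (W →ₗ[ℝ] U) ≃ₗ[ℝ] W →L[ℝ] U).toLinearMap ∘ₗ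
      (Matrix.toLin bW bU).toLinearMap ∘ₗ (Matrix.ofLinearEquiv ℝ).toLinearMap
  refine ⟨d.1, fun ξ => T fun i j => (L i j).1 ξ, d.2, ?_, fun ξ => ⟨(h1 ξ).1, (h1 ξ).2, fun μ => ?_⟩⟩
  · exact (LinearMap.toContinuousLinearMap T).comp_analyticOnNhd
      (AnalyticOnNhd.pi fun i => AnalyticOnNhd.pi fun j => (L i j).2)
  · have h3 : (mat bU bY A hA).map (ev ξ) * L.map (ev ξ) =
        ev ξ d • (mat bW bY b hb).map (ev ξ) := by
      rw [← Matrix.map_mul, h2]
      ext i j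
      exact map_mul (ev ξ) _ _
    rw [mat_ev, mat_ev] at h3
    have h4 := congrArg (fun M => Matrix.toLin bW bY M μ) h3
    simp only [Matrix.toLin_mul bW bU bY, map_smul, Matrix.toLin_toMatrix] at h4
    exact h4

end Pool.Agent.Lib.LB
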