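import Pool.Agent.Lib.LB.Blue

/-! Local Banach problem, row RY1: a ray and a degenerate limit give a cylinder. -/

set_option autoImplicit false

open Set Filter Topology Metric Module
open scoped RealInnerProductSpace ContDiff NNReal

noncomputable section

namespace Pool.Agent.Lib.LB

theorem RY1.perp {V : Type} [NormedAddCommGroup V] [InnerProductSpace ℝ V] [FiniteDimensional ℝ V]
    (h : 4 ≤ finrank ℝ V) (a b c : V) : ∃ y, ⟪a, y⟫ = 0 ∧ ⟪b, y⟫ = 0 ∧ ∀ t : ℝ, y ≠ t • c := by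
  by_contra! hn
  have h1 : ∀ v : V, finrank ℝ (ℝ ∙ v) ≤ 1 := fun v => by
    simpa using finrank_span_le_card (R := ℝ) ({v} : Set V)
  have h2 : ((ℝ ∙ a) ⊔ (ℝ ∙ b))ᗮ ≤ ℝ ∙ c := fun y hy => by
    obtain ⟨t, ht⟩ := hn y
      (hy a (Submodule.mem_sup_left (Submodule.mem_span_singleton_self a)))
      (hy b (Submodule.mem_sup_right (Submodule.mem_span_singleton_self b)))
    exact Submodule.mem_span_singleton.2 ⟨t, ht.symm⟩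
  have h3 := Submodule.finrank_mono h2
  have h4 := Submodule.finrank_add_finrank_orthogonal ((ℝ ∙ a) ⊔ (ℝ ∙ b))
  have h5 := Submodule.finrank_add_le_finrank_add_finrank (ℝ ∙ a) (ℝ ∙ b)
  have := h1 a
  have := h1 b
  have := h1 c
  omega

theorem bRY1 (hBIP : St_BIP) (hLIM : St_LIM) (hCL : St_CL) : St_RY1 := by
  rintro V _ _ _ Φ ξ0 ρ H Ω ν h4 hΦ hC hρ hb hd - - hray ⟨ζ, π, hG, hπ⟩
  obtain ⟨-, b2, -, b4, -⟩ := hBIP V Ω hC.oc ⟨ξ0, hC.mem⟩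
  obtain ⟨c1, c2⟩ := hCL V Φ ξ0 H Ω (by omega) hΦ hC ζ π hG
  obtain ⟨z, z1, z0, -, z2⟩ := c1 hπ
  obtain ⟨t, ht⟩ := hray z z1
  have t0 : t ≠ 0 := fun e => z0 (by rw [ht, e, zero_smul])
  have a0 : 0 < ⟪ξ0, z⟫ := b4 z z1 z0 ξ0 hC.mem
  have n0 : 0 < ‖z‖ := norm_pos_iff.2 z0
  obtain ⟨ε, e0, e1, e2⟩ : ∃ ε > 0, ε * ‖z‖ ≤ 1 / 2 ∧ 2 * ε * ⟪ξ0, z⟫ < ρ := by
    refine ⟨min (1 / 2 / ‖z‖) (ρ / 4 / ⟪ξ0, z⟫), by positivity,
      (le_div_iff₀ n0).1 (min_le_left _ _), ?_⟩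
    have := (le_div_iff₀ a0).1 (min_le_right (1 / 2 / ‖z‖) (ρ / 4 / ⟪ξ0, z⟫))
    linarith
  refine ⟨z, a0.ne', ε, e0, fun x hx s hs => ?_⟩
  rcases eq_or_ne x 0 with rfl | x0
  · rw [norm_zero, mul_zero, abs_nonpos_iff] at hs
    rw [hs, zero_smul, add_zero]
  have m0 : 0 < ‖x‖ := norm_pos_iff.2 x0
  obtain ⟨ξ1, p1, p2, p3⟩ := RY1.perp h4 z x ζ
  rw [real_inner_comm] at p1 p2
  have p4 : ξ1 ∈ closure Ω := (b2 ξ1).2 fun y hy => by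
    obtain ⟨u, rfl⟩ := hray y hy
    rw [ht, real_inner_smul_right, mul_eq_zero, or_iff_right t0] at p1
    rw [real_inner_smul_right, p1, mul_zero]
  obtain ⟨π', q1, q2⟩ := c2 z z1 z0 z2 ξ1 p4 p1 p3
  have cp := ((hLIM V Φ ξ0 H Ω hC).1 ξ1 π' q1).2.2
  have k1 : |s * ⟪x, z⟫| ≤ ‖x‖ ^ 2 / 2 := by
    rw [abs_mul]
    calc |s| * |⟪x, z⟫| ≤ ε * ‖x‖ * (‖x‖ * ‖z‖) :=
          mul_le_mul hs (abs_real_inner_le_norm x z) (abs_nonneg _) (by positivity)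
      _ = ε * ‖z‖ * ‖x‖ ^ 2 := by ring
      _ ≤ 1 / 2 * ‖x‖ ^ 2 := mul_le_mul_of_nonneg_right e1 (by positivity)
      _ = _ := by ring
  have k2 : ‖x‖ ^ 2 / 2 ≤ ⟪x, x + s • z⟫ := by
    rw [inner_add_right, real_inner_smul_right, real_inner_self_eq_norm_sq]
    linarith [(abs_le.1 k1).1]
  have k3 : 0 < ⟪x, x + s • z⟫ := lt_of_lt_of_le (by positivity) k2
  have k4 : ξ0 - (s * ⟪ξ0, z⟫ / ⟪x, x + s • z⟫) • x ∈ ball ξ0 ρ := by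
    rw [mem_ball_iff_norm, sub_sub_cancel_left, norm_neg, norm_smul, Real.norm_eq_abs, abs_div,
      abs_mul, abs_of_pos a0, abs_of_pos k3, div_mul_eq_mul_div, div_lt_iff₀ k3]
    calc |s| * ⟪ξ0, z⟫ * ‖x‖ ≤ ε * ‖x‖ * ⟪ξ0, z⟫ * ‖x‖ := by gcongr
      _ = 2 * ε * ⟪ξ0, z⟫ * (‖x‖ ^ 2 / 2) := by ring
      _ < ρ * (‖x‖ ^ 2 / 2) := mul_lt_mul_of_pos_right e2 (by positivity)
      _ ≤ _ := mul_le_mul_of_nonneg_left k2 hρ.le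
  have k5 : ⟪ξ0 - (s * ⟪ξ0, z⟫ / ⟪x, x + s • z⟫) • x, x + s • z⟫ = 0 := by
    rw [inner_sub_left, real_inner_smul_left, div_mul_cancel₀ _ k3.ne', inner_add_right, hx,
      real_inner_smul_right, zero_add, sub_self]
  have k6 : ⟪ξ1, x + s • z⟫ = 0 := by
    rw [inner_add_right, real_inner_smul_right, p1, p2, mul_zero, add_zero]
  rw [← hd _ k4 _ k5, ← cp.t1 _ (hb k4) _ k5 k6, ← hd _ (mem_ball_self hρ) x hx,
    ← cp.t1 _ hC.mem x hx p2, map_add, map_smul, q2, smul_zero, add_zero]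

end Pool.Agent.Lib.LB
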