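import Pool.Agent.Lib.LB.Basic

/-! Local Banach problem: the dual cone is a ray and all limits are invertible. -/

set_option autoImplicit false

open Set Filter Topology Metric Module
open scoped RealInnerProductSpace

namespace Pool.Agent.Lib.LB

theorem bRY2 (hBIP : St_BIP) (hLIM : St_LIM) (hLB : St_LB) (hGLOB : St_GLOB) : St_RY2 := by
  intro V _ _ _ Φ ξ0 H Ω ν h4 hD hC h1 hK hU
  obtain ⟨-, b2, b3, -, -, -, -, -⟩ := hBIP V Ω hC.oc ⟨ξ0, hC.mem⟩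
  have cp := fun ζ π h => ((hLIM V Φ ξ0 H Ω hC).1 ζ π h).2.2
  have lb := (hLB V Φ ξ0 H Ω (by omega) hD hC).2
  obtain ⟨⟨y0, hy0, n0⟩, -, -, b4, -⟩ := hBIP V Ω hC.oc ⟨ξ0, hC.mem⟩
  have p0 := b4 y0 hy0 n0 ξ0 hC.mem
  have ray : ∀ y ∈ Kd Ω, ∃ s : ℝ, 0 ≤ s ∧ y = s • y0 := by
    intro y hy
    obtain ⟨t0, e0⟩ := hK y0 hy0
    obtain ⟨t, e⟩ := hK y hy
    have ht : t0 ≠ 0 := fun h => n0 (by rw [e0, h, zero_smul])
    have e2 : y = (t / t0) • y0 := by rw [e, e0, smul_smul, div_mul_cancel₀ _ ht]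
    have := hy ξ0 hC.mem
    rw [e2, inner_smul_right] at this
    exact ⟨_, nonneg_of_mul_nonneg_left this p0, e2⟩
  have half : ∀ ξ : V, ξ ∈ closure Ω ∨ -ξ ∈ closure Ω := by
    intro ξ
    have aux : ∀ ζ : V, 0 ≤ ⟪ζ, y0⟫ → ζ ∈ closure Ω := fun ζ h => (b2 ζ).2 fun y hy => by
      obtain ⟨s, hs, rfl⟩ := ray y hy
      rw [inner_smul_right]
      exact mul_nonneg hs h
    rcases le_total 0 ⟪ξ, y0⟫ with h | h
    · exact Or.inl (aux _ h)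
    · exact Or.inr (aux _ (by rw [inner_neg_left]; linarith))
  have off : ∀ y : V, (∀ t : ℝ, y ≠ t • y0) → y ∈ Wd Ω := by
    intro y hy
    refine (b3 y).2 ⟨fun h => ?_, fun h => ?_⟩ <;> obtain ⟨s, -, e⟩ := ray _ h
    · exact hy s e
    · exact hy (-s) (by rw [neg_smul, ← e, neg_neg])
  have wd : ∀ ζ π ζ' π', (ζ, π) ∈ Gr Ω H → (ζ', π') ∈ Gr Ω H → ∀ y, ⟪ζ, y⟫ = 0 → ⟪ζ', y⟫ = 0 →
      Φ (π y) = Φ (π' y) := by
    intro ζ π ζ' π' h h'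
    have w1 : ∀ y, (∀ t : ℝ, y ≠ t • y0) → ⟪ζ, y⟫ = 0 → ⟪ζ', y⟫ = 0 → Φ (π y) = Φ (π' y) := by
      intro y hy a a'
      obtain ⟨-, ξ, hξ, e⟩ := off y hy
      rw [(cp _ _ h).t1 ξ hξ y e a, (cp _ _ h').t1 ξ hξ y e a']
    intro y a a'
    by_cases hy : ∀ t : ℝ, y ≠ t • y0
    · exact w1 y hy a a'
    push Not at hy
    obtain ⟨t, ht⟩ := hy
    obtain ⟨w, c, c', hw⟩ := exists_perp h4 ζ ζ' y0
    have ct : ∀ q : V →L[ℝ] V, Continuous fun s : ℝ => Φ (q (y + s • w)) := fun q =>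
      (snm_cont Φ).comp (by fun_prop)
    have := congrFun (Continuous.ext_on (dense_compl_singleton (0 : ℝ)) (ct π) (ct π')
      fun s hs => w1 _ (fun t' e => hw (s⁻¹ * (t' - t)) (by
        have hs' : s ≠ 0 := hs
        rw [mul_smul, sub_smul, ← e, ← ht, add_sub_cancel_left, smul_smul, inv_mul_cancel₀ hs',
          one_smul])) (by rw [inner_add_right, inner_smul_right, a, c]; ring)
        (by rw [inner_add_right, inner_smul_right, a', c']; ring)) 0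
    simpa using this
  have two : ∀ y y' : V, ∃ ζ π, (ζ, π) ∈ Gr Ω H ∧ ⟪ζ, y⟫ = 0 ∧ ⟪ζ, y'⟫ = 0 := by
    intro y y'
    obtain ⟨ζ, nz, a, a'⟩ := exists_perp2 (by omega : 3 ≤ finrank ℝ V) y y'
    rw [real_inner_comm] at a a'
    rcases half ζ with h | h
    · obtain ⟨π, hπ⟩ := lb ζ h nz
      exact ⟨ζ, π, hπ, a, a'⟩
    · obtain ⟨π, hπ⟩ := lb _ h (neg_ne_zero.2 nz)
      exact ⟨-ζ, π, hπ, by rw [inner_neg_left, a, neg_zero], by rw [inner_neg_left, a', neg_zero]⟩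
  obtain ⟨f, hf⟩ : ∃ f : V → ℝ, ∀ ζ π, (ζ, π) ∈ Gr Ω H → ∀ y, ⟪ζ, y⟫ = 0 → f y = Φ (π y) := by
    choose z q hq a _ using two
    exact ⟨fun y => Φ (q y y y), fun ζ π h y e => wd _ _ _ _ (hq y y) h y (a y y) e⟩
  let Ψ : Seminorm ℝ V := Seminorm.of f (fun y y' => by
      obtain ⟨ζ, π, h, a, a'⟩ := two y y'
      rw [hf ζ π h y a, hf ζ π h y' a', hf ζ π h _ (by rw [inner_add_right, a, a', add_zero]),
        map_add]
      exact map_add_le_add Φ _ _) fun c y => by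
      obtain ⟨ζ, π, h, a, -⟩ := two y y
      rw [hf ζ π h y a, hf ζ π h _ (by rw [inner_smul_right, a, mul_zero]), map_smul,
        map_smul_eq_mul]
  have hΨ : ∀ y, Ψ y = f y := fun _ => rfl
  obtain ⟨B, hB⟩ := hGLOB V Φ Ψ ξ0 (hC.oc.nz _ hC.mem) (fun y hy => by
    obtain ⟨ζ, π, h, a, -⟩ := two y y
    rw [hΨ, hf ζ π h y a] at hy
    obtain ⟨u, rfl⟩ := hU ζ π h
    have : (↑u⁻¹ : V →L[ℝ] V) ((u : V →L[ℝ] V) y) = y :=
      congrArg (fun g : V →L[ℝ] V => g y) u.inv_mul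
    rw [← this, hD _ hy, map_zero]) fun ξ nz => by
    rcases half ξ with h | h
    · obtain ⟨π, hπ⟩ := lb ξ h nz
      exact ⟨π, hU _ _ hπ, Or.inl (cp _ _ hπ).H0, fun y e => ⟨(cp _ _ hπ).Hp y e, hf _ _ hπ y e⟩⟩
    · obtain ⟨π, hπ⟩ := lb _ h (neg_ne_zero.2 nz)
      refine ⟨π, hU _ _ hπ, Or.inr (by rw [← (cp _ _ hπ).H0, map_neg, neg_neg]), fun y e => ?_⟩
      have e' : ⟪-ξ, y⟫ = 0 := by rw [inner_neg_left, e, neg_zero]
      exact ⟨(cp _ _ hπ).Hp y e', hf _ _ hπ y e'⟩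
  refine ⟨B, fun x hx => ?_⟩
  rw [← hB x hx, hΨ, hf ξ0 (H ξ0) (subset_closure ⟨ξ0, hC.mem, rfl⟩) x hx, h1 x hx]

end Pool.Agent.Lib.LB
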