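import Pool.Agent.Lib.LB.Poly

/-! Local Banach problem: row SAT, removing linear factors from the rational distribution. -/

set_option autoImplicit false

open Set Filter Topology Metric Module
open scoped RealInnerProductSpace ContDiff NNReal

noncomputable section

namespace Pool.Agent.Lib.LB

namespace SAT

variable {V : Type} [NormedAddCommGroup V] [InnerProductSpace ℝ V]

theorem pl_form (ξ : V) : Pl fun y : V => ⟪ξ, y⟫ :=
  ⟨1, (IsPol.mul (d := 0) (innerSL ℝ ξ) (IsPol.const 0 (1 : ℝ))).congr fun x => by simp⟩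

theorem pl_of_div {F : Type} [NormedAddCommGroup F] [NormedSpace ℝ F] {d : ℕ} {g : V → F}
    (h0 : d = 0 → ∀ x, g x = 0) (h1 : ∀ e, d = e + 1 → IsPol e g) : Pl g := by
  cases d with
  | zero => exact (Pl.const (0 : F)).congr fun x => (h0 rfl x).symm
  | succ e => exact ⟨e, h1 e rfl⟩

theorem step (d : ℕ) : ∀ (δ : V → ℝ) (M : V → V →L[ℝ] V), IsPol d δ → Pl M → (∃ y, δ y ≠ 0) →
    (∀ y v, M y (M y v) = δ y • M y v) → (∀ y u v, ⟪M y u, v⟫ = ⟪u, M y v⟫) →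
    ∃ (c δ' : V → ℝ) (M' : V → V →L[ℝ] V), Pl c ∧ Pl δ' ∧ Pl M' ∧ (∀ y, δ y = c y * δ' y) ∧
      (∀ y, M y = c y • M' y) ∧ ∀ ξ : V, ξ ≠ 0 → ∃ y, ⟪ξ, y⟫ = 0 ∧ δ' y ≠ 0 := by
  induction d using Nat.strong_induction_on with
  | _ d ih =>
  intro δ M hδ hM hne hMM hsy
  by_cases hs : ∀ ξ : V, ξ ≠ 0 → ∃ y, ⟪ξ, y⟫ = 0 ∧ δ y ≠ 0
  · exact ⟨fun _ => 1, δ, M, Pl.const 1, ⟨d, hδ⟩, hM, fun y => (one_mul _).symm,
      fun y => (one_smul _ _).symm, hs⟩
  push Not at hs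
  obtain ⟨ξ, hξ, hz⟩ := hs
  have hM0 : ∀ y, ⟪ξ, y⟫ = 0 → M y = 0 := fun y hy => by
    ext v
    have h1 : ⟪M y v, M y v⟫ = 0 := by
      rw [hsy, hMM, hz y hy, zero_smul, inner_zero_right]
    simpa using inner_self_eq_zero.1 h1
  obtain ⟨g, hg, hg0, hg1⟩ := hδ.div hξ hz
  obtain ⟨e, he⟩ := hM
  obtain ⟨N, hN, hN0, hN1⟩ := he.div hξ hM0
  have pN : Pl N := pl_of_div hN0 hN1
  have pg : Pl g := pl_of_div hg0 hg1
  have hf : ∃ y, ⟪ξ, y⟫ ≠ 0 := ⟨ξ, fun h => hξ (inner_self_eq_zero.1 h)⟩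
  obtain ⟨y0, hy0⟩ := hne
  have hg' : g y0 ≠ 0 := fun h => hy0 (by rw [hg, h, smul_zero])
  cases d with
  | zero => exact absurd (hg0 rfl y0) hg'
  | succ d =>
  have hNN : ∀ y v, N y (N y v) = g y • N y v := fun y v => by
    have p1 : Pl fun x => N x (N x v) - g x • N x v :=
      (pN.app (pN.app (Pl.const v))).sub (pg.smul (pN.app (Pl.const v)))
    have p2 : Pl fun x => ⟪ξ, x⟫ • (N x (N x v) - g x • N x v) := (pl_form ξ).smul p1
    have z2 := Pl.cancel (pl_form ξ) p2 hf fun x => by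
      have h := hMM x v
      rw [hN x, hg x] at h
      simp only [smul_apply, map_smul, smul_eq_mul] at h
      rw [smul_sub, smul_sub, h]
      module
    exact sub_eq_zero.1 (Pl.cancel (pl_form ξ) p1 hf z2 y)
  have hNs : ∀ y u v, ⟪N y u, v⟫ = ⟪u, N y v⟫ := fun y u v => by
    have p1 : Pl fun x => ⟪N x u, v⟫ - ⟪u, N x v⟫ :=
      ((pN.app (Pl.const u)).inner (Pl.const v)).sub ((Pl.const u).inner (pN.app (Pl.const v)))
    refine sub_eq_zero.1 (Pl.cancel (pl_form ξ) p1 hf (fun x => ?_) y)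
    have h := hsy x u v
    rw [hN x] at h
    simp only [smul_apply, inner_smul_left, inner_smul_right, conj_trivial] at h
    rw [smul_eq_mul, mul_sub, h, sub_self]
  obtain ⟨c, δ', M', pc, pδ, pM, e1, e2, hsat⟩ :=
    ih d (Nat.lt_succ_self d) g N (hg1 d rfl) pN ⟨y0, hg'⟩ hNN hNs
  refine ⟨fun y => ⟪ξ, y⟫ • c y, δ', M', (pl_form ξ).smul pc, pδ, pM, fun y => ?_, fun y => ?_, hsat⟩
  · simp only [hg y, e1 y, smul_eq_mul, mul_assoc]
  · simp only [hN y, e2 y, smul_smul, smul_eq_mul]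

end SAT

theorem bSAT : St_SAT := by
  intro V _ _ _ δ M hδ hM hne hMM hsy
  obtain ⟨d, hd⟩ := hδ
  exact SAT.step d δ M hd hM hne hMM hsy

end Pool.Agent.Lib.LB
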