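import Pool.Agent.Lib.LB.Blue

/-! Local Banach problem: the analytic solution of the linear system. -/

set_option autoImplicit false

open Set Filter Topology Metric Module
open scoped RealInnerProductSpace ContDiff NNReal

noncomputable section

namespace Pool.Agent.Lib.LB

namespace SOL

theorem perp {V : Type} [NormedAddCommGroup V] [InnerProductSpace ℝ V] [FiniteDimensional ℝ V]
    (h2 : 2 ≤ finrank ℝ V) (ξ : V) : ∃ y : V, y ≠ 0 ∧ ⟪ξ, y⟫ = 0 := by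
  have h1 : finrank ℝ (ℝ ∙ ξ) ≤ 1 := by
    simpa using finrank_span_le_card (R := ℝ) ({ξ} : Set V)
  have h3 := Submodule.finrank_add_finrank_orthogonal (ℝ ∙ ξ)
  have h4 : (ℝ ∙ ξ)ᗮ ≠ ⊥ := fun h => by
    rw [h, finrank_bot] at h3
    omega
  obtain ⟨y, hy, hy0⟩ := Submodule.exists_mem_ne_zero_of_ne_bot h4
  exact ⟨y, hy0, Submodule.mem_orthogonal_singleton_iff_inner_right.1 hy⟩

theorem clo {V : Type} [NormedAddCommGroup V] [InnerProductSpace ℝ V] [FiniteDimensional ℝ V]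
    (h2 : 2 ≤ finrank ℝ V) (ξ y : V) (hy : ⟪ξ, y⟫ = 0) :
    y ∈ closure {y : V | ⟪ξ, y⟫ = 0 ∧ y ≠ 0} := by
  by_cases h0 : y = 0
  · obtain ⟨z, hz, hz'⟩ := perp h2 ξ
    have ht : Tendsto (fun t : ℝ => t • z) (𝓝[≠] 0) (𝓝 y) := by
      have : Tendsto (fun t : ℝ => t • z) (𝓝 0) (𝓝 ((0 : ℝ) • z)) :=
        (continuous_id.smul continuous_const).tendsto 0
      rw [zero_smul] at this
      rw [h0]
      exact this.mono_left nhdsWithin_le_nhds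
    refine mem_closure_of_tendsto ht ?_
    filter_upwards [self_mem_nhdsWithin] with t ht0
    exact ⟨by rw [inner_smul_right, hz', mul_zero], smul_ne_zero ht0 hz⟩
  · exact subset_closure ⟨hy, h0⟩

theorem ana {X U W : Type} [NormedAddCommGroup X] [NormedSpace ℝ X] [NormedAddCommGroup U] [NormedSpace ℝ U]
    [NormedAddCommGroup W] [NormedSpace ℝ W] {d : X → ℝ} {L : X → W →L[ℝ] U} {x : X}
    (hd : AnalyticAt ℝ d x) (hL : AnalyticAt ℝ L x) (h0 : d x ≠ 0) :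
    AnalyticAt ℝ (fun y => (d y)⁻¹ • L y) x :=
  (hd.inv h0).smul hL

end SOL

theorem bSOL (hGD : St_GDIM) (hKG : St_KG) (hRS : St_RS) (hSY : St_SYS) : St_SOL := by
  intro V _ _ _ Φ ξ0 δ M ρ G h2 R
  obtain ⟨s, A, b, hA, hb, hs⟩ := hSY V δ M R.pδ R.pM
  have h0 : ξ0 ≠ 0 := R.nz ξ0 (mem_ball_self R.pos)
  have hk : ∀ ξ : V, ξ ≠ 0 → LinearMap.ker (A ξ : (V →L[ℝ] V) →ₗ[ℝ] (V × (V →L[ℝ] ℝ) × (Fin s → V))) =
      ks δ M ξ := fun ξ hξ => by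
    ext L
    rw [LinearMap.mem_ker]
    exact (hs ξ hξ).1 L
  have hle : ∀ ξ ∈ ball ξ0 ρ, ks δ M ξ ≤ gs Φ ξ := fun ξ hξ =>
    hKG V Φ δ M ξ {y : V | ⟪ξ, y⟫ = 0 ∧ y ≠ 0} R.pδ (R.sat ξ (R.nz ξ hξ)) (fun _ hy => hy.1)
      (fun y hy => SOL.clo h2 ξ y hy) (fun y hy v _ => R.kil ξ hξ y hy.2 hy.1 v)
  have hgd : ∀ ξ ∈ ball ξ0 ρ, finrank ℝ (gs Φ ξ) = finrank ℝ (gs Φ ξ0) := fun ξ hξ =>
    hGD V Φ Φ ξ0 ξ h0 (R.iso ξ hξ)
  obtain ⟨d, L, hd, hL, hr⟩ := hRS V (V →L[ℝ] V) _ V A b (finrank ℝ (gs Φ ξ0)) (ball ξ0 ρ) G hA hb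
    isOpen_ball ⟨ξ0, mem_ball_self R.pos⟩ R.den (fun ξ hξ => by
      have hb' := R.sub hξ
      have hn := R.nz ξ hb'
      refine ⟨?_, fun μ => ?_⟩
      · rw [hk ξ hn, le_antisymm (hle ξ hb') (R.c1 ξ hξ), hgd ξ hb']
      · obtain ⟨u, hu⟩ := R.c2 ξ hξ μ
        exact ⟨u, ((hs ξ hn).2 μ u).2 hu⟩)
  have hG : ∀ ξ, ξ ∈ Gam Φ ξ0 δ M ↔ ξ ≠ 0 ∧ d ξ ≠ 0 := fun ξ => by
    refine and_congr_right fun hξ => ?_
    rw [(hr ξ).2.1, hk ξ hξ]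
  have hl : ∀ ξ : V, ξ ≠ 0 → finrank ℝ (gs Φ ξ0) ≤ finrank ℝ (ks δ M ξ) := fun ξ hξ => by
    rw [← hk ξ hξ]
    exact (hr ξ).1
  have hc : Continuous d := continuousOn_univ.1 hd.continuousOn
  refine ⟨fun ξ => (d ξ)⁻¹ • L ξ, ?_, fun ξ hξ => ?_, hl, fun ξ hξ => ?_, fun ξ hξ μ => ?_⟩
  · have : Gam Φ ξ0 δ M = {ξ | ξ ≠ 0} ∩ {ξ | d ξ ≠ 0} := Set.ext hG
    rw [this]
    exact isOpen_ne.inter (isOpen_ne_fun hc continuous_const)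
  · have hn := R.nz ξ hξ
    refine ⟨hn, le_antisymm ?_ (hl ξ hn)⟩
    rw [← hgd ξ hξ]
    exact Submodule.finrank_mono (hle ξ hξ)
  · exact SOL.ana (hd ξ (mem_univ _)) (hL ξ (mem_univ _)) ((hG ξ).1 hξ).2
  · obtain ⟨hn, hd0⟩ := (hG ξ).1 hξ
    refine ((hs ξ hn).2 μ _).1 ?_
    rw [smul_apply, map_smul, (hr ξ).2.2 μ, smul_smul, inv_mul_cancel₀ hd0, one_smul]

end Pool.Agent.Lib.LB
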