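import Pool.Agent.Lib.LB.Blue
import Pool.Agent.Lib.LB49.SR

/-! Row SR: rationality from rationality on hyperplanes. -/

set_option autoImplicit false

open Set Filter Topology Metric Module
open scoped RealInnerProductSpace

namespace Pool.Agent.Lib.LB

namespace SR

open LB49

variable {E F : Type} [NormedAddCommGroup E] [NormedSpace ℝ E] [NormedAddCommGroup F] [NormedSpace ℝ F]

lemma toPd {d : ℕ} {f : E → F} (h : IsPol d f) (ψ : Dual ℝ F) : (fun x => ψ (f x)) ∈ Pd E d := by
  induction h with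
  | const d c => exact const_mem d _
  | add _ _ h1 h2 =>
    simp only [map_add]
    exact Submodule.add_mem _ h1 h2
  | mul φ _ h1 =>
    simp only [map_smul, smul_eq_mul, mul_comm (φ _)]
    exact Pd_mul h1 (dual_mem (φ : E →ₗ[ℝ] ℝ))

lemma up {d : ℕ} {f : E → F} (h : IsPol d f) : IsPol (d + 1) f := by
  induction h with
  | const d c => exact IsPol.const _ c
  | add _ _ h1 h2 => exact h1.add h2
  | mul φ _ h1 => exact h1.mul φ

lemma ofPd [FiniteDimensional ℝ E] {d : ℕ} {f : E → ℝ} (h : f ∈ Pd E d) (c : F) :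
    IsPol d fun x => f x • c := by
  refine Pd_ind (p := fun d f => ∀ c : F, IsPol d fun x => f x • c) (fun a c => IsPol.const 0 _)
    (fun d f g h1 h2 c => ?_) (fun d a l f _ h1 c => ?_) d f h c
  · simp only [Pi.add_apply, add_smul]
    exact (h1 c).add (h2 c)
  · have := (up (h1 (a • c))).add ((h1 c).mul (LinearMap.toContinuousLinearMap l))
    refine (congrArg (IsPol (d + 1)) (funext fun x => ?_)).mp this
    simp only [Pi.mul_apply, LinearMap.coe_toContinuousLinearMap']
    module

lemma sum {ι : Type} {d : ℕ} (s : Finset ι) {f : ι → E → F} (h : ∀ i, IsPol d (f i)) :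
    IsPol d fun x => ∑ i ∈ s, f i x := by
  classical
  induction s using Finset.induction_on with
  | empty => simpa using IsPol.const d (0 : F)
  | insert a s ha ih =>
    simp only [Finset.sum_insert ha]
    exact (h a).add ih

end SR

open SR LB49 in
theorem bSR : St_SR := by
  intro E V F _ _ _ _ _ _ _ _ _ S N x0 O G ρ φ h3 _ hO hx hρ hG hφ
  let b := Module.finBasis ℝ F
  have : CompleteSpace E := FiniteDimensional.complete ℝ E
  obtain ⟨J, δ, M, d1, m1, d0, ε, ε0, hε⟩ := sr h3 (S.ι : E →ₗ[ℝ] V) (S.pr : V →ₗ[ℝ] E)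
    (innerSL ℝ S.e : V →L[ℝ] ℝ) S.e S.pr_ι S.ei S.ee S.pr_e S.dec hO hx
    (S := (fun l => innerSL ℝ l) '' G) (by
      refine mem_of_superset (ball_mem_nhds 0 hρ) fun l hl => ?_
      obtain ⟨v, rfl⟩ := (InnerProductSpace.toDual ℝ E).surjective l
      refine map_mem_closure (f := fun l : E => innerSL ℝ l) (innerSL ℝ).continuous (hG ?_)
        fun y hy => mem_image_of_mem _ hy
      simpa using hl)
    (fun y a => b.coord a (φ y)) N (by
      rintro _ ⟨l, hl, rfl⟩
      obtain ⟨q, p, q1, p1, pq⟩ := hφ l hl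
      refine ⟨fun a x => b.coord a (p x), q, fun a => toPd p1 _, toPd q1 LinearMap.id,
        fun x hx => ⟨(pq x hx).1, fun a => ?_⟩⟩
      simp only [(pq x hx).2, map_smul, smul_eq_mul, S.j_apply]
      rfl)
  refine ⟨δ, fun y => ∑ a, M a y • b a, ε, ⟨J, by simpa using ofPd d1 (1 : ℝ)⟩,
    ⟨J, sum _ fun a => ofPd (m1 a) _⟩, Function.ne_iff.1 d0, ε0, fun l hl l1 x hx => ?_⟩
  have a1 : ∀ a, δ (S.j l x) * b.coord a (φ (S.j l x)) = M a (S.j l x) := fun a => by
    rw [S.j_apply]
    exact hε _ ⟨l, hl, rfl⟩ (by simpa using l1) x hx a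
  simp only [← a1, mul_smul, ← Finset.smul_sum, Basis.coord_apply, Basis.sum_repr]

end Pool.Agent.Lib.LB
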