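import Pool.Agent.Lib.LB.Poly

/-! Local Banach problem: the conditions on `L` as a finite linear system. -/

set_option autoImplicit false

open Set Filter Topology Metric Module
open scoped RealInnerProductSpace ContDiff NNReal

noncomputable section

namespace Pool.Agent.Lib.LB

namespace SYS

variable {V : Type} [NormedAddCommGroup V] [InnerProductSpace ℝ V]

/-- A multiple of the projection on the hyperplane. -/
def pj (ξ : V) : V →L[ℝ] V := ⟪ξ, ξ⟫ • ContinuousLinearMap.id ℝ V - (innerSL ℝ ξ).smulRight ξ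

theorem pj_apply (ξ v : V) : pj ξ v = ⟪ξ, ξ⟫ • v - ⟪ξ, v⟫ • ξ := by simp [pj]

theorem pj_cd (v : V) : ContDiff ℝ ω fun ξ : V => pj ξ v := by
  simp only [pj_apply]
  exact ((contDiff_id.inner ℝ contDiff_id).smul contDiff_const).sub
    ((contDiff_id.inner ℝ contDiff_const).smul contDiff_id)

theorem all_iff {ξ : V} (h : ξ ≠ 0) (p : V → Prop) :
    (∀ v, p (pj ξ v)) ↔ ∀ y, ⟪ξ, y⟫ = 0 → p y := by
  refine ⟨fun a y hy => ?_, fun a v => a _ ?_⟩
  · have := a (⟪ξ, ξ⟫⁻¹ • y)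
    rwa [pj_apply, inner_smul_right, hy, mul_zero, zero_smul, sub_zero,
      smul_inv_smul₀ (inner_self_ne_zero.2 h)] at this
  · rw [pj_apply, inner_sub_right, inner_smul_right, inner_smul_right]
    ring

/-- The left side. -/
def lhs (δ : V → ℝ) (M : V → V →L[ℝ] V) {s : ℕ} (v : Fin s → V) (ξ : V) :
    (V →L[ℝ] V) →L[ℝ] (V × (V →L[ℝ] ℝ) × (Fin s → V)) :=
  (ContinuousLinearMap.apply ℝ V ξ).prod
    (((ContinuousLinearMap.compL ℝ V V ℝ (innerSL ℝ ξ)).comp
      ((ContinuousLinearMap.compL ℝ V V V).flip (pj ξ))).prod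
    (ContinuousLinearMap.pi fun i =>
      (δ (pj ξ (v i)) • ContinuousLinearMap.id ℝ V - M (pj ξ (v i))).comp
        (ContinuousLinearMap.apply ℝ V (pj ξ (v i)))))

/-- The right side. -/
def rhs (s : ℕ) (ξ : V) : V →L[ℝ] (V × (V →L[ℝ] ℝ) × (Fin s → V)) :=
  (ContinuousLinearMap.id ℝ V).prod
    ((-((ContinuousLinearMap.compL ℝ V V ℝ).flip (pj ξ)).comp (innerSL ℝ)).prod 0)

theorem lhs_apply (δ : V → ℝ) (M : V → V →L[ℝ] V) {s : ℕ} (v : Fin s → V) (ξ : V) (L : V →L[ℝ] V) :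
    lhs δ M v ξ L = (L ξ, (innerSL ℝ ξ).comp (L.comp (pj ξ)),
      fun i => δ (pj ξ (v i)) • L (pj ξ (v i)) - M (pj ξ (v i)) (L (pj ξ (v i)))) := rfl

theorem rhs_apply (s : ℕ) (ξ μ : V) : rhs s ξ μ = (μ, -(innerSL ℝ μ).comp (pj ξ), 0) := rfl

end SYS

open SYS in
theorem bSYS : St_SYS := by
  intro V _ _ _ δ M hδ hM
  have c1 : ContDiff ℝ ω δ := contDiff_omega_iff_analyticOnNhd.2 hδ.analytic
  have c2 : ContDiff ℝ ω M := contDiff_omega_iff_analyticOnNhd.2 hM.analytic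
  obtain ⟨a, hδ⟩ := hδ
  obtain ⟨b, hM⟩ := hM
  obtain ⟨s, v, hv⟩ := exists_uni (E := V) (F := V) (a + b + 1)
  have key : ∀ ξ : V, ξ ≠ 0 → ∀ μ L, lhs δ M v ξ L = rhs s ξ μ ↔ Sl δ M ξ μ L := fun ξ h μ L => by
    rw [lhs_apply, rhs_apply, Prod.mk.injEq, Prod.mk.injEq, Sl,
      ← all_iff h fun y => ⟪ξ, L y⟫ = -⟪μ, y⟫ ∧ δ y • L y = M y (L y), forall_and]
    refine and_congr_right fun _ => and_congr ?_ ⟨fun k w => sub_eq_zero.1 ?_, fun k => ?_⟩
    · exact ContinuousLinearMap.ext_iff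
    · exact hv (fun w => δ (pj ξ w) • L (pj ξ w) - M (pj ξ w) (L (pj ξ w)))
        ((((hδ.mono (Nat.le_add_right a b)).smul (IsPol.lin L)).sub
          ((hM.mono (Nat.le_add_left b a)).app (IsPol.lin L))).pre (pj ξ)) (congrFun k) w
    · exact funext fun i => sub_eq_zero.2 (k (v i))
  refine ⟨s, lhs δ M v, rhs s, contDiff_omega_iff_analyticOnNhd.1 (contDiff_clm_apply_iff.2 fun L => ?_),
    contDiff_omega_iff_analyticOnNhd.1 (contDiff_clm_apply_iff.2 fun μ => ?_),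
    fun ξ h => ⟨fun L => ?_, key ξ h⟩⟩
  · simp only [lhs_apply]
    refine L.contDiff.prodMk (ContDiff.prodMk (contDiff_clm_apply_iff.2 fun w => ?_)
      (contDiff_pi.2 fun i => ?_))
    · exact contDiff_id.inner ℝ (L.contDiff.comp (pj_cd w))
    · exact ((c1.comp (pj_cd _)).smul (L.contDiff.comp (pj_cd _))).sub
        ((c2.comp (pj_cd _)).clm_apply (L.contDiff.comp (pj_cd _)))
  · simp only [rhs_apply]
    refine contDiff_const.prodMk (ContDiff.prodMk (contDiff_clm_apply_iff.2 fun w => ?_)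
      contDiff_const)
    exact (contDiff_const.inner ℝ (pj_cd w)).neg
  · have := key ξ h 0 L
    rw [map_zero] at this
    refine this.trans (and_congr_right fun _ => forall₂_congr fun y _ => ?_)
    rw [inner_zero_left, neg_zero]

end Pool.Agent.Lib.LB
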