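import Pool.Agent.Lib.LB.Blue

/-! Local Banach problem, row TINV: the lifted distribution does not depend on the hyperplane. -/

set_option autoImplicit false

open Set Filter Topology Metric Module
open scoped RealInnerProductSpace ContDiff NNReal

noncomputable section

namespace Pool.Agent.Lib.LB

namespace TINV

theorem box {E : Type} [NormedAddCommGroup E] {x0 : E} {Q : E × E → Prop} {r : ℝ} (hr : 0 < r)
    (h : ∀ᶠ p in 𝓝 ((0 : E), x0), Q p) : ∃ ρ, 0 < ρ ∧ ρ ≤ r ∧ ∃ O, IsOpen O ∧ x0 ∈ O ∧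
      ∀ l, ‖l‖ < ρ → ∀ x ∈ O, Q (l, x) := by
  obtain ⟨ε, hε, h⟩ := Metric.eventually_nhds_iff.1 h
  refine ⟨min ε r, lt_min hε hr, min_le_right _ _, ball x0 ε, isOpen_ball, mem_ball_self hε,
    fun l hl x hx => h ?_⟩
  rw [Prod.dist_eq, dist_zero_right]
  exact max_lt (hl.trans_le (min_le_left _ _)) hx

end TINV

theorem bTINV (hI : St_INV) (hZ : St_ZF) : St_TINV := by
  intro E V _ _ _ _ _ _ S Φ r C G H x0 O d m P τ hL hD
  have hτ : ∀ x ∈ O, DifferentiableAt ℝ τ x := fun x hx =>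
    (hD.cd.contDiffAt (hD.op.mem_nhds hx)).differentiableAt one_ne_zero
  obtain ⟨K, t, ht, hK⟩ := (hD.cd.contDiffAt (hD.op.mem_nhds hD.mem)).exists_lipschitzOnWith
  have hc : Continuous fun p : E × E => H p.1 p.2 :=
    (hL.lipH.continuous.comp continuous_fst).clm_apply continuous_snd
  have h00 : ⟪x0, x0⟫ ≠ 0 := inner_self_ne_zero.2 hD.ne
  have hci : Continuous fun p : E × E => ⟪x0, p.2⟫ := continuous_const.inner continuous_snd
  obtain ⟨ρ₁, p1, r1, O₁, o1, m1, h1⟩ := TINV.box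
    (Q := fun p => H p.1 p.2 ∈ t ∩ O ∧ ⟪x0, p.2⟫ ≠ 0) hL.pos
    (Filter.Eventually.and (hc.continuousAt.preimage_mem_nhds (by
      show t ∩ O ∈ 𝓝 (H 0 x0)
      rw [hL.H0]
      exact inter_mem ht (hD.op.mem_nhds hD.mem))) (hci.continuousAt.eventually_ne h00))
  have inv : ∀ x ∈ O₁, ∀ l l', ‖l‖ < ρ₁ → ‖l'‖ < ρ₁ → ⟪l' - l, x⟫ = 0 →
      τ (H l' x) = τ (H l x) := fun x hx l l' hl hl' hv => by
    have a1 : LipschitzWith (‖ContinuousLinearMap.apply ℝ E x‖₊ * C) fun l => H l x :=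
      (ContinuousLinearMap.apply ℝ E x).lipschitz.comp hL.lipH
    have a2 := hI E (E →L[ℝ] E) E H C _ (fun l => τ (H l x)) (ball 0 ρ₁) (l' - l) hL.lipH
      isOpen_ball (convex_ball 0 ρ₁) (hK.comp a1.lipschitzOnWith fun l hl =>
        (h1 l (mem_ball_zero_iff.1 hl) x hx).1.1) (fun k hk hd => ?_) l (mem_ball_zero_iff.2 hl)
      (by rw [add_sub_cancel]; exact mem_ball_zero_iff.2 hl')
    · rwa [add_sub_cancel] at a2
    have hk' := mem_ball_zero_iff.1 hk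
    obtain ⟨b1, b2⟩ := h1 k hk' x hx
    obtain ⟨b3, b4⟩ := (hZ E V S Φ r C G H hL k (hk'.trans_le r1) hd).1 x (l' - l)
    have b5 := hD.all _ b3 b4 _ b1.2
    have b6 : ⟪x, x⟫ ≠ 0 := inner_self_ne_zero.2 fun e => b2 (by rw [e, inner_zero_right])
    simp only [hL.GH, hv, zero_smul, sub_zero] at b5
    have b7 := (hD.ker _ b1.2 _).2 ((Submodule.smul_mem_iff _ b6).1 b5)
    have b8 : HasDerivAt (fun s : ℝ => k + s • (l' - l)) (l' - l) 0 := by
      simpa using ((hasDerivAt_id (0 : ℝ)).smul_const (l' - l)).const_add k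
    have b9 : HasDerivAt (fun s : ℝ => H (k + s • (l' - l)) x) (fderiv ℝ H k (l' - l) x) 0 :=
      (ContinuousLinearMap.apply ℝ E x).hasFDerivAt.comp_hasDerivAt 0
        (hd.hasFDerivAt.comp_hasDerivAt_of_eq 0 b8 (by rw [zero_smul, add_zero]))
    rw [← b7]
    exact (hτ _ b1.2).hasFDerivAt.comp_hasDerivAt_of_eq 0 b9 (by rw [zero_smul, add_zero])
  have hlam : ∀ y : V, ⟪x0, S.pr y⟫ ≠ 0 →
      ContinuousAt (fun y : V => -(⟪S.e, y⟫ * (⟪x0, S.pr y⟫)⁻¹) • x0) y := fun y hy =>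
    ((continuous_const.inner continuous_id).continuousAt.mul
      ((continuous_const.inner S.pr.continuous).continuousAt.inv₀ hy)).neg.smul continuousAt_const
  have hc2 : ContinuousAt (fun p : E × E => (⟪p.1, p.2⟫ * (⟪x0, p.2⟫)⁻¹) • x0) (0, x0) :=
    ((continuous_fst.inner continuous_snd).continuousAt.mul
      (hci.continuousAt.inv₀ h00)).smul continuousAt_const
  obtain ⟨ρ₂, p2, r2, O₂, o2, m2, h2⟩ := TINV.box
    (Q := fun p => (⟪p.1, p.2⟫ * (⟪x0, p.2⟫)⁻¹) • x0 ∈ ball (0 : E) ρ₁) p1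
    (hc2.preimage_mem_nhds (by
      simp only [inner_zero_left, zero_mul, zero_smul]
      exact ball_mem_nhds 0 p1))
  refine ⟨ρ₂, O₁ ∩ O₂, fun y => LinearMap.ker (fderiv ℝ (fun y : V =>
    τ (H (-(⟪S.e, y⟫ * (⟪x0, S.pr y⟫)⁻¹) • x0) (S.pr y))) y : V →ₗ[ℝ] E), p2, r2.trans r1,
    o1.inter o2, ⟨m1, m2⟩, fun l hl x hx => ?_⟩
  have hl1 := hl.trans_le r2
  obtain ⟨b1, b2⟩ := h1 l hl1 x hx.1
  refine ⟨b1.2, b2, fun hd v => ?_⟩
  have b2' : ⟪x0, S.pr (S.j l x)⟫ ≠ 0 := by rwa [S.pr_j]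
  have d1 : HasFDerivAt (fun y : V => ⟪S.xi l, y⟫) (innerSL ℝ (S.xi l)) (S.j l x) :=
    (innerSL ℝ (S.xi l)).hasFDerivAt
  have d2 : DifferentiableAt ℝ (fun y : V => (⟪x0, S.pr y⟫)⁻¹) (S.j l x) :=
    ((innerSL ℝ x0).comp S.pr).differentiableAt.fun_inv b2'
  have d3 := ((d1.fun_mul d2.hasFDerivAt).smul_const x0).const_sub l
  have e0 : l - (⟪S.xi l, S.j l x⟫ * (⟪x0, S.pr (S.j l x)⟫)⁻¹) • x0 = l := by
    rw [S.xi_j, zero_mul, zero_smul, sub_zero]
  have d4 := (HasFDerivAt.comp (S.j l x) (g := H) (g' := fderiv ℝ H l)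
    (by rw [e0]; exact hd.hasFDerivAt) d3).clm_apply S.pr.hasFDerivAt
  have d5 := HasFDerivAt.comp (S.j l x) (g := τ) (g' := fderiv ℝ τ (H l x)) (by
    simp only [Function.comp_apply]
    rw [e0, S.pr_j]
    exact (hτ _ b1.2).hasFDerivAt) d4
  have e1 : (fun y : V => τ (H (-(⟪S.e, y⟫ * (⟪x0, S.pr y⟫)⁻¹) • x0) (S.pr y))) =ᶠ[𝓝 (S.j l x)]
      fun y => τ (H (l - (⟪S.xi l, y⟫ * (⟪x0, S.pr y⟫)⁻¹) • x0) (S.pr y)) := by
    have c1 := (hlam _ b2').preimage_mem_nhds (isOpen_ball.mem_nhds (x := _) (by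
      have c0 := h2 l hl x hx.2
      rw [S.e_j, S.pr_j, neg_mul, neg_neg]
      exact c0 : _ ∈ ball (0 : E) ρ₁))
    have c2 := d3.continuousAt.preimage_mem_nhds (isOpen_ball.mem_nhds (by
      rw [e0]
      exact mem_ball_zero_iff.2 hl1 : _ ∈ ball (0 : E) ρ₁))
    have c3 := S.pr.continuous.continuousAt.preimage_mem_nhds (o1.mem_nhds (by
      rw [S.pr_j]
      exact hx.1 : S.pr (S.j l x) ∈ O₁))
    filter_upwards [c1, c2, c3] with y y1 y2 y3
    refine inv _ y3 _ _ (mem_ball_zero_iff.1 y2) (mem_ball_zero_iff.1 y1) ?_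
    have y4 := (h1 l hl1 _ y3).2
    rw [inner_sub_left, inner_sub_left, real_inner_smul_left, real_inner_smul_left, S.xi_inner,
      neg_mul, inv_mul_cancel_right₀ y4, inv_mul_cancel_right₀ y4]
    ring
  have d6 := (d5.congr_of_eventuallyEq e1).fderiv
  show fderiv ℝ _ (S.j l x) v = 0 ↔ _
  rw [d6, ContinuousLinearMap.comp_apply, hD.ker _ b1.2, ← Submodule.smul_mem_iff _ b2]
  refine iff_of_eq (congrArg (· ∈ spn P (H l x)) ?_)
  simp only [ContinuousLinearMap.add_apply, ContinuousLinearMap.comp_apply, Function.comp_apply,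
    ContinuousLinearMap.flip_apply, ContinuousLinearMap.neg_apply,
    ContinuousLinearMap.smulRight_apply, ContinuousLinearMap.smul_apply, innerSL_apply_apply,
    S.xi_j, S.pr_j, zero_mul, zero_smul, sub_zero, zero_add, map_neg, map_smul, smul_eq_mul,
    smul_add, smul_neg, smul_smul, mul_inv_cancel_left₀ b2, sub_eq_add_neg, neg_zero, add_zero]

end Pool.Agent.Lib.LB
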