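import Pool.Agent.Lib.LB.Basic
import Pool.Agent.Lib.LB.Poly

/-! Local Banach problem, block ZF: the killing fields given by the derivative of the family. -/

set_option autoImplicit false

open Set Filter Topology Metric Module
open scoped RealInnerProductSpace ContDiff NNReal

noncomputable section

namespace Pool.Agent.Lib.LB

namespace ZF

variable {E V : Type} [NormedAddCommGroup E] [InnerProductSpace ℝ E] [NormedAddCommGroup V]
  [InnerProductSpace ℝ V] {S : Sp E V} {Φ : Seminorm ℝ V} {r : ℝ} {C : ℝ≥0} {G H : E → E →L[ℝ] E}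

theorem key (h : Lf S Φ r C G H) {l : E} (hl : ‖l‖ < r) (x : E) :
    S.n Φ (H l x) = Φ (S.j l x) := by
  have := h.iso l hl (H l x)
  rw [h.GH] at this
  exact this.symm

theorem line (l m : E) : HasDerivAt (fun s : ℝ => l + s • m) m 0 := by
  simpa using ((hasDerivAt_id (0 : ℝ)).smul_const m).const_add l

theorem small {l : E} (hl : ‖l‖ < r) (m : E) : ∀ᶠ s in 𝓝 (0 : ℝ), ‖l + s • m‖ < r := by
  have hc : ContinuousAt (fun s : ℝ => ‖l + s • m‖) 0 := (line l m).continuousAt.norm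
  exact hc.eventually_lt continuousAt_const (by simpa using hl)

theorem along {l : E} (hd : DifferentiableAt ℝ H l) (m : E) :
    HasDerivAt (fun s : ℝ => H (l + s • m)) (fderiv ℝ H l m) 0 := by
  have h1 : HasFDerivAt H (fderiv ℝ H l) ((fun s : ℝ => l + s • m) 0) := by
    simpa using hd.hasFDerivAt
  exact h1.comp_hasDerivAt (0 : ℝ) (line l m)

theorem one [FiniteDimensional ℝ E] (h : Lf S Φ r C G H) {l : E} (hl : ‖l‖ < r)
    (hd : DifferentiableAt ℝ H l) {m x : E} (hm : ⟪m, G l x⟫ = 0) :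
    fderiv ℝ H l m (G l x) ∈ Kil (S.n Φ) x := by
  have h1 : HasDerivAt (fun s : ℝ => H (l + s • m) (G l x)) (fderiv ℝ H l m (G l x)) 0 := by
    simpa using (along hd m).clm_apply (hasDerivAt_const (0 : ℝ) (G l x))
  have h2 := (K2 (Φ := S.n Φ) h1).2 ((hasDerivAt_const (0 : ℝ) (Φ (S.j l (G l x)))).congr_of_eventuallyEq
    ((small hl m).mono fun s hs => by
      show S.n Φ (H (l + s • m) (G l x)) = Φ (S.j l (G l x))
      rw [key h hs, S.j_apply, S.j_apply, inner_add_left, real_inner_smul_left, hm, mul_zero,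
        add_zero]))
  simpa [h.HG] using h2

theorem two [FiniteDimensional ℝ E] [FiniteDimensional ℝ V] (h : Lf S Φ r C G H) {l : E}
    (hl : ‖l‖ < r) (hd : DifferentiableAt ℝ H l) (μ x : E) :
    S.j l (G l (fderiv ℝ H l μ x)) + ⟪μ, x⟫ • S.e ∈ Kil Φ (S.j l x) := by
  set w := G l (fderiv ℝ H l μ x) with hw
  have h1 : HasDerivAt (fun s : ℝ => H (l + s • -μ) (x + s • w)) 0 0 := by
    have := (along hd (-μ)).clm_apply (line x w)
    simpa [hw, h.HG] using this
  have h2 := (K2 (Φ := S.n Φ) h1).1 (zero_mem _)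
  have h3 : HasDerivAt (fun s : ℝ => S.j (l + s • -μ) (x + s • w)) (S.j l w + ⟪μ, x⟫ • S.e) 0 := by
    have a1 := S.ι.hasFDerivAt.comp_hasDerivAt (0 : ℝ) (line x w)
    have a2 := ((line l (-μ)).inner ℝ (line x w)).smul_const S.e
    have a3 := a1.sub a2
    have e : S.j l w + ⟪μ, x⟫ • S.e =
        S.ι w - (⟪l + (0 : ℝ) • -μ, w⟫ + ⟪-μ, x + (0 : ℝ) • w⟫) • S.e := by
      simp only [S.j_apply, zero_smul, add_zero, inner_neg_left]
      module
    rw [e]
    refine a3.congr_of_eventuallyEq (Eventually.of_forall fun s => ?_)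
    simp only [S.j_apply, Pi.sub_apply, Function.comp_apply]
  have h4 := (K2 (Φ := Φ) h3).2 (h2.congr_of_eventuallyEq
    ((small hl (-μ)).mono fun s hs => (key h hs _).symm))
  simpa using h4

end ZF

theorem bZF : St_ZF := by
  intro E V _ _ _ _ _ _ S Φ r C G H h l hl hd
  refine ⟨fun ζ μ => ⟨?_, fun x => ?_⟩, ZF.two h hl hd⟩
  · exact ((Pl.inner (Pl.const ζ) (Pl.lin (G l))).smul
      (Pl.lin ((fderiv ℝ H l μ).comp (G l)))).sub
      ((Pl.inner (Pl.const μ) (Pl.lin (G l))).smul (Pl.lin ((fderiv ℝ H l ζ).comp (G l))))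
  · have := ZF.one h hl hd (m := ⟪ζ, G l x⟫ • μ - ⟪μ, G l x⟫ • ζ) (x := x) (by
      rw [inner_sub_left, real_inner_smul_left, real_inner_smul_left]; ring)
    simpa using this

end Pool.Agent.Lib.LB
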