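import Pool.Agent.Lib.LB.Blue

/-! Row ZORN. -/

set_option autoImplicit false

open Set Filter Topology Metric Module

noncomputable section

namespace Pool.Agent.Lib.LB

theorem bZORN : St_ZORN := by
  intro V _ _ _ ξ0 ρ Γ _ hs hn hb
  have sub : {x : V | ∃ t : ℝ, 0 < t ∧ t • x ∈ ball ξ0 ρ} ⊆ Γ := fun x ⟨t, t0, h⟩ => by
    simpa [smul_smul, inv_mul_cancel₀ t0.ne'] using hs _ (hb h) t⁻¹ (inv_pos.2 t0)
  have oc : Oc {x : V | ∃ t : ℝ, 0 < t ∧ t • x ∈ ball ξ0 ρ} := by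
    refine ⟨isOpen_iff_mem_nhds.2 fun x ⟨t, t0, h⟩ => ?_,
      fun x ⟨s, s0, hx⟩ y ⟨t, t0, hy⟩ a b a0 b0 ab => ?_,
      fun x ⟨s, s0, hx⟩ t t0 => ⟨s / t, div_pos s0 t0, by
        rwa [smul_smul, div_mul_cancel₀ _ t0.ne']⟩, fun x hx => hn x (sub hx)⟩
    · filter_upwards [(isOpen_ball.preimage (continuous_const_smul t)).mem_nhds h] with y hy
      exact ⟨t, t0, hy⟩
    · have c0 : 0 < a * t + b * s := by
        rcases a0.eq_or_lt with h | h
        · rw [← h, zero_add] at ab; rw [← h, ab]; simpa using s0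
        · exact add_pos_of_pos_of_nonneg (mul_pos h t0) (mul_nonneg b0 s0.le)
      refine ⟨s * t / (a * t + b * s), by positivity, ?_⟩
      have cb : Convex ℝ (ball ξ0 ρ) := convex_ball ξ0 ρ
      have k := cb hx hy (a := a * t / (a * t + b * s)) (b := b * s / (a * t + b * s))
        (by positivity) (by positivity) (by rw [← add_div, div_self c0.ne'])
      have e : (s * t / (a * t + b * s)) • (a • x + b • y) =
          (a * t / (a * t + b * s)) • s • x + (b * s / (a * t + b * s)) • t • y := by module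
      rwa [e]
  obtain ⟨Ω, h1, h2⟩ := zorn_subset_nonempty {Ω : Set V | Oc Ω ∧ Ω ⊆ Γ}
    (fun c hc ch _ => ⟨⋃₀ c, ⟨⟨isOpen_sUnion fun s h => (hc h).1.op,
      ch.directedOn.convex_sUnion fun s h => (hc h).1.cv,
      fun x ⟨s, h, hx⟩ t t0 => ⟨s, h, (hc h).1.sc x hx t t0⟩,
      fun x ⟨s, h, hx⟩ => (hc h).1.nz x hx⟩, sUnion_subset fun s h => (hc h).2⟩,
      fun s h => subset_sUnion_of_mem h⟩) _ ⟨oc, sub⟩
  exact ⟨Ω, h2.prop.1, h2.prop.2, fun x hx => h1 ⟨1, one_pos, by rwa [one_smul]⟩,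
    fun Ω' a b c => h2.le_of_ge ⟨a, b⟩ c⟩

end Pool.Agent.Lib.LB
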