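import Pool.Agent.Lib.LB.Blue

/-! Local Banach problem: basic facts on killing directions. -/

set_option autoImplicit false

open Set Filter Topology Metric Module
open scoped RealInnerProductSpace ContDiff NNReal

noncomputable section

namespace Pool.Agent.Lib.LB

section Normed

variable {E V : Type} [NormedAddCommGroup E] [NormedSpace ℝ E] [NormedAddCommGroup V] [NormedSpace ℝ V]

theorem snm_cont [FiniteDimensional ℝ V] (Φ : Seminorm ℝ V) : Continuous Φ := by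
  obtain ⟨C, hC⟩ : ∃ C : ℝ, ∀ x, Φ x ≤ C * ‖x‖ := by
    let b := Module.finBasis ℝ V
    refine ⟨∑ i, ‖LinearMap.toContinuousLinearMap (b.coord i)‖ * Φ (b i), fun x => ?_⟩
    conv_lhs => rw [← b.sum_repr x]
    rw [Finset.sum_mul]
    have h1 : ∀ (s : Finset (Fin (finrank ℝ V))) (f : Fin (finrank ℝ V) → V),
        Φ (∑ i ∈ s, f i) ≤ ∑ i ∈ s, Φ (f i) := fun s f =>
      Finset.le_sum_of_subadditive Φ (map_zero Φ).le (map_add_le_add Φ) s f
    refine (h1 _ _).trans (Finset.sum_le_sum fun i _ => ?_)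
    rw [map_smul_eq_mul]
    have := (LinearMap.toContinuousLinearMap (b.coord i)).le_opNorm x
    have h2 := apply_nonneg Φ (b i)
    simp only [LinearMap.coe_toContinuousLinearMap', Basis.coord_apply] at this
    nlinarith
  refine (LipschitzWith.of_dist_le_mul (K := ⟨max C 0, le_max_right _ _⟩) fun x y => ?_).continuous
  rw [Real.dist_eq, dist_eq_norm]
  refine (abs_sub_map_le_sub Φ x y).trans ((hC _).trans ?_)
  exact mul_le_mul_of_nonneg_right (le_max_left _ _) (norm_nonneg _)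

theorem snm_le [FiniteDimensional ℝ V] (Φ : Seminorm ℝ V) : ∃ C > 0, ∀ x, Φ x ≤ C * ‖x‖ := by
  obtain ⟨C, hC, h⟩ := Seminorm.bound_of_continuous_normedSpace Φ (snm_cont Φ)
  exact ⟨C, hC, h⟩

theorem snm_lip [FiniteDimensional ℝ V] (Φ : Seminorm ℝ V) : ∃ C : ℝ≥0, LipschitzWith C Φ := by
  obtain ⟨C, hC, h⟩ := snm_le Φ
  refine ⟨⟨C, hC.le⟩, LipschitzWith.of_dist_le_mul fun x y => ?_⟩
  rw [Real.dist_eq, dist_eq_norm]
  exact (abs_sub_map_le_sub Φ x y).trans (h _)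

theorem snm_low [FiniteDimensional ℝ V] {Φ : Seminorm ℝ V} (h : Df Φ) : ∃ c > 0, ∀ x, c * ‖x‖ ≤ Φ x := by
  rcases (sphere (0 : V) 1).eq_empty_or_nonempty with he | hn
  · refine ⟨1, one_pos, fun x => ?_⟩
    by_cases hx : x = 0
    · simp [hx]
    · have : ‖x‖⁻¹ • x ∈ sphere (0 : V) 1 := by
        simp [norm_smul, inv_mul_cancel₀ (norm_ne_zero_iff.2 hx)]
      rw [he] at this
      exact this.elim
  obtain ⟨u, hu, hm⟩ := (isCompact_sphere (0 : V) 1).exists_isMinOn hn (snm_cont Φ).continuousOn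
  have hu0 : u ≠ 0 := fun e => by simp [e] at hu
  refine ⟨Φ u, lt_of_le_of_ne (apply_nonneg _ _) fun e => hu0 (h u e.symm), fun x => ?_⟩
  by_cases hx : x = 0
  · simp [hx]
  have hp : 0 < ‖x‖ := norm_pos_iff.2 hx
  have : ‖x‖⁻¹ • x ∈ sphere (0 : V) 1 := by simp [norm_smul, inv_mul_cancel₀ hp.ne']
  have h2 : Φ u ≤ Φ (‖x‖⁻¹ • x) := hm this
  rw [map_smul_eq_mul, norm_inv, norm_norm, ← div_eq_inv_mul, le_div_iff₀ hp] at h2
  exact h2

theorem K1 {Φ : Seminorm ℝ V} {y v : V} (h : v ∈ Kil Φ y) : Mn Φ y v := by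
  intro s
  by_contra hlt
  push Not at hlt
  have hc : ∀ t : ℝ, 0 ≤ t → t ≤ 1 → Φ (y + (t * s) • v) ≤ Φ y + t * (Φ (y + s • v) - Φ y) :=
    fun t h0 h1 => by
      have e : y + (t * s) • v = (1 - t) • y + t • (y + s • v) := by module
      have := map_add_le_add Φ ((1 - t) • y) (t • (y + s • v))
      rw [← e, map_smul_eq_mul, map_smul_eq_mul, Real.norm_of_nonneg h0,
        Real.norm_of_nonneg (by linarith)] at this
      linarith
  have h2 := (mem_Kil.1 ((Kil Φ y).smul_mem s h)).isLittleO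
  simp only [zero_smul, add_zero, sub_zero, smul_zero] at h2
  simp only [smul_smul] at h2
  have h3 := (Asymptotics.isLittleO_iff.1 h2 (c := (Φ y - Φ (y + s • v)) / 2) (by linarith)).filter_mono
    (nhdsWithin_le_nhds (s := Ioi (0 : ℝ)))
  obtain ⟨t, ht, ht2⟩ := (h3.and (Ioo_mem_nhdsGT (zero_lt_one' ℝ))).exists
  have h4 := hc t ht2.1.le ht2.2.le
  rw [Real.norm_eq_abs, Real.norm_of_nonneg ht2.1.le, abs_le] at ht
  nlinarith [ht.1, ht2.1]

theorem K2 [FiniteDimensional ℝ V] {Φ : Seminorm ℝ V} {γ : ℝ → V} {v : V} {t : ℝ}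
    (hγ : HasDerivAt γ v t) : v ∈ Kil Φ (γ t) ↔ HasDerivAt (fun s => Φ (γ s)) 0 t := by
  obtain ⟨C, hC⟩ := snm_lip Φ
  have h1 : HasDerivAt (fun s => γ (t + s)) v 0 := by
    have : HasDerivAt γ v (t + 0) := by simpa using hγ
    exact this.comp_const_add t 0
  have h2 : (fun s : ℝ => Φ (γ (t + s)) - Φ (γ t + s • v)) =o[𝓝 0] fun s : ℝ => s := by
    have h3 := h1.isLittleO
    simp only [add_zero, sub_zero] at h3
    refine (Asymptotics.IsBigO.of_bound C (Eventually.of_forall fun s => ?_)).trans_isLittleO h3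
    have := hC.dist_le_mul (γ (t + s)) (γ t + s • v)
    rw [dist_eq_norm, dist_eq_norm] at this
    rwa [sub_sub]
  have h4 : HasDerivAt (fun s : ℝ => Φ (γ (t + s)) - Φ (γ t + s • v)) 0 0 := by
    rw [hasDerivAt_iff_isLittleO]
    simpa using h2
  constructor
  · intro h
    have h5 : HasDerivAt (fun s => Φ (γ (t + s))) 0 0 := by
      simpa using h4.fun_add (mem_Kil.1 h)
    have h6 : HasDerivAt (fun s => Φ (γ (t + s))) 0 (t - t) := by simpa using h5
    simpa using h6.comp_sub_const t t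
  · intro h
    have h6 : HasDerivAt (fun s => Φ (γ s)) 0 (t + 0) := by simpa using h
    have h5 := (h6.comp_const_add t 0).fun_sub h4
    rw [mem_Kil]
    simpa using h5

theorem K3 [FiniteDimensional ℝ V] {Φ : Seminorm ℝ V} {w : V → V} {y : V} {S : Set V}
    (hw : ContinuousAt w y) (hc : ∀ᶠ s in 𝓝 (0 : ℝ), y + s • w y ∈ closure S)
    (hS : ∀ y' ∈ S, Mn Φ y' (w y')) : w y ∈ Kil Φ y := by
  obtain ⟨C, hC0, hC⟩ := snm_le Φ
  have up : ∀ ε > 0, ∀ᶠ s in 𝓝 (0 : ℝ), Φ (y + s • w y) ≤ Φ y + ε * |s| := fun ε hε => by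
    have hN : ∀ᶠ z in 𝓝 y, ‖w z - w y‖ < ε / C := by
      have := Metric.tendsto_nhds.1 hw (ε / C) (by positivity)
      simpa [dist_eq_norm] using this
    obtain ⟨N, hN1, hN2, hN3⟩ := _root_.eventually_nhds_iff.1 hN
    have hy : ∀ᶠ s in 𝓝 (0 : ℝ), y + s • w y ∈ N := by
      have : ContinuousAt (fun s : ℝ => y + s • w y) 0 := by fun_prop
      exact this.eventually (hN2.mem_nhds (by simpa using hN3))
    filter_upwards [hy, hc] with s h1 h2
    have h3 : y + s • w y ∈ closure (N ∩ S) := hN2.inter_closure ⟨h1, h2⟩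
    have cl : IsClosed {z : V | Φ z ≤ Φ y + ε * |s| + C * ‖z - (y + s • w y)‖} :=
      isClosed_le (snm_cont Φ) (by fun_prop)
    have h4 := closure_minimal (s := N ∩ S) (fun z hz => ?_) cl h3
    · simpa using h4
    have a1 := hS z hz.2 (-s)
    have e : z + -s • w z = y + ((z - (y + s • w y)) + (-s) • (w z - w y)) := by module
    have a2 := map_add_le_add Φ y ((z - (y + s • w y)) + (-s) • (w z - w y))
    have a3 := map_add_le_add Φ (z - (y + s • w y)) ((-s) • (w z - w y))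
    rw [map_smul_eq_mul, norm_neg, Real.norm_eq_abs] at a3
    have a4 := hC (z - (y + s • w y))
    have a5 := hC (w z - w y)
    have a6 : C * ‖w z - w y‖ ≤ ε := by
      have := (hN1 z hz.1).le
      rwa [le_div_iff₀' hC0] at this
    have a7 : |s| * Φ (w z - w y) ≤ |s| * ε := mul_le_mul_of_nonneg_left (a5.trans a6) (abs_nonneg s)
    rw [e] at a1
    change Φ z ≤ _
    linarith
  rw [mem_Kil, hasDerivAt_iff_isLittleO, Asymptotics.isLittleO_iff]
  intro ε hε
  have neg : Tendsto (fun s : ℝ => -s) (𝓝 0) (𝓝 0) := by simpa using (continuous_neg.tendsto (0 : ℝ))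
  filter_upwards [up ε hε, neg.eventually (up ε hε)] with s h1 h2
  have e : (2 : ℝ) • y = (y + s • w y) + (y + (-s) • w y) := by module
  have h3 := map_add_le_add Φ (y + s • w y) (y + (-s) • w y)
  rw [← e, map_smul_eq_mul, Real.norm_ofNat] at h3
  rw [abs_neg] at h2
  simp only [zero_smul, add_zero, sub_zero, smul_zero, Real.norm_eq_abs]
  rw [abs_le]
  constructor <;> linarith

theorem K4_aux [FiniteDimensional ℝ V] {Φ : Seminorm ℝ V} {γ γ' : ℝ → V} {a b : ℝ} (hab : a ≤ b)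
    (hc : ContinuousOn γ (Icc a b)) (hd : ∀ t ∈ Ico a b, HasDerivAt γ (γ' t) t)
    (hm : ∀ t ∈ Ico a b, Mn Φ (γ t) (γ' t)) : Φ (γ a) ≤ Φ (γ b) := by
  obtain ⟨C, hC0, hC⟩ := snm_le Φ
  have h := image_le_of_liminf_slope_right_le_deriv_boundary (f := fun t => -Φ (γ t)) (a := a) (b := b)
    (((snm_cont Φ).comp_continuousOn hc).neg) (B := fun _ => -Φ (γ a)) (B' := fun _ => 0) le_rfl
    continuousOn_const (fun x _ => hasDerivWithinAt_const _ _ _) (fun t ht r hr => ?_)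
    (right_mem_Icc.2 hab)
  · simpa using h
  have h1 := (Asymptotics.isLittleO_iff.1 (hd t ht).isLittleO (c := r / (2 * C)) (by positivity)).filter_mono
    (nhdsWithin_le_nhds (s := Ioi t))
  refine Eventually.frequently ?_
  filter_upwards [h1, self_mem_nhdsWithin] with z hz hz2
  have hp : 0 < z - t := sub_pos.2 hz2
  have a1 := hm t ht (z - t)
  have e : γ t + (z - t) • γ' t = γ z + -(γ z - γ t - (z - t) • γ' t) := by module
  have a2 := map_add_le_add Φ (γ z) (-(γ z - γ t - (z - t) • γ' t))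
  have a3 := hC (γ z - γ t - (z - t) • γ' t)
  rw [map_neg_eq_map] at a2
  rw [e] at a1
  rw [Real.norm_of_nonneg hp.le] at hz
  have a4 : C * ‖γ z - γ t - (z - t) • γ' t‖ ≤ r / 2 * (z - t) := by
    refine (mul_le_mul_of_nonneg_left hz hC0.le).trans (le_of_eq ?_)
    field_simp
  rw [slope_def_field, div_lt_iff₀ hp]
  nlinarith

theorem K4 [FiniteDimensional ℝ V] {Φ : Seminorm ℝ V} {γ γ' : ℝ → V} {a b : ℝ} (hab : a ≤ b)
    (hc : ContinuousOn γ (Icc a b)) (hd : ∀ t ∈ Ioo a b, HasDerivAt γ (γ' t) t)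
    (hm : ∀ t ∈ Ioo a b, Mn Φ (γ t) (γ' t)) : Φ (γ b) = Φ (γ a) := by
  have inner : ∀ a' b', a < a' → a' ≤ b' → b' < b → Φ (γ b') = Φ (γ a') := fun a' b' h1 h2 h3 => by
    have sub : Icc a' b' ⊆ Ioo a b := Icc_subset_Ioo h1 h3
    have c1 : ContinuousOn γ (Icc a' b') := hc.mono (sub.trans Ioo_subset_Icc_self)
    refine le_antisymm ?_ (K4_aux h2 c1 (fun t ht => hd t (sub (Ico_subset_Icc_self ht)))
      fun t ht => hm t (sub (Ico_subset_Icc_self ht)))
    have mm : ∀ t ∈ Icc (-b') (-a'), -t ∈ Icc a' b' := fun t ht => ⟨by linarith [ht.2], by linarith [ht.1]⟩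
    have := K4_aux (Φ := Φ) (γ := fun t => γ (-t)) (γ' := fun t => -γ' (-t)) (a := -b') (b := -a')
      (by linarith) (c1.comp continuous_neg.continuousOn mm) (fun t ht => ?_) fun t ht s => ?_
    · simpa using this
    · simpa [Function.comp_def] using
        (hd _ (sub (mm t (Ico_subset_Icc_self ht)))).scomp t (hasDerivAt_neg t)
    · simpa using hm _ (sub (mm t (Ico_subset_Icc_self ht))) (-s)
  rcases hab.eq_or_lt with rfl | hlt
  · rfl
  have hm' : (a + b) / 2 ∈ Ioo a b := ⟨by linarith, by linarith⟩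
  have e1 : EqOn (fun t => Φ (γ t)) (fun _ => Φ (γ ((a + b) / 2))) (Ioo a b) := fun t ht => by
    rcases le_total t ((a + b) / 2) with h | h
    · exact (inner _ _ ht.1 h hm'.2).symm
    · exact inner _ _ hm'.1 h ht.2
  have e2 := e1.of_subset_closure ((snm_cont Φ).comp_continuousOn hc) continuousOn_const
    Ioo_subset_Icc_self (by rw [closure_Ioo hlt.ne])
  exact (e2 (right_mem_Icc.2 hab)).trans (e2 (left_mem_Icc.2 hab)).symm

theorem K5 [FiniteDimensional ℝ V] (Φ : Seminorm ℝ V) : IsClosed {p : V × V | Mn Φ p.1 p.2} := by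
  have : {p : V × V | Mn Φ p.1 p.2} = ⋂ s : ℝ, {p : V × V | Φ p.1 ≤ Φ (p.1 + s • p.2)} := by
    ext p
    simp [Mn]
  rw [this]
  exact isClosed_iInter fun s => isClosed_le ((snm_cont Φ).comp continuous_fst)
    ((snm_cont Φ).comp (by fun_prop))

theorem K6 {Φ : Seminorm ℝ V} (L : E →ₗ[ℝ] V) {x v : E} :
    v ∈ Kil (Φ.comp L) x ↔ L v ∈ Kil Φ (L x) := by
  simp [mem_Kil]

theorem K7 {Φ : Seminorm ℝ V} (h : Df Φ) {y : V} (hy : Mn Φ y y) : y = 0 := by
  have := hy (-1)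
  rw [neg_one_smul, add_neg_cancel, map_zero] at this
  exact h y (le_antisymm this (apply_nonneg _ _))

theorem K8 {Φ : Seminorm ℝ V} {y v : V} (h : ∀ᶠ s in 𝓝 (0 : ℝ), Φ (y + s • v) = Φ y) : v ∈ Kil Φ y := by
  exact (hasDerivAt_const (0 : ℝ) (Φ y)).congr_of_eventuallyEq h

/-- Transfer of killing directions between two seminorms that agree along two lines. -/
theorem K9 {Φ : Seminorm ℝ V} {Ψ : Seminorm ℝ E} {y v : V} {x u : E}
    (h : ∀ᶠ s in 𝓝 (0 : ℝ), Ψ (x + s • u) = Φ (y + s • v)) : u ∈ Kil Ψ x ↔ v ∈ Kil Φ y := by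
  exact ⟨fun h' => (mem_Kil.1 h').congr_of_eventuallyEq (EventuallyEq.symm h),
    fun h' => (mem_Kil.1 h').congr_of_eventuallyEq h⟩

theorem star_open {G : Set V} (hG : IsOpen G) (x0 : V) : IsOpen (Star G x0) := by
  rw [isOpen_iff_eventually]
  intro x hx
  have h : ∀ᶠ z in 𝓝 x, ∀ t ∈ Icc (0 : ℝ) 1, x0 + t • (z - x0) ∈ G := by
    refine isCompact_Icc.eventually_forall_of_forall_eventually fun t ht => ?_
    have : ContinuousAt (fun p : V × ℝ => x0 + p.2 • (p.1 - x0)) (x, t) := by fun_prop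
    refine this.eventually (hG.mem_nhds (hx ?_))
    rw [segment_eq_image']
    exact ⟨t, ht, rfl⟩
  filter_upwards [h] with z hz
  change segment ℝ x0 z ⊆ G
  rw [segment_eq_image']
  rintro _ ⟨t, ht, rfl⟩
  exact hz t ht

theorem star_conn (G : Set V) (x0 : V) : IsPreconnected (Star G x0) := by
  refine isPreconnected_of_forall x0 fun z hz => ⟨segment ℝ x0 z, fun w hw => ?_,
    left_mem_segment _ _ _, right_mem_segment _ _ _, (convex_segment _ _).isPreconnected⟩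
  exact ((convex_segment x0 z).segment_subset (left_mem_segment _ _ _) hw).trans hz

theorem star_sub {G Ω : Set V} {x0 : V} (hΩ : Convex ℝ Ω) (h0 : x0 ∈ Ω) (h : Ω ⊆ G) : Ω ⊆ Star G x0 := by
  exact fun z hz => (hΩ.segment_subset h0 hz).trans h

end Normed

theorem exists_sp {V : Type} [NormedAddCommGroup V] [InnerProductSpace ℝ V] [FiniteDimensional ℝ V]
    {ξ0 : V} (h : ‖ξ0‖ = 1) :
    finrank ℝ (ℝ ∙ ξ0)ᗮ + 1 = finrank ℝ V ∧ ∃ S : Sp (ℝ ∙ ξ0)ᗮ V, S.e = ξ0 := by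
  have h0 : ξ0 ≠ 0 := fun e => by simp [e] at h
  refine ⟨?_, ⟨(ℝ ∙ ξ0)ᗮ.subtypeL, (ℝ ∙ ξ0)ᗮ.orthogonalProjectionOnto, ξ0, by simp [h],
    fun x => Submodule.mem_orthogonal_singleton_iff_inner_right.1 x.2, fun x x' => rfl, fun y => ?_⟩, rfl⟩
  · have := Submodule.finrank_add_finrank_orthogonal (ℝ ∙ ξ0)
    rw [finrank_span_singleton h0] at this
    omega
  · have := Submodule.starProjection_add_starProjection_orthogonal (K := ℝ ∙ ξ0) y
    rw [Submodule.starProjection_unit_singleton ℝ h] at this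
    rw [add_comm]
    exact this

theorem exists_perp0 {V : Type} [NormedAddCommGroup V] [InnerProductSpace ℝ V] [FiniteDimensional ℝ V]
    {s : Finset V} (h : s.card < finrank ℝ V) : ∃ y, y ≠ 0 ∧ ∀ a ∈ s, ⟪a, y⟫ = 0 := by
  have h1 := Submodule.finrank_add_finrank_orthogonal (Submodule.span ℝ (s : Set V))
  have h2 := finrank_span_finset_le_card (R := ℝ) s
  rw [Set.finrank] at h2
  have h3 : (Submodule.span ℝ (s : Set V))ᗮ ≠ ⊥ := fun e => by
    rw [e, finrank_bot] at h1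
    omega
  obtain ⟨y, hy, h0⟩ := Submodule.exists_mem_ne_zero_of_ne_bot h3
  exact ⟨y, h0, fun a ha => hy a (Submodule.subset_span ha)⟩

/-- A vector orthogonal to two given vectors and not on a given line. -/
theorem exists_perp {V : Type} [NormedAddCommGroup V] [InnerProductSpace ℝ V] [FiniteDimensional ℝ V]
    (h : 4 ≤ finrank ℝ V) (a b c : V) : ∃ y, ⟪a, y⟫ = 0 ∧ ⟪b, y⟫ = 0 ∧ ∀ t : ℝ, y ≠ t • c := by
  classical
  obtain ⟨y, hy, h0⟩ := exists_perp0 (V := V) (s := {a, b, c}) (lt_of_le_of_lt Finset.card_le_three (by omega))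
  refine ⟨y, h0 a (by simp), h0 b (by simp), fun t e => hy ?_⟩
  have := h0 c (by simp)
  rw [← inner_self_eq_zero (𝕜 := ℝ)]
  conv_lhs => enter [2]; rw [e]
  rw [inner_smul_left, this, mul_zero]

/-- A nonzero vector orthogonal to two given vectors. -/
theorem exists_perp2 {V : Type} [NormedAddCommGroup V] [InnerProductSpace ℝ V] [FiniteDimensional ℝ V]
    (h : 3 ≤ finrank ℝ V) (a b : V) : ∃ y, y ≠ 0 ∧ ⟪a, y⟫ = 0 ∧ ⟪b, y⟫ = 0 := by
  classical
  obtain ⟨y, hy, h0⟩ := exists_perp0 (V := V) (s := {a, b}) (lt_of_le_of_lt Finset.card_le_two (by omega))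
  exact ⟨y, hy, h0 a (by simp), h0 b (by simp)⟩

/-- A vector orthogonal to a given vector and not on a given line. -/
theorem exists_perp1 {V : Type} [NormedAddCommGroup V] [InnerProductSpace ℝ V] [FiniteDimensional ℝ V]
    (h : 3 ≤ finrank ℝ V) (a c : V) : ∃ y, ⟪a, y⟫ = 0 ∧ ∀ t : ℝ, y ≠ t • c := by
  obtain ⟨y, hy, h1, h2⟩ := exists_perp2 h a c
  refine ⟨y, h1, fun t e => hy ?_⟩
  rw [← inner_self_eq_zero (𝕜 := ℝ)]
  conv_lhs => enter [2]; rw [e]
  rw [inner_smul_left, h2, mul_zero]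

/-- A vector not on the line of `c` is not orthogonal to the hyperplane of `c`. -/
theorem exists_neg {V : Type} [NormedAddCommGroup V] [InnerProductSpace ℝ V]
    {a c : V} (h : ∀ t : ℝ, a ≠ t • c) : ∃ y, ⟪c, y⟫ = 0 ∧ ⟪a, y⟫ < 0 := by
  have h1 : ⟪c, a - (⟪c, a⟫ / ⟪c, c⟫) • c⟫ = 0 := by
    rw [inner_sub_right, inner_smul_right]
    by_cases hc : c = 0
    · simp [hc]
    · have : ⟪c, c⟫ ≠ 0 := inner_self_ne_zero.2 hc
      field_simp
      ring
  refine ⟨-(a - (⟪c, a⟫ / ⟪c, c⟫) • c), by rw [inner_neg_right, h1, neg_zero], ?_⟩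
  have h2 : 0 < ⟪a - (⟪c, a⟫ / ⟪c, c⟫) • c, a - (⟪c, a⟫ / ⟪c, c⟫) • c⟫ :=
    real_inner_self_pos.2 (sub_ne_zero.2 (h _))
  rw [inner_sub_left, inner_smul_left, h1, mul_zero, sub_zero] at h2
  rw [inner_neg_right]
  linarith

section Cyl

universe u v

variable {E : Type u} {V : Type v} [NormedAddCommGroup E] [NormedSpace ℝ E] [NormedAddCommGroup V]
  [NormedSpace ℝ V] {T : E →L[ℝ] V}

theorem Cz.zero (T : E →L[ℝ] V) : Cz T 0 := by
  exact ⟨1, one_pos, fun x s _ => by simp⟩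

theorem Cz.smul {z : V} (h : Cz T z) (c : ℝ) : Cz T (c • z) := by
  obtain ⟨ε, hε, h⟩ := h
  refine ⟨ε / (|c| + 1), by positivity, fun x s hs => ?_⟩
  rw [smul_smul]
  refine h x _ ?_
  rw [div_mul_eq_mul_div, le_div_iff₀ (by positivity)] at hs
  rw [abs_mul]
  nlinarith [abs_nonneg s]

theorem Cz.add {z w : V} (h : Cz T z) (h' : Cz T w) : Cz T (z + w) := by
  obtain ⟨ε, hε, h⟩ := h.smul 2
  obtain ⟨ε', hε', h'⟩ := h'.smul 2
  have up : ∀ (x : E) (s : ℝ), |s| ≤ min ε ε' * ‖x‖ → ‖T x + s • (z + w)‖ ≤ ‖T x‖ := fun x s hs => by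
    have a1 := h x s (hs.trans (mul_le_mul_of_nonneg_right (min_le_left _ _) (norm_nonneg _)))
    have a2 := h' x s (hs.trans (mul_le_mul_of_nonneg_right (min_le_right _ _) (norm_nonneg _)))
    have e : (2 : ℝ) • (T x + s • (z + w)) = (T x + s • (2 : ℝ) • z) + (T x + s • (2 : ℝ) • w) := by
      module
    have a3 := norm_add_le (T x + s • (2 : ℝ) • z) (T x + s • (2 : ℝ) • w)
    rw [← e, norm_smul, Real.norm_ofNat] at a3
    linarith
  refine ⟨min ε ε', lt_min hε hε', fun x s hs => le_antisymm (up x s hs) ?_⟩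
  have a1 := up x (-s) (by rwa [abs_neg])
  have e : (2 : ℝ) • T x = (T x + s • (z + w)) + (T x + (-s) • (z + w)) := by module
  have a3 := norm_add_le (T x + s • (z + w)) (T x + (-s) • (z + w))
  rw [← e, norm_smul, Real.norm_ofNat] at a3
  linarith

theorem Cz.min {z : V} (h : Cz T z) (x : E) : ‖T x‖ ≤ ‖T x + z‖ := by
  obtain ⟨ε, hε, h⟩ := h
  by_cases hx : x = 0
  · simp [hx]
  have hs : 0 < ε * ‖x‖ := mul_pos hε (norm_pos_iff.2 hx)
  have a1 := h x (-(ε * ‖x‖)) (by rw [abs_neg, abs_of_pos hs])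
  have e : (1 + ε * ‖x‖) • T x = (T x + (-(ε * ‖x‖)) • z) + (ε * ‖x‖) • (T x + z) := by module
  have a3 := norm_add_le (T x + (-(ε * ‖x‖)) • z) ((ε * ‖x‖) • (T x + z))
  rw [← e, norm_smul, norm_smul, Real.norm_of_nonneg hs.le, Real.norm_of_nonneg (by linarith), a1] at a3
  nlinarith

theorem Cz.eq_zero {u : E} (h : Cz T (T u)) : T u = 0 := by
  have := h.min (-u)
  rw [map_neg, neg_add_cancel, norm_zero, norm_neg] at this
  exact norm_le_zero_iff.1 this

end Cyl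

end Pool.Agent.Lib.LB
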