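import Pool.Agent.Lib.LB.Defs

/-! Local Banach problem: the block statements. -/

set_option autoImplicit false

open Set Filter Topology Metric Module
open scoped RealInnerProductSpace ContDiff NNReal

noncomputable section

namespace Pool.Agent.Lib.LB

/-! ### Section 1: the rational distribution -/

def St_LIFT : Prop := ∀ (E V : Type) [NormedAddCommGroup E] [InnerProductSpace ℝ E] [FiniteDimensional ℝ E]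
  [NormedAddCommGroup V] [InnerProductSpace ℝ V] [FiniteDimensional ℝ V] (S : Sp E V) (Φ : Seminorm ℝ V),
  Df Φ → LocIso Φ S.e → ∃ r C G H, Lf S Φ r C G H

def St_DIST : Prop := ∀ (E : Type) [NormedAddCommGroup E] [NormedSpace ℝ E] [FiniteDimensional ℝ E]
  [Nontrivial E] (n : Seminorm ℝ E),
  ∃ (x0 : E) (O : Set E) (d r : ℕ) (P : Fin r → E → E) (τ : E → E), Ds n x0 O d P τ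

def St_RAD : Prop := ∀ (E Y : Type) [NormedAddCommGroup E] [NormedSpace ℝ E] [FiniteDimensional ℝ E]
  [NormedAddCommGroup Y] [NormedSpace ℝ Y] [FiniteDimensional ℝ Y] (H : E → Y) (C : ℝ≥0),
  LipschitzWith C H → Dense {l | DifferentiableAt ℝ H l}

def St_INV : Prop := ∀ (E Y F : Type) [NormedAddCommGroup E] [NormedSpace ℝ E] [FiniteDimensional ℝ E]
  [NormedAddCommGroup Y] [NormedSpace ℝ Y] [FiniteDimensional ℝ Y]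
  [NormedAddCommGroup F] [NormedSpace ℝ F] [FiniteDimensional ℝ F] (H : E → Y) (C C' : ℝ≥0) (f : E → F)
  (O : Set E) (v : E), LipschitzWith C H → IsOpen O → Convex ℝ O → LipschitzOnWith C' f O →
  (∀ l ∈ O, DifferentiableAt ℝ H l → HasDerivAt (fun s : ℝ => f (l + s • v)) 0 0) →
  ∀ l ∈ O, l + v ∈ O → f (l + v) = f l

def St_ZF : Prop := ∀ (E V : Type) [NormedAddCommGroup E] [InnerProductSpace ℝ E] [FiniteDimensional ℝ E]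
  [NormedAddCommGroup V] [InnerProductSpace ℝ V] [FiniteDimensional ℝ V] (S : Sp E V) (Φ : Seminorm ℝ V)
  (r : ℝ) (C : ℝ≥0) (G H : E → E →L[ℝ] E), Lf S Φ r C G H → ∀ l, ‖l‖ < r → DifferentiableAt ℝ H l →
  (∀ ζ μ : E, Pl (fun x => ⟪ζ, G l x⟫ • fderiv ℝ H l μ (G l x) - ⟪μ, G l x⟫ • fderiv ℝ H l ζ (G l x)) ∧
    ∀ x, ⟪ζ, G l x⟫ • fderiv ℝ H l μ (G l x) - ⟪μ, G l x⟫ • fderiv ℝ H l ζ (G l x) ∈ Kil (S.n Φ) x) ∧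
  ∀ μ x : E, S.j l (G l (fderiv ℝ H l μ x)) + ⟪μ, x⟫ • S.e ∈ Kil Φ (S.j l x)

def St_TINV : Prop := ∀ (E V : Type) [NormedAddCommGroup E] [InnerProductSpace ℝ E] [FiniteDimensional ℝ E]
  [NormedAddCommGroup V] [InnerProductSpace ℝ V] [FiniteDimensional ℝ V] (S : Sp E V) (Φ : Seminorm ℝ V)
  (r : ℝ) (C : ℝ≥0) (G H : E → E →L[ℝ] E) (x0 : E) (O : Set E) (d m : ℕ) (P : Fin m → E → E) (τ : E → E),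
  Lf S Φ r C G H → Ds (S.n Φ) x0 O d P τ →
  ∃ (ρ : ℝ) (O' : Set E) (D : V → Submodule ℝ V), 0 < ρ ∧ ρ ≤ r ∧ IsOpen O' ∧ x0 ∈ O' ∧
    ∀ l, ‖l‖ < ρ → ∀ x ∈ O', H l x ∈ O ∧ ⟪x0, x⟫ ≠ 0 ∧ (DifferentiableAt ℝ H l → ∀ v, v ∈ D (S.j l x) ↔
      ⟪x0, x⟫ • H l (S.pr v) - ⟪S.xi l, v⟫ • fderiv ℝ H l x0 x ∈ spn P (H l x))

def St_LOC : Prop := ∀ (E V : Type) [NormedAddCommGroup E] [InnerProductSpace ℝ E] [FiniteDimensional ℝ E]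
  [Nontrivial E] [NormedAddCommGroup V] [InnerProductSpace ℝ V] [FiniteDimensional ℝ V] (S : Sp E V)
  (Φ : Seminorm ℝ V), Df Φ → LocIso Φ S.e → ∃ x0 O ρ G D r d, Lc S Φ x0 O ρ G D r d

def St_PROJ : Prop := ∀ r d : ℕ, ∃ N : ℕ, ∀ (E V : Type) [NormedAddCommGroup E] [NormedSpace ℝ E]
  [FiniteDimensional ℝ E] [NormedAddCommGroup V] [InnerProductSpace ℝ V] [FiniteDimensional ℝ V]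
  (a : Fin r → E → V), (∀ i, IsPol d (a i)) → ∃ (q : E → ℝ) (p : E → V →L[ℝ] V), IsPol N q ∧ IsPol N p ∧
    (∀ x v, p x v ∈ spn a x) ∧
    ∀ x, (LinearIndependent ℝ fun i => a i x) → q x ≠ 0 ∧ p x = q x • (spn a x).starProjection

/-- The forms `μ i` are nonzero, pairwise independent and vanish somewhere on `O`. -/
def Gp {E : Type} [NormedAddCommGroup E] [InnerProductSpace ℝ E] {s : ℕ} (O : Set E) (μ : Fin s → E) :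
    Prop :=
  (∀ i, μ i ≠ 0) ∧ (∀ i, ∃ x ∈ O, ⟪μ i, x⟫ = 0) ∧ ∀ i j, i ≠ j → ∀ c : ℝ, μ i ≠ c • μ j

def St_CFG : Prop := ∀ (E : Type) [NormedAddCommGroup E] [InnerProductSpace ℝ E] [FiniteDimensional ℝ E]
  (x0 : E) (O G : Set E) (ρ : ℝ) (s : ℕ), 3 ≤ finrank ℝ E → IsOpen O → x0 ∈ O → 0 < ρ →
  ball (0 : E) ρ ⊆ closure G → ∃ (l : ℕ → E) (ε : ℝ), 0 < ε ∧ (∀ i, l i ∈ G) ∧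
    (∀ i ≤ s, Gp O fun j : Fin i => l i - l j) ∧ ∀ m, ‖m‖ < ε → Gp O fun j : Fin s => m - l j

def St_DIV : Prop := ∀ (E F : Type) [NormedAddCommGroup E] [InnerProductSpace ℝ E] [FiniteDimensional ℝ E]
  [NormedAddCommGroup F] [NormedSpace ℝ F] [FiniteDimensional ℝ F] (O : Set E) (s D : ℕ) (μ : Fin s → E)
  (f : E → F), IsOpen O → Gp O μ → IsPol D f → (∀ i, ∀ x ∈ O, ⟪μ i, x⟫ = 0 → f x = 0) →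
  (D < s → ∀ x, f x = 0) ∧ ∀ e, D = e + s → ∃ g, IsPol e g ∧ ∀ x, f x = (∏ i, ⟪μ i, x⟫) • g x

def St_SG : Prop := ∀ (E V F : Type) [NormedAddCommGroup E] [InnerProductSpace ℝ E] [FiniteDimensional ℝ E]
  [NormedAddCommGroup V] [InnerProductSpace ℝ V] [FiniteDimensional ℝ V]
  [NormedAddCommGroup F] [NormedSpace ℝ F] [FiniteDimensional ℝ F] (S : Sp E V) (N : ℕ),
  ∃ J : ℕ, ∀ (O : Set E) (l : ℕ → E) (φ : V → F), IsOpen O →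
    (∀ i ≤ J + N, Gp O fun j : Fin i => l i - l j) →
    (∀ i ≤ J + N, ∃ (q : E → ℝ) (p : E → F), IsPol N q ∧ IsPol N p ∧
      ∀ x ∈ O, q x ≠ 0 ∧ p x = q x • φ (S.j (l i) x)) →
    ∃ (δ : V → ℝ) (M : V → F), IsPol J δ ∧ IsPol J M ∧ ((∃ y, δ y ≠ 0) ∨ ∃ y, M y ≠ 0) ∧
      ∀ i ≤ J + N, ∀ x ∈ O, δ (S.j (l i) x) • φ (S.j (l i) x) = M (S.j (l i) x)

def St_SR : Prop := ∀ (E V F : Type) [NormedAddCommGroup E] [InnerProductSpace ℝ E] [FiniteDimensional ℝ E]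
  [NormedAddCommGroup V] [InnerProductSpace ℝ V] [FiniteDimensional ℝ V]
  [NormedAddCommGroup F] [NormedSpace ℝ F] [FiniteDimensional ℝ F] (S : Sp E V) (N : ℕ) (x0 : E)
  (O G : Set E) (ρ : ℝ) (φ : V → F), 3 ≤ finrank ℝ E → x0 ≠ 0 → IsOpen O → x0 ∈ O → 0 < ρ →
  ball (0 : E) ρ ⊆ closure G →
  (∀ l ∈ G, ∃ (q : E → ℝ) (p : E → F), IsPol N q ∧ IsPol N p ∧
    ∀ x ∈ O, q x ≠ 0 ∧ p x = q x • φ (S.j l x)) →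
  ∃ (δ : V → ℝ) (M : V → F) (ε : ℝ), Pl δ ∧ Pl M ∧ (∃ y, δ y ≠ 0) ∧ 0 < ε ∧
    ∀ l ∈ G, ‖l‖ < ε → ∀ x ∈ O, δ (S.j l x) • φ (S.j l x) = M (S.j l x)

def St_SAT : Prop := ∀ (V : Type) [NormedAddCommGroup V] [InnerProductSpace ℝ V] [FiniteDimensional ℝ V]
  (δ : V → ℝ) (M : V → V →L[ℝ] V), Pl δ → Pl M → (∃ y, δ y ≠ 0) →
  (∀ y v, M y (M y v) = δ y • M y v) → (∀ y u v, ⟪M y u, v⟫ = ⟪u, M y v⟫) →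
  ∃ (c δ' : V → ℝ) (M' : V → V →L[ℝ] V), Pl c ∧ Pl δ' ∧ Pl M' ∧ (∀ y, δ y = c y * δ' y) ∧
    (∀ y, M y = c y • M' y) ∧ ∀ ξ : V, ξ ≠ 0 → ∃ y, ⟪ξ, y⟫ = 0 ∧ δ' y ≠ 0

def St_RA0 : Prop := ∀ (E V : Type) [NormedAddCommGroup E] [InnerProductSpace ℝ E] [FiniteDimensional ℝ E]
  [NormedAddCommGroup V] [InnerProductSpace ℝ V] [FiniteDimensional ℝ V] (S : Sp E V) (Φ : Seminorm ℝ V)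
  (x0 : E) (O : Set E) (ρ : ℝ) (G : Set E) (D : V → Submodule ℝ V) (r d : ℕ), 3 ≤ finrank ℝ E →
  Lc S Φ x0 O ρ G D r d → ∃ (δ : V → ℝ) (M : V → V →L[ℝ] V) (ε : ℝ), Pl δ ∧ Pl M ∧ (∃ y, δ y ≠ 0) ∧
    0 < ε ∧ ε ≤ ρ ∧ (∀ y v, M y (M y v) = δ y • M y v) ∧ (∀ y u v, ⟪M y u, v⟫ = ⟪u, M y v⟫) ∧
    ∀ l ∈ G, ‖l‖ < ε → ∃ (q : E → ℝ) (p : E → V →L[ℝ] V), Pl q ∧ Pl p ∧
      (∀ x v, p x v ∈ Kil Φ (S.j l x)) ∧ (∀ x ∈ O, q x ≠ 0 ∧ ∀ v ∈ D (S.j l x), p x v = q x • v) ∧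
      ∀ x, δ (S.j l x) • p x = q x • M (S.j l x)

def St_RA1 : Prop := ∀ (E V : Type) [NormedAddCommGroup E] [InnerProductSpace ℝ E] [FiniteDimensional ℝ E]
  [NormedAddCommGroup V] [InnerProductSpace ℝ V] [FiniteDimensional ℝ V] (S : Sp E V) (Φ : Seminorm ℝ V)
  (x0 : E) (O : Set E) (ρ : ℝ) (G : Set E) (D : V → Submodule ℝ V) (r d : ℕ), 3 ≤ finrank ℝ E →
  Lc S Φ x0 O ρ G D r d → ∃ δ M ε G', R1 S Φ δ M ε G'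

def St_RA2 : Prop := ∀ (E V : Type) [NormedAddCommGroup E] [InnerProductSpace ℝ E] [FiniteDimensional ℝ E]
  [NormedAddCommGroup V] [InnerProductSpace ℝ V] [FiniteDimensional ℝ V] (S : Sp E V) (Φ : Seminorm ℝ V)
  (δ : V → ℝ) (M : V → V →L[ℝ] V) (ε : ℝ) (G : Set E), LocIso Φ S.e → R1 S Φ δ M ε G →
  ∃ ρ G', Rt Φ S.e δ M ρ G'

/-! ### Section 2: the development -/

def St_GDIM : Prop := ∀ (V : Type) [NormedAddCommGroup V] [InnerProductSpace ℝ V] [FiniteDimensional ℝ V]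
  (Φ Ψ : Seminorm ℝ V) (ξ0 ξ : V), ξ0 ≠ 0 → Iso Φ ξ0 Ψ ξ → finrank ℝ (gs Ψ ξ) = finrank ℝ (gs Φ ξ0)

def St_KG : Prop := ∀ (V : Type) [NormedAddCommGroup V] [InnerProductSpace ℝ V] [FiniteDimensional ℝ V]
  (Ψ : Seminorm ℝ V) (δ : V → ℝ) (M : V → V →L[ℝ] V) (ξ : V) (S : Set V), Pl δ →
  (∃ y, ⟪ξ, y⟫ = 0 ∧ δ y ≠ 0) → (∀ y ∈ S, ⟪ξ, y⟫ = 0) → (∀ y, ⟪ξ, y⟫ = 0 → y ∈ closure S) →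
  (∀ y ∈ S, ∀ v, ⟪ξ, M y v⟫ = 0 → M y v ∈ Kil Ψ y) → ks δ M ξ ≤ gs Ψ ξ

def St_RS : Prop := ∀ (V U Y W : Type) [NormedAddCommGroup V] [NormedSpace ℝ V] [FiniteDimensional ℝ V]
  [NormedAddCommGroup U] [NormedSpace ℝ U] [FiniteDimensional ℝ U]
  [NormedAddCommGroup Y] [NormedSpace ℝ Y] [FiniteDimensional ℝ Y]
  [NormedAddCommGroup W] [NormedSpace ℝ W] [FiniteDimensional ℝ W]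
  (A : V → U →L[ℝ] Y) (b : V → W →L[ℝ] Y) (g : ℕ) (O G : Set V), AnalyticOnNhd ℝ A univ →
  AnalyticOnNhd ℝ b univ → IsOpen O → O.Nonempty → O ⊆ closure G →
  (∀ ξ ∈ G, finrank ℝ (LinearMap.ker (A ξ : U →ₗ[ℝ] Y)) = g ∧ ∀ μ, ∃ u, A ξ u = b ξ μ) →
  ∃ (d : V → ℝ) (L : V → W →L[ℝ] U), AnalyticOnNhd ℝ d univ ∧ AnalyticOnNhd ℝ L univ ∧
    ∀ ξ, g ≤ finrank ℝ (LinearMap.ker (A ξ : U →ₗ[ℝ] Y)) ∧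
      (d ξ ≠ 0 ↔ finrank ℝ (LinearMap.ker (A ξ : U →ₗ[ℝ] Y)) = g) ∧ ∀ μ, A ξ (L ξ μ) = d ξ • b ξ μ

def St_SYS : Prop := ∀ (V : Type) [NormedAddCommGroup V] [InnerProductSpace ℝ V] [FiniteDimensional ℝ V]
  (δ : V → ℝ) (M : V → V →L[ℝ] V), Pl δ → Pl M →
  ∃ (s : ℕ) (A : V → (V →L[ℝ] V) →L[ℝ] (V × (V →L[ℝ] ℝ) × (Fin s → V)))
    (b : V → V →L[ℝ] (V × (V →L[ℝ] ℝ) × (Fin s → V))),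
    AnalyticOnNhd ℝ A univ ∧ AnalyticOnNhd ℝ b univ ∧ ∀ ξ : V, ξ ≠ 0 →
      (∀ L, A ξ L = 0 ↔ L ∈ ks δ M ξ) ∧ ∀ μ L, A ξ L = b ξ μ ↔ Sl δ M ξ μ L

def St_SOL : Prop := ∀ (V : Type) [NormedAddCommGroup V] [InnerProductSpace ℝ V] [FiniteDimensional ℝ V]
  (Φ : Seminorm ℝ V) (ξ0 : V) (δ : V → ℝ) (M : V → V →L[ℝ] V) (ρ : ℝ) (G : Set V), 2 ≤ finrank ℝ V →
  Rt Φ ξ0 δ M ρ G → ∃ L, So Φ ξ0 δ M ρ L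

def St_DV1 : Prop := ∀ (V : Type) [NormedAddCommGroup V] [InnerProductSpace ℝ V] [FiniteDimensional ℝ V]
  (Φ : Seminorm ℝ V) (ξ0 : V) (δ : V → ℝ) (M : V → V →L[ℝ] V) (ρ : ℝ) (G : Set V)
  (L : V → V →L[ℝ] V →L[ℝ] V), 2 ≤ finrank ℝ V → Rt Φ ξ0 δ M ρ G → So Φ ξ0 δ M ρ L →
  ∃ F H, Fd Φ ξ0 ρ (Gam Φ ξ0 δ M) F H

def St_DV2 : Prop := ∀ (V : Type) [NormedAddCommGroup V] [InnerProductSpace ℝ V] [FiniteDimensional ℝ V]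
  (Φ : Seminorm ℝ V) (ξ0 : V) (M : V → V →L[ℝ] V) (ρ : ℝ) (Γ : Set V) (F H : V → V →L[ℝ] V), Pl M →
  (∀ ξ ∈ ball ξ0 ρ, ∀ y, y ≠ 0 → ⟪ξ, y⟫ = 0 → ∀ v, M y v ∈ Kil Φ y) → Fd Φ ξ0 ρ Γ F H →
  Fe Φ ξ0 M Γ H

def St_DV3 : Prop := ∀ (V : Type) [NormedAddCommGroup V] [InnerProductSpace ℝ V] [FiniteDimensional ℝ V]
  (Φ : Seminorm ℝ V) (ξ0 : V) (δ : V → ℝ) (M : V → V →L[ℝ] V) (ρ : ℝ) (G : Set V)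
  (L : V → V →L[ℝ] V →L[ℝ] V) (F H : V → V →L[ℝ] V), Rt Φ ξ0 δ M ρ G → So Φ ξ0 δ M ρ L →
  Fd Φ ξ0 ρ (Gam Φ ξ0 δ M) F H → Fe Φ ξ0 M (Gam Φ ξ0 δ M) H → Dv Φ ξ0 ρ (Gam Φ ξ0 δ M) H

/-! ### Section 3: geometry of the maximal cone -/

def St_BIP : Prop := ∀ (V : Type) [NormedAddCommGroup V] [InnerProductSpace ℝ V] [FiniteDimensional ℝ V]
  (Ω : Set V), Oc Ω → Ω.Nonempty →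
  (∃ y ∈ Kd Ω, y ≠ 0) ∧ (∀ ξ, ξ ∈ closure Ω ↔ ∀ y ∈ Kd Ω, 0 ≤ ⟪ξ, y⟫) ∧
  (∀ y, y ∈ Wd Ω ↔ y ∉ Kd Ω ∧ -y ∉ Kd Ω) ∧ (∀ y ∈ Kd Ω, y ≠ 0 → ∀ ξ ∈ Ω, 0 < ⟪ξ, y⟫) ∧
  (∀ ζ ∈ closure Ω, ∀ ξ ∈ Ω, ζ + ξ ∈ Ω) ∧ IsOpen (Wd Ω) ∧ IsClosed (Kd Ω) ∧
  (∀ y ∈ Kd Ω, ∀ ζ ∈ closure Ω, 0 ≤ ⟪ζ, y⟫)

def St_LIM : Prop := ∀ (V : Type) [NormedAddCommGroup V] [InnerProductSpace ℝ V] [FiniteDimensional ℝ V]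
  (Φ : Seminorm ℝ V) (ξ0 : V) (H : V → V →L[ℝ] V) (Ω : Set V), Cn Φ ξ0 H Ω →
  (∀ ζ π, (ζ, π) ∈ Gr Ω H → ζ ∈ closure Ω ∧ ζ ≠ 0 ∧ Cp Φ ξ0 H Ω ζ π) ∧
  ∀ ζ π, (ζ, π) ∈ Gr Ω H → ContinuousAt H ζ → π = H ζ

def St_LB : Prop := ∀ (V : Type) [NormedAddCommGroup V] [InnerProductSpace ℝ V] [FiniteDimensional ℝ V]
  (Φ : Seminorm ℝ V) (ξ0 : V) (H : V → V →L[ℝ] V) (Ω : Set V), 3 ≤ finrank ℝ V → Df Φ → Cn Φ ξ0 H Ω →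
  (∀ (u : ℕ → V) (p : ℕ → V →L[ℝ] V) (ζ : V), (∀ n, (u n, p n) ∈ Gr Ω H) → Tendsto u atTop (𝓝 ζ) →
    ζ ≠ 0 → ∃ (π : V →L[ℝ] V) (φ : ℕ → ℕ), StrictMono φ ∧ Tendsto (fun n => p (φ n)) atTop (𝓝 π) ∧
      (ζ, π) ∈ Gr Ω H) ∧
  ∀ ζ ∈ closure Ω, ζ ≠ 0 → ∃ π, (ζ, π) ∈ Gr Ω H

def St_CL : Prop := ∀ (V : Type) [NormedAddCommGroup V] [InnerProductSpace ℝ V] [FiniteDimensional ℝ V]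
  (Φ : Seminorm ℝ V) (ξ0 : V) (H : V → V →L[ℝ] V) (Ω : Set V), 3 ≤ finrank ℝ V → Df Φ → Cn Φ ξ0 H Ω →
  ∀ ζ π, (ζ, π) ∈ Gr Ω H →
  (¬IsUnit π → ∃ z ∈ Kd Ω, z ≠ 0 ∧ ⟪ζ, z⟫ = 0 ∧ π z = 0) ∧
  ∀ z ∈ Kd Ω, z ≠ 0 → π z = 0 → ∀ ξ ∈ closure Ω, ⟪ξ, z⟫ = 0 → (∀ c : ℝ, ξ ≠ c • ζ) →
    ∃ π', (ξ, π') ∈ Gr Ω H ∧ π' z = 0

def St_ZORN : Prop := ∀ (V : Type) [NormedAddCommGroup V] [InnerProductSpace ℝ V] [FiniteDimensional ℝ V]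
  (ξ0 : V) (ρ : ℝ) (Γ : Set V), 0 < ρ → (∀ ξ ∈ Γ, ∀ t : ℝ, 0 < t → t • ξ ∈ Γ) → (∀ ξ ∈ Γ, ξ ≠ 0) →
  ball ξ0 ρ ⊆ Γ → ∃ Ω, Oc Ω ∧ Ω ⊆ Γ ∧ ball ξ0 ρ ⊆ Ω ∧ ∀ Ω', Oc Ω' → Ω' ⊆ Γ → Ω ⊆ Ω' → Ω' ⊆ Ω

def St_OBS : Prop := ∀ (V : Type) [NormedAddCommGroup V] [InnerProductSpace ℝ V] [FiniteDimensional ℝ V]
  (Φ : Seminorm ℝ V) (ξ0 : V) (ρ : ℝ) (Γ : Set V) (H : V → V →L[ℝ] V) (Ω : Set V) (a b : V),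
  3 ≤ finrank ℝ V → Df Φ → Dv Φ ξ0 ρ Γ H → Oc Ω → Ω ⊆ Γ → ξ0 ∈ Ω → a ∈ closure Ω → b ∈ closure Ω →
  b ≠ 0 → (∀ c : ℝ, a ≠ c • b) → ContinuousAt H a → IsUnit (H a) → a + b ∈ Γ

def St_MAX : Prop := ∀ (V : Type) [NormedAddCommGroup V] [InnerProductSpace ℝ V] [FiniteDimensional ℝ V]
  (Φ : Seminorm ℝ V) (ξ0 : V) (ρ : ℝ) (Γ : Set V) (H : V → V →L[ℝ] V) (Ω : Set V),
  3 ≤ finrank ℝ V → Df Φ → Dv Φ ξ0 ρ Γ H → Oc Ω → Ω ⊆ Γ → ξ0 ∈ Ω →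
  (∀ Ω', Oc Ω' → Ω' ⊆ Γ → Ω ⊆ Ω' → Ω' ⊆ Ω) → ∀ ζ ∈ closure Ω, ζ ∉ Ω → -ζ ∉ closure Ω → ζ ∉ Γ

def St_GLOB : Prop := ∀ (V : Type) [NormedAddCommGroup V] [InnerProductSpace ℝ V] [FiniteDimensional ℝ V]
  (Φ Ψ : Seminorm ℝ V) (ξ0 : V), ξ0 ≠ 0 → Df Ψ →
  (∀ ξ : V, ξ ≠ 0 → ∃ π : V →L[ℝ] V, IsUnit π ∧ (π ξ = ξ0 ∨ π ξ = -ξ0) ∧
    ∀ y, ⟪ξ, y⟫ = 0 → ⟪ξ0, π y⟫ = 0 ∧ Ψ y = Φ (π y)) → Euc Ψ ξ0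

def St_RY1 : Prop := ∀ (V : Type) [NormedAddCommGroup V] [InnerProductSpace ℝ V] [FiniteDimensional ℝ V]
  (Φ : Seminorm ℝ V) (ξ0 : V) (ρ : ℝ) (H : V → V →L[ℝ] V) (Ω : Set V) (ν : V), 4 ≤ finrank ℝ V → Df Φ →
  Cn Φ ξ0 H Ω → 0 < ρ → ball ξ0 ρ ⊆ Ω → (∀ ξ ∈ ball ξ0 ρ, ∀ y, ⟪ξ, y⟫ = 0 → Φ (H ξ y) = Φ y) →
  ν ∈ Kd Ω → ν ≠ 0 → (∀ y ∈ Kd Ω, ∃ t : ℝ, y = t • ν) → (∃ ζ π, (ζ, π) ∈ Gr Ω H ∧ ¬IsUnit π) → Cyl Φ ξ0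

def St_RY2 : Prop := ∀ (V : Type) [NormedAddCommGroup V] [InnerProductSpace ℝ V] [FiniteDimensional ℝ V]
  (Φ : Seminorm ℝ V) (ξ0 : V) (H : V → V →L[ℝ] V) (Ω : Set V) (ν : V), 4 ≤ finrank ℝ V → Df Φ →
  Cn Φ ξ0 H Ω → (∀ y, ⟪ξ0, y⟫ = 0 → Φ (H ξ0 y) = Φ y) →
  (∀ y ∈ Kd Ω, ∃ t : ℝ, y = t • ν) → (∀ ζ π, (ζ, π) ∈ Gr Ω H → IsUnit π) → Euc Φ ξ0

def St_EX1 : Prop := ∀ (V : Type) [NormedAddCommGroup V] [InnerProductSpace ℝ V] [FiniteDimensional ℝ V]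
  (Φ : Seminorm ℝ V) (ξ0 : V) (ρ : ℝ) (Γ : Set V) (H : V → V →L[ℝ] V) (Ω : Set V),
  3 ≤ finrank ℝ V → Df Φ → Dv Φ ξ0 ρ Γ H → Oc Ω → Ω ⊆ Γ → ξ0 ∈ Ω →
  (∀ ζ ∈ closure Ω, ζ ∉ Ω → -ζ ∉ closure Ω → ζ ∉ Γ) →
  ∀ (l : V), ∀ p ∈ Kd Ω, ⟪ξ0, p⟫ = 1 → (∀ y ∈ Kd Ω, ⟪ξ0, y⟫ = 1 → y ≠ p → ⟪l, y⟫ < ⟪l, p⟫) →
    (∃ y ∈ Kd Ω, ⟪ξ0, y⟫ = 1 ∧ y ≠ p) → ∃ π, (⟪l, p⟫ • ξ0 - l, π) ∈ Gr Ω H ∧ π p = 0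

def St_EXP : Prop := ∀ (V : Type) [NormedAddCommGroup V] [InnerProductSpace ℝ V] [FiniteDimensional ℝ V]
  (Φ : Seminorm ℝ V) (ξ0 : V) (ρ : ℝ) (Γ : Set V) (H : V → V →L[ℝ] V) (Ω : Set V),
  3 ≤ finrank ℝ V → Df Φ → Dv Φ ξ0 ρ Γ H → Oc Ω → Ω ⊆ Γ → ξ0 ∈ Ω →
  (∀ ζ ∈ closure Ω, ζ ∉ Ω → -ζ ∉ closure Ω → ζ ∉ Γ) →
  ∀ l : V, (∃ y ∈ Kd Ω, ∃ y' ∈ Kd Ω, ⟪ξ0, y⟫ = 1 ∧ ⟪ξ0, y'⟫ = 1 ∧ ⟪l, y⟫ ≠ ⟪l, y'⟫) →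
    ∃ p ∈ Kd Ω, ⟪ξ0, p⟫ = 1 ∧ (∀ y ∈ Kd Ω, ⟪ξ0, y⟫ = 1 → ⟪l, y⟫ ≤ ⟪l, p⟫) ∧
      ∃ π, (⟪l, p⟫ • ξ0 - l, π) ∈ Gr Ω H ∧ π p = 0

/-- Every hyperplane of the hyperplane of `ξ0` has a transverse killing direction. -/
def Kk {V : Type} [NormedAddCommGroup V] [InnerProductSpace ℝ V] (Φ : Seminorm ℝ V) (ξ0 : V) : Prop :=
  ∀ l, ⟪ξ0, l⟫ = 0 → l ≠ 0 → ∃ q, ⟪ξ0, q⟫ = 0 ∧ ⟪l, q⟫ ≠ 0 ∧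
    ∀ x, x ≠ 0 → ⟪ξ0, x⟫ = 0 → ⟪l, x⟫ = 0 → q ∈ Kil Φ x

def St_NR : Prop := ∀ (V : Type) [NormedAddCommGroup V] [InnerProductSpace ℝ V] [FiniteDimensional ℝ V]
  (Φ : Seminorm ℝ V) (ξ0 : V) (ρ : ℝ) (H : V → V →L[ℝ] V) (Ω : Set V), Df Φ →
  Cn Φ ξ0 H Ω → 0 < ρ → ball ξ0 ρ ⊆ Ω → (∀ ξ ∈ ball ξ0 ρ, ∀ y, ⟪ξ, y⟫ = 0 → Φ (H ξ y) = Φ y) →
  (∃ y ∈ Kd Ω, ∃ y' ∈ Kd Ω, ⟪ξ0, y⟫ = 1 ∧ ⟪ξ0, y'⟫ = 1 ∧ y ≠ y') →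
  (∀ l : V, (∃ y ∈ Kd Ω, ∃ y' ∈ Kd Ω, ⟪ξ0, y⟫ = 1 ∧ ⟪ξ0, y'⟫ = 1 ∧ ⟪l, y⟫ ≠ ⟪l, y'⟫) →
    ∃ p ∈ Kd Ω, ⟪ξ0, p⟫ = 1 ∧ (∀ y ∈ Kd Ω, ⟪ξ0, y⟫ = 1 → ⟪l, y⟫ ≤ ⟪l, p⟫) ∧
      ∃ π, (⟪l, p⟫ • ξ0 - l, π) ∈ Gr Ω H ∧ π p = 0) → Kk Φ ξ0

def St_KAK : Prop := ∀ (V : Type) [NormedAddCommGroup V] [InnerProductSpace ℝ V] [FiniteDimensional ℝ V]
  (Φ : Seminorm ℝ V) (ξ0 : V), 4 ≤ finrank ℝ V → Df Φ → ‖ξ0‖ = 1 → Kk Φ ξ0 → Euc Φ ξ0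

def St_GEO : Prop := ∀ (V : Type) [NormedAddCommGroup V] [InnerProductSpace ℝ V] [FiniteDimensional ℝ V]
  (Φ : Seminorm ℝ V) (ξ0 : V) (ρ : ℝ) (Γ : Set V) (H : V → V →L[ℝ] V), 4 ≤ finrank ℝ V → Df Φ →
  ‖ξ0‖ = 1 → Dv Φ ξ0 ρ Γ H → Euc Φ ξ0 ∨ Cyl Φ ξ0

def St_HYP : Prop := ∀ (V : Type) [NormedAddCommGroup V] [InnerProductSpace ℝ V] [FiniteDimensional ℝ V]
  (Φ : Seminorm ℝ V) (ξ0 : V), 4 ≤ finrank ℝ V → Df Φ → ‖ξ0‖ = 1 → LocIso Φ ξ0 → Euc Φ ξ0 ∨ Cyl Φ ξ0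

/-! ### Section 4: assembly -/

universe u v

/-- The norm is constant near the range of `T` in direction `z`. -/
def Cz {E : Type u} {V : Type v} [NormedAddCommGroup E] [NormedSpace ℝ E] [NormedAddCommGroup V]
    [NormedSpace ℝ V] (T : E →L[ℝ] V) (z : V) : Prop :=
  ∃ ε > 0, ∀ (x : E) (s : ℝ), |s| ≤ ε * ‖x‖ → ‖T x + s • z‖ = ‖T x‖

def St_TR : Prop := ∀ (E : Type u) (V : Type v) [NormedAddCommGroup E] [NormedSpace ℝ E]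
  [FiniteDimensional ℝ E] [NormedAddCommGroup V] [NormedSpace ℝ V] (T : E →L[ℝ] V) (r : ℝ) (ν : V),
  3 ≤ finrank ℝ E → Function.Injective T → 0 < r →
  (∀ T' : E →L[ℝ] V, ‖T' - T‖ < r → ∃ g : E ≃ₗ[ℝ] E, ∀ x, ‖T' (g x)‖ = ‖T x‖) → (∀ x, T x ≠ ν) →
  (∃ b : E →ₗ[ℝ] E →ₗ[ℝ] ℝ, ∀ x, ‖T x‖ ^ 2 = b x x) ∨ ∃ u : E, Cz T (ν + T u)

def St_EU1 : Prop := ∀ (E : Type u) (V : Type v) [NormedAddCommGroup E] [NormedSpace ℝ E]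
  [FiniteDimensional ℝ E] [NormedAddCommGroup V] [NormedSpace ℝ V] (T : E →L[ℝ] V) (r : ℝ),
  3 ≤ finrank ℝ E → 0 < r →
  (∀ T' : E →L[ℝ] V, ‖T' - T‖ < r → ∃ b : E →ₗ[ℝ] E →ₗ[ℝ] ℝ, ∀ x, ‖T' x‖ ^ 2 = b x x) →
  ∃ (B : V →ₗ[ℝ] V →ₗ[ℝ] ℝ) (x0 : E) (ε : ℝ), x0 ≠ 0 ∧ 0 < ε ∧ (∀ y z, B y z = B z y) ∧
    ∀ y, ‖y - T x0‖ < ε → ‖y‖ ^ 2 = B y y

def St_EU2 : Prop := ∀ (E : Type u) (V : Type v) [NormedAddCommGroup E] [NormedSpace ℝ E]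
  [FiniteDimensional ℝ E] [NormedAddCommGroup V] [NormedSpace ℝ V] (U : Set (E →L[ℝ] V)),
  3 ≤ finrank ℝ E → IsOpen U → IsPreconnected U → U.Nonempty →
  (∀ T ∈ U, ∃ b : E →ₗ[ℝ] E →ₗ[ℝ] ℝ, ∀ x, ‖T x‖ ^ 2 = b x x) →
  ∃ B : V →ₗ[ℝ] V →ₗ[ℝ] ℝ, (∀ y z, B y z = B z y) ∧ (∀ y, 0 ≤ B y y) ∧
    ∀ T ∈ U, ∀ x, ‖T x‖ ^ 2 = B (T x) (T x)

def St_CY1 : Prop := ∀ (E : Type u) (V : Type v) [NormedAddCommGroup E] [NormedSpace ℝ E]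
  [NormedAddCommGroup V] [NormedSpace ℝ V] (T : E →L[ℝ] V) (r : ℝ),
  (∀ T' : E →L[ℝ] V, ‖T' - T‖ < r → Function.Injective T' ∧
    ∀ ν, (∀ x, T' x ≠ ν) → ∃ u : E, Cz T' (ν + T' u)) →
  ∀ z, Cz T z → ∀ x, ‖z‖ < r * ‖x‖ → ‖T x + z‖ = ‖T x‖

def St_CY2 : Prop := ∀ (E : Type u) (V : Type v) [NormedAddCommGroup E] [NormedSpace ℝ E]
  [FiniteDimensional ℝ E] [NormedAddCommGroup V] [NormedSpace ℝ V] (U : Set (E →L[ℝ] V)),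
  IsOpen U → IsPreconnected U → U.Nonempty → (∀ T ∈ U, Function.Injective T) →
  (∀ T ∈ U, ∀ ν, (∀ x, T x ≠ ν) → ∃ u : E, Cz T (ν + T u)) →
  ∃ (P : V →ₗ[ℝ] E) (N : Seminorm ℝ E), (∀ x, N x = 0 → x = 0) ∧ ∀ T ∈ U, ∀ x, ‖T x‖ = N (P (T x))

def St_MAIN : Prop := ∀ (E : Type u) (V : Type v) [NormedAddCommGroup E] [NormedSpace ℝ E]
  [FiniteDimensional ℝ E] [NormedAddCommGroup V] [NormedSpace ℝ V] (U : Set (E →L[ℝ] V)),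
  3 ≤ finrank ℝ E → IsOpen U → IsPreconnected U → U.Nonempty → (∀ T ∈ U, Function.Injective T) →
  (∀ T ∈ U, ∀ T' ∈ U, ∃ g : E ≃ₗ[ℝ] E, ∀ x, ‖T' (g x)‖ = ‖T x‖) →
  (∃ B : V →ₗ[ℝ] V →ₗ[ℝ] ℝ, (∀ y z, B y z = B z y) ∧ (∀ y, 0 ≤ B y y) ∧
    ∀ T ∈ U, ∀ x, ‖T x‖ ^ 2 = B (T x) (T x)) ∨
  ∃ (P : V →ₗ[ℝ] E) (N : Seminorm ℝ E), (∀ x, N x = 0 → x = 0) ∧ ∀ T ∈ U, ∀ x, ‖T x‖ = N (P (T x))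

end Pool.Agent.Lib.LB
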