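import Mathlib

/-! Local Banach problem: definitions. -/

set_option autoImplicit false

open Set Filter Topology Metric
open scoped RealInnerProductSpace ContDiff NNReal

noncomputable section

namespace Pool.Agent.Lib.LB

section Normed

variable {E V : Type} [NormedAddCommGroup E] [NormedSpace ℝ E] [NormedAddCommGroup V] [NormedSpace ℝ V]

/-- Directions in which the seminorm has derivative zero at `y`. -/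
def Kil (Φ : Seminorm ℝ V) (y : V) : Submodule ℝ V where
  carrier := {v | HasDerivAt (fun s : ℝ => Φ (y + s • v)) 0 0}
  zero_mem' := by simpa using hasDerivAt_const (0 : ℝ) (Φ y)
  smul_mem' := fun c v hv => by
    have h : HasDerivAt (fun s : ℝ => s * c) c 0 := by simpa using (hasDerivAt_id (0 : ℝ)).mul_const c
    have hv' : HasDerivAt (fun s : ℝ => Φ (y + s • v)) 0 ((fun s : ℝ => s * c) 0) := by
      simpa using hv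
    have h2 := hv'.comp (0 : ℝ) h
    simp only [zero_mul] at h2
    refine h2.congr_of_eventuallyEq (Eventually.of_forall fun s => ?_)
    simp [smul_smul]
  add_mem' := fun {v w} hv hw => by
    have key : ∀ u : V, HasDerivAt (fun s : ℝ => Φ (y + s • u)) 0 0 →
        ∀ c : ℝ, (fun s : ℝ => Φ (y + (s * c) • u) - Φ y) =o[𝓝 0] fun s : ℝ => s := fun u hu c => by
      have h : HasDerivAt (fun s : ℝ => s * c) c 0 := by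
        simpa using (hasDerivAt_id (0 : ℝ)).mul_const c
      have hu' : HasDerivAt (fun s : ℝ => Φ (y + s • u)) 0 ((fun s : ℝ => s * c) 0) := by
        simpa using hu
      have h2 := (hu'.comp (0 : ℝ) h).isLittleO
      simpa using h2
    have up : ∀ s : ℝ, 2 * Φ (y + s • (v + w)) ≤ Φ (y + (s * 2) • v) + Φ (y + (s * 2) • w) := fun s => by
      have e : (2 : ℝ) • (y + s • (v + w)) = (y + (s * 2) • v) + (y + (s * 2) • w) := by module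
      have h1 := map_add_le_add Φ (y + (s * 2) • v) (y + (s * 2) • w)
      rw [← e, map_smul_eq_mul] at h1
      simpa using h1
    have lo : ∀ s : ℝ, 2 * Φ y ≤ Φ (y + s • (v + w)) + Φ (y + (-s) • (v + w)) := fun s => by
      have e : (2 : ℝ) • y = (y + s • (v + w)) + (y + (-s) • (v + w)) := by module
      have h1 := map_add_le_add Φ (y + s • (v + w)) (y + (-s) • (v + w))
      rw [← e, map_smul_eq_mul] at h1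
      simpa using h1
    have hs := (((key v hv 2).abs_left.add (key w hw 2).abs_left).add (key v hv (-2)).abs_left).add
      (key w hw (-2)).abs_left
    change HasDerivAt _ _ _
    rw [hasDerivAt_iff_isLittleO]
    simp only [zero_smul, add_zero, sub_zero, smul_zero]
    refine (Asymptotics.IsBigO.of_bound 1 (Eventually.of_forall fun s => ?_)).trans_isLittleO hs
    have a1 := up s
    have a2 := up (-s)
    have a3 := lo s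
    have e1 : -s * 2 = s * -2 := by ring
    rw [e1] at a2
    have b1 := le_abs_self (Φ (y + (s * 2) • v) - Φ y)
    have b2 := le_abs_self (Φ (y + (s * 2) • w) - Φ y)
    have b3 := le_abs_self (Φ (y + (s * -2) • v) - Φ y)
    have b4 := le_abs_self (Φ (y + (s * -2) • w) - Φ y)
    have c1 := abs_nonneg (Φ (y + (s * 2) • v) - Φ y)
    have c2 := abs_nonneg (Φ (y + (s * 2) • w) - Φ y)
    have c3 := abs_nonneg (Φ (y + (s * -2) • v) - Φ y)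
    have c4 := abs_nonneg (Φ (y + (s * -2) • w) - Φ y)
    rw [one_mul, Real.norm_eq_abs, Real.norm_eq_abs, abs_of_nonneg (by positivity : (0 : ℝ) ≤ _ + _ + _ + _),
      abs_le]
    constructor <;> linarith

theorem mem_Kil {Φ : Seminorm ℝ V} {y v : V} :
    v ∈ Kil Φ y ↔ HasDerivAt (fun s : ℝ => Φ (y + s • v)) 0 0 := Iff.rfl

/-- The seminorm is minimal at `y` on the line through `y` in direction `v`. -/
def Mn (Φ : Seminorm ℝ V) (y v : V) : Prop := ∀ s : ℝ, Φ y ≤ Φ (y + s • v)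

/-- The seminorm is a norm. -/
def Df (Φ : Seminorm ℝ V) : Prop := ∀ x, Φ x = 0 → x = 0

/-- Polynomial maps of degree at most `d`. -/
inductive IsPol : ℕ → (E → V) → Prop
  | const (d : ℕ) (c : V) : IsPol d fun _ => c
  | add {d : ℕ} {f g : E → V} : IsPol d f → IsPol d g → IsPol d fun x => f x + g x
  | mul {d : ℕ} {f : E → V} (φ : E →L[ℝ] ℝ) : IsPol d f → IsPol (d + 1) fun x => φ x • f x

/-- Polynomial maps. -/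
def Pl (f : E → V) : Prop := ∃ d, IsPol d f

/-- The span of the values at `x` of a finite family of maps. -/
def spn {r : ℕ} (P : Fin r → E → V) (x : E) : Submodule ℝ V := Submodule.span ℝ (range fun i => P i x)

/-- An integrable distribution near `x0` spanned by polynomial fields killing `n`, containing the
values of all such fields. -/
structure Ds (n : Seminorm ℝ E) (x0 : E) (O : Set E) (d : ℕ) {r : ℕ} (P : Fin r → E → E) (τ : E → E) :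
    Prop where
  ne : x0 ≠ 0
  op : IsOpen O
  mem : x0 ∈ O
  pol : ∀ i, IsPol d (P i)
  kil : ∀ i x, P i x ∈ Kil n x
  cd : ContDiffOn ℝ 1 τ O
  li : ∀ x ∈ O, LinearIndependent ℝ fun i => P i x
  ker : ∀ x ∈ O, ∀ v, fderiv ℝ τ x v = 0 ↔ v ∈ spn P x
  all : ∀ Q : E → E, Pl Q → (∀ x, Q x ∈ Kil n x) → ∀ x ∈ O, Q x ∈ spn P x

/-- The points joined to `x0` by a segment inside `G`. -/
def Star (G : Set V) (x0 : V) : Set V := {x | segment ℝ x0 x ⊆ G}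

end Normed

/-- An orthogonal splitting of `V` into a copy of `E` and a line. -/
structure Sp (E V : Type) [NormedAddCommGroup E] [InnerProductSpace ℝ E] [NormedAddCommGroup V]
    [InnerProductSpace ℝ V] where
  ι : E →L[ℝ] V
  pr : V →L[ℝ] E
  e : V
  ee : ⟪e, e⟫ = 1
  ei : ∀ x, ⟪e, ι x⟫ = 0
  ii : ∀ x x', ⟪ι x, ι x'⟫ = ⟪x, x'⟫
  dec : ∀ y, ι (pr y) + ⟪e, y⟫ • e = y

section Inner

variable {E V : Type} [NormedAddCommGroup E] [InnerProductSpace ℝ E] [NormedAddCommGroup V]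
  [InnerProductSpace ℝ V]

/-- The graph parametrisation of the hyperplane orthogonal to `e + ι l`. -/
def Sp.j (S : Sp E V) (l : E) : E →L[ℝ] V := S.ι - (innerSL ℝ l).smulRight S.e

/-- The normal vector `e + ι l`. -/
def Sp.xi (S : Sp E V) (l : E) : V := S.e + S.ι l

/-- The seminorm pulled back to `E`. -/
def Sp.n (S : Sp E V) (Φ : Seminorm ℝ V) : Seminorm ℝ E := Φ.comp (S.ι : E →ₗ[ℝ] V)

/-- Infinitesimal isometries of the hyperplane orthogonal to `ξ`. -/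
def gs (Ψ : Seminorm ℝ V) (ξ : V) : Submodule ℝ (V →L[ℝ] V) where
  carrier := {A | A ξ = 0 ∧ ∀ y, ⟪ξ, y⟫ = 0 → ⟪ξ, A y⟫ = 0 ∧ A y ∈ Kil Ψ y}
  zero_mem' := ⟨rfl, fun y _ => ⟨by simp, by simp⟩⟩
  add_mem' := fun {A B} hA hB => ⟨by simp [hA.1, hB.1], fun y hy =>
    ⟨by simp [inner_add_right, (hA.2 y hy).1, (hB.2 y hy).1], add_mem (hA.2 y hy).2 (hB.2 y hy).2⟩⟩
  smul_mem' := fun c A hA => ⟨by simp [hA.1], fun y hy =>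
    ⟨by simp [inner_smul_right, (hA.2 y hy).1], Submodule.smul_mem _ c (hA.2 y hy).2⟩⟩

/-- Linear fields on the hyperplane orthogonal to `ξ` tangent to the rational distribution. -/
def ks (δ : V → ℝ) (M : V → V →L[ℝ] V) (ξ : V) : Submodule ℝ (V →L[ℝ] V) where
  carrier := {A | A ξ = 0 ∧ ∀ y, ⟪ξ, y⟫ = 0 → ⟪ξ, A y⟫ = 0 ∧ δ y • A y = M y (A y)}
  zero_mem' := ⟨rfl, fun y _ => ⟨by simp, by simp⟩⟩
  add_mem' := fun {A B} hA hB => ⟨by simp [hA.1, hB.1], fun y hy =>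
    ⟨by simp [inner_add_right, (hA.2 y hy).1, (hB.2 y hy).1],
      by simp [(hA.2 y hy).2, (hB.2 y hy).2]⟩⟩
  smul_mem' := fun c A hA => ⟨by simp [hA.1], fun y hy =>
    ⟨by simp [inner_smul_right, (hA.2 y hy).1], by
      simp only [smul_apply, map_smul, ← (hA.2 y hy).2, smul_comm (δ y) c]⟩⟩

/-- `L` moves the hyperplane orthogonal to `ξ` in direction `μ`, tangentially to the distribution. -/
def Sl (δ : V → ℝ) (M : V → V →L[ℝ] V) (ξ μ : V) (L : V →L[ℝ] V) : Prop :=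
  L ξ = μ ∧ ∀ y, ⟪ξ, y⟫ = 0 → ⟪ξ, L y⟫ = -⟪μ, y⟫ ∧ δ y • L y = M y (L y)

/-- The hyperplane of `ξ0` with `Φ` is isometric to the hyperplane of `ξ` with `Ψ`. -/
def Iso (Φ : Seminorm ℝ V) (ξ0 : V) (Ψ : Seminorm ℝ V) (ξ : V) : Prop :=
  ∃ F : V →L[ℝ] V, IsUnit F ∧ F ξ0 = ξ ∧ ∀ x, ⟪ξ0, x⟫ = 0 → ⟪ξ, F x⟫ = 0 ∧ Ψ (F x) = Φ x

/-- All hyperplanes near that of `ξ0` are isometric. -/
def LocIso (Φ : Seminorm ℝ V) (ξ0 : V) : Prop := ∃ ρ > 0, ∀ ξ ∈ ball ξ0 ρ, Iso Φ ξ0 Φ ξ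

/-- The hyperplane of `ξ0` is Euclidean. -/
def Euc (Φ : Seminorm ℝ V) (ξ0 : V) : Prop :=
  ∃ B : V →ₗ[ℝ] V →ₗ[ℝ] ℝ, ∀ x, ⟪ξ0, x⟫ = 0 → Φ x ^ 2 = B x x

/-- The seminorm is a cylinder near the hyperplane of `ξ0`. -/
def Cyl (Φ : Seminorm ℝ V) (ξ0 : V) : Prop :=
  ∃ ν, ⟪ξ0, ν⟫ ≠ 0 ∧ ∃ ε > 0, ∀ x, ⟪ξ0, x⟫ = 0 → ∀ s : ℝ, |s| ≤ ε * ‖x‖ → Φ (x + s • ν) = Φ x

/-- A Lipschitz family of isometries. -/
structure Lf (S : Sp E V) (Φ : Seminorm ℝ V) (r : ℝ) (C : ℝ≥0) (G H : E → E →L[ℝ] E) : Prop where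
  pos : 0 < r
  lipG : LipschitzWith C G
  lipH : LipschitzWith C H
  G0 : G 0 = 1
  H0 : H 0 = 1
  GH : ∀ l x, G l (H l x) = x
  HG : ∀ l x, H l (G l x) = x
  iso : ∀ l, ‖l‖ < r → ∀ x, Φ (S.j l (G l x)) = Φ (S.ι x)

/-- The lifted distribution `D`, independent of the hyperplane, with polynomial frames on a dense set
of hyperplanes. -/
structure Lc (S : Sp E V) (Φ : Seminorm ℝ V) (x0 : E) (O : Set E) (ρ : ℝ) (G : Set E)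
    (D : V → Submodule ℝ V) (r d : ℕ) : Prop where
  ne : x0 ≠ 0
  op : IsOpen O
  mem : x0 ∈ O
  pos : 0 < ρ
  den : ball (0 : E) ρ ⊆ closure G
  fr : ∀ l ∈ G, ∃ a : Fin r → E → V, (∀ i, IsPol d (a i)) ∧ (∀ i x, a i x ∈ Kil Φ (S.j l x)) ∧
    ∀ x ∈ O, (LinearIndependent ℝ fun i => a i x) ∧ spn a x = D (S.j l x)
  c1 : ∀ l ∈ G, ∀ A ∈ gs Φ (S.xi l), ∀ x ∈ O, A (S.j l x) ∈ D (S.j l x)
  c2 : ∀ l ∈ G, ∀ μ : V, ∃ L : V →L[ℝ] V, L (S.xi l) = μ ∧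
    (∀ y, ⟪S.xi l, y⟫ = 0 → ⟪S.xi l, L y⟫ = -⟪μ, y⟫) ∧ ∀ x ∈ O, L (S.j l x) ∈ D (S.j l x)

/-- The rational distribution in the chart. -/
structure R1 (S : Sp E V) (Φ : Seminorm ℝ V) (δ : V → ℝ) (M : V → V →L[ℝ] V) (ε : ℝ) (G : Set E) :
    Prop where
  pδ : Pl δ
  pM : Pl M
  sat : ∀ ξ : V, ξ ≠ 0 → ∃ y, ⟪ξ, y⟫ = 0 ∧ δ y ≠ 0
  pos : 0 < ε
  den : ball (0 : E) ε ⊆ closure G
  kil : ∀ l ∈ G, ∃ q : E → ℝ, Pl q ∧ (∃ x, q x ≠ 0) ∧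
    ∀ x, q x ≠ 0 → ∀ v, M (S.j l x) v ∈ Kil Φ (S.j l x)
  c1 : ∀ l ∈ G, gs Φ (S.xi l) ≤ ks δ M (S.xi l)
  c2 : ∀ l ∈ G, ∀ μ, ∃ L, Sl δ M (S.xi l) μ L

/-- The rational distribution. -/
structure Rt (Φ : Seminorm ℝ V) (ξ0 : V) (δ : V → ℝ) (M : V → V →L[ℝ] V) (ρ : ℝ) (G : Set V) : Prop where
  pδ : Pl δ
  pM : Pl M
  sat : ∀ ξ : V, ξ ≠ 0 → ∃ y, ⟪ξ, y⟫ = 0 ∧ δ y ≠ 0
  pos : 0 < ρ
  nz : ∀ ξ ∈ ball ξ0 ρ, ξ ≠ 0
  iso : ∀ ξ ∈ ball ξ0 ρ, Iso Φ ξ0 Φ ξ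
  kil : ∀ ξ ∈ ball ξ0 ρ, ∀ y, y ≠ 0 → ⟪ξ, y⟫ = 0 → ∀ v, M y v ∈ Kil Φ y
  sub : G ⊆ ball ξ0 ρ
  den : ball ξ0 ρ ⊆ closure G
  c1 : ∀ ξ ∈ G, gs Φ ξ ≤ ks δ M ξ
  c2 : ∀ ξ ∈ G, ∀ μ, ∃ L, Sl δ M ξ μ L

/-- The regular hyperplanes. -/
def Gam (Φ : Seminorm ℝ V) (ξ0 : V) (δ : V → ℝ) (M : V → V →L[ℝ] V) : Set V :=
  {ξ | ξ ≠ 0 ∧ Module.finrank ℝ (ks δ M ξ) = Module.finrank ℝ (gs Φ ξ0)}

/-- The analytic solution of the linear system on the regular hyperplanes. -/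
structure So (Φ : Seminorm ℝ V) (ξ0 : V) (δ : V → ℝ) (M : V → V →L[ℝ] V) (ρ : ℝ)
    (L : V → V →L[ℝ] V →L[ℝ] V) : Prop where
  op : IsOpen (Gam Φ ξ0 δ M)
  sub : ball ξ0 ρ ⊆ Gam Φ ξ0 δ M
  le : ∀ ξ : V, ξ ≠ 0 → Module.finrank ℝ (gs Φ ξ0) ≤ Module.finrank ℝ (ks δ M ξ)
  an : AnalyticOnNhd ℝ L (Gam Φ ξ0 δ M)
  sol : ∀ ξ ∈ Gam Φ ξ0 δ M, ∀ μ, Sl δ M ξ μ (L ξ μ)

/-- The analytic development. -/
structure Fd (Φ : Seminorm ℝ V) (ξ0 : V) (ρ : ℝ) (Γ : Set V) (F H : V → V →L[ℝ] V) : Prop where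
  pos : 0 < ρ
  op : IsOpen Γ
  nz : ∀ ξ ∈ Γ, ξ ≠ 0
  sub : ball ξ0 ρ ⊆ Γ
  anF : AnalyticOnNhd ℝ F (Star Γ ξ0)
  anH : AnalyticOnNhd ℝ H (Star Γ ξ0)
  FH : ∀ ξ ∈ Star Γ ξ0, ∀ y, F ξ (H ξ y) = y
  HF : ∀ ξ ∈ Star Γ ξ0, ∀ y, H ξ (F ξ y) = y
  F0 : ∀ ξ ∈ Star Γ ξ0, F ξ ξ0 = ξ
  Fp : ∀ ξ ∈ Star Γ ξ0, ∀ x, ⟪ξ0, x⟫ = 0 → ⟪ξ, F ξ x⟫ = 0
  Hp : ∀ ξ ∈ Star Γ ξ0, ∀ y, ⟪ξ, y⟫ = 0 → ⟪ξ0, H ξ y⟫ = 0
  d1 : ∀ ξ ∈ ball ξ0 ρ, ∀ y, ⟪ξ, y⟫ = 0 → Φ (H ξ y) = Φ y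

/-- The continued identities. -/
structure Fe (Φ : Seminorm ℝ V) (ξ0 : V) (M : V → V →L[ℝ] V) (Γ : Set V) (H : V → V →L[ℝ] V) : Prop where
  d2 : ∀ ξ ∈ Star Γ ξ0, ∀ y μ, ⟪ξ, y⟫ = 0 → ⟪μ, y⟫ = 0 → fderiv ℝ H ξ μ y ∈ Kil Φ (H ξ y)
  d3 : ∀ ξ ∈ Star Γ ξ0, ∀ y, y ≠ 0 → ⟪ξ, y⟫ = 0 → ∀ v z,
    ⟪z, y⟫ • H ξ (M y v) - ⟪ξ, M y v⟫ • fderiv ℝ H ξ z y ∈ Kil Φ (H ξ y)

/-- Open convex cones. -/
structure Oc (Ω : Set V) : Prop where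
  op : IsOpen Ω
  cv : Convex ℝ Ω
  sc : ∀ ξ ∈ Ω, ∀ t : ℝ, 0 < t → t • ξ ∈ Ω
  nz : ∀ ξ ∈ Ω, ξ ≠ 0

/-- The dual cone. -/
def Kd (Ω : Set V) : Set V := {y | ∀ ξ ∈ Ω, 0 ≤ ⟪ξ, y⟫}

/-- The region swept by the hyperplanes of the cone. -/
def Wd (Ω : Set V) : Set V := {y | y ≠ 0 ∧ ∃ ξ ∈ Ω, ⟪ξ, y⟫ = 0}

/-- The closed graph of the development over the cone. -/
def Gr (Ω : Set V) (H : V → V →L[ℝ] V) : Set (V × (V →L[ℝ] V)) := closure ((fun ξ => (ξ, H ξ)) '' Ω)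

/-- A compatible family of norms on the hyperplanes of an open convex cone. -/
structure Cn (Φ : Seminorm ℝ V) (ξ0 : V) (H : V → V →L[ℝ] V) (Ω : Set V) : Prop where
  oc : Oc Ω
  mem : ξ0 ∈ Ω
  co : ∀ ξ ∈ Ω, ContinuousAt H ξ
  un : ∀ ξ ∈ Ω, IsUnit (H ξ)
  H0 : ∀ ξ ∈ Ω, H ξ ξ = ξ0
  Hp : ∀ ξ ∈ Ω, ∀ y, ⟪ξ, y⟫ = 0 → ⟪ξ0, H ξ y⟫ = 0
  t1 : ∀ ξ ∈ Ω, ∀ ξ' ∈ Ω, ∀ y, ⟪ξ, y⟫ = 0 → ⟪ξ', y⟫ = 0 → Φ (H ξ y) = Φ (H ξ' y)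

/-- `π` is compatible with the family on the hyperplane of `ζ`. -/
structure Cp (Φ : Seminorm ℝ V) (ξ0 : V) (H : V → V →L[ℝ] V) (Ω : Set V) (ζ : V) (π : V →L[ℝ] V) :
    Prop where
  H0 : π ζ = ξ0
  Hp : ∀ y, ⟪ζ, y⟫ = 0 → ⟪ξ0, π y⟫ = 0
  t1 : ∀ ξ ∈ Ω, ∀ y, ⟪ξ, y⟫ = 0 → ⟪ζ, y⟫ = 0 → Φ (π y) = Φ (H ξ y)

/-- What the geometric part uses of the development. -/
structure Dv (Φ : Seminorm ℝ V) (ξ0 : V) (ρ : ℝ) (Γ : Set V) (H : V → V →L[ℝ] V) : Prop where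
  pos : 0 < ρ
  op : IsOpen Γ
  sc : ∀ ξ ∈ Γ, ∀ t : ℝ, 0 < t → t • ξ ∈ Γ
  nz : ∀ ξ ∈ Γ, ξ ≠ 0
  sub : ball ξ0 ρ ⊆ Γ
  d1 : ∀ ξ ∈ ball ξ0 ρ, ∀ y, ⟪ξ, y⟫ = 0 → Φ (H ξ y) = Φ y
  cn : ∀ Ω, Oc Ω → Ω ⊆ Γ → ξ0 ∈ Ω → Cn Φ ξ0 H Ω
  ii : ∀ Ω, Oc Ω → Ω ⊆ Γ → ξ0 ∈ Ω → ∀ ζ π, IsUnit π → Cp Φ ξ0 H Ω ζ π →
    (∀ y, ⟪ζ, y⟫ = 0 → y ∈ closure {y' | ⟪ζ, y'⟫ = 0 ∧ y' ∈ Wd Ω}) → ζ ∈ Γ

theorem Sp.j_apply (S : Sp E V) (l x : E) : S.j l x = S.ι x - ⟪l, x⟫ • S.e := by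
  simp [Sp.j]

theorem Sp.n_apply (S : Sp E V) (Φ : Seminorm ℝ V) (x : E) : S.n Φ x = Φ (S.ι x) := rfl

theorem Sp.ι_inj (S : Sp E V) {x : E} (h : S.ι x = 0) : x = 0 := by
  have := S.ii x x
  rw [h, inner_zero_left] at this
  exact inner_self_eq_zero.1 this.symm

theorem Sp.pr_ι (S : Sp E V) (x : E) : S.pr (S.ι x) = x := by
  have h := S.dec (S.ι x)
  rw [S.ei, zero_smul, add_zero, ← sub_eq_zero, ← map_sub] at h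
  exact sub_eq_zero.1 (S.ι_inj h)

theorem Sp.pr_e (S : Sp E V) : S.pr S.e = 0 := by
  have h := S.dec S.e
  rw [S.ee, one_smul, add_eq_right] at h
  exact S.ι_inj h

theorem Sp.pr_j (S : Sp E V) (l x : E) : S.pr (S.j l x) = x := by
  simp [S.j_apply, S.pr_ι, S.pr_e]

theorem Sp.ie (S : Sp E V) (x : E) : ⟪S.ι x, S.e⟫ = 0 := by rw [real_inner_comm, S.ei]

theorem Sp.xi_e (S : Sp E V) (l : E) : ⟪S.xi l, S.e⟫ = 1 := by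
  rw [Sp.xi, inner_add_left, S.ee, S.ie, add_zero]

theorem Sp.xi_ι (S : Sp E V) (l x : E) : ⟪S.xi l, S.ι x⟫ = ⟪l, x⟫ := by
  simp [Sp.xi, inner_add_left, S.ei, S.ii]

theorem Sp.xi_j (S : Sp E V) (l x : E) : ⟪S.xi l, S.j l x⟫ = 0 := by
  rw [S.j_apply, inner_sub_right, inner_smul_right, S.xi_ι, S.xi_e]
  ring

theorem Sp.e_j (S : Sp E V) (l x : E) : ⟪S.e, S.j l x⟫ = -⟪l, x⟫ := by
  rw [S.j_apply, inner_sub_right, inner_smul_right, S.ei, S.ee]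
  ring

theorem Sp.inner_ι (S : Sp E V) (y : V) (x : E) : ⟪y, S.ι x⟫ = ⟪S.pr y, x⟫ := by
  conv_lhs => rw [← S.dec y]
  rw [inner_add_left, inner_smul_left, S.ei, S.ii]
  simp

theorem Sp.xi_inner (S : Sp E V) (l : E) (y : V) : ⟪S.xi l, y⟫ = ⟪S.e, y⟫ + ⟪l, S.pr y⟫ := by
  rw [Sp.xi, inner_add_left, real_inner_comm y (S.ι l), S.inner_ι, real_inner_comm l]

theorem Sp.j_pr (S : Sp E V) {l : E} {y : V} (h : ⟪S.xi l, y⟫ = 0) : S.j l (S.pr y) = y := by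
  rw [S.xi_inner] at h
  have e : ⟪l, S.pr y⟫ = -⟪S.e, y⟫ := by linarith
  rw [S.j_apply, e, neg_smul, sub_neg_eq_add, S.dec]

theorem Sp.norm_ι (S : Sp E V) (x : E) : ‖S.ι x‖ = ‖x‖ := by
  rw [norm_eq_sqrt_real_inner, S.ii, ← norm_eq_sqrt_real_inner]

theorem Sp.norm_e (S : Sp E V) : ‖S.e‖ = 1 := by
  rw [norm_eq_sqrt_real_inner, S.ee, Real.sqrt_one]

theorem Sp.j_zero (S : Sp E V) (x : E) : S.j 0 x = S.ι x := by simp [S.j_apply]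

end Inner

end Pool.Agent.Lib.LB
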