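import Pool.Agent.Lib.LB.B_BIP
import Pool.Agent.Lib.LB.B_CL
import Pool.Agent.Lib.LB.B_CY1
import Pool.Agent.Lib.LB.B_CY2b
import Pool.Agent.Lib.LB.B_DIST
import Pool.Agent.Lib.LB.B_DV1
import Pool.Agent.Lib.LB.B_DV2
import Pool.Agent.Lib.LB.B_DV3
import Pool.Agent.Lib.LB.B_EU1
import Pool.Agent.Lib.LB.B_EU2
import Pool.Agent.Lib.LB.B_EX1
import Pool.Agent.Lib.LB.B_EXP
import Pool.Agent.Lib.LB.B_GDIM
import Pool.Agent.Lib.LB.B_GEO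
import Pool.Agent.Lib.LB.B_GLOB
import Pool.Agent.Lib.LB.B_INV
import Pool.Agent.Lib.LB.B_KAK
import Pool.Agent.Lib.LB.B_KG
import Pool.Agent.Lib.LB.B_LB
import Pool.Agent.Lib.LB.B_LIFT
import Pool.Agent.Lib.LB.B_LIM
import Pool.Agent.Lib.LB.B_LOC
import Pool.Agent.Lib.LB.B_MAX
import Pool.Agent.Lib.LB.B_NR
import Pool.Agent.Lib.LB.B_OBS
import Pool.Agent.Lib.LB.B_PROJ
import Pool.Agent.Lib.LB.B_RA0
import Pool.Agent.Lib.LB.B_RA1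
import Pool.Agent.Lib.LB.B_RA2
import Pool.Agent.Lib.LB.B_RAD
import Pool.Agent.Lib.LB.B_RS
import Pool.Agent.Lib.LB.B_RY1
import Pool.Agent.Lib.LB.B_RY2
import Pool.Agent.Lib.LB.B_SAT
import Pool.Agent.Lib.LB.B_SOL
import Pool.Agent.Lib.LB.B_SR
import Pool.Agent.Lib.LB.B_SYS
import Pool.Agent.Lib.LB.B_TINV
import Pool.Agent.Lib.LB.B_TR
import Pool.Agent.Lib.LB.B_ZF
import Pool.Agent.Lib.LB.B_ZORN

/-! Local Banach problem: the blocks put together. -/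

set_option autoImplicit false

namespace Pool.Agent.Lib.LB

theorem fin_geo : St_GEO :=
  have lb := bLB bLIM
  have cl := bCL bBIP bLIM lb
  bGEO bBIP bZORN (bMAX bBIP (bOBS bBIP bLIM lb cl)) (bRY1 bBIP bLIM cl) (bRY2 bBIP bLIM lb bGLOB)
    (bEXP bBIP lb (bEX1 bBIP bLIM lb cl)) (bNR bLIM) bKAK

theorem fin_hyp : St_HYP :=
  bHYP (bLOC bLIFT bDIST bRAD bZF (bTINV bINV bZF)) (bRA1 (bRA0 bPROJ bSR) bSAT) bRA2
    (bSOL bGDIM bKG bRS bSYS) bDV1 bDV2 (bDV3 bGDIM bKG) fin_geo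

universe u v

theorem fin_main : St_MAIN.{u, v} := bMAIN (bTR fin_hyp) (bEU2 bEU1) (bCY2b bCY1)

end Pool.Agent.Lib.LB
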